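import Mathlib
import Pool.Agent.Lib.CurG.Rot

/-!
# MP_d97cc3_co : the four kinds of blocks
-/

namespace Pd97

open Pool.Agent.Lib.CurG

/-- A triangular embedding of `K_m`. -/
def ZBlock (m : ℕ) : Prop :=
  ∃ (V : Type) (_ : Fintype V) (Γ : SimpleGraph V), Fintype.card V = m ∧
    (∀ u v, Γ.Adj u v ↔ u ≠ v) ∧ Nonempty (TriSys Γ)

/-- A triangular embedding of `K_m` minus the edge `w a`. -/
def OBlock (m : ℕ) : Prop :=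
  ∃ (V : Type) (_ : Fintype V) (Γ : SimpleGraph V) (w a : V), Fintype.card V = m ∧ w ≠ a ∧
    (∀ u v, Γ.Adj u v ↔ u ≠ v ∧ ¬ ((u = w ∧ v = a) ∨ (u = a ∧ v = w))) ∧ Nonempty (TriSys Γ)

/-- A triangular embedding of `K_m` with one vertex split into `y0` and `y1`. -/
def HBlock (m : ℕ) : Prop :=
  ∃ (V : Type) (_ : Fintype V) (Γ : SimpleGraph V) (y0 y1 : V), Fintype.card V = m + 1 ∧
    y0 ≠ y1 ∧ ¬ Γ.Adj y0 y1 ∧ (∀ v, v ≠ y0 → v ≠ y1 → (Γ.Adj v y0 ↔ ¬ Γ.Adj v y1)) ∧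
    (∀ u v, u ≠ y0 → u ≠ y1 → v ≠ y0 → v ≠ y1 → (Γ.Adj u v ↔ u ≠ v)) ∧
    (∃ v, Γ.Adj v y0) ∧ (∃ v, Γ.Adj v y1) ∧ Nonempty (TriSys Γ)

/-- A triangular embedding of `K_m` with one vertex split into `y0` and `y1` minus an edge `w a`,
where `w` is adjacent to `y0` and `a` is adjacent to `y1`. -/
def WBlock (m : ℕ) : Prop :=
  ∃ (V : Type) (_ : Fintype V) (Γ : SimpleGraph V) (y0 y1 w a : V), Fintype.card V = m + 1 ∧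
    y0 ≠ y1 ∧ ¬ Γ.Adj y0 y1 ∧ (∀ v, v ≠ y0 → v ≠ y1 → (Γ.Adj v y0 ↔ ¬ Γ.Adj v y1)) ∧
    (∀ u v, u ≠ y0 → u ≠ y1 → v ≠ y0 → v ≠ y1 →
      (Γ.Adj u v ↔ u ≠ v ∧ ¬ ((u = w ∧ v = a) ∨ (u = a ∧ v = w)))) ∧
    Γ.Adj w y0 ∧ Γ.Adj a y1 ∧ Nonempty (TriSys Γ)

end Pd97
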