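import Mathlib

/-!
# MP_d97cc3_co : embeddings of multigraphs in closed orientable surfaces

Definitions only.

A multigraph with vertex set `V` is given by its multiplicity function `μ : V → V → ℕ`
(`μ u v` = number of edges between `u` and `v`; all our multigraphs are loopless and connected).

`GMap V` is the usual combinatorial description of an embedding (cellular or not) of a multigraph
without isolated vertices in a closed orientable surface; `Embeds μ g` says that the multigraph `μ`
has an embedding in the surface of genus `g` in which no face is an open disc whose boundary walk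
has length 1 or 2, and `gamma μ` is the least such `g`.

`CMap V` (rotation systems, i.e. cellular embeddings) is the working notion for constructions.
-/

open scoped Classical

namespace Pd97

/-- An embedding (not necessarily cellular) of a multigraph with vertex set `V` in a closed
orientable surface, described combinatorially.
* `D` is the set of darts (edges with a direction), `rev d` is the dart `d` reversed and `src d` is
  the vertex which `d` leaves;
* `rot d` is the dart after `d` in the cyclic order of the darts leaving the vertex `src d`;
* `W` is the set of boundary walks: the cycles of `rot ∘ rev`;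
* `R` is the set of faces (the connected components of the complement of the graph); the face `r`
  is obtained from a closed orientable surface of genus `handles r` by removing as many closed
  discs as there are boundary walks `w` with `face w = r`. -/
structure GMap (V : Type) where
  D : Type
  W : Type
  R : Type
  [finD : Fintype D]
  [finW : Fintype W]
  [finR : Fintype R]
  src : D → V
  rev : Equiv.Perm D
  rot : Equiv.Perm D
  walk : D → W
  face : W → R
  handles : R → ℕ
  rev_rev : ∀ d, rev (rev d) = d
  rev_ne : ∀ d, rev d ≠ d
  src_surj : Function.Surjective src
  src_iff : ∀ d e, src d = src e ↔ rot.SameCycle d e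
  walk_surj : Function.Surjective walk
  walk_iff : ∀ d e, walk d = walk e ↔ (rot * rev).SameCycle d e
  face_surj : Function.Surjective face

attribute [instance] GMap.finD GMap.finW GMap.finR

namespace GMap

variable {V : Type}

/-- The number of edges between `u` and `v` (for `u ≠ v`). -/
noncomputable def mult (G : GMap V) (u v : V) : ℕ :=
  Nat.card {d : G.D // G.src d = u ∧ G.src (G.rev d) = v}

/-- No face is an open disc (genus 0, one boundary walk) whose boundary walk has length less
than 3. -/
def NoShort (G : GMap V) : Prop :=
  ∀ r : G.R, G.handles r = 0 → (∀ w w' : G.W, G.face w = r → G.face w' = r → w = w') →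
    3 ≤ Nat.card {d : G.D // G.face (G.walk d) = r}

/-- The Euler characteristic of the surface is `2 - 2 g`:
`|V| - |E| + ∑ r, (2 - 2 * handles r - (number of boundary walks of r)) = 2 - 2 * g`,
multiplied by two and rearranged (there are `|D| = 2 |E|` darts). -/
def HasGenus [Fintype V] (G : GMap V) (g : ℕ) : Prop :=
  2 * Fintype.card V + 4 * Fintype.card G.R + 4 * g
    = Fintype.card G.D + 4 + 4 * (∑ r : G.R, G.handles r) + 2 * Fintype.card G.W

end GMap

/-- The multigraph `μ` embeds in the closed orientable surface of genus `g` with no face bounded by
a closed walk of length 1 or 2. -/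
def Embeds {V : Type} [Fintype V] (μ : V → V → ℕ) (g : ℕ) : Prop :=
  ∃ G : GMap V, (∀ u v, G.mult u v = μ u v) ∧ G.NoShort ∧ G.HasGenus g

/-- The genus of the multigraph `μ`. -/
noncomputable def gamma {V : Type} [Fintype V] (μ : V → V → ℕ) : ℕ := sInf {g | Embeds μ g}

/-- The complete graph `K_m` with the multiplicity of every edge inside a set of `n` vertices
changed to `c`: `K m n 2 = K_m + K_n`, `K m n 0 = K_m - K_n` and `K m n 1 = K_m`. -/
def K (m n c : ℕ) : Fin m → Fin m → ℕ :=
  fun i j => if i = j then 0 else if i.1 < n ∧ j.1 < n then c else 1

/-! ### Cellular embeddings (rotation systems) -/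

/-- The number of cycles (including fixed points) of a permutation. -/
noncomputable def ncyc {α : Type} (σ : Equiv.Perm α) : ℕ :=
  Nat.card (Quotient (Equiv.Perm.SameCycle.setoid σ))

/-- A rotation system on the vertex set `V`. -/
structure CMap (V : Type) where
  D : Type
  [finD : Fintype D]
  src : D → V
  rev : Equiv.Perm D
  rot : Equiv.Perm D
  rev_rev : ∀ d, rev (rev d) = d
  rev_ne : ∀ d, rev d ≠ d
  src_surj : Function.Surjective src
  src_iff : ∀ d e, src d = src e ↔ rot.SameCycle d e

attribute [instance] CMap.finD

namespace CMap

variable {V : Type}

/-- The face permutation: the dart `phi d` follows `d` on the boundary walk of the face. -/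
def phi (G : CMap V) : Equiv.Perm G.D := G.rot * G.rev

/-- The number of faces. -/
noncomputable def nf (G : CMap V) : ℕ := ncyc G.phi

noncomputable def mult (G : CMap V) (u v : V) : ℕ :=
  Nat.card {d : G.D // G.src d = u ∧ G.src (G.rev d) = v}

/-- No face of length one or two. -/
def NoShort (G : CMap V) : Prop := ∀ d, G.phi (G.phi d) ≠ d

/-- Euler's formula. -/
def HasGenus [Fintype V] (G : CMap V) (g : ℤ) : Prop :=
  2 * (Fintype.card V : ℤ) + 2 * G.nf + 4 * g = Fintype.card G.D + 4

@[simp] theorem phi_apply (G : CMap V) (d : G.D) : G.phi d = G.rot (G.rev d) := rfl

end CMap

/-- `μ` has a cellular embedding of genus `g` with all faces of length at least three. -/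
def Cel {V : Type} [Fintype V] (μ : V → V → ℕ) (g : ℤ) : Prop :=
  ∃ G : CMap V, (∀ u v, G.mult u v = μ u v) ∧ G.NoShort ∧ G.HasGenus g

end Pd97
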