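import Mathlib
import Pool.Agent.Lib.Pd97.Defs
import Pool.Agent.Lib.CurG.Rot

/-!
# MP_d97cc3_co : cycles of permutations multiplied by a transposition
-/

namespace Pd97

open Equiv

/-- `f` labels the cycles of `σ`. -/
def Lab {D A : Type} (σ : Perm D) (f : D → A) : Prop := ∀ x y, f x = f y ↔ σ.SameCycle x y

/-- A relation which is reflexive, transitive and contains the steps contains the cycles. -/
theorem rel_of_sameCycle {D : Type} [Finite D] (π : Perm D) (R : D → D → Prop)
    (hr : ∀ x, R x x) (ht : ∀ x y z, R x y → R y z → R x z) (hs : ∀ x, R x (π x)) {x y : D}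
    (h : π.SameCycle x y) : R x y := by
  obtain ⟨n, rfl⟩ := h.exists_nat_pow_eq
  clear h
  induction n with
  | zero => exact hr x
  | succ n ih =>
    rw [pow_succ', Perm.mul_apply]
    exact ht _ _ _ ih (hs _)

theorem mul_swap_left {D : Type} [DecidableEq D] (σ : Perm D) (a b : D) :
    (σ * swap a b) a = σ b := by
  rw [Perm.mul_apply, swap_apply_left]

theorem mul_swap_right {D : Type} [DecidableEq D] (σ : Perm D) (a b : D) :
    (σ * swap a b) b = σ a := by
  rw [Perm.mul_apply, swap_apply_right]

theorem mul_swap_of_ne {D : Type} [DecidableEq D] (σ : Perm D) {a b x : D} (ha : x ≠ a)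
    (hb : x ≠ b) : (σ * swap a b) x = σ x := by
  rw [Perm.mul_apply, swap_apply_of_ne_of_ne ha hb]

theorem sameCycle_mul_swap_ab {D : Type} [Finite D] [DecidableEq D] (σ : Perm D) (a b : D)
    (h : ¬ σ.SameCycle a b) : (σ * swap a b).SameCycle a b := by
  classical
  have hex : ∃ k, 0 < k ∧ (σ ^ k) b = b := by
    obtain ⟨i, hi, _, hi'⟩ := (Perm.SameCycle.refl σ b).exists_pow_eq''
    exact ⟨i, hi, hi'⟩
  have hk0 := (Nat.find_spec hex).1
  have hkb := (Nat.find_spec hex).2
  have hmin := fun m (hm : m < Nat.find hex) => Nat.find_min hex hm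
  set k := Nat.find hex with hk
  have key : ∀ j, j < k → ((σ * swap a b) ^ (j + 1)) a = (σ ^ (j + 1)) b := by
    intro j hj
    induction j with
    | zero => rw [zero_add, pow_one, pow_one, mul_swap_left]
    | succ j ih =>
      rw [pow_succ', Perm.mul_apply, ih (by omega), pow_succ' σ (j + 1), Perm.mul_apply]
      apply mul_swap_of_ne
      · intro hja
        apply h
        have : σ.SameCycle b ((σ ^ (j + 1)) b) := ⟨((j + 1 : ℕ) : ℤ), by rw [zpow_natCast]⟩
        rw [hja] at this
        exact this.symm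
      · intro hjb
        exact hmin (j + 1) (by omega) ⟨by omega, hjb⟩
  have h1 := key (k - 1) (by omega)
  rw [Nat.sub_add_cancel (by omega), hkb] at h1
  exact ⟨(k : ℤ), by rw [zpow_natCast]; exact h1⟩

theorem sameCycle_mul_swap_of_sameCycle {D : Type} [Finite D] [DecidableEq D] (σ : Perm D)
    (a b : D) (h : ¬ σ.SameCycle a b) {x y : D} (hxy : σ.SameCycle x y) :
    (σ * swap a b).SameCycle x y := by
  have hab := sameCycle_mul_swap_ab σ a b h
  refine rel_of_sameCycle σ (fun x y => (σ * swap a b).SameCycle x y)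
    (fun x => Perm.SameCycle.refl _ x) (fun x y z h1 h2 => h1.trans h2) ?_ hxy
  intro x
  by_cases hxa : x = a
  · subst hxa
    have h1 : (σ * swap x b).SameCycle b (σ x) := by
      have := (Perm.SameCycle.refl (σ * swap x b) b)
      rw [← Perm.sameCycle_apply_right, mul_swap_right] at this
      exact this
    exact hab.trans h1
  · by_cases hxb : x = b
    · subst hxb
      have h1 : (σ * swap a x).SameCycle a (σ x) := by
        have := (Perm.SameCycle.refl (σ * swap a x) a)
        rw [← Perm.sameCycle_apply_right, mul_swap_left] at this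
        exact this
      exact hab.symm.trans h1
    · have := (Perm.SameCycle.refl (σ * swap a b) x)
      rw [← Perm.sameCycle_apply_right, mul_swap_of_ne σ hxa hxb] at this
      exact this

/-- Multiplying by a transposition of two elements of different cycles joins the two cycles. -/
theorem sameCycle_mul_swap {D : Type} [Finite D] [DecidableEq D] (σ : Perm D) (a b : D)
    (h : ¬ σ.SameCycle a b) (x y : D) :
    (σ * swap a b).SameCycle x y ↔ σ.SameCycle x y ∨ (σ.SameCycle x a ∧ σ.SameCycle y b) ∨
      (σ.SameCycle x b ∧ σ.SameCycle y a) := by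
  constructor
  · intro hxy
    refine rel_of_sameCycle (σ * swap a b)
      (fun x y => σ.SameCycle x y ∨ (σ.SameCycle x a ∧ σ.SameCycle y b) ∨
        (σ.SameCycle x b ∧ σ.SameCycle y a)) (fun x => Or.inl (Perm.SameCycle.refl _ x)) ?_ ?_ hxy
    · rintro x y z (h1 | ⟨h1, h2⟩ | ⟨h1, h2⟩) (h3 | ⟨h3, h4⟩ | ⟨h3, h4⟩)
      · exact Or.inl (h1.trans h3)
      · exact Or.inr (Or.inl ⟨h1.trans h3, h4⟩)
      · exact Or.inr (Or.inr ⟨h1.trans h3, h4⟩)
      · exact Or.inr (Or.inl ⟨h1, h3.symm.trans h2⟩)
      · exact Or.inr (Or.inl ⟨h1, h4⟩)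
      · exact Or.inl (h1.trans h4.symm)
      · exact Or.inr (Or.inr ⟨h1, h3.symm.trans h2⟩)
      · exact Or.inl (h1.trans h4.symm)
      · exact Or.inr (Or.inr ⟨h1, h4⟩)
    · intro x
      by_cases hxa : x = a
      · subst hxa
        rw [mul_swap_left]
        exact Or.inr (Or.inl ⟨Perm.SameCycle.refl _ _,
          (Perm.sameCycle_apply_left).2 (Perm.SameCycle.refl _ _)⟩)
      · by_cases hxb : x = b
        · subst hxb
          rw [mul_swap_right]
          exact Or.inr (Or.inr ⟨Perm.SameCycle.refl _ _,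
            (Perm.sameCycle_apply_left).2 (Perm.SameCycle.refl _ _)⟩)
        · rw [mul_swap_of_ne σ hxa hxb]
          exact Or.inl ((Perm.sameCycle_apply_right).2 (Perm.SameCycle.refl _ _))
  · have hab := sameCycle_mul_swap_ab σ a b h
    rintro (h1 | ⟨h1, h2⟩ | ⟨h1, h2⟩)
    · exact sameCycle_mul_swap_of_sameCycle σ a b h h1
    · exact ((sameCycle_mul_swap_of_sameCycle σ a b h h1).trans hab).trans
        (sameCycle_mul_swap_of_sameCycle σ a b h h2).symm
    · exact ((sameCycle_mul_swap_of_sameCycle σ a b h h1).trans hab.symm).trans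
        (sameCycle_mul_swap_of_sameCycle σ a b h h2).symm

/-- Multiplying by a transposition of two elements of the same cycle separates them. -/
theorem not_sameCycle_mul_swap {D : Type} [Finite D] [DecidableEq D] (σ : Perm D) (a b : D)
    (hab : a ≠ b) (h : σ.SameCycle a b) : ¬ (σ * swap a b).SameCycle a b := by
  classical
  have hex : ∃ k, 0 < k ∧ (σ ^ k) a = b := by
    obtain ⟨i, hi, _, hi'⟩ := h.exists_pow_eq''
    exact ⟨i, hi, hi'⟩
  have hk0 := (Nat.find_spec hex).1
  have hkb := (Nat.find_spec hex).2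
  have hmin := fun m (hm : m < Nat.find hex) => Nat.find_min hex hm
  set k := Nat.find hex with hk
  have hne : ∀ j, 0 < j → j ≤ k → (σ ^ j) a ≠ a := by
    intro j hj0 hjk hja
    rcases Nat.lt_or_ge j k with hlt | hge
    · refine hmin (k - j) (by omega) ⟨by omega, ?_⟩
      have h1 : (σ ^ k) a = (σ ^ (k - j)) ((σ ^ j) a) := by
        rw [← Perm.mul_apply, ← pow_add, Nat.sub_add_cancel hjk]
      rw [hja, hkb] at h1
      exact h1.symm
    · have : j = k := le_antisymm hjk hge
      rw [this, hkb] at hja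
      exact hab hja.symm
  have key : ∀ j, j < k → ((σ * swap a b) ^ (j + 1)) b = (σ ^ (j + 1)) a := by
    intro j hj
    induction j with
    | zero => rw [zero_add, pow_one, pow_one, mul_swap_right]
    | succ j ih =>
      rw [pow_succ', Perm.mul_apply, ih (by omega), pow_succ' σ (j + 1), Perm.mul_apply]
      apply mul_swap_of_ne
      · exact hne (j + 1) (by omega) (by omega)
      · intro hjb
        exact hmin (j + 1) (by omega) ⟨by omega, hjb⟩
  have hper : ((σ * swap a b) ^ k) b = b := by
    have h1 := key (k - 1) (by omega)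
    rw [Nat.sub_add_cancel (by omega), hkb] at h1
    exact h1
  intro hsc
  obtain ⟨n, hn⟩ := hsc.symm.exists_nat_pow_eq
  have hper' : ∀ m, (((σ * swap a b) ^ k) ^ m) b = b := by
    intro m
    induction m with
    | zero => rfl
    | succ m ih => rw [pow_succ', Perm.mul_apply, ih, hper]
  have h2 : ((σ * swap a b) ^ (n % k)) b = a := by
    have h3 : ((σ * swap a b) ^ n) b =
        ((σ * swap a b) ^ (n % k)) ((((σ * swap a b) ^ k) ^ (n / k)) b) := by
      rw [← pow_mul, ← Perm.mul_apply, ← pow_add, Nat.mod_add_div]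
    rw [hper', hn] at h3
    exact h3.symm
  have hlt := Nat.mod_lt n hk0
  rcases Nat.eq_zero_or_pos (n % k) with h4 | h4
  · rw [h4, pow_zero, Perm.one_apply] at h2
    exact hab h2.symm
  · have h5 := key (n % k - 1) (by omega)
    rw [Nat.sub_add_cancel (by omega), h2] at h5
    exact hne (n % k) h4 hlt.le h5.symm

theorem Lab.mul_swap {D A B : Type} [Finite D] [DecidableEq D] {σ : Perm D} {f : D → A}
    (h : Lab σ f) (a b : D) (hab : f a ≠ f b) (g : D → B)
    (hg : ∀ x y, g x = g y ↔ f x = f y ∨ (f x = f a ∧ f y = f b) ∨ (f x = f b ∧ f y = f a)) :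
    Lab (σ * swap a b) g := by
  intro x y
  have h1 : ¬ σ.SameCycle a b := fun h2 => hab ((h a b).2 h2)
  rw [hg, sameCycle_mul_swap σ a b h1, h x y, h x a, h y b, h x b, h y a]

theorem ncyc_mul_swap {D : Type} [Finite D] [DecidableEq D] (σ : Perm D) (a b : D)
    (h : ¬ σ.SameCycle a b) : ncyc (σ * swap a b) + 1 = ncyc σ := by
  classical
  unfold ncyc
  set Qσ := Quotient (Equiv.Perm.SameCycle.setoid σ)
  set Qπ := Quotient (Equiv.Perm.SameCycle.setoid (σ * swap a b))
  have hab := sameCycle_mul_swap_ab σ a b h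
  let F : Qσ → Qπ := Quotient.lift
    (fun x => (Quotient.mk (Equiv.Perm.SameCycle.setoid (σ * swap a b)) x))
    (fun x y hxy => Quotient.sound (sameCycle_mul_swap_of_sameCycle σ a b h hxy))
  let b0 : Qσ := Quotient.mk (Equiv.Perm.SameCycle.setoid σ) b
  let F' : {c : Qσ // c ≠ b0} → Qπ := fun c => F c.1
  have hbij : Function.Bijective F' := by
    constructor
    · rintro ⟨x, hx⟩ ⟨y, hy⟩ hxy
      induction x using Quotient.inductionOn with
      | h x =>
      induction y using Quotient.inductionOn with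
      | h y =>
      apply Subtype.ext
      have h1 : (σ * swap a b).SameCycle x y := Quotient.exact hxy
      have hx' : ¬ σ.SameCycle x b := fun h2 => hx (Quotient.sound h2)
      have hy' : ¬ σ.SameCycle y b := fun h2 => hy (Quotient.sound h2)
      rcases (sameCycle_mul_swap σ a b h x y).1 h1 with h2 | ⟨_, h2⟩ | ⟨h2, _⟩
      · exact Quotient.sound h2
      · exact absurd h2 hy'
      · exact absurd h2 hx'
    · intro z
      induction z using Quotient.inductionOn with
      | h z =>
      by_cases hz : σ.SameCycle z b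
      · refine ⟨⟨Quotient.mk (Equiv.Perm.SameCycle.setoid σ) a, ?_⟩, ?_⟩
        · intro h1
          exact h (Quotient.exact h1)
        · exact Quotient.sound (hab.trans (sameCycle_mul_swap_of_sameCycle σ a b h hz).symm)
      · refine ⟨⟨Quotient.mk (Equiv.Perm.SameCycle.setoid σ) z, ?_⟩, rfl⟩
        intro h1
        exact hz (Quotient.exact h1)
  have h1 : Nat.card {c : Qσ // c ≠ b0} = Nat.card Qπ := Nat.card_congr (Equiv.ofBijective F' hbij)
  have h2 : Nat.card (Option {c : Qσ // c ≠ b0}) = Nat.card Qσ :=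
    Nat.card_congr (Equiv.optionSubtypeNe b0)
  rw [← h1, ← h2, Finite.card_option]

theorem ncyc_mul_swap' {D : Type} [Finite D] [DecidableEq D] (σ : Perm D) (a b : D)
    (hab : a ≠ b) (h : σ.SameCycle a b) : ncyc (σ * swap a b) = ncyc σ + 1 := by
  have h1 := ncyc_mul_swap (σ * swap a b) a b (not_sameCycle_mul_swap σ a b hab h)
  rw [mul_assoc, swap_mul_self, mul_one] at h1
  exact h1.symm

theorem sumCongr_zpow {D E : Type} (σ : Perm D) (τ : Perm E) (n : ℤ) :
    (Perm.sumCongr σ τ) ^ n = Perm.sumCongr (σ ^ n) (τ ^ n) := by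
  have h := map_zpow (Perm.sumCongrHom D E) (σ, τ) n
  exact h.symm

theorem sameCycle_sumCongr_inl {D E : Type} (σ : Perm D) (τ : Perm E) (x y : D) :
    (Perm.sumCongr σ τ).SameCycle (Sum.inl x) (Sum.inl y) ↔ σ.SameCycle x y := by
  constructor
  · rintro ⟨n, hn⟩
    rw [sumCongr_zpow] at hn
    exact ⟨n, Sum.inl_injective hn⟩
  · rintro ⟨n, hn⟩
    refine ⟨n, ?_⟩
    rw [sumCongr_zpow]
    exact congrArg Sum.inl hn

theorem sameCycle_sumCongr_inr {D E : Type} (σ : Perm D) (τ : Perm E) (x y : E) :
    (Perm.sumCongr σ τ).SameCycle (Sum.inr x) (Sum.inr y) ↔ τ.SameCycle x y := by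
  constructor
  · rintro ⟨n, hn⟩
    rw [sumCongr_zpow] at hn
    exact ⟨n, Sum.inr_injective hn⟩
  · rintro ⟨n, hn⟩
    refine ⟨n, ?_⟩
    rw [sumCongr_zpow]
    exact congrArg Sum.inr hn

theorem not_sameCycle_sumCongr {D E : Type} (σ : Perm D) (τ : Perm E) (x : D) (y : E) :
    ¬ (Perm.sumCongr σ τ).SameCycle (Sum.inl x) (Sum.inr y) := by
  rintro ⟨n, hn⟩
  rw [sumCongr_zpow] at hn
  exact Sum.inl_ne_inr hn

theorem not_sameCycle_sumCongr' {D E : Type} (σ : Perm D) (τ : Perm E) (x : D) (y : E) :
    ¬ (Perm.sumCongr σ τ).SameCycle (Sum.inr y) (Sum.inl x) :=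
  fun h => not_sameCycle_sumCongr σ τ x y h.symm

theorem ncyc_sumCongr {D E : Type} [Finite D] [Finite E] (σ : Perm D) (τ : Perm E) :
    ncyc (Perm.sumCongr σ τ) = ncyc σ + ncyc τ := by
  unfold ncyc
  rw [← Nat.card_sum]
  symm
  refine Nat.card_congr (Equiv.ofBijective (Sum.elim
    (Quotient.lift (fun x => Quotient.mk (Equiv.Perm.SameCycle.setoid (Perm.sumCongr σ τ))
      (Sum.inl x)) (fun x y h => Quotient.sound ((sameCycle_sumCongr_inl σ τ x y).2 h)))
    (Quotient.lift (fun x => Quotient.mk (Equiv.Perm.SameCycle.setoid (Perm.sumCongr σ τ))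
      (Sum.inr x)) (fun x y h => Quotient.sound ((sameCycle_sumCongr_inr σ τ x y).2 h)))) ?_)
  constructor
  · rintro (x | x) (y | y) hxy
    · induction x using Quotient.inductionOn with
      | h x =>
      induction y using Quotient.inductionOn with
      | h y =>
      exact congrArg Sum.inl (Quotient.sound
        ((sameCycle_sumCongr_inl σ τ x y).1 (Quotient.exact hxy)))
    · induction x using Quotient.inductionOn with
      | h x =>
      induction y using Quotient.inductionOn with
      | h y =>
      exact absurd (Quotient.exact hxy) (not_sameCycle_sumCongr σ τ x y)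
    · induction x using Quotient.inductionOn with
      | h x =>
      induction y using Quotient.inductionOn with
      | h y =>
      exact absurd (Quotient.exact hxy) (not_sameCycle_sumCongr' σ τ y x)
    · induction x using Quotient.inductionOn with
      | h x =>
      induction y using Quotient.inductionOn with
      | h y =>
      exact congrArg Sum.inr (Quotient.sound
        ((sameCycle_sumCongr_inr σ τ x y).1 (Quotient.exact hxy)))
  · intro z
    induction z using Quotient.inductionOn with
    | h z =>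
    rcases z with x | x
    · exact ⟨Sum.inl (Quotient.mk _ x), rfl⟩
    · exact ⟨Sum.inr (Quotient.mk _ x), rfl⟩

/-- All cycles of length three. -/
theorem three_mul_ncyc {D : Type} [Fintype D] (σ : Perm D) (h1 : ∀ x, σ x ≠ x)
    (h3 : ∀ x, σ (σ (σ x)) = x) : 3 * ncyc σ = Fintype.card D := by
  rw [← Nat.card_eq_fintype_card]
  exact Pool.Agent.Lib.CurG.three_mul_card_eq σ h1 h3

/-- More generally the cycles of length two of the product are old cycles of length two. -/
theorem short_mul_swap {D : Type} [Finite D] [DecidableEq D] (σ : Perm D) (a b : D)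
    (h : ¬ σ.SameCycle a b) (h1 : ∀ x, σ x ≠ x) (x : D)
    (hx : (σ * swap a b) ((σ * swap a b) x) = x) :
    σ (σ x) = x ∧ ¬ σ.SameCycle a x ∧ ¬ σ.SameCycle b x := by
  have hab := sameCycle_mul_swap_ab σ a b h
  have hne : a ≠ b := fun h2 => h (h2 ▸ Perm.SameCycle.refl _ _)
  have htwo : ∀ y, (σ * swap a b).SameCycle x y → y = x ∨ y = (σ * swap a b) x := by
    intro y hy
    obtain ⟨n, rfl⟩ := hy.exists_nat_pow_eq
    clear hy
    induction n with
    | zero => exact Or.inl rfl
    | succ n ih =>
      rw [pow_succ', Perm.mul_apply]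
      rcases ih with h2 | h2
      · rw [h2]
        exact Or.inr rfl
      · rw [h2, hx]
        exact Or.inl rfl
  have key : ¬ (σ * swap a b).SameCycle x a := by
    intro hxa
    have h2 := htwo a hxa
    have h3 := htwo b (hxa.trans hab)
    have h4 := htwo (σ a) (hxa.trans (sameCycle_mul_swap_of_sameCycle σ a b h
      ((Perm.sameCycle_apply_right).2 (Perm.SameCycle.refl _ _))))
    have h5 : σ a ≠ a := h1 a
    have h6 : σ a ≠ b := by
      intro h7
      exact h (by rw [← h7]; exact (Perm.sameCycle_apply_right).2 (Perm.SameCycle.refl _ _))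
    rcases h2 with h2 | h2 <;> rcases h3 with h3 | h3 <;> rcases h4 with h4 | h4
    · exact hne (h2.trans h3.symm)
    · exact hne (h2.trans h3.symm)
    · exact h5 (h4.trans h2.symm)
    · exact h6 (h4.trans h3.symm)
    · exact h6 (h4.trans h3.symm)
    · exact h5 (h4.trans h2.symm)
    · exact hne (h2.trans h3.symm)
    · exact hne (h2.trans h3.symm)
  have ha : ¬ σ.SameCycle a x := fun h2 =>
    key (sameCycle_mul_swap_of_sameCycle σ a b h h2).symm
  have hb : ¬ σ.SameCycle b x := fun h2 =>
    key ((sameCycle_mul_swap_of_sameCycle σ a b h h2).symm.trans hab.symm)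
  have hxa : x ≠ a := fun h2 => ha (h2 ▸ Perm.SameCycle.refl _ _)
  have hxb : x ≠ b := fun h2 => hb (h2 ▸ Perm.SameCycle.refl _ _)
  have hxa' : σ x ≠ a := by
    intro h2
    apply ha
    rw [← h2]
    exact (Perm.sameCycle_apply_left).2 (Perm.SameCycle.refl _ _)
  have hxb' : σ x ≠ b := by
    intro h2
    apply hb
    rw [← h2]
    exact (Perm.sameCycle_apply_left).2 (Perm.SameCycle.refl _ _)
  refine ⟨?_, ha, hb⟩
  rw [mul_swap_of_ne σ hxa hxb, mul_swap_of_ne σ hxa' hxb'] at hx
  exact hx

/-- If all the cycles of length two meet the cycles of `a` and `b`, then joining the cycles of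
`a` and `b` leaves no cycle of length at most two. -/
theorem noshort_mul_swap {D : Type} [Finite D] [DecidableEq D] (σ : Perm D) (a b : D)
    (h : ¬ σ.SameCycle a b) (h1 : ∀ x, σ x ≠ x)
    (h2 : ∀ x, σ (σ x) = x → σ.SameCycle a x ∨ σ.SameCycle b x) (x : D) :
    (σ * swap a b) ((σ * swap a b) x) ≠ x := by
  intro hx
  obtain ⟨h3, h4, h5⟩ := short_mul_swap σ a b h h1 x hx
  rcases h2 x h3 with h6 | h6
  · exact h4 h6
  · exact h5 h6

theorem ne_mul_swap {D : Type} [DecidableEq D] (σ : Perm D) (a b : D)
    (h : ¬ σ.SameCycle a b) (h1 : ∀ x, σ x ≠ x) (x : D) : (σ * swap a b) x ≠ x := by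
  by_cases hxa : x = a
  · subst hxa
    rw [mul_swap_left]
    intro h2
    apply h
    have : σ.SameCycle (σ b) b := (Perm.sameCycle_apply_left).2 (Perm.SameCycle.refl _ _)
    rw [h2] at this
    exact this
  · by_cases hxb : x = b
    · subst hxb
      rw [mul_swap_right]
      intro h2
      apply h
      have : σ.SameCycle a (σ a) := (Perm.sameCycle_apply_right).2 (Perm.SameCycle.refl _ _)
      rw [h2] at this
      exact this
    · rw [mul_swap_of_ne σ hxa hxb]
      exact h1 x

end Pd97
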