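import Mathlib
import Pool.Agent.Lib.Pd97.Perm

/-!
# MP_d97cc3_co : merging vertices of embeddings

The state of a merging process: darts `D` with original `tail` and `head` vertices, the current
face permutation `phi`, and `f` = the current names of the original vertices. `Good` says that
there is a dart reversal `rev` for which the vertices are exactly the cycles of the rotation
`phi * rev`.
-/

namespace Pd97

open Equiv

def Good {D V A : Type} (tail head : D → V) (phi : Perm D) (f : V → A) : Prop :=
  ∃ rev : Perm D, (∀ x, rev (rev x) = x) ∧ (∀ x, rev x ≠ x) ∧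
    (∀ x, f (tail (rev x)) = f (head x)) ∧ Lab (phi * rev) (fun x => f (tail x))

variable {D V A B : Type} {tail head : D → V} {phi : Perm D} {f : V → A}

/-- Only the kernel of the naming matters. -/
theorem Good.congr (h : Good tail head phi f) (g : V → B) (hg : ∀ u v, g u = g v ↔ f u = f v) :
    Good tail head phi g := by
  obtain ⟨rev, h1, h2, h3, h4⟩ := h
  exact ⟨rev, h1, h2, fun x => (hg _ _).2 (h3 x), fun x y => (hg _ _).trans (h4 x y)⟩

namespace GoodAux

theorem inv_eq {D : Type} {rev : Perm D} (h1 : ∀ x, rev (rev x) = x) : rev⁻¹ = rev := by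
  ext x
  rw [Perm.inv_eq_iff_eq]
  exact (h1 x).symm

theorem swap_rev {D : Type} [DecidableEq D] {rev : Perm D} (h1 : ∀ x, rev (rev x) = x) (a b : D) :
    swap a b * rev = rev * swap (rev a) (rev b) := by
  rw [Equiv.swap_mul_eq_mul_swap, inv_eq h1]

end GoodAux

/-- A single tube: join two faces (or cut one face in two) and merge two vertices. -/
theorem Good.single [Finite D] [DecidableEq D] (h : Good tail head phi f) (x1 x2 : D)
    (hne : f (head x1) ≠ f (head x2)) (g : V → B)
    (hg : ∀ u v, g u = g v ↔ f u = f v ∨ (f u = f (head x1) ∧ f v = f (head x2)) ∨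
      (f u = f (head x2) ∧ f v = f (head x1))) :
    Good tail head (phi * swap x1 x2) g := by
  obtain ⟨rev, h1, h2, h3, h4⟩ := h
  refine ⟨rev, h1, h2, fun x => (hg _ _).2 (Or.inl (h3 x)), ?_⟩
  rw [mul_assoc, GoodAux.swap_rev h1, ← mul_assoc]
  refine h4.mul_swap (rev x1) (rev x2) ?_ _ ?_
  · show f (tail (rev x1)) ≠ f (tail (rev x2))
    rw [h3, h3]
    exact hne
  · intro x y
    show g (tail x) = g (tail y) ↔ f (tail x) = f (tail y) ∨
      (f (tail x) = f (tail (rev x1)) ∧ f (tail y) = f (tail (rev x2))) ∨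
      (f (tail x) = f (tail (rev x2)) ∧ f (tail y) = f (tail (rev x1)))
    rw [h3, h3]
    exact hg _ _

/-- Slit gluing: cut along the edges `d` and `e` and glue crosswise. The faces do not change. -/
theorem Good.slit [Finite D] [DecidableEq D] (h : Good tail head phi f) (d e : D)
    (h1 : f (tail d) ≠ f (tail e)) (h2 : f (head d) ≠ f (head e))
    (h3 : f (head d) ≠ f (tail d)) (h4 : f (head d) ≠ f (tail e))
    (h5 : f (head e) ≠ f (tail d)) (h6 : f (head e) ≠ f (tail e)) (g : V → B)
    (hg : ∀ u v, g u = g v ↔ f u = f v ∨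
      (f u = f (tail d) ∧ f v = f (tail e)) ∨ (f u = f (tail e) ∧ f v = f (tail d)) ∨
      (f u = f (head d) ∧ f v = f (head e)) ∨ (f u = f (head e) ∧ f v = f (head d))) :
    Good tail head phi g := by
  classical
  obtain ⟨rev, r1, r2, r3, r4⟩ := h
  have hde : d ≠ e := fun hh => h1 (by rw [hh])
  have hred : rev e ≠ d := fun hh => h5 (by rw [← r3 e, hh])
  have hrde : rev d ≠ e := fun hh => h4 (by rw [← r3 d, hh])
  have hred' : rev d ≠ rev e := fun hh => hde (rev.injective hh)
  refine ⟨swap d e * rev * swap d e, ?_, ?_, ?_, ?_⟩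
  · intro x
    simp only [Perm.mul_apply, swap_apply_self, r1]
  · intro x hx
    simp only [Perm.mul_apply] at hx
    have h7 := congrArg (swap d e) hx
    rw [swap_apply_self] at h7
    exact r2 _ h7
  · intro x
    simp only [Perm.mul_apply]
    by_cases hxd : x = d
    · rw [hxd, swap_apply_left, swap_apply_of_ne_of_ne hred (r2 e)]
      exact (hg _ _).2 (Or.inr (Or.inr (Or.inr (Or.inr ⟨r3 e, rfl⟩))))
    by_cases hxe : x = e
    · rw [hxe, swap_apply_right, swap_apply_of_ne_of_ne (r2 d) hrde]
      exact (hg _ _).2 (Or.inr (Or.inr (Or.inr (Or.inl ⟨r3 d, rfl⟩))))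
    rw [swap_apply_of_ne_of_ne hxd hxe]
    by_cases h7 : rev x = d
    · have h8 : f (head x) = f (tail d) := by rw [← r3 x, h7]
      rw [h7, swap_apply_left]
      exact (hg _ _).2 (Or.inr (Or.inr (Or.inl ⟨rfl, h8⟩)))
    by_cases h9 : rev x = e
    · have h8 : f (head x) = f (tail e) := by rw [← r3 x, h9]
      rw [h9, swap_apply_right]
      exact (hg _ _).2 (Or.inr (Or.inl ⟨rfl, h8⟩))
    rw [swap_apply_of_ne_of_ne h7 h9]
    exact (hg _ _).2 (Or.inl (r3 x))
  · have hrot : phi * (swap d e * rev * swap d e) =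
        phi * rev * swap (rev d) (rev e) * swap d e := by
      rw [GoodAux.swap_rev r1]
      simp only [mul_assoc]
    rw [hrot]
    obtain ⟨g1, hg1⟩ : ∃ g1 : V → A, g1 = fun v => if f v = f (head e) then f (head d) else f v :=
      ⟨_, rfl⟩
    have k1 : ∀ u v, g1 u = g1 v ↔ f u = f v ∨ (f u = f (head d) ∧ f v = f (head e)) ∨
        (f u = f (head e) ∧ f v = f (head d)) := by
      intro u v
      rw [hg1]
      show (if f u = f (head e) then f (head d) else f u) =
        (if f v = f (head e) then f (head d) else f v) ↔ _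
      by_cases hu : f u = f (head e)
      · rw [if_pos hu]
        by_cases hv : f v = f (head e)
        · rw [if_pos hv]
          exact ⟨fun _ => Or.inl (hu.trans hv.symm), fun _ => rfl⟩
        · rw [if_neg hv]
          constructor
          · intro hh
            exact Or.inr (Or.inr ⟨hu, hh.symm⟩)
          · rintro (hh | ⟨hh, hh'⟩ | ⟨hh, hh'⟩)
            · exact absurd (hh.symm.trans hu) hv
            · exact absurd hh' hv
            · exact hh'.symm
      · rw [if_neg hu]
        by_cases hv : f v = f (head e)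
        · rw [if_pos hv]
          constructor
          · intro hh
            exact Or.inr (Or.inl ⟨hh, hv⟩)
          · rintro (hh | ⟨hh, hh'⟩ | ⟨hh, hh'⟩)
            · exact absurd (hh.trans hv) hu
            · exact hh
            · exact absurd hh hu
        · rw [if_neg hv]
          constructor
          · intro hh
            exact Or.inl hh
          · rintro (hh | ⟨hh, hh'⟩ | ⟨hh, hh'⟩)
            · exact hh
            · exact absurd hh' hv
            · exact absurd hh hu
    have k2 : Lab (phi * rev * swap (rev d) (rev e)) (fun x => g1 (tail x)) := by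
      refine r4.mul_swap (rev d) (rev e) ?_ _ ?_
      · show f (tail (rev d)) ≠ f (tail (rev e))
        rw [r3, r3]
        exact h2
      · intro x y
        show g1 (tail x) = g1 (tail y) ↔ f (tail x) = f (tail y) ∨
          (f (tail x) = f (tail (rev d)) ∧ f (tail y) = f (tail (rev e))) ∨
          (f (tail x) = f (tail (rev e)) ∧ f (tail y) = f (tail (rev d)))
        rw [r3, r3]
        exact k1 _ _
    have k3 : ∀ u, g1 u = g1 (tail d) ↔ f u = f (tail d) := by
      intro u
      rw [k1]
      constructor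
      · rintro (hh | ⟨hh, hh'⟩ | ⟨hh, hh'⟩)
        · exact hh
        · exact absurd hh'.symm h5
        · exact absurd hh'.symm h3
      · exact Or.inl
    have k4 : ∀ u, g1 u = g1 (tail e) ↔ f u = f (tail e) := by
      intro u
      rw [k1]
      constructor
      · rintro (hh | ⟨hh, hh'⟩ | ⟨hh, hh'⟩)
        · exact hh
        · exact absurd hh'.symm h6
        · exact absurd hh'.symm h4
      · exact Or.inl
    refine k2.mul_swap d e ?_ _ ?_
    · intro hh
      exact h1 ((k3 _).1 hh.symm).symm
    · intro x y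
      show g (tail x) = g (tail y) ↔ g1 (tail x) = g1 (tail y) ∨
          (g1 (tail x) = g1 (tail d) ∧ g1 (tail y) = g1 (tail e)) ∨
          (g1 (tail x) = g1 (tail e) ∧ g1 (tail y) = g1 (tail d))
      rw [hg, k1, k3, k3, k4, k4]
      tauto

/-- `R` is the set of vertices which are not yet merged with their centre. -/
noncomputable def fR (cen : V → V) (R : Set V) (v : V) : V := by
  classical exact if v ∈ R then v else cen v

namespace GoodAux

theorem fR_single {cen : V → V} (hcen : ∀ v, cen (cen v) = cen v) {R : Set V} {p : V}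
    (hp : p ∉ R) (hpc : cen p ≠ p) (v : V) :
    (fR cen (insert p R) v = p ∧ fR cen R v = cen p) ∨
      (fR cen (insert p R) v ≠ p ∧ fR cen R v = fR cen (insert p R) v) := by
  unfold fR
  by_cases hv : v ∈ R
  · right
    have h1 : v ∈ insert p R := Set.mem_insert_of_mem _ hv
    simp only [if_pos hv, if_pos h1]
    exact ⟨fun hh => hp (hh ▸ hv), trivial⟩
  · by_cases hvp : v = p
    · left
      subst hvp
      simp only [if_neg hv, if_pos (Set.mem_insert v R)]
      exact ⟨trivial, trivial⟩
    · right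
      have h1 : v ∉ insert p R := fun hh => (Set.mem_insert_iff.1 hh).elim hvp hv
      simp only [if_neg hv, if_neg h1]
      refine ⟨fun hh => hpc ?_, trivial⟩
      rw [← hh, hcen]

theorem merge_iff {V : Type} {p q cp cq fu fv gu gv : V} (h1 : p ≠ q) (h2 : p ≠ cp) (h3 : p ≠ cq)
    (h4 : q ≠ cp) (h5 : q ≠ cq) (h6 : cp ≠ cq)
    (ku : (fu = p ∧ gu = cp) ∨ (fu = q ∧ gu = cq) ∨ (fu ≠ p ∧ fu ≠ q ∧ gu = fu))
    (kv : (fv = p ∧ gv = cp) ∨ (fv = q ∧ gv = cq) ∨ (fv ≠ p ∧ fv ≠ q ∧ gv = fv)) :
    gu = gv ↔ fu = fv ∨ (fu = p ∧ fv = cp) ∨ (fu = cp ∧ fv = p) ∨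
      (fu = q ∧ fv = cq) ∨ (fu = cq ∧ fv = q) := by
  grind

end GoodAux

theorem Good.single_leaf [Finite D] [DecidableEq D] (cen : V → V) (hcen : ∀ v, cen (cen v) = cen v)
    (R : Set V) (hR : ∀ r ∈ R, cen r ≠ r) (p : V) (hp : p ∉ R) (hpc : cen p ≠ p)
    (h : Good tail head phi (fR cen (insert p R))) (x1 x2 : D)
    (hx1 : fR cen (insert p R) (head x1) = p) (hx2 : fR cen (insert p R) (head x2) = cen p) :
    Good tail head (phi * swap x1 x2) (fR cen R) := by
  refine h.single x1 x2 ?_ _ ?_
  · rw [hx1, hx2]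
    exact hpc.symm
  · intro u v
    rw [hx1, hx2]
    rcases GoodAux.fR_single hcen hp hpc u with ⟨a1, a2⟩ | ⟨a1, a2⟩ <;>
    rcases GoodAux.fR_single hcen hp hpc v with ⟨b1, b2⟩ | ⟨b1, b2⟩
    · rw [a1, a2, b1, b2]
      exact ⟨fun _ => Or.inl rfl, fun _ => rfl⟩
    · rw [a1, a2, b2]
      constructor
      · intro hh
        exact Or.inr (Or.inl ⟨rfl, hh.symm⟩)
      · rintro (hh | ⟨_, hh⟩ | ⟨hh, _⟩)
        · exact absurd hh.symm b1
        · exact hh.symm
        · exact absurd hh.symm hpc
    · rw [a2, b1, b2]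
      constructor
      · intro hh
        exact Or.inr (Or.inr ⟨hh, rfl⟩)
      · rintro (hh | ⟨hh, _⟩ | ⟨hh, _⟩)
        · exact absurd hh a1
        · exact absurd hh a1
        · exact hh
    · rw [a2, b2]
      constructor
      · intro hh
        exact Or.inl hh
      · rintro (hh | ⟨hh, _⟩ | ⟨_, hh⟩)
        · exact hh
        · exact absurd hh a1
        · exact absurd hh b1

/-- the tails of `d`, `e` are the leaf `p` and its centre (in one order or the other), the heads are
the leaf `q` and its centre. -/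
theorem Good.slit_leaf [Finite D] [DecidableEq D] (cen : V → V) (hcen : ∀ v, cen (cen v) = cen v)
    (R : Set V) (hR : ∀ r ∈ R, cen r ≠ r) (p q : V) (hp : p ∉ R) (hq : q ∉ R)
    (hpc : cen p ≠ p) (hqc : cen q ≠ q) (hpq : cen p ≠ cen q)
    (h : Good tail head phi (fR cen (insert p (insert q R)))) (d e : D)
    (ht : (fR cen (insert p (insert q R)) (tail d) = p ∧
        fR cen (insert p (insert q R)) (tail e) = cen p) ∨
      (fR cen (insert p (insert q R)) (tail d) = cen p ∧
        fR cen (insert p (insert q R)) (tail e) = p))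
    (hh : (fR cen (insert p (insert q R)) (head d) = q ∧
        fR cen (insert p (insert q R)) (head e) = cen q) ∨
      (fR cen (insert p (insert q R)) (head d) = cen q ∧
        fR cen (insert p (insert q R)) (head e) = q)) :
    Good tail head phi (fR cen R) := by
  have hpq' : p ≠ q := fun hh => hpq (by rw [hh])
  have hpcq : p ≠ cen q := fun hh => hpq (by rw [hh, hcen])
  have hqcp : q ≠ cen p := fun hh => hpq (by rw [hh, hcen])
  have hp' : p ∉ insert q R := fun hh => (Set.mem_insert_iff.1 hh).elim hpq' hp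
  -- the two merging steps
  have key : ∀ v, (fR cen (insert p (insert q R)) v = p ∧ fR cen R v = cen p) ∨
      (fR cen (insert p (insert q R)) v = q ∧ fR cen R v = cen q) ∨
      (fR cen (insert p (insert q R)) v ≠ p ∧ fR cen (insert p (insert q R)) v ≠ q ∧
        fR cen R v = fR cen (insert p (insert q R)) v) := by
    intro v
    rcases GoodAux.fR_single hcen hp' hpc v with ⟨a1, a2⟩ | ⟨a1, a2⟩ <;>
    rcases GoodAux.fR_single hcen hq hqc v with ⟨b1, b2⟩ | ⟨b1, b2⟩
    · exact absurd (b1.symm.trans a2) hqcp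
    · left
      exact ⟨a1, b2.trans a2⟩
    · right
      left
      exact ⟨a2.symm.trans b1, b2⟩
    · right
      right
      exact ⟨a1, a2 ▸ b1, b2.trans a2⟩
  have hg : ∀ u v, fR cen R u = fR cen R v ↔
      fR cen (insert p (insert q R)) u = fR cen (insert p (insert q R)) v ∨
      (fR cen (insert p (insert q R)) u = p ∧ fR cen (insert p (insert q R)) v = cen p) ∨
      (fR cen (insert p (insert q R)) u = cen p ∧ fR cen (insert p (insert q R)) v = p) ∨
      (fR cen (insert p (insert q R)) u = q ∧ fR cen (insert p (insert q R)) v = cen q) ∨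
      (fR cen (insert p (insert q R)) u = cen q ∧ fR cen (insert p (insert q R)) v = q) :=
    fun u v => GoodAux.merge_iff hpq' hpc.symm hpcq hqcp hqc.symm hpq (key u) (key v)
  rcases ht with ⟨t1, t2⟩ | ⟨t1, t2⟩ <;> rcases hh with ⟨g1, g2⟩ | ⟨g1, g2⟩
  · refine h.slit d e ?_ ?_ ?_ ?_ ?_ ?_ _ ?_
    · rw [t1, t2]; exact hpc.symm
    · rw [g1, g2]; exact hqc.symm
    · rw [g1, t1]; exact hpq'.symm
    · rw [g1, t2]; exact hqcp
    · rw [g2, t1]; exact hpcq.symm
    · rw [g2, t2]; exact hpq.symm
    · intro u v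
      rw [hg, t1, t2, g1, g2]
  · refine h.slit d e ?_ ?_ ?_ ?_ ?_ ?_ _ ?_
    · rw [t1, t2]; exact hpc.symm
    · rw [g1, g2]; exact hqc
    · rw [g1, t1]; exact hpcq.symm
    · rw [g1, t2]; exact hpq.symm
    · rw [g2, t1]; exact hpq'.symm
    · rw [g2, t2]; exact hqcp
    · intro u v
      rw [hg, t1, t2, g1, g2]
      tauto
  · refine h.slit d e ?_ ?_ ?_ ?_ ?_ ?_ _ ?_
    · rw [t1, t2]; exact hpc
    · rw [g1, g2]; exact hqc.symm
    · rw [g1, t1]; exact hqcp
    · rw [g1, t2]; exact hpq'.symm
    · rw [g2, t1]; exact hpq.symm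
    · rw [g2, t2]; exact hpcq.symm
    · intro u v
      rw [hg, t1, t2, g1, g2]
      tauto
  · refine h.slit d e ?_ ?_ ?_ ?_ ?_ ?_ _ ?_
    · rw [t1, t2]; exact hpc
    · rw [g1, g2]; exact hqc
    · rw [g1, t1]; exact hpq.symm
    · rw [g1, t2]; exact hpcq.symm
    · rw [g2, t1]; exact hqcp
    · rw [g2, t2]; exact hpq'.symm
    · intro u v
      rw [hg, t1, t2, g1, g2]
      tauto

end Pd97
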