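import Mathlib
import Pool.Agent.Lib.Pd97.Good

/-!
# MP_d97cc3_co : from the merging process to cellular embeddings
-/

namespace Pd97

open Equiv

theorem cel_of_good {V L D : Type} [Fintype L] [Fintype D] {tail head : D → V} {phi : Perm D}
    {f : V → L} (hs : ∀ l, ∃ x, f (tail x) = l) (h : Good tail head phi f)
    (hns : ∀ x, phi (phi x) ≠ x) (μ : L → L → ℕ)
    (hμ : ∀ u v, Nat.card {x : D // f (tail x) = u ∧ f (head x) = v} = μ u v) (g : ℤ)
    (hg : 2 * (Fintype.card L : ℤ) + 2 * ncyc phi + 4 * g = Fintype.card D + 4) : Cel μ g := by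
  obtain ⟨rev, hr1, hr2, hr3, hr4⟩ := h
  let G : CMap L :=
    { D := D
      src := fun x => f (tail x)
      rev := rev
      rot := phi * rev
      rev_rev := hr1
      rev_ne := hr2
      src_surj := hs
      src_iff := hr4 }
  have hphi : G.phi = phi := by
    ext x
    change phi (rev (rev x)) = phi x
    rw [hr1]
  refine ⟨G, fun u v => ?_, fun d => ?_, ?_⟩
  · rw [← hμ u v]
    change Nat.card {d : D // f (tail d) = u ∧ f (tail (rev d)) = v} = _
    simp only [hr3]
  · rw [hphi]
    exact hns d
  · change 2 * (Fintype.card L : ℤ) + 2 * (ncyc G.phi : ℤ) + 4 * g = (Fintype.card D : ℤ) + 4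
    rw [hphi]
    exact hg

theorem Cel.relabel {L L' : Type} [Fintype L] [Fintype L'] {μ : L → L → ℕ} {g : ℤ} (e : L ≃ L')
    (h : Cel μ g) : Cel (fun u v => μ (e.symm u) (e.symm v)) g := by
  obtain ⟨G, h1, h2, h3⟩ := h
  let G' : CMap L' :=
    { D := G.D
      src := fun x => e (G.src x)
      rev := G.rev
      rot := G.rot
      rev_rev := G.rev_rev
      rev_ne := G.rev_ne
      src_surj := e.surjective.comp G.src_surj
      src_iff := fun x y => by
        rw [e.injective.eq_iff]
        exact G.src_iff x y }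
  refine ⟨G', fun u v => ?_, h2, ?_⟩
  · change Nat.card {d : G.D // e (G.src d) = u ∧ e (G.src (G.rev d)) = v} =
      μ (e.symm u) (e.symm v)
    rw [← h1]
    change _ = Nat.card {d : G.D // G.src d = e.symm u ∧ G.src (G.rev d) = e.symm v}
    simp only [Equiv.eq_symm_apply]
  · change 2 * (Fintype.card L' : ℤ) + 2 * (ncyc G.phi : ℤ) + 4 * g = (Fintype.card G.D : ℤ) + 4
    rw [← Fintype.card_congr e]
    exact h3

/-- An equivalence with `Fin m` which maps `N` onto the first `n` elements. -/
theorem exists_equiv_fin {L : Type} [Fintype L] (N : L → Prop) {m n : ℕ}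
    (hm : Fintype.card L = m) (hn : Nat.card {l // N l} = n) :
    ∃ e : L ≃ Fin m, ∀ l, (e l).1 < n ↔ N l := by
  classical
  let e0 : L ≃ Fin m := Fintype.equivFinOfCardEq hm
  have hnm : n ≤ m := by
    rw [← hn, ← hm, Nat.card_eq_fintype_card]
    exact Fintype.card_subtype_le _
  let e1 : {l // N l} ≃ Fin n := (Finite.equivFin _).trans (finCongr hn)
  let e2 : Fin n ≃ {i : Fin m // i.1 < n} :=
    { toFun := fun j => ⟨⟨j.1, by omega⟩, j.2⟩
      invFun := fun i => ⟨i.1.1, i.2⟩
      left_inv := fun j => rfl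
      right_inv := fun i => rfl }
  let e3 : {i : Fin m // N (e0.symm i)} ≃ {l // N l} :=
    { toFun := fun i => ⟨e0.symm i.1, i.2⟩
      invFun := fun l => ⟨e0 l.1, by rw [Equiv.symm_apply_apply]; exact l.2⟩
      left_inv := fun i => by simp
      right_inv := fun l => by simp }
  let e4 : {i : Fin m // N (e0.symm i)} ≃ {i : Fin m // i.1 < n} := e3.trans (e1.trans e2)
  refine ⟨e0.trans (e4.extendSubtype), fun l => ⟨fun h => ?_, fun h => ?_⟩⟩
  · by_contra hcon
    exact e4.extendSubtype_not_mem (e0 l) (by rwa [Equiv.symm_apply_apply]) h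
  · exact e4.extendSubtype_mem (e0 l) (by rwa [Equiv.symm_apply_apply])

/-- The conclusion of the merging process; `t` is the slack `∑ (length of the face - 3)`. -/
theorem cel_K_of_good {V L D : Type} [Fintype L] [Fintype D] {tail head : D → V} {phi : Perm D}
    {f : V → L} (N : L → Prop) (m n : ℕ) (hm : Fintype.card L = m)
    (hn : Nat.card {l // N l} = n) (hm2 : 2 ≤ m) (h : Good tail head phi f)
    (hns : ∀ x, phi (phi x) ≠ x)
    (hμ : ∀ u v, u ≠ v → Nat.card {x : D // f (tail x) = u ∧ f (head x) = v} =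
      @ite ℕ (N u ∧ N v) (Classical.propDecidable _) 2 1)
    (hμ' : ∀ u, Nat.card {x : D // f (tail x) = u ∧ f (head x) = u} = 0) (t g : ℤ)
    (hF : 3 * (ncyc phi : ℤ) + t = Fintype.card D)
    (hg : 12 * g = ((m : ℤ) - 3) * (m - 4) + n * (n - 1) + 2 * t) : Cel (K m n 2) g := by
  classical
  obtain ⟨e, he⟩ := exists_equiv_fin N hm hn
  set μ : L → L → ℕ := fun u v => if u = v then 0 else if N u ∧ N v then 2 else 1 with hμd
  have hμall : ∀ u v, Nat.card {x : D // f (tail x) = u ∧ f (head x) = v} = μ u v := by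
    intro u v
    by_cases huv : u = v
    · subst huv
      rw [hμ' u]
      simp [hμd]
    · rw [hμ u v huv]
      simp only [hμd, if_neg huv]
      congr
  have hcard : (Fintype.card D : ℤ) = m * (m - 1) + n * (n - 1) := by
    have h1 : Fintype.card D = ∑ u, ∑ v, μ u v := by
      rw [Fintype.card_congr (Equiv.sigmaFiberEquiv fun x => (f (tail x), f (head x))).symm,
        Fintype.card_sigma, Fintype.sum_prod_type]
      refine Finset.sum_congr rfl fun u _ => Finset.sum_congr rfl fun v _ => ?_
      rw [← hμall u v, Nat.card_eq_fintype_card]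
      refine Fintype.card_congr (Equiv.subtypeEquivRight fun x => ?_)
      rw [Prod.mk.injEq]
    rw [h1]
    push_cast
    have h2 : ∀ u v, ((μ u v : ℕ) : ℤ) = 1 - (if u = v then 1 else 0) +
        (if N u then 1 else 0) * (if N v then 1 else 0) -
        (if u = v then (if N u then 1 else 0) else 0) := by
      intro u v
      simp only [hμd]
      by_cases huv : u = v
      · subst huv
        by_cases hu : N u <;> simp [hu]
      · by_cases hu : N u <;> by_cases hv : N v <;> simp [huv, hu, hv]
    have h3 : (∑ u, (if N u then (1 : ℤ) else 0)) = n := by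
      rw [Finset.sum_boole, ← hn, Nat.card_eq_fintype_card, Fintype.card_subtype]
    have h4 : ∑ u : L, ∑ v : L, ((μ u v : ℕ) : ℤ) = (m : ℤ) * m - m + n * n - n := by
      calc ∑ u : L, ∑ v : L, ((μ u v : ℕ) : ℤ) = ∑ u : L, ((m : ℤ) - 1 +
            (if N u then 1 else 0) * n - (if N u then 1 else 0)) := by
            refine Finset.sum_congr rfl fun u _ => ?_
            simp only [h2]
            rw [Finset.sum_sub_distrib, Finset.sum_add_distrib, Finset.sum_sub_distrib,
              ← Finset.mul_sum, h3, Finset.sum_ite_eq Finset.univ u, Finset.sum_ite_eq Finset.univ u]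
            simp [hm]
        _ = (m : ℤ) * m - m + n * n - n := by
            rw [Finset.sum_sub_distrib, Finset.sum_add_distrib, ← Finset.sum_mul, h3]
            simp only [Finset.sum_const, Finset.card_univ, hm, nsmul_eq_mul]
            ring
    rw [h4]
    ring
  have hs : ∀ l, ∃ x, f (tail x) = l := by
    intro l
    have h1 : ∃ l', l' ≠ l := by
      have h2 : 1 < Fintype.card L := by omega
      have := Fintype.one_lt_card_iff_nontrivial.1 h2
      exact exists_ne l
    obtain ⟨l', hl'⟩ := h1
    have h2 := hμ l l' hl'.symm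
    have h3 : 0 < Nat.card {x : D // f (tail x) = l ∧ f (head x) = l'} := by
      rw [h2]
      split_ifs <;> norm_num
    have h4 : Nonempty {x : D // f (tail x) = l ∧ f (head x) = l'} :=
      (Nat.card_pos_iff.1 h3).1
    obtain ⟨⟨x, hx⟩⟩ := h4
    exact ⟨x, hx.1⟩
  have hcel : Cel μ g := by
    refine cel_of_good hs h hns μ hμall g ?_
    rw [hm]
    have h5 : 3 * (2 * (m : ℤ) + 2 * ncyc phi + 4 * g) = 3 * ((Fintype.card D : ℤ) + 4) := by
      have h6 : 6 * (ncyc phi : ℤ) = 2 * (Fintype.card D : ℤ) - 2 * t := by linarith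
      have h7 : ((m : ℤ) - 3) * (m - 4) = m * (m - 1) - 6 * m + 12 := by ring
      rw [h7] at hg
      linarith
    linarith
  have h8 := hcel.relabel e
  have h9 : (fun u v => μ (e.symm u) (e.symm v)) = K m n 2 := by
    funext i j
    simp only [hμd, K]
    have h10 : ∀ i : Fin m, N (e.symm i) ↔ i.1 < n := by
      intro i
      rw [← he, Equiv.apply_symm_apply]
    simp only [h10, e.symm.injective.eq_iff]
  rw [h9] at h8
  exact h8

end Pd97
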