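import Mathlib
import Pool.Agent.Lib.Pd97.Perm

/-!
# MP_d97cc3_co : doubling an edge

A parallel edge is added next to the edge `β`, on its left side; the new face has length two.
-/

namespace Pd97

open Equiv

namespace DblAux

open scoped Classical

variable {V : Type} (G : CMap V) (β : G.D)

/-- the new darts: `inr false` runs parallel to `rev β`, `inr true` parallel to `β` -/
def srcN : G.D ⊕ Bool → V := Sum.elim G.src fun b => cond b (G.src β) (G.src (G.rev β))

/-- the swap of `β` and the new parallel dart -/
noncomputable def tau : Perm (G.D ⊕ Bool) := swap (Sum.inl β) (Sum.inr true)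

/-- the old faces and a digon -/
noncomputable def phiO : Perm (G.D ⊕ Bool) := Perm.sumCongr G.phi (swap false true)

/-- the new reversal -/
noncomputable def revN : Perm (G.D ⊕ Bool) := Perm.sumCongr G.rev (swap false true)

/-- the new rotation -/
noncomputable def rotN : Perm (G.D ⊕ Bool) :=
  Perm.sumCongr G.rot 1 * swap (Sum.inl (G.rev β)) (Sum.inr false) *
    swap (Sum.inl (G.rot⁻¹ β)) (Sum.inr true)

lemma tau_tau (x : G.D ⊕ Bool) : tau G β (tau G β x) = x := Equiv.swap_apply_self _ _ _

end DblAux

open DblAux in
open scoped Classical in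
theorem exists_dbl {V : Type} (G : CMap V) (β : G.D) (h1 : ∀ x, G.phi x ≠ x)
    (h2 : ∀ x, G.phi (G.phi x) ≠ x) (hl : G.src (G.rev β) ≠ G.src β) :
    ∃ (H : CMap V) (x0 : H.D), Fintype.card H.D = Fintype.card G.D + 2 ∧ H.nf = G.nf + 1 ∧
      H.src (H.rev x0) = G.src (G.rev β) ∧ (∀ x, H.phi x ≠ x) ∧
      (∀ x, H.phi (H.phi x) = x → H.phi.SameCycle x0 x) ∧
      (∀ x : G.D, ∃ x' : H.D, H.src x' = G.src x ∧ H.src (H.rev x') = G.src (G.rev x) ∧
        ¬ H.phi.SameCycle x0 x') ∧
      (∀ P : V → V → Prop, Nat.card {x : H.D // P (H.src x) (H.src (H.rev x))} =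
        Nat.card {x : G.D // P (G.src x) (G.src (G.rev x))} +
        @ite ℕ (P (G.src β) (G.src (G.rev β))) (Classical.propDecidable _) 1 0 +
        @ite ℕ (P (G.src (G.rev β)) (G.src β)) (Classical.propDecidable _) 1 0) := by
  have hrr : G.rev (G.rev β) = β := G.rev_rev β
  have hrb : G.rot (G.rev β) ≠ β := h1 β
  have hne : G.rot⁻¹ β ≠ G.rev β := by
    intro h
    apply hrb
    rw [← h]
    exact G.rot.apply_symm_apply β
  have hsrc : ∀ x, G.src (G.rot x) = G.src x := fun x =>
    ((G.src_iff x (G.rot x)).2 ⟨1, by simp⟩).symm
  have hsb : G.src (G.rot⁻¹ β) = G.src β := by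
    rw [← hsrc]
    exact congrArg G.src (G.rot.apply_symm_apply β)
  have hsb' : G.src ((Equiv.symm G.rot) β) = G.src β := hsb
  -- the labels of the cycles of the rotation
  have hlab0 : Lab (Perm.sumCongr G.rot (1 : Perm Bool)) (Sum.map G.src (id : Bool → Bool)) := by
    intro x y
    rcases x with x | x <;> rcases y with y | y
    · rw [sameCycle_sumCongr_inl, ← G.src_iff]
      simp
    · simp only [Sum.map_inl, Sum.map_inr, reduceCtorEq, false_iff]
      exact not_sameCycle_sumCongr _ _ _ _
    · simp only [Sum.map_inl, Sum.map_inr, reduceCtorEq, false_iff]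
      exact not_sameCycle_sumCongr' _ _ _ _
    · rw [sameCycle_sumCongr_inr, Perm.sameCycle_one]
      simp
  have hlab1 : Lab (Perm.sumCongr G.rot (1 : Perm Bool) *
      swap (Sum.inl (G.rev β)) (Sum.inr false))
      (Sum.elim (fun x => (Sum.inl (G.src x) : V ⊕ Bool))
        fun b => cond b (Sum.inr true) (Sum.inl (G.src (G.rev β)))) := by
    refine hlab0.mul_swap _ _ (by simp) _ fun x y => ?_
    rcases x with x | (_ | _) <;> rcases y with y | (_ | _) <;>
      simp [Sum.map, eq_comm]
  have hlab2 : Lab (rotN G β) (srcN G β) := by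
    refine hlab1.mul_swap _ _ (by simp) _ fun x y => ?_
    rcases x with x | (_ | _) <;> rcases y with y | (_ | _) <;>
      first
      | (simp [srcN, hsb', hl, hl.symm]; done)
      | (simp [srcN, hsb']; exact eq_comm)
  let H : CMap V :=
    { D := G.D ⊕ Bool
      src := srcN G β
      rev := revN G
      rot := rotN G β
      rev_rev := fun d => by
        rcases d with d | (_ | _) <;> simp [revN, G.rev_rev]
      rev_ne := fun d => by
        rcases d with d | (_ | _) <;> simp [revN, G.rev_ne]
      src_surj := fun v => by
        obtain ⟨d, hd⟩ := G.src_surj v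
        exact ⟨Sum.inl d, hd⟩
      src_iff := hlab2 }
  have hphi : H.phi = tau G β * phiO G * tau G β := by
    ext1 x
    change rotN G β (revN G x) = tau G β (phiO G (tau G β x))
    rcases x with x | (_ | _)
    · by_cases hx : x = β
      · subst hx
        simp only [rotN, revN, tau, phiO, Perm.coe_mul, Function.comp_apply, Perm.sumCongr_apply,
          Sum.map_inl, swap_apply_left]
        rw [swap_apply_of_ne_of_ne (a := Sum.inl (G.rot⁻¹ x)) (by simpa using hne.symm) (by simp)]
        rw [swap_apply_left]
        simp only [Sum.map_inr, Perm.coe_one, id, swap_apply_right]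
        rw [swap_apply_of_ne_of_ne (by simp) (by simp)]
      · have h3 : G.rev x ≠ G.rev β := fun h => hx (G.rev.injective h)
        simp only [rotN, revN, tau, phiO, Perm.coe_mul, Function.comp_apply, Perm.sumCongr_apply,
          Sum.map_inl]
        rw [swap_apply_of_ne_of_ne (x := Sum.inl x) (by simpa using hx) (by simp)]
        simp only [Sum.map_inl]
        by_cases hx2 : G.phi x = β
        · have h4 : G.rev x = G.rot⁻¹ β := by
            rw [← hx2, CMap.phi_apply]
            exact (G.rot.symm_apply_apply _).symm
          rw [h4, swap_apply_left, swap_apply_of_ne_of_ne (by simp) (by simp), hx2, swap_apply_left]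
          simp
        · have h4 : G.rev x ≠ G.rot⁻¹ β := by
            intro h
            apply hx2
            rw [CMap.phi_apply, h]
            exact G.rot.apply_symm_apply β
          rw [swap_apply_of_ne_of_ne (x := Sum.inl (G.rev x)) (a := Sum.inl (G.rot⁻¹ β))
              (by simpa using h4) (by simp),
            swap_apply_of_ne_of_ne (x := Sum.inl (G.rev x)) (a := Sum.inl (G.rev β))
              (by simpa using h3) (by simp),
            swap_apply_of_ne_of_ne (x := Sum.inl (G.phi x)) (by simpa using hx2) (by simp)]
          rfl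
    · simp only [rotN, revN, tau, phiO, Perm.coe_mul, Function.comp_apply, Perm.sumCongr_apply,
        Sum.map_inr, swap_apply_left]
      rw [swap_apply_right, swap_apply_of_ne_of_ne (by simpa using hne) (by simp),
        swap_apply_of_ne_of_ne (x := Sum.inr false) (by simp) (by simp)]
      simp only [Sum.map_inr, Sum.map_inl, swap_apply_left, swap_apply_right]
      exact congrArg Sum.inl (G.rot.apply_symm_apply β)
    · simp only [rotN, revN, tau, phiO, Perm.coe_mul, Function.comp_apply, Perm.sumCongr_apply,
        Sum.map_inr, swap_apply_right]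
      rw [swap_apply_of_ne_of_ne (x := Sum.inr false) (by simp) (by simp), swap_apply_right]
      simp only [Sum.map_inl]
      rw [swap_apply_of_ne_of_ne (by simpa using h1 β) (by simp)]
      rfl
  have hphi' : ∀ x, H.phi x = tau G β (phiO G (tau G β x)) := fun x => by rw [hphi]; rfl
  have htt := tau_tau G β
  have hconj : H.phi = tau G β * phiO G * (tau G β)⁻¹ := by
    rw [hphi]
    congr 1
  have hsame : ∀ x y, H.phi.SameCycle x y ↔ (phiO G).SameCycle (tau G β x) (tau G β y) := by
    intro x y
    rw [hconj, Perm.sameCycle_conj]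
    have h3 : ∀ z, (tau G β)⁻¹ z = tau G β z := fun z => by
      rw [Perm.inv_eq_iff_eq, htt]
    rw [h3, h3]
  have ht0 : tau G β (Sum.inl β) = Sum.inr true := swap_apply_left _ _
  refine ⟨H, (Sum.inl β : G.D ⊕ Bool), ?_, ?_, ?_, ?_, ?_, ?_, ?_⟩
  · change Fintype.card (G.D ⊕ Bool) = _
    rw [Fintype.card_sum, Fintype.card_bool]
  · have h3 : H.nf = ncyc (phiO G) := by
      unfold CMap.nf ncyc
      refine Nat.card_congr (Quotient.congr (tau G β) fun x y => ?_)
      exact hsame x y
    rw [h3]
    unfold phiO
    rw [ncyc_sumCongr]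
    have h4 : ncyc (swap false true) = 1 := by
      unfold ncyc
      rw [Nat.card_eq_one_iff_unique]
      refine ⟨⟨fun a b => ?_⟩, ⟨Quotient.mk _ true⟩⟩
      induction a using Quotient.inductionOn with
      | h a =>
        induction b using Quotient.inductionOn with
        | h b =>
          apply Quotient.sound
          change (swap false true).SameCycle a b
          rcases a with _ | _ <;> rcases b with _ | _
          · exact Perm.SameCycle.refl _ _
          · exact ⟨1, by simp⟩
          · exact ⟨1, by simp⟩
          · exact Perm.SameCycle.refl _ _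
    rw [h4]
    rfl
  · rfl
  · intro x
    rw [hphi' x]
    intro h
    have h3 : phiO G (tau G β x) = tau G β x := by
      rw [← htt (phiO G (tau G β x)), h]
    generalize tau G β x = y at h3
    rcases y with y | (_ | _)
    · simp only [phiO, Perm.sumCongr_apply, Sum.map_inl, Sum.inl.injEq] at h3
      exact h1 y h3
    · simp [phiO] at h3
    · simp [phiO] at h3
  · intro x hx
    rw [hsame, ht0]
    rw [hphi' (H.phi x), hphi' x, htt] at hx
    have h3 : phiO G (phiO G (tau G β x)) = tau G β x := by
      rw [← htt (phiO G (phiO G (tau G β x))), hx]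
    generalize tau G β x = y at h3 ⊢
    rcases y with y | (_ | _)
    · simp only [phiO, Perm.sumCongr_apply, Sum.map_inl, Sum.inl.injEq] at h3
      exact absurd h3 (h2 y)
    · exact ⟨1, by simp [phiO]⟩
    · exact Perm.SameCycle.refl _ _
  · intro x
    refine ⟨tau G β (Sum.inl x), ?_, ?_, ?_⟩
    · by_cases hx : x = β
      · subst hx
        rw [ht0]
        rfl
      · rw [show tau G β (Sum.inl x) = Sum.inl x from
          swap_apply_of_ne_of_ne (by simpa using hx) (by simp)]
        rfl
    · by_cases hx : x = β
      · subst hx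
        rw [ht0]
        change srcN G x (revN G (Sum.inr true)) = _
        simp [revN, srcN]
      · rw [show tau G β (Sum.inl x) = Sum.inl x from
          swap_apply_of_ne_of_ne (by simpa using hx) (by simp)]
        rfl
    · rw [hsame, ht0, htt]
      exact not_sameCycle_sumCongr' _ _ _ _
  · intro P
    have h3 : ∀ {A : Type} [Fintype A] (Q : A → Prop),
        Nat.card {x : A // Q x} = ∑ x : A, if Q x then 1 else 0 := by
      intro A _ Q
      rw [Nat.card_eq_fintype_card, Fintype.card_subtype, Finset.card_filter]
    change Nat.card {x : G.D ⊕ Bool // P (srcN G β x) (srcN G β (revN G x))} = _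
    rw [h3, h3, Fintype.sum_sum_type, Fintype.sum_bool, add_assoc]
    congr 1

end Pd97
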