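import Mathlib
import Pool.Agent.Lib.Pd97.Dbl

/-!
# MP_d97cc3_co : triangular embeddings as building blocks for the merging process
-/

namespace Pd97

open Equiv Pool.Agent.Lib.CurG

/-- A triangular embedding of a simple graph as a rotation system. -/
theorem exists_cmap {V : Type} [Fintype V] {Γ : SimpleGraph V} (S : TriSys Γ)
    (hne : ∀ v, ∃ w, Γ.Adj v w) :
    ∃ G : CMap V, (∀ u v, Γ.Adj u v → ∃ x : G.D, G.src x = u ∧ G.src (G.rev x) = v) ∧
      (∀ x, Γ.Adj (G.src x) (G.src (G.rev x))) ∧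
      (∀ x y, G.src x = G.src y → G.src (G.rev x) = G.src (G.rev y) → x = y) ∧
      (∀ x, G.phi (G.phi (G.phi x)) = x) ∧ (∀ x, G.phi x ≠ x) ∧ (∀ x, G.phi (G.phi x) ≠ x) ∧
      (∀ x, G.src (G.phi x) = G.src (G.rev x) ∧
        G.src (G.rev (G.phi x)) = S.T (G.src x) (G.src (G.rev x))) ∧
      (∀ x y, G.src (G.rev x) = G.src (G.rev y) → x ≠ y → ¬ G.phi.SameCycle x y) ∧
      3 * G.nf = Fintype.card G.D ∧
      (∀ P : V → V → Prop, Nat.card {x : G.D // P (G.src x) (G.src (G.rev x))} =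
        Nat.card {p : V × V // Γ.Adj p.1 p.2 ∧ P p.1 p.2}) := by
  classical
  let G : CMap V :=
    { D := Γ.Dart
      src := fun d => d.fst
      rev := Function.Involutive.toPerm SimpleGraph.Dart.symm SimpleGraph.Dart.symm_involutive
      rot := S.rot
      rev_rev := fun d => SimpleGraph.Dart.symm_symm d
      rev_ne := fun d => SimpleGraph.Dart.symm_ne d
      src_surj := fun v => by
        obtain ⟨w, hw⟩ := hne v
        exact ⟨⟨(v, w), hw⟩, rfl⟩
      src_iff := S.toRotSys.rot_iff }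
  have p1 : ∀ x : Γ.Dart, (G.phi x : Γ.Dart).fst = x.snd := fun x => rfl
  have p2 : ∀ x : Γ.Dart, (G.phi x : Γ.Dart).snd = S.T x.fst x.snd := fun x => rfl
  have h3 : ∀ x : Γ.Dart, G.phi (G.phi (G.phi x)) = x := by
    intro x
    have e1 : (G.phi (G.phi x) : Γ.Dart).fst = S.T x.fst x.snd := by
      rw [p1 (G.phi x), p2]
    have e2 : (G.phi (G.phi x) : Γ.Dart).snd = x.fst := by
      rw [p2 (G.phi x), p1, p2]
      exact S.cyc _ _ x.adj
    apply SimpleGraph.Dart.ext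
    refine Prod.ext ?_ ?_
    · change (G.phi (G.phi (G.phi x)) : Γ.Dart).fst = x.fst
      rw [p1 (G.phi (G.phi x)), e2]
    · change (G.phi (G.phi (G.phi x)) : Γ.Dart).snd = x.snd
      rw [p2 (G.phi (G.phi x)), e1, e2]
      exact S.cyc' _ _ x.adj
  have h1 : ∀ x : Γ.Dart, G.phi x ≠ x := by
    intro x h
    have h' : (G.phi x : Γ.Dart).fst = x.fst := by rw [h]
    rw [p1] at h'
    exact x.adj.ne h'.symm
  have h2 : ∀ x : Γ.Dart, G.phi (G.phi x) ≠ x := by
    intro x h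
    have h' := h3 x
    rw [h] at h'
    exact h1 x h'
  refine ⟨G, fun u v h => ⟨⟨(u, v), h⟩, rfl, rfl⟩, fun x => ?_, fun x y hx hy => ?_, h3, h1, h2,
    fun x => ⟨rfl, rfl⟩, fun x y hxy hne' hs => ?_, ?_, fun P => ?_⟩
  · exact SimpleGraph.Dart.adj x
  · exact SimpleGraph.Dart.ext _ _ (Prod.ext hx hy)
  · obtain ⟨n, hn⟩ := hs.exists_nat_pow_eq
    have hmod : ∀ n : ℕ, (G.phi ^ n) x = x ∨ (G.phi ^ n) x = G.phi x ∨
        (G.phi ^ n) x = G.phi (G.phi x) := by
      intro n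
      induction n with
      | zero => left; rfl
      | succ n ih =>
        rw [pow_succ', Equiv.Perm.mul_apply]
        rcases ih with ih | ih | ih
        · right; left; rw [ih]
        · right; right; rw [ih]
        · left; rw [ih]; exact h3 x
    have key : ∀ x y : Γ.Dart, x.snd = y.snd → y ≠ G.phi x ∧ y ≠ G.phi (G.phi x) := by
      intro x y hxy'
      constructor
      · intro e
        rw [e, p2] at hxy'
        exact (S.adj _ _ x.adj).ne hxy'
      · intro e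
        rw [e, p2 (G.phi x), p1, p2, S.cyc _ _ x.adj] at hxy'
        exact x.adj.ne hxy'.symm
    obtain ⟨k1, k2⟩ := key x y hxy
    rcases hmod n with h | h | h
    · exact hne' (h.symm.trans hn)
    · exact k1 (hn.symm.trans h)
    · exact k2 (hn.symm.trans h)
  · have h := S.faces_eq
    rw [Nat.card_eq_fintype_card] at h
    exact h
  · refine Nat.card_congr
      { toFun := fun x => ⟨(G.src x.1, G.src (G.rev x.1)), SimpleGraph.Dart.adj x.1, x.2⟩
        invFun := fun p => ⟨(⟨p.1, p.2.1⟩ : Γ.Dart), p.2.2⟩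
        left_inv := fun x => rfl
        right_inv := fun p => rfl }

/-- A building block: an embedding with a marked dart `x0` such that all the faces of length two are
the face of `x0`; `3 * (number of faces) = (number of darts) + δ`. -/
structure Wing (V : Type) where
  G : CMap V
  x0 : G.D
  δ : ℕ
  nofix : ∀ x, G.phi x ≠ x
  short : ∀ x, G.phi (G.phi x) = x → G.phi.SameCycle x0 x
  two : ∀ v, ∃ x, G.src (G.rev x) = v ∧ ¬ G.phi.SameCycle x0 x
  nf : 3 * G.nf = Fintype.card G.D + δ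

/-- there is an edge from `u` to `v` -/
def Wing.Adj {V : Type} (W : Wing V) (u v : V) : Prop :=
  ∃ x : W.G.D, W.G.src x = u ∧ W.G.src (W.G.rev x) = v

/-- number of darts whose end vertices have a given property -/
noncomputable def Wing.count {V : Type} (W : Wing V) (P : V → V → Prop) : ℕ :=
  Nat.card {x : W.G.D // P (W.G.src x) (W.G.src (W.G.rev x))}

/-- The marked face is a triangle at `w`. -/
theorem exists_wing0 {V : Type} [Fintype V] {Γ : SimpleGraph V} (S : TriSys Γ)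
    (hne : ∀ v, ∃ u, Γ.Adj v u) (w : V) :
    ∃ W : Wing V, W.δ = 0 ∧ W.G.src (W.G.rev W.x0) = w ∧ (∀ u v, Γ.Adj u v → W.Adj u v) ∧
      (∀ x, W.G.phi (W.G.phi x) ≠ x) ∧
      (∀ P : V → V → Prop, W.count P = Nat.card {p : V × V // Γ.Adj p.1 p.2 ∧ P p.1 p.2}) := by
  obtain ⟨G, g1, g2, g3, g4, g5, g6, g7, g8, g9, g10⟩ := exists_cmap S hne
  obtain ⟨u, hu⟩ := hne w
  obtain ⟨x0, hx0, hx0'⟩ := g1 u w hu.symm
  refine ⟨⟨G, x0, 0, g5, fun x hx => absurd hx (g6 x), fun v => ?_, by rw [g9, add_zero]⟩, rfl,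
    hx0', g1, g6, g10⟩
  obtain ⟨a, ha⟩ := hne v
  obtain ⟨d1, hd1, hd1'⟩ := g1 a v ha.symm
  have hb : Γ.Adj v (S.T a v) := S.adj a v ha.symm
  obtain ⟨d2, hd2, hd2'⟩ := g1 (S.T a v) v hb.symm
  have hab : S.T a v ≠ a := by
    have := S.adj _ _ hb
    rw [S.cyc a v ha.symm] at this
    exact this.ne
  have hd : d1 ≠ d2 := by
    intro h
    rw [h, hd2] at hd1
    exact hab hd1
  by_cases hs : G.phi.SameCycle x0 d1
  · refine ⟨d2, hd2', fun hs2 => ?_⟩
    exact g8 d1 d2 (hd1'.trans hd2'.symm) hd (hs.symm.trans hs2)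
  · exact ⟨d1, hd1', hs⟩

/-- The edge `b w` is doubled; the marked face has length two and the marked dart leads to `w`. -/
theorem exists_wing1 {V : Type} [Fintype V] {Γ : SimpleGraph V} (S : TriSys Γ)
    (hne : ∀ v, ∃ u, Γ.Adj v u) (w b : V) (hb : Γ.Adj b w) :
    ∃ W : Wing V, W.δ = 1 ∧ W.G.src (W.G.rev W.x0) = w ∧ (∀ u v, Γ.Adj u v → W.Adj u v) ∧
      (∀ P : V → V → Prop, W.count P = Nat.card {p : V × V // Γ.Adj p.1 p.2 ∧ P p.1 p.2} +
        @ite ℕ (P b w) (Classical.propDecidable _) 1 0 +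
        @ite ℕ (P w b) (Classical.propDecidable _) 1 0) := by
  obtain ⟨G, g1, g2, g3, g4, g5, g6, g7, g8, g9, g10⟩ := exists_cmap S hne
  obtain ⟨β, hβ, hβ'⟩ := g1 b w hb
  obtain ⟨H, x0, k1, k2, k3, k4, k5, k6, k7⟩ := exists_dbl G β g5 g6 (by
    rw [hβ, hβ']
    exact hb.ne.symm)
  rw [hβ, hβ'] at k7
  rw [hβ'] at k3
  refine ⟨⟨H, x0, 1, k4, k5, fun v => ?_, by omega⟩, rfl, k3, fun u v huv => ?_, fun P => ?_⟩
  · obtain ⟨a, ha⟩ := hne v
    obtain ⟨d, hd, hd'⟩ := g1 a v ha.symm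
    obtain ⟨x', -, hx2, hx3⟩ := k6 d
    exact ⟨x', hx2.trans hd', hx3⟩
  · obtain ⟨d, hd, hd'⟩ := g1 u v huv
    obtain ⟨x', hx1, hx2, -⟩ := k6 d
    exact ⟨x', hx1.trans hd, hx2.trans hd'⟩
  · have h := k7 P
    rw [g10 P] at h
    exact h

end Pd97
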