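import Mathlib
import Pool.Agent.Lib.Pd97.Final
import Pool.Agent.Lib.Pd97.Wing

/-!
# MP_d97cc3_co : the merging process for two maps

`G1` is a map on `V1`, `G2` a map on `V2`. `r : V1 → V1` is idempotent (`r e` is the name of the
vertex `e`; if `G1` has a split vertex `y, e` then `r e = y`), `c : V2 → V1` gives the names of the
vertices of `G2`, `r (c v) = c v`. All the vertices with the same name are to be merged.
-/

namespace Pd97

open Equiv

section
variable {V1 V2 : Type}

/-- adjacency -/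
def CMap.Ad {V : Type} (G : CMap V) (u v : V) : Prop := ∃ x, G.src x = u ∧ G.src (G.rev x) = v

def tl (G1 : CMap V1) (G2 : CMap V2) : G1.D ⊕ G2.D → V1 ⊕ V2 := Sum.map G1.src G2.src

def hd (G1 : CMap V1) (G2 : CMap V2) : G1.D ⊕ G2.D → V1 ⊕ V2 :=
  Sum.map (fun x => G1.src (G1.rev x)) (fun x => G2.src (G2.rev x))

def cn (r : V1 → V1) (c : V2 → V1) : V1 ⊕ V2 → V1 ⊕ V2 :=
  Sum.elim (fun v => Sum.inl (r v)) (fun v => Sum.inl (c v))

/-- the vertices which are to be merged with their centres -/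
def leaves (r : V1 → V1) (c : V2 → V1) : Set (V1 ⊕ V2) := {v | cn r c v ≠ v}

namespace StepsAux

theorem cn_cn {r : V1 → V1} {c : V2 → V1} (hr : ∀ v, r (r v) = r v) (hrc : ∀ v, r (c v) = c v)
    (v : V1 ⊕ V2) : cn r c (cn r c v) = cn r c v := by
  rcases v with v | v
  · show Sum.inl (r (r v)) = Sum.inl (r v)
    rw [hr]
  · show Sum.inl (r (c v)) = Sum.inl (c v)
    rw [hrc]

theorem inr_mem_leaves (r : V1 → V1) (c : V2 → V1) (v : V2) : Sum.inr v ∈ leaves r c := by
  show (Sum.inl (c v) : V1 ⊕ V2) ≠ Sum.inr v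
  exact Sum.inl_ne_inr

theorem c_notMem {r : V1 → V1} {c : V2 → V1} (hrc : ∀ v, r (c v) = c v) (v : V2) :
    (Sum.inl (c v) : V1 ⊕ V2) ∉ leaves r c := by
  intro h
  apply h
  show Sum.inl (r (c v)) = Sum.inl (c v)
  rw [hrc]

theorem fR_mem {V : Type} {cen : V → V} {R : Set V} {v : V} (h : v ∈ R) : fR cen R v = v := by
  unfold fR
  rw [if_pos h]

theorem fR_notMem {V : Type} {cen : V → V} {R : Set V} {v : V} (h : v ∉ R) :
    fR cen R v = cen v := by
  unfold fR
  rw [if_neg h]

end StepsAux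

open StepsAux

theorem good_start (G1 : CMap V1) (G2 : CMap V2) (r : V1 → V1) (c : V2 → V1) :
    Good (tl G1 G2) (hd G1 G2) (Perm.sumCongr G1.phi G2.phi) (fR (cn r c) (leaves r c)) := by
  have hid : ∀ v, fR (cn r c) (leaves r c) v = v := by
    intro v
    by_cases hv : v ∈ leaves r c
    · exact fR_mem hv
    · rw [fR_notMem hv]
      by_contra hc
      exact hv hc
  refine ⟨Perm.sumCongr G1.rev G2.rev, ?_, ?_, ?_, ?_⟩
  · rintro (x | x)
    · simp [G1.rev_rev]
    · simp [G2.rev_rev]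
  · rintro (x | x)
    · simp only [Perm.sumCongr_apply, Sum.map_inl, ne_eq, Sum.inl.injEq]
      exact G1.rev_ne x
    · simp only [Perm.sumCongr_apply, Sum.map_inr, ne_eq, Sum.inr.injEq]
      exact G2.rev_ne x
  · rintro (x | x)
    · rfl
    · rfl
  · have h1 : Perm.sumCongr G1.phi G2.phi * Perm.sumCongr G1.rev G2.rev =
        Perm.sumCongr G1.rot G2.rot := by
      ext x
      rcases x with x | x
      · simp [CMap.phi, G1.rev_rev]
      · simp [CMap.phi, G2.rev_rev]
    rw [h1]
    intro x y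
    simp only [hid]
    rcases x with x | x <;> rcases y with y | y
    · rw [sameCycle_sumCongr_inl, ← G1.src_iff]
      exact Sum.inl_injective.eq_iff
    · constructor
      · intro h
        exact absurd h Sum.inl_ne_inr
      · intro h
        exact absurd h (not_sameCycle_sumCongr _ _ _ _)
    · constructor
      · intro h
        exact absurd h Sum.inr_ne_inl
      · intro h
        exact absurd h (not_sameCycle_sumCongr' _ _ _ _)
    · rw [sameCycle_sumCongr_inr, ← G2.src_iff]
      exact Sum.inr_injective.eq_iff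

/-- Slit gluing along an edge `u v` of `G2` and the edge `c u, c v` of `G1`. -/
theorem good_pair {G1 : CMap V1} {G2 : CMap V2} {r : V1 → V1} {c : V2 → V1}
    (hr : ∀ v, r (r v) = r v) (hrc : ∀ v, r (c v) = c v) {phi : Perm (G1.D ⊕ G2.D)}
    (R : Set (V1 ⊕ V2)) (hR : R ⊆ leaves r c) (u v : V2) (hu : Sum.inr u ∉ R)
    (hv : Sum.inr v ∉ R) (hc : c u ≠ c v) (h2 : G2.Ad u v) (h1 : G1.Ad (c u) (c v))
    (h : Good (tl G1 G2) (hd G1 G2) phi
      (fR (cn r c) (insert (Sum.inr u) (insert (Sum.inr v) R)))) :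
    Good (tl G1 G2) (hd G1 G2) phi (fR (cn r c) R) := by
  classical
  obtain ⟨x2, a2, b2⟩ := h2
  obtain ⟨x1, a1, b1⟩ := h1
  have hnR : ∀ z, (Sum.inl (c z) : V1 ⊕ V2) ∉ insert (Sum.inr u) (insert (Sum.inr v) R) := by
    intro z hz
    rcases Set.mem_insert_iff.1 hz with hz | hz
    · exact Sum.inl_ne_inr hz
    rcases Set.mem_insert_iff.1 hz with hz | hz
    · exact Sum.inl_ne_inr hz
    exact c_notMem hrc z (hR hz)
  have hcf : ∀ z, fR (cn r c) (insert (Sum.inr u) (insert (Sum.inr v) R)) (Sum.inl (c z)) =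
      cn r c (Sum.inr z) := by
    intro z
    rw [fR_notMem (hnR z)]
    show Sum.inl (r (c z)) = Sum.inl (c z)
    rw [hrc]
  refine Good.slit_leaf (cn r c) (cn_cn hr hrc) R (fun z hz => hR hz) (Sum.inr u) (Sum.inr v)
    hu hv (inr_mem_leaves r c u) (inr_mem_leaves r c v) ?_ h (Sum.inr x2) (Sum.inl x1)
    (Or.inl ⟨?_, ?_⟩) (Or.inl ⟨?_, ?_⟩)
  · show (Sum.inl (c u) : V1 ⊕ V2) ≠ Sum.inl (c v)
    exact fun hh => hc (Sum.inl_injective hh)
  · show fR _ _ (Sum.inr (G2.src x2)) = _
    rw [a2]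
    exact fR_mem (Set.mem_insert _ _)
  · show fR _ _ (Sum.inl (G1.src x1)) = _
    rw [a1]
    exact hcf u
  · show fR _ _ (Sum.inr (G2.src (G2.rev x2))) = _
    rw [b2]
    exact fR_mem (Set.mem_insert_of_mem _ (Set.mem_insert _ _))
  · show fR _ _ (Sum.inl (G1.src (G1.rev x1))) = _
    rw [b1]
    exact hcf v

/-- Slit gluing for the second half `e` of the split vertex: `y` is the vertex of `G2` with the
same name (already merged with `r e`), along the edge `y v` of `G2` and the edge `e, c v` of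
`G1`. -/
theorem good_extra {G1 : CMap V1} {G2 : CMap V2} {r : V1 → V1} {c : V2 → V1}
    (hr : ∀ v, r (r v) = r v) (hrc : ∀ v, r (c v) = c v) {phi : Perm (G1.D ⊕ G2.D)}
    (R : Set (V1 ⊕ V2)) (hR : R ⊆ leaves r c) (e : V1) (y v : V2) (he : r e ≠ e)
    (hey : r e = c y) (heR : Sum.inl e ∉ R) (hy : Sum.inr y ∉ R) (hv : Sum.inr v ∉ R)
    (hyv : y ≠ v) (hc : c y ≠ c v) (h2 : G2.Ad y v) (h1 : G1.Ad e (c v))
    (h : Good (tl G1 G2) (hd G1 G2) phi
      (fR (cn r c) (insert (Sum.inl e) (insert (Sum.inr v) R)))) :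
    Good (tl G1 G2) (hd G1 G2) phi (fR (cn r c) R) := by
  classical
  obtain ⟨x2, a2, b2⟩ := h2
  obtain ⟨x1, a1, b1⟩ := h1
  have hcve : c v ≠ e := by
    intro hh
    apply he
    rw [← hh, hrc]
  have hcf : fR (cn r c) (insert (Sum.inl e) (insert (Sum.inr v) R)) (Sum.inl (c v)) =
      cn r c (Sum.inr v) := by
    rw [fR_notMem]
    · show Sum.inl (r (c v)) = Sum.inl (c v)
      rw [hrc]
    · intro hz
      rcases Set.mem_insert_iff.1 hz with hz | hz
      · exact hcve (Sum.inl_injective hz)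
      rcases Set.mem_insert_iff.1 hz with hz | hz
      · exact Sum.inl_ne_inr hz
      exact c_notMem hrc v (hR hz)
  have hyf : fR (cn r c) (insert (Sum.inl e) (insert (Sum.inr v) R)) (Sum.inr y) =
      cn r c (Sum.inl e) := by
    rw [fR_notMem]
    · show Sum.inl (c y) = Sum.inl (r e)
      rw [hey]
    · intro hz
      rcases Set.mem_insert_iff.1 hz with hz | hz
      · exact Sum.inr_ne_inl hz
      rcases Set.mem_insert_iff.1 hz with hz | hz
      · exact hyv (Sum.inr_injective hz)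
      exact hy hz
  refine Good.slit_leaf (cn r c) (cn_cn hr hrc) R (fun z hz => hR hz) (Sum.inl e) (Sum.inr v)
    heR hv ?_ (inr_mem_leaves r c v) ?_ h (Sum.inl x1) (Sum.inr x2)
    (Or.inl ⟨?_, ?_⟩) (Or.inr ⟨?_, ?_⟩)
  · show (Sum.inl (r e) : V1 ⊕ V2) ≠ Sum.inl e
    exact fun hh => he (Sum.inl_injective hh)
  · show (Sum.inl (r e) : V1 ⊕ V2) ≠ Sum.inl (c v)
    rw [hey]
    exact fun hh => hc (Sum.inl_injective hh)
  · show fR _ _ (Sum.inl (G1.src x1)) = _
    rw [a1]
    exact fR_mem (Set.mem_insert _ _)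
  · show fR _ _ (Sum.inr (G2.src x2)) = _
    rw [a2]
    exact hyf
  · show fR _ _ (Sum.inl (G1.src (G1.rev x1))) = _
    rw [b1]
    exact hcf
  · show fR _ _ (Sum.inr (G2.src (G2.rev x2))) = _
    rw [b2]
    exact fR_mem (Set.mem_insert_of_mem _ (Set.mem_insert _ _))

/-- A single tube which merges the vertex `w` of `G2` with its centre. -/
theorem good_single {G1 : CMap V1} {G2 : CMap V2} {r : V1 → V1} {c : V2 → V1}
    (hr : ∀ v, r (r v) = r v) (hrc : ∀ v, r (c v) = c v) [DecidableEq (G1.D ⊕ G2.D)]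
    {phi : Perm (G1.D ⊕ G2.D)}
    (R : Set (V1 ⊕ V2)) (hR : R ⊆ leaves r c) (w : V2) (hw : Sum.inr w ∉ R)
    (x1 : G1.D) (x2 : G2.D) (h1 : G1.src (G1.rev x1) = c w) (h2 : G2.src (G2.rev x2) = w)
    (h : Good (tl G1 G2) (hd G1 G2) phi (fR (cn r c) (insert (Sum.inr w) R))) :
    Good (tl G1 G2) (hd G1 G2) (phi * swap (Sum.inl x1) (Sum.inr x2)) (fR (cn r c) R) := by
  rw [swap_comm]
  refine Good.single_leaf (cn r c) (cn_cn hr hrc) R (fun z hz => hR hz) (Sum.inr w) hw
    (inr_mem_leaves r c w) h (Sum.inr x2) (Sum.inl x1) ?_ ?_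
  · show fR _ _ (Sum.inr (G2.src (G2.rev x2))) = _
    rw [h2]
    exact fR_mem (Set.mem_insert _ _)
  · show fR _ _ (Sum.inl (G1.src (G1.rev x1))) = _
    rw [h1, fR_notMem]
    · show Sum.inl (r (c w)) = Sum.inl (c w)
      rw [hrc]
    · intro hz
      rcases Set.mem_insert_iff.1 hz with hz | hz
      · exact Sum.inl_ne_inr hz
      exact c_notMem hrc w (hR hz)

end

/-- The finite set can be divided into pairs with the relation `ok`. -/
inductive Mat {V : Type} (ok : V → V → Prop) : Set V → Prop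
  | nil : Mat ok ∅
  | cons (u v : V) (F : Set V) (hu : u ∉ F) (hv : v ∉ F) (huv : u ≠ v) (h : ok u v)
      (hF : Mat ok F) : Mat ok (insert u (insert v F))

/-- Adding one special pair. -/
theorem Mat.pair {V : Type} (ok : V → V → Prop) (F : Set V) (u v : V) (hu : u ∈ F) (hv : v ∈ F)
    (huv : u ≠ v) (h : ok u v) (hF : Mat ok (F \ {u, v})) : Mat ok F := by
  have h1 : F = insert u (insert v (F \ {u, v})) := by
    ext z
    simp only [Set.mem_insert_iff, Set.mem_sdiff, Set.mem_singleton_iff, not_or]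
    constructor
    · intro hz
      by_cases h2 : z = u
      · exact Or.inl h2
      by_cases h3 : z = v
      · exact Or.inr (Or.inl h3)
      exact Or.inr (Or.inr ⟨hz, h2, h3⟩)
    · rintro (rfl | rfl | hz)
      · exact hu
      · exact hv
      · exact hz.1
  rw [h1]
  refine Mat.cons u v _ ?_ ?_ huv h hF
  · rintro ⟨_, hz⟩
    exact hz (Set.mem_insert _ _)
  · rintro ⟨_, hz⟩
    exact hz (Set.mem_insert_of_mem _ rfl)

/-- If all the pairs are good then only the parity matters. -/
theorem Mat.of_pairwise {V : Type} [Finite V] (ok : V → V → Prop) (F : Set V)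
    (he : Even (Nat.card F)) (h : ∀ u ∈ F, ∀ v ∈ F, u ≠ v → ok u v) : Mat ok F := by
  classical
  obtain ⟨n, hn⟩ := he
  induction n generalizing F with
  | zero =>
    have h0 : Nat.card F = 0 := by omega
    have h1 : F = ∅ := by
      rw [Nat.card_coe_set_eq] at h0
      exact (Set.ncard_eq_zero (Set.toFinite F)).1 h0
    rw [h1]
    exact Mat.nil
  | succ n ih =>
    rw [Nat.card_coe_set_eq] at hn
    have h2 : 1 < F.ncard := by omega
    obtain ⟨u, hu, v, hv, huv⟩ := (Set.one_lt_ncard (Set.toFinite F)).1 h2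
    have h3 : (F \ {u, v}).ncard = n + n := by
      have h4 := Set.ncard_sdiff_add_ncard_of_subset (s := {u, v}) (t := F)
        (by rintro z (hz | hz) <;> simp_all) (Set.toFinite _)
      rw [Set.ncard_pair huv] at h4
      omega
    refine Mat.pair ok F u v hu hv huv (h u hu v hv huv) (ih (F \ {u, v}) ?_ ?_)
    · intro a ha b hb hab
      exact h a ha.1 b hb.1 hab
    · rw [Nat.card_coe_set_eq]
      exact h3

section
variable {V1 V2 : Type}

open StepsAux

/-- pairs of vertices of `G2` which can be merged by slit gluing -/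
def okp (G1 : CMap V1) (G2 : CMap V2) (c : V2 → V1) (u v : V2) : Prop :=
  c u ≠ c v ∧ G2.Ad u v ∧ G1.Ad (c u) (c v)

/-- After the vertices in `S` are merged by single tubes the rest can be merged by slit gluing. -/
def Cov (G1 : CMap V1) (G2 : CMap V2) (r : V1 → V1) (c : V2 → V1) (S : Set V2) : Prop :=
  ((∀ v, r v = v) ∧ Mat (okp G1 G2 c) Sᶜ) ∨
  ∃ (e : V1) (y v : V2), r e ≠ e ∧ (∀ u, u ≠ e → r u = u) ∧ r e = c y ∧ v ≠ y ∧ v ∉ S ∧
    c v ≠ c y ∧ G1.Ad e (c v) ∧ G2.Ad y v ∧ Mat (okp G1 G2 c) (Sᶜ \ {v})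

theorem good_mat {G1 : CMap V1} {G2 : CMap V2} {r : V1 → V1} {c : V2 → V1}
    (hr : ∀ v, r (r v) = r v) (hrc : ∀ v, r (c v) = c v) {phi : Perm (G1.D ⊕ G2.D)}
    (E : Set (V1 ⊕ V2)) (hE : E ⊆ leaves r c) (F : Set V2) (hM : Mat (okp G1 G2 c) F)
    (hEF : ∀ u ∈ F, Sum.inr u ∉ E)
    (h : Good (tl G1 G2) (hd G1 G2) phi (fR (cn r c) (Sum.inr '' F ∪ E))) :
    Good (tl G1 G2) (hd G1 G2) phi (fR (cn r c) E) := by
  induction hM with
  | nil =>
    rw [Set.image_empty, Set.empty_union] at h
    exact h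
  | cons u v F hu hv huv hok hF ih =>
    rw [Set.image_insert_eq, Set.image_insert_eq, Set.insert_union, Set.insert_union] at h
    refine ih (fun z hz => hEF z (Set.mem_insert_of_mem _ (Set.mem_insert_of_mem _ hz))) ?_
    refine good_pair hr hrc (Sum.inr '' F ∪ E) ?_ u v ?_ ?_ hok.1 hok.2.1 hok.2.2 h
    · rintro z (⟨z, _, rfl⟩ | hz)
      · exact inr_mem_leaves r c z
      · exact hE hz
    · rintro (⟨z, hz, hzu⟩ | hz)
      · exact hu (Sum.inr_injective hzu ▸ hz)
      · exact hEF u (Set.mem_insert _ _) hz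
    · rintro (⟨z, hz, hzu⟩ | hz)
      · exact hv (Sum.inr_injective hzu ▸ hz)
      · exact hEF v (Set.mem_insert_of_mem _ (Set.mem_insert _ _)) hz

theorem good_of_cov {G1 : CMap V1} {G2 : CMap V2} {r : V1 → V1} {c : V2 → V1}
    (hr : ∀ v, r (r v) = r v) (hrc : ∀ v, r (c v) = c v) {phi : Perm (G1.D ⊕ G2.D)}
    (S : Set V2) (hS : Cov G1 G2 r c S)
    (h : Good (tl G1 G2) (hd G1 G2) phi (fR (cn r c) (leaves r c \ (Sum.inr '' S)))) :
    Good (tl G1 G2) (hd G1 G2) phi (fR (cn r c) ∅) := by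
  rcases hS with ⟨hr1, hM⟩ | ⟨e, y, v, he, hne, hey, hvy, hvS, hcvy, h1, h2, hM⟩
  · have hL : leaves r c \ (Sum.inr '' S) = Sum.inr '' Sᶜ ∪ ∅ := by
      rw [Set.union_empty]
      ext z
      rcases z with z | z
      · constructor
        · rintro ⟨hz, _⟩
          exact absurd (show (Sum.inl (r z) : V1 ⊕ V2) = Sum.inl z by rw [hr1]) hz
        · rintro ⟨a, _, ha⟩
          exact absurd ha Sum.inr_ne_inl
      · constructor
        · rintro ⟨_, hz⟩
          exact ⟨z, fun hzS => hz ⟨z, hzS, rfl⟩, rfl⟩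
        · rintro ⟨a, ha, haz⟩
          have haz' := Sum.inr_injective haz
          subst haz'
          refine ⟨inr_mem_leaves r c a, ?_⟩
          rintro ⟨b, hb, hba⟩
          exact ha (Sum.inr_injective hba ▸ hb)
    rw [hL] at h
    exact good_mat hr hrc ∅ (Set.empty_subset _) Sᶜ hM (fun _ _ hz => hz) h
  · have hL : leaves r c \ (Sum.inr '' S) =
        Sum.inr '' (Sᶜ \ {v}) ∪ insert (Sum.inl e) (insert (Sum.inr v) ∅) := by
      ext z
      rcases z with z | z
      · constructor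
        · rintro ⟨hz, _⟩
          right
          left
          by_contra hze
          have hze' : z ≠ e := fun hh => hze (by rw [hh])
          exact hz (show (Sum.inl (r z) : V1 ⊕ V2) = Sum.inl z by rw [hne z hze'])
        · rintro (⟨a, _, ha⟩ | hz | hz | hz)
          · exact absurd ha Sum.inr_ne_inl
          · have hze := Sum.inl_injective hz
            subst hze
            refine ⟨fun hh => he (Sum.inl_injective hh), ?_⟩
            rintro ⟨b, _, hb⟩
            exact Sum.inr_ne_inl hb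
          · exact absurd hz Sum.inl_ne_inr
          · exact absurd hz (Set.notMem_empty _)
      · constructor
        · rintro ⟨_, hz⟩
          by_cases hzv : z = v
          · right
            right
            left
            rw [hzv]
          · left
            exact ⟨z, ⟨fun hzS => hz ⟨z, hzS, rfl⟩, hzv⟩, rfl⟩
        · rintro (⟨a, ha, haz⟩ | hz | hz | hz)
          · have haz' := Sum.inr_injective haz
            subst haz'
            refine ⟨inr_mem_leaves r c a, ?_⟩
            rintro ⟨b, hb, hba⟩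
            exact ha.1 (Sum.inr_injective hba ▸ hb)
          · exact absurd hz Sum.inr_ne_inl
          · have hzv := Sum.inr_injective hz
            subst hzv
            refine ⟨inr_mem_leaves r c z, ?_⟩
            rintro ⟨b, hb, hba⟩
            exact hvS (Sum.inr_injective hba ▸ hb)
          · exact absurd hz (Set.notMem_empty _)
    rw [hL] at h
    have heL : (Sum.inl e : V1 ⊕ V2) ∈ leaves r c := fun hh => he (Sum.inl_injective hh)
    have h3 := good_mat hr hrc (insert (Sum.inl e) (insert (Sum.inr v) ∅)) (by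
      rintro z (hz | hz | hz)
      · rw [hz]
        exact heL
      · rw [hz]
        exact inr_mem_leaves r c v
      · exact absurd hz (Set.notMem_empty _)) (Sᶜ \ {v}) hM (by
      rintro u hu (hz | hz | hz)
      · exact Sum.inr_ne_inl hz
      · exact hu.2 (Sum.inr_injective hz)
      · exact hz) h
    exact good_extra hr hrc ∅ (Set.empty_subset _) e y v he hey (Set.notMem_empty _)
      (Set.notMem_empty _) (Set.notMem_empty _) hvy.symm hcvy.symm h2 h1 h3

end

end Pd97
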