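import Mathlib
import Pool.Agent.Lib.Pd97.Steps

/-!
# MP_d97cc3_co : the merging theorems
-/

namespace Pd97

open Equiv

/-- A map with a marked dart `x0` such that all the faces of length two are the face of `x0`.
`t` is the slack: the sum of (length - 3) over all faces. -/
structure Wg (V : Type) where
  G : CMap V
  x0 : G.D
  t : ℤ
  nofix : ∀ x, G.phi x ≠ x
  short : ∀ x, G.phi (G.phi x) = x → G.phi.SameCycle x0 x
  nf : 3 * (G.nf : ℤ) + t = Fintype.card G.D

/-- the number of darts from `P` to `Q` -/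
noncomputable def CMap.cnt {V : Type} (G : CMap V) (P Q : V → Prop) : ℕ :=
  Nat.card {x : G.D // P (G.src x) ∧ Q (G.src (G.rev x))}

/-- the multiplicities of the two maps add up to those of `K_m + K_n` -/
structure Mults {V1 V2 : Type} (G1 : CMap V1) (G2 : CMap V2) (r : V1 → V1) (c : V2 → V1)
    (m n : ℕ) : Prop where
  hr : ∀ v, r (r v) = r v
  hrc : ∀ v, r (c v) = c v
  hm : Nat.card {v // r v = v} = m
  hn : Nat.card (Set.range c) = n
  two : ∀ u v, u ∈ Set.range c → v ∈ Set.range c → u ≠ v →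
    G1.cnt (fun p => r p = u) (fun q => r q = v) + G2.cnt (fun p => c p = u) (fun q => c q = v) = 2
  one : ∀ u v, r u = u → r v = v → ¬ (u ∈ Set.range c ∧ v ∈ Set.range c) → u ≠ v →
    G1.cnt (fun p => r p = u) (fun q => r q = v) + G2.cnt (fun p => c p = u) (fun q => c q = v) = 1
  zero : ∀ u, r u = u →
    G1.cnt (fun p => r p = u) (fun q => r q = u) + G2.cnt (fun p => c p = u) (fun q => c q = u) = 0

namespace MergeAux

theorem cnt_sum {V1 V2 L : Type} (G1 : CMap V1) (G2 : CMap V2) (f : V1 ⊕ V2 → L) (u v : L) :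
    Nat.card {x : G1.D ⊕ G2.D // f (tl G1 G2 x) = u ∧ f (hd G1 G2 x) = v} =
      G1.cnt (fun p => f (Sum.inl p) = u) (fun q => f (Sum.inl q) = v) +
      G2.cnt (fun p => f (Sum.inr p) = u) (fun q => f (Sum.inr q) = v) := by
  unfold CMap.cnt
  rw [← Nat.card_sum]
  exact Nat.card_congr (Equiv.subtypeSum (p := fun x : G1.D ⊕ G2.D =>
    f (tl G1 G2 x) = u ∧ f (hd G1 G2 x) = v))

theorem inr_mem_leaves {V1 V2 : Type} (r : V1 → V1) (c : V2 → V1) (w : V2) :
    Sum.inr w ∈ leaves r c := by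
  show cn r c (Sum.inr w) ≠ Sum.inr w
  exact Sum.inl_ne_inr

theorem leaves_insert {V1 V2 : Type} (r : V1 → V1) (c : V2 → V1) (S : Set V2) (w : V2)
    (hw : w ∉ S) :
    insert (Sum.inr w) (leaves r c \ (Sum.inr '' (insert w S))) = leaves r c \ (Sum.inr '' S) := by
  ext x
  constructor
  · rintro (rfl | ⟨h1, h2⟩)
    · refine ⟨inr_mem_leaves r c w, ?_⟩
      rintro ⟨y, hy, hy2⟩
      exact hw (Sum.inr_injective hy2 ▸ hy)
    · refine ⟨h1, ?_⟩
      rintro ⟨y, hy, hy2⟩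
      exact h2 ⟨y, Or.inr hy, hy2⟩
  · rintro ⟨h1, h2⟩
    by_cases hx : x = Sum.inr w
    · exact Or.inl hx
    · refine Or.inr ⟨h1, ?_⟩
      rintro ⟨y, hy, hy2⟩
      rcases hy with hy | hy
      · exact hx (by rw [← hy2, hy])
      · exact h2 ⟨y, hy, hy2⟩

theorem step {V1 V2 : Type} {G1 : CMap V1} {G2 : CMap V2} {r : V1 → V1} {c : V2 → V1}
    (hr : ∀ v, r (r v) = r v) (hrc : ∀ v, r (c v) = c v) [DecidableEq (G1.D ⊕ G2.D)]
    {phi : Perm (G1.D ⊕ G2.D)} (S : Set V2) (w : V2) (hw : w ∉ S)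
    (x1 : G1.D) (x2 : G2.D) (h1 : G1.src (G1.rev x1) = c w) (h2 : G2.src (G2.rev x2) = w)
    (h : Good (tl G1 G2) (hd G1 G2) phi (fR (cn r c) (leaves r c \ (Sum.inr '' S)))) :
    Good (tl G1 G2) (hd G1 G2) (phi * swap (Sum.inl x1) (Sum.inr x2))
      (fR (cn r c) (leaves r c \ (Sum.inr '' (insert w S)))) := by
  refine good_single hr hrc _ Set.sdiff_subset w ?_ x1 x2 h1 h2 ?_
  · rintro ⟨-, h3⟩
    exact h3 ⟨w, Or.inl rfl, rfl⟩
  · rw [leaves_insert r c S w hw]
    exact h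

theorem start {V1 V2 : Type} (G1 : CMap V1) (G2 : CMap V2) (r : V1 → V1) (c : V2 → V1) :
    Good (tl G1 G2) (hd G1 G2) (Perm.sumCongr G1.phi G2.phi)
      (fR (cn r c) (leaves r c \ (Sum.inr '' (∅ : Set V2)))) := by
  rw [Set.image_empty, Set.sdiff_empty]
  exact good_start G1 G2 r c

theorem nf_sum {V1 V2 : Type} (G1 : CMap V1) (G2 : CMap V2) {t1 t2 : ℤ}
    (h1 : 3 * (G1.nf : ℤ) + t1 = Fintype.card G1.D)
    (h2 : 3 * (G2.nf : ℤ) + t2 = Fintype.card G2.D) :
    3 * (ncyc (Perm.sumCongr G1.phi G2.phi) : ℤ) + (t1 + t2) =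
      Fintype.card G1.D + Fintype.card G2.D := by
  rw [ncyc_sumCongr]
  unfold CMap.nf at h1 h2
  push_cast
  linarith

theorem nofix_sum {D E : Type} {σ : Perm D} {τ : Perm E} (h1 : ∀ x, σ x ≠ x) (h2 : ∀ x, τ x ≠ x)
    (x : D ⊕ E) : (Perm.sumCongr σ τ) x ≠ x := by
  rcases x with x | x
  · intro h
    exact h1 x (Sum.inl_injective h)
  · intro h
    exact h2 x (Sum.inr_injective h)

theorem phi_src {V : Type} (G : CMap V) (x : G.D) : G.src (G.phi x) = G.src (G.rev x) := by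
  rw [G.src_iff]
  show G.rot.SameCycle (G.rot (G.rev x)) (G.rev x)
  exact (Perm.sameCycle_apply_left).2 (Perm.SameCycle.refl _ _)

end MergeAux

/-- The end of the process. -/
theorem conclude {V1 V2 : Type} [Fintype V1] [Fintype V2] {G1 : CMap V1} {G2 : CMap V2}
    {r : V1 → V1} {c : V2 → V1} {m n : ℕ} (hM : Mults G1 G2 r c m n) (hm : 2 ≤ m)
    {phi : Perm (G1.D ⊕ G2.D)} (h : Good (tl G1 G2) (hd G1 G2) phi (fR (cn r c) ∅))
    (hns : ∀ x, phi (phi x) ≠ x) (t g : ℤ)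
    (hF : 3 * (ncyc phi : ℤ) + t = Fintype.card G1.D + Fintype.card G2.D)
    (hg : 12 * g = ((m : ℤ) - 3) * (m - 4) + n * (n - 1) + 2 * t) : Cel (K m n 2) g := by
  classical
  let L := {v : V1 // r v = v}
  let f : V1 ⊕ V2 → L := Sum.elim (fun v => ⟨r v, hM.hr v⟩) (fun v => ⟨c v, hM.hrc v⟩)
  have hf : ∀ u, cn r c u = Sum.inl (f u).1 := by
    rintro (u | u) <;> rfl
  have hgood : Good (tl G1 G2) (hd G1 G2) phi f := by
    refine h.congr f ?_
    intro u v
    have e : ∀ u, fR (cn r c) ∅ u = cn r c u := by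
      intro u
      unfold fR
      rw [if_neg (Set.notMem_empty u)]
    rw [e, e, hf, hf]
    constructor
    · intro h
      rw [h]
    · intro h
      exact Subtype.ext (Sum.inl_injective h)
  refine cel_K_of_good (fun l : L => l.1 ∈ Set.range c) m n ?_ ?_ hm hgood hns ?_ ?_ t g ?_ hg
  · rw [← Nat.card_eq_fintype_card]
    exact hM.hm
  · rw [← hM.hn]
    refine Nat.card_congr
      { toFun := fun l => ⟨l.1.1, l.2⟩
        invFun := fun v => ⟨⟨v.1, ?_⟩, v.2⟩
        left_inv := fun l => rfl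
        right_inv := fun v => rfl }
    obtain ⟨v, w, rfl⟩ := v
    exact hM.hrc w
  · intro u v huv
    rw [MergeAux.cnt_sum G1 G2 f u v]
    have e1 : G1.cnt (fun p => f (Sum.inl p) = u) (fun q => f (Sum.inl q) = v) =
        G1.cnt (fun p => r p = u.1) (fun q => r q = v.1) := by
      congr 1 <;> funext p <;> exact propext Subtype.ext_iff
    have e2 : G2.cnt (fun p => f (Sum.inr p) = u) (fun q => f (Sum.inr q) = v) =
        G2.cnt (fun p => c p = u.1) (fun q => c q = v.1) := by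
      congr 1 <;> funext p <;> exact propext Subtype.ext_iff
    rw [e1, e2]
    have hne : u.1 ≠ v.1 := fun h => huv (Subtype.ext h)
    split_ifs with hN
    · exact hM.two u.1 v.1 hN.1 hN.2 hne
    · exact hM.one u.1 v.1 u.2 v.2 hN hne
  · intro u
    rw [MergeAux.cnt_sum G1 G2 f u u]
    have e1 : G1.cnt (fun p => f (Sum.inl p) = u) (fun q => f (Sum.inl q) = u) =
        G1.cnt (fun p => r p = u.1) (fun q => r q = u.1) := by
      congr 1 <;> funext p <;> exact propext Subtype.ext_iff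
    have e2 : G2.cnt (fun p => f (Sum.inr p) = u) (fun q => f (Sum.inr q) = u) =
        G2.cnt (fun p => c p = u.1) (fun q => c q = u.1) := by
      congr 1 <;> funext p <;> exact propext Subtype.ext_iff
    rw [e1, e2]
    exact hM.zero u.1 u.2
  · rw [Fintype.card_sum]
    push_cast
    exact hF

/-- All vertices are merged by slit gluing. -/
theorem merge0 {V1 V2 : Type} [Fintype V1] [Fintype V2] (W1 : Wg V1) (W2 : Wg V2)
    {r : V1 → V1} {c : V2 → V1} {m n : ℕ} (hM : Mults W1.G W2.G r c m n) (hm : 2 ≤ m)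
    (h1 : ∀ x, W1.G.phi (W1.G.phi x) ≠ x) (h2 : ∀ x, W2.G.phi (W2.G.phi x) ≠ x)
    (hS : Cov W1.G W2.G r c ∅) (g : ℤ)
    (hg : 12 * g = ((m : ℤ) - 3) * (m - 4) + n * (n - 1) + 2 * (W1.t + W2.t)) :
    Cel (K m n 2) g := by
  have g0 := MergeAux.start W1.G W2.G r c
  refine conclude hM hm (good_of_cov hM.hr hM.hrc ∅ hS g0) ?_ (W1.t + W2.t) g
    (MergeAux.nf_sum W1.G W2.G W1.nf W2.nf) hg
  rintro (x | x)
  · intro h
    exact h1 x (Sum.inl_injective h)
  · intro h
    exact h2 x (Sum.inr_injective h)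

/-- One single tube, between the marked faces. -/
theorem merge1 {V1 V2 : Type} [Fintype V1] [Fintype V2] (W1 : Wg V1) (W2 : Wg V2)
    {r : V1 → V1} {c : V2 → V1} {m n : ℕ} (hM : Mults W1.G W2.G r c m n) (hm : 2 ≤ m) (w : V2)
    (h1 : W1.G.src (W1.G.rev W1.x0) = c w) (h2 : W2.G.src (W2.G.rev W2.x0) = w)
    (hS : Cov W1.G W2.G r c {w}) (g : ℤ)
    (hg : 12 * g = ((m : ℤ) - 3) * (m - 4) + n * (n - 1) + 2 * (W1.t + W2.t + 3)) :
    Cel (K m n 2) g := by
  classical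
  have g0 := MergeAux.start W1.G W2.G r c
  have g1 := MergeAux.step hM.hr hM.hrc ∅ w (Set.notMem_empty w) W1.x0 W2.x0 h1 h2 g0
  rw [insert_empty_eq] at g1
  have hns := not_sameCycle_sumCongr W1.G.phi W2.G.phi W1.x0 W2.x0
  refine conclude hM hm (good_of_cov hM.hr hM.hrc {w} hS g1) ?_ (W1.t + W2.t + 3) g ?_ hg
  · refine noshort_mul_swap _ _ _ hns (MergeAux.nofix_sum W1.nofix W2.nofix) ?_
    rintro (x | x) hx
    · left
      rw [sameCycle_sumCongr_inl]
      exact W1.short x (Sum.inl_injective hx)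
    · right
      rw [sameCycle_sumCongr_inr]
      exact W2.short x (Sum.inr_injective hx)
  · have e1 := MergeAux.nf_sum W1.G W2.G W1.nf W2.nf
    have e2 := ncyc_mul_swap _ _ _ hns
    rw [← e2] at e1
    push_cast at e1
    linarith

/-- Two single tubes, one between the marked faces. -/
theorem merge2 {V1 V2 : Type} [Fintype V1] [Fintype V2] (W1 : Wg V1) (W2 : Wg V2)
    {r : V1 → V1} {c : V2 → V1} {m n : ℕ} (hM : Mults W1.G W2.G r c m n) (hm : 2 ≤ m) (w v : V2)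
    (hwv : w ≠ v)
    (h1 : W1.G.src (W1.G.rev W1.x0) = c w) (h2 : W2.G.src (W2.G.rev W2.x0) = w)
    (x3 : W1.G.D) (h3 : W1.G.src (W1.G.rev x3) = c v) (h3' : ¬ W1.G.phi.SameCycle W1.x0 x3)
    (x4 : W2.G.D) (h4 : W2.G.src (W2.G.rev x4) = v)
    (hS : Cov W1.G W2.G r c {w, v}) (g : ℤ)
    (hg : 12 * g = ((m : ℤ) - 3) * (m - 4) + n * (n - 1) + 2 * (W1.t + W2.t + 6)) :
    Cel (K m n 2) g := by
  classical
  have g0 := MergeAux.start W1.G W2.G r c
  have g1 := MergeAux.step hM.hr hM.hrc ∅ w (Set.notMem_empty w) W1.x0 W2.x0 h1 h2 g0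
  rw [insert_empty_eq] at g1
  have g2 := MergeAux.step hM.hr hM.hrc {w} v (fun h => hwv h.symm) x3 x4 h3 h4 g1
  rw [Set.pair_comm v w] at g2
  have hns := not_sameCycle_sumCongr W1.G.phi W2.G.phi W1.x0 W2.x0
  have hns2 : ¬ (Perm.sumCongr W1.G.phi W2.G.phi * swap (Sum.inl W1.x0) (Sum.inr W2.x0)).SameCycle
      (Sum.inl x3) (Sum.inr x4) := by
    rw [sameCycle_mul_swap _ _ _ hns]
    rintro (h | h | h)
    · exact not_sameCycle_sumCongr _ _ _ _ h
    · exact h3' ((sameCycle_sumCongr_inl _ _ _ _).1 h.1).symm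
    · exact not_sameCycle_sumCongr _ _ _ _ h.1
  have hno : ∀ x, (Perm.sumCongr W1.G.phi W2.G.phi * swap (Sum.inl W1.x0) (Sum.inr W2.x0))
      ((Perm.sumCongr W1.G.phi W2.G.phi * swap (Sum.inl W1.x0) (Sum.inr W2.x0)) x) ≠ x := by
    refine noshort_mul_swap _ _ _ hns (MergeAux.nofix_sum W1.nofix W2.nofix) ?_
    rintro (x | x) hx
    · left
      rw [sameCycle_sumCongr_inl]
      exact W1.short x (Sum.inl_injective hx)
    · right
      rw [sameCycle_sumCongr_inr]
      exact W2.short x (Sum.inr_injective hx)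
  refine conclude hM hm (good_of_cov hM.hr hM.hrc {w, v} hS g2) ?_ (W1.t + W2.t + 6) g ?_ hg
  · exact noshort_mul_swap _ _ _ hns2
      (ne_mul_swap _ _ _ hns (MergeAux.nofix_sum W1.nofix W2.nofix))
      (fun x hx => absurd hx (hno x))
  · have e1 := MergeAux.nf_sum W1.G W2.G W1.nf W2.nf
    have e2 := ncyc_mul_swap _ _ _ hns
    have e3 := ncyc_mul_swap _ _ _ hns2
    rw [← e2, ← e3] at e1
    push_cast at e1
    linarith

/-- Two single tubes, for a second map with two different faces of length two, the faces of the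
marked dart `x0` and of `x4`. -/
theorem merge2' {V1 V2 : Type} [Fintype V1] [Fintype V2] (W1 : Wg V1) (G2 : CMap V2)
    {r : V1 → V1} {c : V2 → V1} {m n : ℕ} (hM : Mults W1.G G2 r c m n) (hm : 2 ≤ m) (w v : V2)
    (hwv : w ≠ v) (x0 x4 : G2.D) (t : ℤ) (nofix : ∀ x, G2.phi x ≠ x)
    (hns1 : ∀ x, W1.G.phi (W1.G.phi x) ≠ x)
    (short : ∀ x, G2.phi (G2.phi x) = x → G2.phi.SameCycle x0 x ∨ G2.phi.SameCycle x4 x)
    (h04 : ¬ G2.phi.SameCycle x0 x4) (nf : 3 * (G2.nf : ℤ) + t = Fintype.card G2.D)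
    (h1 : W1.G.src (W1.G.rev W1.x0) = c w) (h2 : G2.src (G2.rev x0) = w)
    (x3 : W1.G.D) (h3 : W1.G.src (W1.G.rev x3) = c v) (h3' : ¬ W1.G.phi.SameCycle W1.x0 x3)
    (h4 : G2.src (G2.rev x4) = v)
    (hS : Cov W1.G G2 r c {w, v}) (g : ℤ)
    (hg : 12 * g = ((m : ℤ) - 3) * (m - 4) + n * (n - 1) + 2 * (W1.t + t + 6)) :
    Cel (K m n 2) g := by
  classical
  have g0 := MergeAux.start W1.G G2 r c
  have g1 := MergeAux.step hM.hr hM.hrc ∅ w (Set.notMem_empty w) W1.x0 x0 h1 h2 g0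
  rw [insert_empty_eq] at g1
  have g2 := MergeAux.step hM.hr hM.hrc {w} v (fun h => hwv h.symm) x3 x4 h3 h4 g1
  rw [Set.pair_comm v w] at g2
  have hns := not_sameCycle_sumCongr W1.G.phi G2.phi W1.x0 x0
  have hns2 : ¬ (Perm.sumCongr W1.G.phi G2.phi * swap (Sum.inl W1.x0) (Sum.inr x0)).SameCycle
      (Sum.inl x3) (Sum.inr x4) := by
    rw [sameCycle_mul_swap _ _ _ hns]
    rintro (h | h | h)
    · exact not_sameCycle_sumCongr _ _ _ _ h
    · exact h3' ((sameCycle_sumCongr_inl _ _ _ _).1 h.1).symm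
    · exact not_sameCycle_sumCongr _ _ _ _ h.1
  refine conclude hM hm (good_of_cov hM.hr hM.hrc {w, v} hS g2) ?_ (W1.t + t + 6) g ?_ hg
  · refine noshort_mul_swap _ _ _ hns2
      (ne_mul_swap _ _ _ hns (MergeAux.nofix_sum W1.nofix nofix)) ?_
    intro x hx
    right
    obtain ⟨k1, k2, k3⟩ := short_mul_swap _ _ _ hns (MergeAux.nofix_sum W1.nofix nofix) x hx
    refine sameCycle_mul_swap_of_sameCycle _ _ _ hns ?_
    rcases x with x | x
    · exact absurd (Sum.inl_injective k1) (hns1 x)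
    · rw [sameCycle_sumCongr_inr] at k3 ⊢
      rcases short x (Sum.inr_injective k1) with h | h
      · exact absurd h k3
      · exact h
  · have e1 := MergeAux.nf_sum W1.G G2 W1.nf nf
    have e2 := ncyc_mul_swap _ _ _ hns
    have e3 := ncyc_mul_swap _ _ _ hns2
    rw [← e2, ← e3] at e1
    push_cast at e1
    linarith

namespace MergeAux

/-- the permutation part of `merge3` -/
theorem triple {D E : Type} [DecidableEq (D ⊕ E)] (σ : Perm D) (τ : Perm E)
    (tri1 : ∀ x, σ (σ (σ x)) = x) (nofix1 : ∀ x, σ x ≠ x)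
    (z : Fin 6 → E) (hz : ∀ i, τ (z i) = z (i + 1)) (hzi : Function.Injective z)
    (tri2 : ∀ x, (∀ i, x ≠ z i) → τ (τ (τ x)) = x) (nofix2 : ∀ x, τ x ≠ x) (a : D)
    (π : Perm (D ⊕ E)) (hπ : π = Perm.sumCongr σ τ * swap (Sum.inl (σ (σ a))) (Sum.inr (z 5)) *
      swap (Sum.inl a) (Sum.inr (z 3)) * swap (Sum.inl (σ a)) (Sum.inr (z 1))) :
    (∀ x, π x ≠ x) ∧ ∀ x, π (π (π x)) = x := by
  have n1 : σ a ≠ a := nofix1 a
  have n2 : σ (σ a) ≠ σ a := nofix1 (σ a)
  have n3 : σ (σ a) ≠ a := by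
    intro h
    have h2 := tri1 a
    rw [h] at h2
    exact n1 h2
  have zne : ∀ i j, i ≠ j → z i ≠ z j := fun i j h h2 => h (hzi h2)
  have hil : ∀ x : D, ∀ y : E, (Sum.inl x : D ⊕ E) ≠ Sum.inr y := fun x y => Sum.inl_ne_inr
  have hir : ∀ x : E, ∀ y : D, (Sum.inr x : D ⊕ E) ≠ Sum.inl y := fun x y => Sum.inr_ne_inl
  have hli : ∀ x y : D, x ≠ y → (Sum.inl x : D ⊕ E) ≠ Sum.inl y :=
    fun x y h h2 => h (Sum.inl_injective h2)
  have hri : ∀ x y : E, x ≠ y → (Sum.inr x : D ⊕ E) ≠ Sum.inr y :=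
    fun x y h h2 => h (Sum.inr_injective h2)
  have sl : ∀ x, (Perm.sumCongr σ τ) (Sum.inl x) = Sum.inl (σ x) := fun x => rfl
  have sr : ∀ x, (Perm.sumCongr σ τ) (Sum.inr x) = Sum.inr (τ x) := fun x => rfl
  have fa : π (Sum.inl a) = Sum.inr (z 4) := by
    rw [hπ, Perm.mul_apply, swap_apply_of_ne_of_ne (hli _ _ n1.symm) (hil _ _), Perm.mul_apply,
      swap_apply_left, Perm.mul_apply,
      swap_apply_of_ne_of_ne (hir _ _) (hri _ _ (zne 3 5 (by decide))), sr, hz]
    rfl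
  have fpa : π (Sum.inl (σ a)) = Sum.inr (z 2) := by
    rw [hπ, Perm.mul_apply, swap_apply_left, Perm.mul_apply,
      swap_apply_of_ne_of_ne (hir _ _) (hri _ _ (zne 1 3 (by decide))), Perm.mul_apply,
      swap_apply_of_ne_of_ne (hir _ _) (hri _ _ (zne 1 5 (by decide))), sr, hz]
    rfl
  have fppa : π (Sum.inl (σ (σ a))) = Sum.inr (z 0) := by
    rw [hπ, Perm.mul_apply, swap_apply_of_ne_of_ne (hli _ _ n2) (hil _ _), Perm.mul_apply,
      swap_apply_of_ne_of_ne (hli _ _ n3) (hil _ _), Perm.mul_apply, swap_apply_left, sr, hz]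
    rfl
  have f5 : π (Sum.inr (z 5)) = Sum.inl a := by
    rw [hπ, Perm.mul_apply, swap_apply_of_ne_of_ne (hir _ _) (hri _ _ (zne 5 1 (by decide))),
      Perm.mul_apply, swap_apply_of_ne_of_ne (hir _ _) (hri _ _ (zne 5 3 (by decide))),
      Perm.mul_apply, swap_apply_right, sl, tri1]
  have f3 : π (Sum.inr (z 3)) = Sum.inl (σ a) := by
    rw [hπ, Perm.mul_apply, swap_apply_of_ne_of_ne (hir _ _) (hri _ _ (zne 3 1 (by decide))),
      Perm.mul_apply, swap_apply_right, Perm.mul_apply,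
      swap_apply_of_ne_of_ne (hli _ _ n3.symm) (hil _ _), sl]
  have f1 : π (Sum.inr (z 1)) = Sum.inl (σ (σ a)) := by
    rw [hπ, Perm.mul_apply, swap_apply_right, Perm.mul_apply,
      swap_apply_of_ne_of_ne (hli _ _ n1) (hil _ _), Perm.mul_apply,
      swap_apply_of_ne_of_ne (hli _ _ n2.symm) (hil _ _), sl]
  have foE : ∀ y, y ≠ z 1 → y ≠ z 3 → y ≠ z 5 → π (Sum.inr y) = Sum.inr (τ y) := by
    intro y y1 y3 y5
    rw [hπ, Perm.mul_apply, swap_apply_of_ne_of_ne (hir _ _) (hri _ _ y1),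
      Perm.mul_apply, swap_apply_of_ne_of_ne (hir _ _) (hri _ _ y3),
      Perm.mul_apply, swap_apply_of_ne_of_ne (hir _ _) (hri _ _ y5), sr]
  have foD : ∀ y, y ≠ a → y ≠ σ a → y ≠ σ (σ a) → π (Sum.inl y) = Sum.inl (σ y) := by
    intro y y1 y2 y3
    rw [hπ, Perm.mul_apply, swap_apply_of_ne_of_ne (hli _ _ y2) (hil _ _),
      Perm.mul_apply, swap_apply_of_ne_of_ne (hli _ _ y1) (hil _ _),
      Perm.mul_apply, swap_apply_of_ne_of_ne (hli _ _ y3) (hil _ _), sl]
  have f4 : π (Sum.inr (z 4)) = Sum.inr (z 5) := by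
    rw [foE _ (zne 4 1 (by decide)) (zne 4 3 (by decide)) (zne 4 5 (by decide)), hz]
    rfl
  have f2 : π (Sum.inr (z 2)) = Sum.inr (z 3) := by
    rw [foE _ (zne 2 1 (by decide)) (zne 2 3 (by decide)) (zne 2 5 (by decide)), hz]
    rfl
  have f0 : π (Sum.inr (z 0)) = Sum.inr (z 1) := by
    rw [foE _ (zne 0 1 (by decide)) (zne 0 3 (by decide)) (zne 0 5 (by decide)), hz]
    rfl
  have hstepD : ∀ y, (y ≠ a ∧ y ≠ σ a ∧ y ≠ σ (σ a)) →
      (σ y ≠ a ∧ σ y ≠ σ a ∧ σ y ≠ σ (σ a)) := by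
    rintro y ⟨y1, y2, y3⟩
    refine ⟨fun h => y3 ?_, fun h => y1 (σ.injective h), fun h => y2 (σ.injective h)⟩
    apply σ.injective
    rw [h, tri1]
  have hstepE : ∀ y, (∀ i, y ≠ z i) → ∀ i, τ y ≠ z i := by
    intro y hy i h
    apply hy (i - 1)
    apply τ.injective
    rw [h, hz, sub_add_cancel]
  have key : ∀ x, (π x ≠ x) ∧ π (π (π x)) = x := by
    rintro (x | x)
    · by_cases hxa : x = a
      · subst hxa
        refine ⟨?_, ?_⟩
        · rw [fa]; exact hir _ _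
        · rw [fa, f4, f5]
      by_cases hxb : x = σ a
      · subst hxb
        refine ⟨?_, ?_⟩
        · rw [fpa]; exact hir _ _
        · rw [fpa, f2, f3]
      by_cases hxc : x = σ (σ a)
      · subst hxc
        refine ⟨?_, ?_⟩
        · rw [fppa]; exact hir _ _
        · rw [fppa, f0, f1]
      have s1 := hstepD x ⟨hxa, hxb, hxc⟩
      have s2 := hstepD _ s1
      have e1 := foD x hxa hxb hxc
      have e2 := foD _ s1.1 s1.2.1 s1.2.2
      have e3 := foD _ s2.1 s2.2.1 s2.2.2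
      refine ⟨?_, ?_⟩
      · rw [e1]
        exact hli _ _ (nofix1 x)
      · rw [e1, e2, e3, tri1]
    · by_cases hx : ∃ i, x = z i
      · obtain ⟨i, rfl⟩ := hx
        fin_cases i
        · refine ⟨?_, ?_⟩
          · show π (Sum.inr (z 0)) ≠ Sum.inr (z 0)
            rw [f0]; exact hri _ _ (zne 1 0 (by decide))
          · show π (π (π (Sum.inr (z 0)))) = Sum.inr (z 0)
            rw [f0, f1, fppa]
        · refine ⟨?_, ?_⟩
          · show π (Sum.inr (z 1)) ≠ Sum.inr (z 1)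
            rw [f1]; exact hil _ _
          · show π (π (π (Sum.inr (z 1)))) = Sum.inr (z 1)
            rw [f1, fppa, f0]
        · refine ⟨?_, ?_⟩
          · show π (Sum.inr (z 2)) ≠ Sum.inr (z 2)
            rw [f2]; exact hri _ _ (zne 3 2 (by decide))
          · show π (π (π (Sum.inr (z 2)))) = Sum.inr (z 2)
            rw [f2, f3, fpa]
        · refine ⟨?_, ?_⟩
          · show π (Sum.inr (z 3)) ≠ Sum.inr (z 3)
            rw [f3]; exact hil _ _
          · show π (π (π (Sum.inr (z 3)))) = Sum.inr (z 3)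
            rw [f3, fpa, f2]
        · refine ⟨?_, ?_⟩
          · show π (Sum.inr (z 4)) ≠ Sum.inr (z 4)
            rw [f4]; exact hri _ _ (zne 5 4 (by decide))
          · show π (π (π (Sum.inr (z 4)))) = Sum.inr (z 4)
            rw [f4, f5, fa]
        · refine ⟨?_, ?_⟩
          · show π (Sum.inr (z 5)) ≠ Sum.inr (z 5)
            rw [f5]; exact hil _ _
          · show π (π (π (Sum.inr (z 5)))) = Sum.inr (z 5)
            rw [f5, fa, f4]
      · have hx0 : ∀ i, x ≠ z i := fun i h => hx ⟨i, h⟩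
        have s1 := hstepE x hx0
        have s2 := hstepE _ s1
        have e1 := foE x (hx0 1) (hx0 3) (hx0 5)
        have e2 := foE _ (s1 1) (s1 3) (s1 5)
        have e3 := foE _ (s2 1) (s2 3) (s2 5)
        refine ⟨?_, ?_⟩
        · rw [e1]
          exact hri _ _ (nofix2 x)
        · rw [e1, e2, e3, tri2 x hx0]
  exact ⟨fun x => (key x).1, fun x => (key x).2⟩

end MergeAux

/-- A triangle of the first map and a hexagon of the second map are joined at three vertices: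
the triangle of the dart `x1` (with vertices `c (v 0)`, then `c (v 4)`, then `c (v 2)`) and the
hexagon with vertices `v 0, ..., v 5` (the darts `z i` from `v i` to `v (i + 1)`). All the faces
of the result are triangles. -/
theorem merge3 {V1 V2 : Type} [Fintype V1] [Fintype V2] (G1 : CMap V1) (G2 : CMap V2)
    {r : V1 → V1} {c : V2 → V1} {m n : ℕ} (hM : Mults G1 G2 r c m n) (hm : 2 ≤ m)
    (tri1 : ∀ x, G1.phi (G1.phi (G1.phi x)) = x) (nofix1 : ∀ x, G1.phi x ≠ x)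
    (z : Fin 6 → G2.D) (hz : ∀ i, G2.phi (z i) = z (i + 1))
    (hzi : Function.Injective fun i => G2.src (z i))
    (tri2 : ∀ x, (∀ i, x ≠ z i) → G2.phi (G2.phi (G2.phi x)) = x) (nofix2 : ∀ x, G2.phi x ≠ x)
    (x1 : G1.D) (h0 : G1.src x1 = c (G2.src (z 0)))
    (h4 : G1.src (G1.rev x1) = c (G2.src (z 4)))
    (h2 : G1.src (G1.rev (G1.phi x1)) = c (G2.src (z 2)))
    (hS : Cov G1 G2 r c {G2.src (z 0), G2.src (z 2), G2.src (z 4)}) (g : ℤ)
    (hg : 12 * g = ((m : ℤ) - 3) * (m - 4) + n * (n - 1)) :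
    Cel (K m n 2) g := by
  classical
  have hzr : ∀ i, G2.src (G2.rev (z i)) = G2.src (z (i + 1)) := by
    intro i
    rw [← MergeAux.phi_src, hz]
  have hzv : ∀ i j, i ≠ j → G2.src (z i) ≠ G2.src (z j) := fun i j h h2 => h (hzi h2)
  have k0 : G1.src (G1.rev (G1.phi (G1.phi x1))) = c (G2.src (z 0)) := by
    rw [← MergeAux.phi_src, tri1, h0]
  have g0 := MergeAux.start G1 G2 r c
  have g1 := MergeAux.step hM.hr hM.hrc ∅ (G2.src (z 0)) (Set.notMem_empty _)
    (G1.phi (G1.phi x1)) (z 5) k0 (hzr 5) g0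
  rw [insert_empty_eq] at g1
  have g2 := MergeAux.step hM.hr hM.hrc {G2.src (z 0)} (G2.src (z 4))
    (fun h => hzv 4 0 (by decide) h) x1 (z 3) h4 (hzr 3) g1
  have g3 := MergeAux.step hM.hr hM.hrc {G2.src (z 4), G2.src (z 0)} (G2.src (z 2))
    (by
      rintro (h | h)
      · exact hzv 2 4 (by decide) h
      · exact hzv 2 0 (by decide) h) (G1.phi x1) (z 1) h2 (hzr 1) g2
  have hSeq : (insert (G2.src (z 2)) {G2.src (z 4), G2.src (z 0)} : Set V2) =
      {G2.src (z 0), G2.src (z 2), G2.src (z 4)} := by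
    ext x
    simp only [Set.mem_insert_iff, Set.mem_singleton_iff]
    tauto
  rw [hSeq] at g3
  obtain ⟨p1, p2⟩ := MergeAux.triple G1.phi G2.phi tri1 nofix1 z hz
    (fun i j h => hzi (congrArg G2.src h)) tri2 nofix2 x1 _ rfl
  refine conclude hM hm (good_of_cov hM.hr hM.hrc _ hS g3) ?_ 0 g ?_ (by rw [hg]; ring)
  · intro x hx
    have h := p2 x
    rw [hx] at h
    exact p1 x h
  · have h := three_mul_ncyc _ p1 p2
    rw [Fintype.card_sum] at h
    have h' := congrArg (fun k : ℕ => (k : ℤ)) h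
    push_cast at h'
    rw [add_zero]
    exact h'

end Pd97
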