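import Mathlib
import Pool.Agent.Lib.Pd97.Merge

/-!
# MP_d97cc3_co : common lemmas for the merging theorems for blocks
-/

namespace Pd97

open Equiv Pool.Agent.Lib.CurG

/-! ### Counting -/

private theorem cm_card_one {α : Type} {P : α → Prop} (a : α) (ha : P a)
    (h : ∀ b, P b → b = a) : Nat.card {x // P x} = 1 := by
  rw [Nat.card_eq_one_iff_unique]
  exact ⟨⟨fun x y => Subtype.ext ((h _ x.2).trans (h _ y.2).symm)⟩, ⟨⟨a, ha⟩⟩⟩

private theorem cm_card_zero {α : Type} {P : α → Prop} (h : ∀ x, ¬ P x) :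
    Nat.card {x // P x} = 0 := by
  have : IsEmpty {x // P x} := ⟨fun x => h _ x.2⟩
  exact Nat.card_of_isEmpty

private theorem cm_card_congr {α : Type} {P Q : α → Prop} (h : ∀ x, P x ↔ Q x) :
    Nat.card {x // P x} = Nat.card {x // Q x} := by
  rw [show P = Q from funext fun x => propext (h x)]

private theorem cm_card_diff {α : Type} [Finite α] (F : Set α) (u v : α) (hu : u ∈ F) (hv : v ∈ F)
    (huv : u ≠ v) : Nat.card F = Nat.card (F \ {u, v} : Set α) + 2 := by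
  rw [Nat.card_coe_set_eq, Nat.card_coe_set_eq]
  have h1 : ({u, v} : Set α) ⊆ F := by
    rintro x (rfl | rfl)
    · exact hu
    · exact hv
  have h2 := Set.ncard_sdiff_add_ncard_of_subset h1 (Set.toFinite _)
  rw [Set.ncard_pair huv] at h2
  exact h2.symm

private theorem cm_even_diff {α : Type} [Finite α] (F : Set α) (u v : α) (hu : u ∈ F) (hv : v ∈ F)
    (huv : u ≠ v) (h : Even (Nat.card F)) : Even (Nat.card (F \ {u, v} : Set α)) := by
  rw [cm_card_diff F u v hu hv huv] at h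
  exact (Nat.even_add.1 h).2 even_two

/-! ### Injections with prescribed values -/

private theorem cm_ext_inj {L1 L2 : Type} [Fintype L1] [Fintype L2]
    (hc : Fintype.card L2 ≤ Fintype.card L1) (f : L2 → L1) (C : Finset L2)
    (hf : Set.InjOn f C) :
    ∃ j : L2 → L1, Function.Injective j ∧ (∀ x ∈ C, j x = f x) ∧
      ∀ x, x ∉ C → ∀ y ∈ C, j x ≠ f y := by
  classical
  have h1 : Fintype.card {x // x ∉ C} ≤ Fintype.card {a // a ∉ C.image f} := by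
    rw [Fintype.card_subtype_compl, Fintype.card_subtype_compl]
    simp only [Fintype.card_coe]
    rw [Finset.card_image_of_injOn hf]
    omega
  obtain ⟨g⟩ := Function.Embedding.nonempty_of_card_le h1
  refine ⟨fun x => if h : x ∈ C then f x else (g ⟨x, h⟩ : L1), ?_, ?_, ?_⟩
  · intro x y hxy
    by_cases hx : x ∈ C <;> by_cases hy : y ∈ C <;> simp only [hx, hy, dif_pos, dif_neg,
      not_false_iff] at hxy
    · exact hf hx hy hxy
    · exact absurd (Finset.mem_image_of_mem f hx) (hxy ▸ (g ⟨y, hy⟩).2)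
    · exact absurd (Finset.mem_image_of_mem f hy) (hxy ▸ (g ⟨x, hx⟩).2)
    · have := g.injective (Subtype.ext hxy)
      exact congrArg Subtype.val this
  · intro x hx
    simp only [hx, dif_pos]
  · intro x hx y hy hxy
    simp only [hx, dif_neg, not_false_iff] at hxy
    exact absurd (Finset.mem_image_of_mem f hy) (hxy ▸ (g ⟨x, hx⟩).2)

theorem exists_inj0 {L1 L2 : Type} [Fintype L1] [Fintype L2]
    (hc : Fintype.card L2 ≤ Fintype.card L1) (A : Finset L1) (B : Finset L2)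
    (h : A.card + B.card ≤ Fintype.card L2) :
    ∃ j : L2 → L1, Function.Injective j ∧ (∀ a ∈ A, ∃ v, j v = a) ∧ ∀ b ∈ B, j b ∉ A := by
  classical
  have h1 : A.card ≤ (Finset.univ \ B).card := by
    rw [Finset.card_sdiff_of_subset (Finset.subset_univ _), Finset.card_univ]
    omega
  obtain ⟨C, hCB, hCA⟩ := Finset.exists_subset_card_eq h1
  let e := Finset.equivOfCardEq hCA
  obtain ⟨g⟩ := Function.Embedding.nonempty_of_card_le hc
  let f : L2 → L1 := fun x => if h : x ∈ C then (e ⟨x, h⟩ : L1) else g x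
  have hfC : ∀ x (h : x ∈ C), f x = (e ⟨x, h⟩ : L1) := fun x h => dif_pos h
  have hf : Set.InjOn f C := by
    intro x hx y hy hxy
    rw [hfC x hx, hfC y hy] at hxy
    exact congrArg Subtype.val (e.injective (Subtype.ext hxy))
  have hfA : ∀ a ∈ A, ∃ x ∈ C, f x = a := by
    intro a ha
    refine ⟨(e.symm ⟨a, ha⟩ : L2), (e.symm ⟨a, ha⟩).2, ?_⟩
    rw [hfC _ (e.symm ⟨a, ha⟩).2]
    simp
  obtain ⟨j, hj1, hj2, hj3⟩ := cm_ext_inj hc f C hf
  refine ⟨j, hj1, fun a ha => ?_, fun b hb hbA => ?_⟩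
  · obtain ⟨x, hx, hxa⟩ := hfA a ha
    exact ⟨x, (hj2 x hx).trans hxa⟩
  · have hbC : b ∉ C := fun h => (Finset.mem_sdiff.1 (hCB h)).2 hb
    obtain ⟨x, hx, hxa⟩ := hfA _ hbA
    exact hj3 b hbC x hx hxa.symm

theorem exists_inj {L1 L2 : Type} [Fintype L1] [Fintype L2]
    (hc : Fintype.card L2 ≤ Fintype.card L1) (w1 : L1) (w2 : L2) (A : Finset L1) (B : Finset L2)
    (hA : w1 ∉ A) (hB : w2 ∉ B) (h : A.card + B.card + 1 ≤ Fintype.card L2) :
    ∃ j : L2 → L1, Function.Injective j ∧ j w2 = w1 ∧ (∀ a ∈ A, ∃ v, j v = a) ∧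
      ∀ b ∈ B, j b ∉ A := by
  classical
  have h1 : A.card ≤ (Finset.univ \ insert w2 B).card := by
    rw [Finset.card_sdiff_of_subset (Finset.subset_univ _), Finset.card_univ,
      Finset.card_insert_of_notMem hB]
    omega
  obtain ⟨C, hCB, hCA⟩ := Finset.exists_subset_card_eq h1
  have hwC : w2 ∉ C := fun h => (Finset.mem_sdiff.1 (hCB h)).2 (Finset.mem_insert_self _ _)
  let e := Finset.equivOfCardEq hCA
  obtain ⟨g⟩ := Function.Embedding.nonempty_of_card_le hc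
  let f : L2 → L1 := fun x => if x = w2 then w1 else
    if h : x ∈ C then (e ⟨x, h⟩ : L1) else g x
  have hfw : f w2 = w1 := if_pos rfl
  have hfC : ∀ x (h : x ∈ C), f x = (e ⟨x, h⟩ : L1) := by
    intro x h
    have hx : x ≠ w2 := fun h' => hwC (h' ▸ h)
    change (if x = w2 then w1 else if h : x ∈ C then (e ⟨x, h⟩ : L1) else g x) = _
    rw [if_neg hx, dif_pos h]
  have hf : Set.InjOn f (insert w2 C : Finset L2) := by
    intro x hx y hy hxy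
    rw [Finset.mem_coe, Finset.mem_insert] at hx hy
    rcases hx with rfl | hx <;> rcases hy with rfl | hy
    · rfl
    · rw [hfw, hfC y hy] at hxy
      exact absurd (hxy ▸ (e ⟨y, hy⟩).2) hA
    · rw [hfw, hfC x hx] at hxy
      exact absurd (hxy ▸ (e ⟨x, hx⟩).2) hA
    · rw [hfC x hx, hfC y hy] at hxy
      exact congrArg Subtype.val (e.injective (Subtype.ext hxy))
  have hfA : ∀ a ∈ A, ∃ x ∈ C, f x = a := by
    intro a ha
    refine ⟨(e.symm ⟨a, ha⟩ : L2), (e.symm ⟨a, ha⟩).2, ?_⟩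
    rw [hfC _ (e.symm ⟨a, ha⟩).2]
    simp
  obtain ⟨j, hj1, hj2, hj3⟩ := cm_ext_inj hc f _ hf
  refine ⟨j, hj1, (hj2 w2 (Finset.mem_insert_self _ _)).trans hfw, fun a ha => ?_,
    fun b hb hbA => ?_⟩
  · obtain ⟨x, hx, hxa⟩ := hfA a ha
    exact ⟨x, (hj2 x (Finset.mem_insert_of_mem hx)).trans hxa⟩
  · have hbC : b ∉ insert w2 C := by
      rw [Finset.mem_insert]
      rintro (rfl | h)
      · exact hB hb
      · exact (Finset.mem_sdiff.1 (hCB h)).2 (Finset.mem_insert_of_mem hb)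
    obtain ⟨x, hx, hxa⟩ := hfA _ hbA
    exact hj3 b hbC x (Finset.mem_insert_of_mem hx) hxa.symm

/-! ### Blocks -/

/-- the missing edge -/
def Mis {V : Type} (δ : ℕ) (w a u v : V) : Prop := δ = 1 ∧ ((u = w ∧ v = a) ∨ (u = a ∧ v = w))

/-- A plain block: triangular embedding of a complete graph (`δ = 0`) or of a complete graph minus
the edge `w a` (`δ = 1`). -/
structure PB (V : Type) (δ : ℕ) where
  Γ : SimpleGraph V
  S : TriSys Γ
  w : V
  a : V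
  hwa : w ≠ a
  adj : ∀ u v, Γ.Adj u v ↔ u ≠ v ∧ ¬ Mis δ w a u v

/-- A split block: one vertex is split into `y` and `e`; `p` is a neighbour of `y`, `q` is a
neighbour of `e`; if `δ = 1` then the edge `w a` is missing. -/
structure SB (V : Type) (δ : ℕ) where
  Γ : SimpleGraph V
  S : TriSys Γ
  y : V
  e : V
  w : V
  a : V
  p : V
  q : V
  hye : y ≠ e
  hwy : w ≠ y
  hwe : w ≠ e
  hpy : p ≠ y
  hpe : p ≠ e
  hpw : p ≠ w
  hqy : q ≠ y
  hqe : q ≠ e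
  hqw : q ≠ w
  hpq : p ≠ q
  haw : a ≠ w
  hae : a ≠ e
  nye : ¬ Γ.Adj y e
  adj : ∀ u v, u ≠ y → u ≠ e → v ≠ y → v ≠ e → (Γ.Adj u v ↔ u ≠ v ∧ ¬ Mis δ w a u v)
  adjy : ∀ v, v ≠ y → v ≠ e → ((Γ.Adj v y ∨ Γ.Adj v e) ↔ ¬ Mis δ w a v y)
  adjye : ∀ v, ¬ (Γ.Adj v y ∧ Γ.Adj v e)
  py : Γ.Adj p y
  qe : Γ.Adj q e
  ha : δ = 1 → a = y ∨ a = q

open Classical in
/-- the names of the vertices of a split block -/
noncomputable def SB.r {V : Type} {δ : ℕ} (B : SB V δ) (v : V) : V := if v = B.e then B.y else v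

private theorem cm_mis_symm {V : Type} {δ : ℕ} {w a u v : V} : Mis δ w a u v ↔ Mis δ w a v u := by
  unfold Mis
  tauto

theorem PB.cnt {V : Type} [Fintype V] {δ : ℕ} (B : PB V δ) (u v : V) :
    Nat.card {p : V × V // B.Γ.Adj p.1 p.2 ∧ p.1 = u ∧ p.2 = v} =
      @ite ℕ (u = v ∨ Mis δ B.w B.a u v) (Classical.propDecidable _) 0 1 := by
  by_cases h : B.Γ.Adj u v
  · have h' := (B.adj u v).1 h
    rw [if_neg (by tauto)]
    refine cm_card_one (u, v) ⟨h, rfl, rfl⟩ ?_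
    rintro ⟨p, q⟩ ⟨_, h1, h2⟩
    exact Prod.ext h1 h2
  · have h' : u = v ∨ Mis δ B.w B.a u v := by
      by_contra hc
      exact h ((B.adj u v).2 (by tauto))
    rw [if_pos h']
    refine cm_card_zero ?_
    rintro ⟨p, q⟩ ⟨h0, h1, h2⟩
    simp only at h0 h1 h2
    subst h1 h2
    exact h h0

theorem SB.cnt {V : Type} [Fintype V] {δ : ℕ} (B : SB V δ) (u v : V) (hu : u ≠ B.e)
    (hv : v ≠ B.e) :
    Nat.card {p : V × V // B.Γ.Adj p.1 p.2 ∧ B.r p.1 = u ∧ B.r p.2 = v} =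
      @ite ℕ (u = v ∨ Mis δ B.w B.a u v) (Classical.propDecidable _) 0 1 := by
  have hre : B.r B.e = B.y := if_pos rfl
  have hrn : ∀ p, p ≠ B.e → B.r p = p := fun p hp => if_neg hp
  have hr1 : ∀ p u, u ≠ B.e → u ≠ B.y → (B.r p = u ↔ p = u) := by
    intro p u hu hy
    by_cases hp : p = B.e
    · subst hp
      rw [hre]
      exact ⟨fun h => absurd h.symm hy, fun h => absurd h.symm hu⟩
    · rw [hrn p hp]
  have hr2 : ∀ p, B.r p = B.y ↔ (p = B.y ∨ p = B.e) := by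
    intro p
    by_cases hp : p = B.e
    · subst hp
      simp [hre]
    · rw [hrn p hp]
      simp [hp]
  have hsw : ∀ v, B.Γ.Adj B.y v ↔ B.Γ.Adj v B.y := fun v => B.Γ.adj_comm _ _
  by_cases hyu : u = B.y <;> by_cases hyv : v = B.y
  · -- both equal to `y`
    subst hyu
    rw [if_pos (Or.inl hyv.symm)]
    refine cm_card_zero ?_
    rintro ⟨p, q⟩ ⟨h0, h1, h2⟩
    simp only [hyv, hr2] at h0 h1 h2
    rcases h1 with rfl | rfl <;> rcases h2 with rfl | rfl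
    · exact B.Γ.loopless.irrefl _ h0
    · exact B.nye h0
    · exact B.nye h0.symm
    · exact B.Γ.loopless.irrefl _ h0
  · -- `u = y`
    subst hyu
    have ha := B.adjy v hyv hv
    have hn := B.adjye v
    by_cases hM : Mis δ B.w B.a v B.y
    · rw [if_pos (Or.inr (cm_mis_symm.1 hM))]
      have hna : ¬ (B.Γ.Adj v B.y ∨ B.Γ.Adj v B.e) := fun h => ha.1 h hM
      refine cm_card_zero ?_
      rintro ⟨p, q⟩ ⟨h0, h1, h2⟩
      simp only [hr2, hr1 _ v hv hyv] at h0 h1 h2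
      subst h2
      rcases h1 with rfl | rfl
      · exact hna (Or.inl h0.symm)
      · exact hna (Or.inr h0.symm)
    · rw [if_neg (fun h => h.elim (fun h => hyv h.symm) (fun h => hM (cm_mis_symm.1 h)))]
      rcases ha.2 hM with h | h
      · refine cm_card_one (B.y, v) ⟨h.symm, (hr2 _).2 (Or.inl rfl), hrn v hv⟩ ?_
        rintro ⟨p, q⟩ ⟨h0, h1, h2⟩
        simp only [hr2, hr1 _ v hv hyv] at h0 h1 h2
        subst h2
        rcases h1 with rfl | rfl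
        · rfl
        · exact absurd ⟨h, h0.symm⟩ hn
      · refine cm_card_one (B.e, v) ⟨h.symm, (hr2 _).2 (Or.inr rfl), hrn v hv⟩ ?_
        rintro ⟨p, q⟩ ⟨h0, h1, h2⟩
        simp only [hr2, hr1 _ v hv hyv] at h0 h1 h2
        subst h2
        rcases h1 with rfl | rfl
        · exact absurd ⟨h0.symm, h⟩ hn
        · rfl
  · -- `v = y`
    subst hyv
    have ha := B.adjy u hyu hu
    have hn := B.adjye u
    by_cases hM : Mis δ B.w B.a u B.y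
    · rw [if_pos (Or.inr hM)]
      have hna : ¬ (B.Γ.Adj u B.y ∨ B.Γ.Adj u B.e) := fun h => ha.1 h hM
      refine cm_card_zero ?_
      rintro ⟨p, q⟩ ⟨h0, h1, h2⟩
      simp only [hr2, hr1 _ u hu hyu] at h0 h1 h2
      subst h1
      rcases h2 with rfl | rfl
      · exact hna (Or.inl h0)
      · exact hna (Or.inr h0)
    · rw [if_neg (fun h => h.elim hyu hM)]
      rcases ha.2 hM with h | h
      · refine cm_card_one (u, B.y) ⟨h, hrn u hu, (hr2 _).2 (Or.inl rfl)⟩ ?_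
        rintro ⟨p, q⟩ ⟨h0, h1, h2⟩
        simp only [hr2, hr1 _ u hu hyu] at h0 h1 h2
        subst h1
        rcases h2 with rfl | rfl
        · rfl
        · exact absurd ⟨h, h0⟩ hn
      · refine cm_card_one (u, B.e) ⟨h, hrn u hu, (hr2 _).2 (Or.inr rfl)⟩ ?_
        rintro ⟨p, q⟩ ⟨h0, h1, h2⟩
        simp only [hr2, hr1 _ u hu hyu] at h0 h1 h2
        subst h1
        rcases h2 with rfl | rfl
        · exact absurd ⟨h0, h⟩ hn
        · rfl
  · -- both different from `y`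
    have ha := B.adj u v hyu hu hyv hv
    by_cases h : B.Γ.Adj u v
    · have h' := ha.1 h
      rw [if_neg (by tauto)]
      refine cm_card_one (u, v) ⟨h, hrn u hu, hrn v hv⟩ ?_
      rintro ⟨p, q⟩ ⟨_, h1, h2⟩
      simp only [hr1 _ v hv hyv, hr1 _ u hu hyu] at h1 h2
      exact Prod.ext h1 h2
    · have h' : u = v ∨ Mis δ B.w B.a u v := by
        by_contra hc
        exact h (ha.2 (by tauto))
      rw [if_pos h']
      refine cm_card_zero ?_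
      rintro ⟨p, q⟩ ⟨h0, h1, h2⟩
      simp only [hr1 _ v hv hyv, hr1 _ u hu hyu] at h0 h1 h2
      subst h1 h2
      exact h h0

/-- every vertex of a block has a neighbour -/
theorem PB.hne {V : Type} [Fintype V] {δ : ℕ} (B : PB V δ) (h3 : 3 ≤ Fintype.card V) (v : V) :
    ∃ u, B.Γ.Adj v u := by
  classical
  let x := if v = B.w then B.a else B.w
  have h1 : ({v, x} : Finset V).card < (Finset.univ : Finset V).card :=
    Finset.card_le_two.trans_lt (by rw [Finset.card_univ]; omega)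
  obtain ⟨u, -, hu⟩ := Finset.exists_mem_notMem_of_card_lt_card h1
  simp only [Finset.mem_insert, Finset.mem_singleton, not_or] at hu
  refine ⟨u, (B.adj v u).2 ⟨fun h => hu.1 h.symm, ?_⟩⟩
  rintro ⟨-, ⟨h2, h3⟩ | ⟨h2, h3⟩⟩
  · apply hu.2
    change u = if v = B.w then B.a else B.w
    rw [if_pos h2, h3]
  · apply hu.2
    have h4 : v ≠ B.w := by
      rw [h2]
      exact B.hwa.symm
    change u = if v = B.w then B.a else B.w
    rw [if_neg h4, h3]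

theorem SB.hne {V : Type} [Fintype V] {δ : ℕ} (B : SB V δ) (v : V) : ∃ u, B.Γ.Adj v u := by
  by_cases hy : v = B.y
  · exact ⟨B.p, hy ▸ B.py.symm⟩
  by_cases he : v = B.e
  · exact ⟨B.q, he ▸ B.qe.symm⟩
  by_cases hp : v = B.p
  · exact ⟨B.y, hp ▸ B.py⟩
  refine ⟨B.p, (B.adj v B.p hy he B.hpy B.hpe).2 ⟨hp, ?_⟩⟩
  rintro ⟨hδ, ⟨-, h⟩ | ⟨-, h⟩⟩
  · rcases B.ha hδ with h' | h'
    · exact B.hpy (h.trans h')
    · exact B.hpq (h.trans h')
  · exact B.hpw h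

/-- A triangular embedding, possibly with the edge `b w` doubled, as a map with a marked face. -/
theorem exists_wg {V : Type} [Fintype V] {Γ : SimpleGraph V} (S : TriSys Γ)
    (hne : ∀ v, ∃ u, Γ.Adj v u) (w b : V) (δ : ℕ) (hδ : δ ≤ 1) (hb : δ = 1 → Γ.Adj b w) :
    ∃ W : Wg V, W.t = - (δ : ℤ) ∧ W.G.src (W.G.rev W.x0) = w ∧
      (∀ u v, Γ.Adj u v → W.G.Ad u v) ∧ (δ = 0 → ∀ x, W.G.phi (W.G.phi x) ≠ x) ∧
      (∀ v, ∃ x, W.G.src (W.G.rev x) = v ∧ ¬ W.G.phi.SameCycle W.x0 x) ∧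
      (∀ P : V → V → Prop, Nat.card {x : W.G.D // P (W.G.src x) (W.G.src (W.G.rev x))} =
        Nat.card {p : V × V // Γ.Adj p.1 p.2 ∧ P p.1 p.2} +
        δ * (@ite ℕ (P b w) (Classical.propDecidable _) 1 0 +
        @ite ℕ (P w b) (Classical.propDecidable _) 1 0)) := by
  rcases Nat.le_one_iff_eq_zero_or_eq_one.1 hδ with rfl | rfl
  · obtain ⟨W, h1, h2, h3, h4, h5⟩ := exists_wing0 S hne w
    refine ⟨⟨W.G, W.x0, 0, W.nofix, W.short, ?_⟩, rfl, h2, h3, fun _ => h4, W.two, fun P => ?_⟩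
    · have := W.nf
      rw [h1, add_zero] at this
      have h6 : 3 * (W.G.nf : ℤ) = Fintype.card W.G.D := by exact_mod_cast this
      change 3 * (W.G.nf : ℤ) + 0 = Fintype.card W.G.D
      linarith
    · exact (h5 P).trans (by rw [zero_mul, add_zero])
  · obtain ⟨W, h1, h2, h3, h5⟩ := exists_wing1 S hne w b (hb rfl)
    refine ⟨⟨W.G, W.x0, -1, W.nofix, W.short, ?_⟩, rfl, h2, h3,
      fun h => absurd h one_ne_zero, W.two, fun P => ?_⟩
    · have := W.nf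
      rw [h1] at this
      have h6 : 3 * (W.G.nf : ℤ) = Fintype.card W.G.D + 1 := by exact_mod_cast this
      linarith
    · exact (h5 P).trans (by rw [one_mul, add_assoc])

/-! ### The multiplicities -/

private theorem cm_key (δ : ℕ) (hδ : δ ≤ 1) (E X Y X' Y' : Prop) (hE : ¬ E)
    (hX : δ = 1 → (X ↔ X')) (hY : δ = 1 → (Y ↔ Y')) (hXY : δ = 1 → ¬ (X' ∧ Y')) :
    @ite ℕ (E ∨ (δ = 1 ∧ (X ∨ Y))) (Classical.propDecidable _) 0 1 +
      δ * (@ite ℕ Y' (Classical.propDecidable _) 1 0 +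
        @ite ℕ X' (Classical.propDecidable _) 1 0) = 1 := by
  rcases Nat.le_one_iff_eq_zero_or_eq_one.1 hδ with rfl | rfl
  · rw [if_neg (by rintro (h | ⟨h, -⟩); exacts [hE h, zero_ne_one h]), zero_mul, add_zero]
  · have hX' := hX rfl
    have hY' := hY rfl
    have hXY' := hXY rfl
    by_cases h1 : X' <;> by_cases h2 : Y'
    · exact absurd ⟨h1, h2⟩ hXY'
    · rw [if_pos (Or.inr ⟨rfl, Or.inl (hX'.2 h1)⟩), if_neg h2, if_pos h1]
    · rw [if_pos (Or.inr ⟨rfl, Or.inr (hY'.2 h2)⟩), if_pos h2, if_neg h1]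
    · rw [if_neg (by
        rintro (h | ⟨-, h | h⟩)
        exacts [hE h, h1 (hX'.1 h), h2 (hY'.1 h)]), if_neg h2, if_neg h1]

/-- The multiplicities of the two maps add up to those of `K_m + K_n`: the first map has the edges
of the graph `Γ1` (complete graph on the names, minus `w1 a1` if `δ1 = 1`) and, if `δ2 = 1`, a
second edge from `w1` to `c b2`; the second map has the edges of the graph `Γ2` (complete graph on
its names, minus `w2 b2` if `δ2 = 1`) and, if `δ1 = 1`, a second edge from `w2` to `a2`. -/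
theorem mults_of {V1 V2 : Type} [Fintype V1] [Fintype V2] {Γ1 : SimpleGraph V1}
    {Γ2 : SimpleGraph V2} {G1 : CMap V1} {G2 : CMap V2} {r1 : V1 → V1} {r2 : V2 → V2}
    {c : V2 → V1} {m n δ1 δ2 : ℕ} (hδ1 : δ1 ≤ 1) (hδ2 : δ2 ≤ 1) {w1 a1 : V1} {w2 a2 b2 : V2}
    (hr1 : ∀ v, r1 (r1 v) = r1 v) (hr2 : ∀ v, r2 (r2 v) = r2 v) (hrc : ∀ v, r1 (c v) = c v)
    (hc : ∀ u v, c u = c v ↔ r2 u = r2 v) (hm : Nat.card {v // r1 v = v} = m)
    (hn : Nat.card {v // r2 v = v} = n)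
    (hw1 : c w2 = w1) (ha1 : δ1 = 1 → c a2 = a1) (hw2 : r2 w2 = w2) (ha2 : δ1 = 1 → r2 a2 = a2)
    (hb2 : δ2 = 1 → r2 b2 = b2) (hwa : δ1 = 1 → w1 ≠ a1) (hwb : δ2 = 1 → w2 ≠ b2)
    (h1 : ∀ u v, r1 u = u → r1 v = v →
      Nat.card {p : V1 × V1 // Γ1.Adj p.1 p.2 ∧ r1 p.1 = u ∧ r1 p.2 = v} =
        @ite ℕ (u = v ∨ Mis δ1 w1 a1 u v) (Classical.propDecidable _) 0 1)
    (h2 : ∀ u v, r2 u = u → r2 v = v →
      Nat.card {p : V2 × V2 // Γ2.Adj p.1 p.2 ∧ r2 p.1 = u ∧ r2 p.2 = v} =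
        @ite ℕ (u = v ∨ Mis δ2 w2 b2 u v) (Classical.propDecidable _) 0 1)
    (c1 : ∀ P : V1 → V1 → Prop, Nat.card {x : G1.D // P (G1.src x) (G1.src (G1.rev x))} =
        Nat.card {p : V1 × V1 // Γ1.Adj p.1 p.2 ∧ P p.1 p.2} +
        δ2 * (@ite ℕ (P (c b2) w1) (Classical.propDecidable _) 1 0 +
        @ite ℕ (P w1 (c b2)) (Classical.propDecidable _) 1 0))
    (c2 : ∀ P : V2 → V2 → Prop, Nat.card {x : G2.D // P (G2.src x) (G2.src (G2.rev x))} =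
        Nat.card {p : V2 × V2 // Γ2.Adj p.1 p.2 ∧ P p.1 p.2} +
        δ1 * (@ite ℕ (P a2 w2) (Classical.propDecidable _) 1 0 +
        @ite ℕ (P w2 a2) (Classical.propDecidable _) 1 0)) :
    Mults G1 G2 r1 c m n := by
  have hcr : ∀ v, c (r2 v) = c v := fun v => (hc _ _).2 (hr2 v)
  have hrw : r1 w1 = w1 := by rw [← hw1, hrc]
  -- the two counting formulas
  have k1 : ∀ u v, r1 u = u → r1 v = v → G1.cnt (fun p => r1 p = u) (fun q => r1 q = v) =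
      @ite ℕ (u = v ∨ Mis δ1 w1 a1 u v) (Classical.propDecidable _) 0 1 +
      δ2 * (@ite ℕ (c b2 = u ∧ w1 = v) (Classical.propDecidable _) 1 0 +
        @ite ℕ (w1 = u ∧ c b2 = v) (Classical.propDecidable _) 1 0) := by
    intro u v hu hv
    have h := c1 (fun p q => r1 p = u ∧ r1 q = v)
    have q1 : (r1 (c b2) = u ∧ r1 w1 = v) = (c b2 = u ∧ w1 = v) := by rw [hrc, hrw]
    have q2 : (r1 w1 = u ∧ r1 (c b2) = v) = (w1 = u ∧ c b2 = v) := by rw [hrc, hrw]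
    beta_reduce at h
    rw [q1, q2] at h
    rw [← h1 u v hu hv]
    exact h
  have k2 : ∀ u v, r2 u = u → r2 v = v → G2.cnt (fun p => c p = c u) (fun q => c q = c v) =
      @ite ℕ (u = v ∨ Mis δ2 w2 b2 u v) (Classical.propDecidable _) 0 1 +
      δ1 * (@ite ℕ (r2 a2 = u ∧ w2 = v) (Classical.propDecidable _) 1 0 +
        @ite ℕ (w2 = u ∧ r2 a2 = v) (Classical.propDecidable _) 1 0) := by
    intro u v hu hv
    have h := c2 (fun p q => r2 p = u ∧ r2 q = v)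
    have q1 : (r2 a2 = u ∧ r2 w2 = v) = (r2 a2 = u ∧ w2 = v) := by rw [hw2]
    have q2 : (r2 w2 = u ∧ r2 a2 = v) = (w2 = u ∧ r2 a2 = v) := by rw [hw2]
    beta_reduce at h
    rw [q1, q2] at h
    rw [← h2 u v hu hv]
    have e1 : ∀ p, c p = c u ↔ r2 p = u := fun p => by rw [hc, hu]
    have e2 : ∀ p, c p = c v ↔ r2 p = v := fun p => by rw [hc, hv]
    unfold CMap.cnt
    simp only [e1, e2]
    exact h
  have k0 : ∀ u v, (u ∉ Set.range c ∨ v ∉ Set.range c) →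
      G2.cnt (fun p => c p = u) (fun q => c q = v) = 0 := by
    intro u v h
    refine cm_card_zero ?_
    rintro x ⟨h1, h2⟩
    rcases h with h | h
    · exact h ⟨_, h1⟩
    · exact h ⟨_, h2⟩
  have hex : ∀ u, u ∈ Set.range c → ∃ u2, r2 u2 = u2 ∧ c u2 = u := by
    rintro _ ⟨u, rfl⟩
    exact ⟨r2 u, hr2 u, hcr u⟩
  have hcw : ∀ u, r2 u = u → (c u = w1 ↔ u = w2) := by
    intro u hu
    rw [← hw1, hc, hu, hw2]
  have hca : δ1 = 1 → ∀ u, r2 u = u → (c u = a1 ↔ u = a2) := by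
    intro h u hu
    rw [← ha1 h, hc, hu, ha2 h]
  have hcb : δ2 = 1 → ∀ u, r2 u = u → (c u = c b2 ↔ u = b2) := by
    intro h u hu
    rw [hc, hu, hb2 h]
  have hcc : ∀ u v, r2 u = u → r2 v = v → (c u = c v ↔ u = v) := by
    intro u v hu hv
    rw [hc, hu, hv]
  refine ⟨hr1, hrc, hm, ?_, ?_, ?_, ?_⟩
  · -- the number of names of `G2`
    rw [← hn]
    symm
    refine Nat.card_congr (Equiv.ofBijective
      (fun v : {v // r2 v = v} => (⟨c v, ⟨v, rfl⟩⟩ : Set.range c)) ⟨?_, ?_⟩)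
    · intro u v huv
      have h := congrArg Subtype.val huv
      exact Subtype.ext ((hcc _ _ u.2 v.2).1 h)
    · rintro ⟨u, hu⟩
      obtain ⟨u2, h1, h2⟩ := hex u hu
      exact ⟨⟨u2, h1⟩, Subtype.ext h2⟩
  · intro u v hu hv huv
    obtain ⟨u2, hu2, rfl⟩ := hex u hu
    obtain ⟨v2, hv2, rfl⟩ := hex v hv
    have huv2 : u2 ≠ v2 := fun h => huv (by rw [h])
    rw [k1 _ _ (hrc _) (hrc _), k2 _ _ hu2 hv2]
    have A1 := cm_key δ1 hδ1 (c u2 = c v2) (c u2 = w1 ∧ c v2 = a1) (c u2 = a1 ∧ c v2 = w1)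
      (w2 = u2 ∧ r2 a2 = v2) (r2 a2 = u2 ∧ w2 = v2) huv
      (fun h => by
        rw [hcw u2 hu2, hca h v2 hv2, ha2 h, eq_comm (a := w2), eq_comm (a := a2)])
      (fun h => by
        rw [hcw v2 hv2, hca h u2 hu2, ha2 h, eq_comm (a := w2), eq_comm (a := a2)])
      (fun h => by
        rintro ⟨⟨h3, -⟩, h4, -⟩
        rw [ha2 h] at h4
        apply hwa h
        rw [← hw1, ← ha1 h, h3, h4])
    have A2 := cm_key δ2 hδ2 (u2 = v2) (u2 = w2 ∧ v2 = b2) (u2 = b2 ∧ v2 = w2)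
      (w1 = c u2 ∧ c b2 = c v2) (c b2 = c u2 ∧ w1 = c v2) huv2
      (fun h => by
        rw [eq_comm (a := w1), eq_comm (a := c b2), hcw u2 hu2, hcb h v2 hv2])
      (fun h => by
        rw [eq_comm (a := w1), eq_comm (a := c b2), hcw v2 hv2, hcb h u2 hu2])
      (fun h => by
        rintro ⟨⟨h3, -⟩, h4, -⟩
        rw [← h3] at h4
        have h5 : c b2 = c w2 := by rw [h4, hw1]
        rw [hcc _ _ (hb2 h) hw2] at h5
        exact hwb h h5.symm)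
    have key : ∀ p q r s : ℕ, p + s = 1 → r + q = 1 → (p + q) + (r + s) = 2 := by
      intro p q r s h3 h4
      omega
    exact key _ _ _ _ A1 A2
  · intro u v hu hv hn' huv
    rw [k1 u v hu hv, k0 u v (by tauto)]
    have hw1r : w1 ∈ Set.range c := ⟨w2, hw1⟩
    have hbr : c b2 ∈ Set.range c := ⟨b2, rfl⟩
    have hM : ¬ Mis δ1 w1 a1 u v := by
      rintro ⟨h, ⟨rfl, rfl⟩ | ⟨rfl, rfl⟩⟩
      · exact hn' ⟨hw1r, ⟨a2, ha1 h⟩⟩
      · exact hn' ⟨⟨a2, ha1 h⟩, hw1r⟩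
    have q1 : ¬ (c b2 = u ∧ w1 = v) := by
      rintro ⟨rfl, rfl⟩
      exact hn' ⟨hbr, hw1r⟩
    have q2 : ¬ (w1 = u ∧ c b2 = v) := by
      rintro ⟨rfl, rfl⟩
      exact hn' ⟨hw1r, hbr⟩
    rw [if_neg (by tauto), if_neg q1, if_neg q2]
    simp
  · intro u hu
    rw [k1 u u hu hu, if_pos (Or.inl rfl)]
    have q1 : δ2 * (@ite ℕ (c b2 = u ∧ w1 = u) (Classical.propDecidable _) 1 0 +
        @ite ℕ (w1 = u ∧ c b2 = u) (Classical.propDecidable _) 1 0) = 0 := by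
      rcases Nat.le_one_iff_eq_zero_or_eq_one.1 hδ2 with rfl | rfl
      · rw [zero_mul]
      · have h : ∀ u, ¬ (c b2 = u ∧ w1 = u) := by
          rintro u ⟨h3, h4⟩
          have h5 : c b2 = c w2 := by rw [h3, hw1, h4]
          rw [hcc _ _ (hb2 rfl) hw2] at h5
          exact hwb rfl h5.symm
        rw [if_neg (h u), if_neg (fun h' => h u ⟨h'.2, h'.1⟩)]
    rw [q1]
    by_cases hur : u ∈ Set.range c
    · obtain ⟨u2, hu2, rfl⟩ := hex u hur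
      rw [k2 u2 u2 hu2 hu2, if_pos (Or.inl rfl)]
      rcases Nat.le_one_iff_eq_zero_or_eq_one.1 hδ1 with rfl | rfl
      · simp
      · have h : ∀ u, ¬ (r2 a2 = u ∧ w2 = u) := by
          rintro u ⟨h3, h4⟩
          rw [ha2 rfl] at h3
          apply hwa rfl
          rw [← hw1, ← ha1 rfl, h3, h4]
        rw [if_neg (h u2), if_neg (fun h' => h u2 ⟨h'.2, h'.1⟩)]
    · rw [k0 u u (Or.inl hur)]

/-! ### Matchings -/

section
variable {V1 V2 : Type} [Finite V2] {G1 : CMap V1} {G2 : CMap V2} {r : V1 → V1} {c : V2 → V1}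

/-- no split vertices -/
theorem cov_pp (hr : ∀ v, r v = v) (S : Set V2) (he : Even (Nat.card (Sᶜ : Set V2)))
    (h : ∀ u v, u ∉ S → v ∉ S → u ≠ v → okp G1 G2 c u v) : Cov G1 G2 r c S :=
  Or.inl ⟨hr, Mat.of_pairwise _ _ he fun u hu v hv huv => h u v hu hv huv⟩

/-- the second map has a split vertex `z0, z1` -/
theorem cov_ps (hr : ∀ v, r v = v) (S : Set V2) (he : Even (Nat.card (Sᶜ : Set V2)))
    (z0 z1 k0 k1 : V2) (hd : [z0, z1, k0, k1].Nodup) (hz0 : z0 ∉ S) (hz1 : z1 ∉ S) (hk0 : k0 ∉ S)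
    (hk1 : k1 ∉ S) (h0 : okp G1 G2 c z0 k0) (h1 : okp G1 G2 c z1 k1)
    (h : ∀ u v, u ∉ S → v ∉ S → u ≠ z0 → u ≠ z1 → v ≠ z0 → v ≠ z1 → u ≠ v →
      okp G1 G2 c u v) : Cov G1 G2 r c S := by
  simp only [List.nodup_cons, List.mem_cons, List.not_mem_nil, or_false, not_or,
    List.nodup_nil, and_true, not_false_iff] at hd
  obtain ⟨⟨d1, d2, d3⟩, ⟨d4, d5⟩, d6⟩ := hd
  refine Or.inl ⟨hr, Mat.pair _ _ z0 k0 hz0 hk0 d2 h0 (Mat.pair _ _ z1 k1 ?_ ?_ d5 h1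
    (Mat.of_pairwise _ _ ?_ fun u hu v hv huv => ?_))⟩
  · exact ⟨hz1, by rintro (h | h); exacts [d1 h.symm, d4 h]⟩
  · exact ⟨hk1, by rintro (h | h); exacts [d3 h.symm, d6 h.symm]⟩
  · refine cm_even_diff _ _ _ ?_ ?_ d5 (cm_even_diff _ _ _ hz0 hk0 d2 he)
    · exact ⟨hz1, by rintro (h | h); exacts [d1 h.symm, d4 h]⟩
    · exact ⟨hk1, by rintro (h | h); exacts [d3 h.symm, d6 h.symm]⟩
  · exact h u v hu.1.1 hv.1.1 (fun e => hu.1.2 (Or.inl e)) (fun e => hu.2 (Or.inl e))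
      (fun e => hv.1.2 (Or.inl e)) (fun e => hv.2 (Or.inl e)) huv

/-- the first map has a split vertex (second half `e`), `y ∈ S` -/
theorem cov_sp_mem (S : Set V2) (e : V1) (y v : V2) (he : r e ≠ e) (hr : ∀ u, u ≠ e → r u = u)
    (hey : r e = c y) (hvy : v ≠ y) (hvS : v ∉ S) (hcv : c v ≠ c y) (h1 : G1.Ad e (c v))
    (h2 : G2.Ad y v) (hy : y ∈ S) (hev : Even (Nat.card (Sᶜ \ {v} : Set V2)))
    (h : ∀ u u', u ∉ S → u' ∉ S → u ≠ v → u' ≠ v → u ≠ u' → okp G1 G2 c u u') :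
    Cov G1 G2 r c S :=
  Or.inr ⟨e, y, v, he, hr, hey, hvy, hvS, hcv, h1, h2, Mat.of_pairwise _ _ hev
    fun u hu u' hu' huu => h u u' hu.1 hu'.1 hu.2 hu'.2 huu⟩

/-- the first map has a split vertex (second half `e`), `y ∉ S` is matched with `p` -/
theorem cov_sp (S : Set V2) (e : V1) (y v p : V2) (he : r e ≠ e) (hr : ∀ u, u ≠ e → r u = u)
    (hey : r e = c y) (hvy : v ≠ y) (hvS : v ∉ S) (hcv : c v ≠ c y) (h1 : G1.Ad e (c v))
    (h2 : G2.Ad y v) (hy : y ∉ S) (hp : p ∉ S) (hpy : p ≠ y) (hpv : p ≠ v)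
    (hyp : okp G1 G2 c y p) (hev : Even (Nat.card (Sᶜ \ {v} : Set V2)))
    (h : ∀ u u', u ∉ S → u' ∉ S → u ≠ v → u' ≠ v → u ≠ y → u' ≠ y → u ≠ u' →
      okp G1 G2 c u u') : Cov G1 G2 r c S := by
  have my : y ∈ (Sᶜ \ {v} : Set V2) := ⟨hy, fun h => hvy h.symm⟩
  have mp : p ∈ (Sᶜ \ {v} : Set V2) := ⟨hp, hpv⟩
  refine Or.inr ⟨e, y, v, he, hr, hey, hvy, hvS, hcv, h1, h2, Mat.pair _ _ y p my mp hpy.symm hyp
    (Mat.of_pairwise _ _ (cm_even_diff _ _ _ my mp hpy.symm hev) fun u hu u' hu' huu => ?_)⟩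
  exact h u u' hu.1.1 hu'.1.1 hu.1.2 hu'.1.2 (fun e => hu.2 (Or.inl e))
    (fun e => hu'.2 (Or.inl e)) huu

/-- both have split vertices, `y ∈ S` -/
theorem cov_ss_mem (S : Set V2) (e : V1) (y v : V2) (he : r e ≠ e) (hr : ∀ u, u ≠ e → r u = u)
    (hey : r e = c y) (hvy : v ≠ y) (hvS : v ∉ S) (hcv : c v ≠ c y) (h1 : G1.Ad e (c v))
    (h2 : G2.Ad y v) (hy : y ∈ S) (hev : Even (Nat.card (Sᶜ \ {v} : Set V2)))
    (z0 z1 k0 k1 : V2) (hd : [z0, z1, k0, k1, v].Nodup) (hz0 : z0 ∉ S) (hz1 : z1 ∉ S)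
    (hk0 : k0 ∉ S) (hk1 : k1 ∉ S) (h0 : okp G1 G2 c z0 k0) (h1' : okp G1 G2 c z1 k1)
    (h : ∀ u u', u ∉ S → u' ∉ S → u ≠ v → u' ≠ v → u ≠ z0 → u ≠ z1 → u' ≠ z0 → u' ≠ z1 →
      u ≠ u' → okp G1 G2 c u u') : Cov G1 G2 r c S := by
  simp only [List.nodup_cons, List.mem_cons, List.not_mem_nil, or_false, not_or,
    List.nodup_nil, and_true, not_false_iff] at hd
  obtain ⟨⟨d1, d2, d3, d4⟩, ⟨d5, d6, d7⟩, ⟨d8, d9⟩, d10⟩ := hd
  have m0 : z0 ∈ (Sᶜ \ {v} : Set V2) := ⟨hz0, d4⟩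
  have n0 : k0 ∈ (Sᶜ \ {v} : Set V2) := ⟨hk0, d9⟩
  have m1 : z1 ∈ ((Sᶜ \ {v}) \ {z0, k0} : Set V2) :=
    ⟨⟨hz1, d7⟩, by rintro (h | h); exacts [d1 h.symm, d5 h]⟩
  have n1 : k1 ∈ ((Sᶜ \ {v}) \ {z0, k0} : Set V2) :=
    ⟨⟨hk1, d10⟩, by rintro (h | h); exacts [d3 h.symm, d8 h.symm]⟩
  refine Or.inr ⟨e, y, v, he, hr, hey, hvy, hvS, hcv, h1, h2, Mat.pair _ _ z0 k0 m0 n0 d2 h0
    (Mat.pair _ _ z1 k1 m1 n1 d6 h1' (Mat.of_pairwise _ _ (cm_even_diff _ _ _ m1 n1 d6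
      (cm_even_diff _ _ _ m0 n0 d2 hev)) fun u hu u' hu' huu => ?_))⟩
  exact h u u' hu.1.1.1 hu'.1.1.1 hu.1.1.2 hu'.1.1.2 (fun e => hu.1.2 (Or.inl e))
    (fun e => hu.2 (Or.inl e)) (fun e => hu'.1.2 (Or.inl e)) (fun e => hu'.2 (Or.inl e)) huu

/-- both have split vertices, `y ∉ S` is matched with `p` -/
theorem cov_ss (S : Set V2) (e : V1) (y v p : V2) (he : r e ≠ e) (hr : ∀ u, u ≠ e → r u = u)
    (hey : r e = c y) (hvy : v ≠ y) (hvS : v ∉ S) (hcv : c v ≠ c y) (h1 : G1.Ad e (c v))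
    (h2 : G2.Ad y v) (hy : y ∉ S) (hp : p ∉ S) (hyp : okp G1 G2 c y p)
    (hev : Even (Nat.card (Sᶜ \ {v} : Set V2)))
    (z0 z1 k0 k1 : V2) (hd : [z0, z1, k0, k1, v, y, p].Nodup) (hz0 : z0 ∉ S) (hz1 : z1 ∉ S)
    (hk0 : k0 ∉ S) (hk1 : k1 ∉ S) (h0 : okp G1 G2 c z0 k0) (h1' : okp G1 G2 c z1 k1)
    (h : ∀ u u', u ∉ S → u' ∉ S → u ≠ v → u' ≠ v → u ≠ y → u' ≠ y → u ≠ z0 → u ≠ z1 →
      u' ≠ z0 → u' ≠ z1 → u ≠ u' → okp G1 G2 c u u') : Cov G1 G2 r c S := by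
  simp only [List.nodup_cons, List.mem_cons, List.not_mem_nil, or_false, not_or,
    List.nodup_nil, and_true, not_false_iff] at hd
  obtain ⟨⟨d1, d2, d3, d4, f1, f2⟩, ⟨d5, d6, d7, f3, f4⟩, ⟨d8, d9, f5, f6⟩, ⟨d10, f7, f8⟩,
    ⟨f9, f10⟩, f11⟩ := hd
  have my : y ∈ (Sᶜ \ {v} : Set V2) := ⟨hy, fun h => hvy h.symm⟩
  have mp : p ∈ (Sᶜ \ {v} : Set V2) := ⟨hp, fun h => f10 h.symm⟩
  have m0 : z0 ∈ ((Sᶜ \ {v}) \ {y, p} : Set V2) :=
    ⟨⟨hz0, d4⟩, by rintro (h | h); exacts [f1 h, f2 h]⟩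
  have n0 : k0 ∈ ((Sᶜ \ {v}) \ {y, p} : Set V2) :=
    ⟨⟨hk0, d9⟩, by rintro (h | h); exacts [f5 h, f6 h]⟩
  have m1 : z1 ∈ (((Sᶜ \ {v}) \ {y, p}) \ {z0, k0} : Set V2) :=
    ⟨⟨⟨hz1, d7⟩, by rintro (h | h); exacts [f3 h, f4 h]⟩,
      by rintro (h | h); exacts [d1 h.symm, d5 h]⟩
  have n1 : k1 ∈ (((Sᶜ \ {v}) \ {y, p}) \ {z0, k0} : Set V2) :=
    ⟨⟨⟨hk1, d10⟩, by rintro (h | h); exacts [f7 h, f8 h]⟩,
      by rintro (h | h); exacts [d3 h.symm, d8 h.symm]⟩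
  refine Or.inr ⟨e, y, v, he, hr, hey, hvy, hvS, hcv, h1, h2, Mat.pair _ _ y p my mp f11 hyp
    (Mat.pair _ _ z0 k0 m0 n0 d2 h0 (Mat.pair _ _ z1 k1 m1 n1 d6 h1' (Mat.of_pairwise _ _
      (cm_even_diff _ _ _ m1 n1 d6 (cm_even_diff _ _ _ m0 n0 d2 (cm_even_diff _ _ _ my mp f11 hev)))
      fun u hu u' hu' huu => ?_)))⟩
  exact h u u' hu.1.1.1.1 hu'.1.1.1.1 hu.1.1.1.2 hu'.1.1.1.2 (fun e => hu.1.1.2 (Or.inl e))
    (fun e => hu'.1.1.2 (Or.inl e)) (fun e => hu.1.2 (Or.inl e))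
    (fun e => hu.2 (Or.inl e)) (fun e => hu'.1.2 (Or.inl e)) (fun e => hu'.2 (Or.inl e)) huu

end

end Pd97
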