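import Mathlib
import Pool.Agent.Lib.Pd97.Common
import Pool.Agent.Lib.Pd97.Blocks

/-!
# MP_d97cc3_co : blocks in standard form
-/

namespace Pd97

open Pool.Agent.Lib.CurG

/-- plain block for `K_m` -/
def HasPB (m δ : ℕ) : Prop :=
  ∃ (V : Type) (_ : Fintype V), Fintype.card V = m ∧ Nonempty (PB V δ)

/-- split block for `K_m` -/
def HasSB (m δ : ℕ) : Prop :=
  ∃ (V : Type) (_ : Fintype V), Fintype.card V = m + 1 ∧ Nonempty (SB V δ)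

/-- split block for `K_m` with a missing cross edge -/
def HasWB (m : ℕ) : Prop :=
  ∃ (V : Type) (_ : Fintype V), Fintype.card V = m + 1 ∧
    ∃ B : SB V 1, B.a = B.q ∧ B.Γ.Adj B.w B.y

theorem conv_mis0 {V : Type} (w a u v : V) : ¬ Mis 0 w a u v := fun h => absurd h.1 (by decide)

theorem conv_mis1 {V : Type} (w a u v : V) :
    Mis 1 w a u v ↔ ((u = w ∧ v = a) ∨ (u = a ∧ v = w)) :=
  ⟨fun h => h.2, fun h => ⟨rfl, h⟩⟩

/-- the third vertex of a triangle -/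
theorem conv_third {V : Type} {Γ : SimpleGraph V} (S : TriSys Γ) {u v : V} (h : Γ.Adj u v) :
    Γ.Adj (S.T u v) v ∧ Γ.Adj (S.T u v) u := by
  have h1 := S.adj u v h
  have h2 := S.adj v (S.T u v) h1
  rw [S.cyc u v h] at h2
  exact ⟨h1.symm, h2⟩

theorem hasPB_of_Z {m : ℕ} (hm : 2 ≤ m) (h : ZBlock m) : HasPB m 0 := by
  obtain ⟨V, fV, Γ, hc, ha, ⟨S⟩⟩ := h
  have h1 : 1 < Fintype.card V := by omega
  obtain ⟨w, a, hwa⟩ := Fintype.exists_pair_of_one_lt_card h1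
  exact ⟨V, fV, hc, ⟨⟨Γ, S, w, a, hwa, fun u v =>
    ⟨fun h => ⟨(ha u v).1 h, conv_mis0 _ _ _ _⟩, fun h => (ha u v).2 h.1⟩⟩⟩⟩

theorem hasPB_of_O {m : ℕ} (h : OBlock m) : HasPB m 1 := by
  obtain ⟨V, fV, Γ, w, a, hc, hwa, ha, ⟨S⟩⟩ := h
  exact ⟨V, fV, hc, ⟨⟨Γ, S, w, a, hwa, fun u v => by rw [conv_mis1]; exact ha u v⟩⟩⟩

/-- `w` is a second neighbour of `y` -/
theorem hasSB_of_H {m : ℕ} (h : HBlock m) : HasSB m 0 := by
  obtain ⟨V, fV, Γ, y0, y1, hc, hy, hn, hs, ha, ⟨p, hp⟩, ⟨q, hq⟩, ⟨S⟩⟩ := h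
  obtain ⟨hw0, hwp⟩ := conv_third S hp
  have ne0 : ∀ v, Γ.Adj v y0 → v ≠ y0 ∧ v ≠ y1 := by
    intro v hv
    refine ⟨hv.ne, ?_⟩
    rintro rfl
    exact hn hv.symm
  have ne1 : ∀ v, Γ.Adj v y1 → v ≠ y0 ∧ v ≠ y1 := by
    intro v hv
    refine ⟨?_, hv.ne⟩
    rintro rfl
    exact hn hv
  have hne : ∀ u v, Γ.Adj u y0 → Γ.Adj v y1 → v ≠ u := by
    rintro u v hu hv rfl
    exact (hs v (ne0 v hu).1 (ne0 v hu).2).1 hu hv
  exact ⟨V, fV, hc, ⟨{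
    Γ := Γ, S := S, y := y0, e := y1, w := S.T p y0, a := q, p := p, q := q
    hye := hy
    hwy := (ne0 _ hw0).1
    hwe := (ne0 _ hw0).2
    hpy := (ne0 _ hp).1
    hpe := (ne0 _ hp).2
    hpw := hwp.ne.symm
    hqy := (ne1 _ hq).1
    hqe := (ne1 _ hq).2
    hqw := hne _ _ hw0 hq
    hpq := (hne _ _ hp hq).symm
    haw := hne _ _ hw0 hq
    hae := (ne1 _ hq).2
    nye := hn
    adj := fun u v h1 h2 h3 h4 => ⟨fun h => ⟨(ha u v h1 h2 h3 h4).1 h, conv_mis0 _ _ _ _⟩,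
      fun h => (ha u v h1 h2 h3 h4).2 h.1⟩
    adjy := fun v h1 h2 => ⟨fun _ => conv_mis0 _ _ _ _, fun _ => by
      have := hs v h1 h2
      tauto⟩
    adjye := fun v ⟨h1, h2⟩ => (hs v (ne0 v h1).1 (ne0 v h1).2).1 h1 h2
    py := hp
    qe := hq
    ha := fun h => absurd h (by decide) }⟩⟩

theorem hasWB_of_W {m : ℕ} (h : WBlock m) : HasWB m := by
  obtain ⟨V, fV, Γ, y0, y1, w, a, hc, hy, hn, hs, ha, hw, hq, ⟨S⟩⟩ := h
  obtain ⟨hp, hpw⟩ := conv_third S hw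
  have ne0 : ∀ v, Γ.Adj v y0 → v ≠ y0 ∧ v ≠ y1 := by
    intro v hv
    refine ⟨hv.ne, ?_⟩
    rintro rfl
    exact hn hv.symm
  have ne1 : ∀ v, Γ.Adj v y1 → v ≠ y0 ∧ v ≠ y1 := by
    intro v hv
    refine ⟨?_, hv.ne⟩
    rintro rfl
    exact hn hv
  have hne : ∀ u v, Γ.Adj u y0 → Γ.Adj v y1 → v ≠ u := by
    rintro u v hu hv rfl
    exact (hs v (ne0 v hu).1 (ne0 v hu).2).1 hu hv
  refine ⟨V, fV, hc, {
    Γ := Γ, S := S, y := y0, e := y1, w := w, a := a, p := S.T w y0, q := a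
    hye := hy
    hwy := (ne0 _ hw).1
    hwe := (ne0 _ hw).2
    hpy := (ne0 _ hp).1
    hpe := (ne0 _ hp).2
    hpw := hpw.ne
    hqy := (ne1 _ hq).1
    hqe := (ne1 _ hq).2
    hqw := hne _ _ hw hq
    hpq := (hne _ _ hp hq).symm
    haw := hne _ _ hw hq
    hae := (ne1 _ hq).2
    nye := hn
    adj := fun u v h1 h2 h3 h4 => by
      rw [conv_mis1]
      exact ha u v h1 h2 h3 h4
    adjy := fun v h1 h2 => by
      rw [conv_mis1]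
      have h3 := hs v h1 h2
      have h4 := (ne1 a hq).1
      have h5 := (ne0 w hw).1
      constructor
      · rintro _ (⟨_, h6⟩ | ⟨_, h6⟩)
        · exact h4 h6.symm
        · exact h5 h6.symm
      · intro _
        tauto
    adjye := fun v ⟨h1, h2⟩ => (hs v (ne0 v h1).1 (ne0 v h1).2).1 h1 h2
    py := hp
    qe := hq
    ha := fun _ => Or.inr rfl }, rfl, hw⟩

theorem HasWB.hasSB {m : ℕ} (h : HasWB m) : HasSB m 1 := by
  obtain ⟨V, fV, hc, B, _⟩ := h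
  exact ⟨V, fV, hc, ⟨B⟩⟩

end Pd97
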