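import Mathlib
import Pool.Agent.Lib.CurP.TableFin
import Pool.Agent.Lib.Pd97.Blocks

/-!
# MP_d97cc3_co : blocks from tables
-/

namespace Pool.Agent.Lib.CurP.Table.Data

/-- the letter `e` is adjacent to the class `c` -/
def hasC (D : Data) (e : ℕ) (c : ℤ) : Prop :=
  ∃ p, p < D.mm e ∧ (D.sideAt (D.vort e).cell p).cls = c

instance (D : Data) (e : ℕ) (c : ℤ) : Decidable (D.hasC e c) := by
  unfold hasC; infer_instance

end Pool.Agent.Lib.CurP.Table.Data

namespace Pd97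

open Pool.Agent.Lib.CurP Pool.Agent.Lib.CurP.Table

namespace TabBlocksAux

open Pool.Agent.Lib.CurG (TriSys)
open Pool.Agent.Lib.CurP.Table.Data

variable {D : Data} {u : ℤ} {N : ℕ}

theorem tri (h : D.OK) (hu : D.u₀ ≤ u) (hN : (N : ℤ) = D.nf.ev u) :
    Nonempty (TriSys (KPart N D.k (k_dvd h hN) (Fin D.J) D.CC)) := by
  have hN2 := two_le h hu hN
  haveI : NeZero N := ⟨by omega⟩
  exact ⟨(Data.toCGP h hu hN).triSys⟩

theorem cc_iff (e : Fin D.J) (c : ZMod D.k) : D.CC e c ↔ D.hasC e ((c.val : ℕ) : ℤ) := Iff.rfl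

end TabBlocksAux

theorem zblock_of_table {D : Data} (h : D.OK) (hJ : D.J = 0) {u : ℤ} (hu : D.u₀ ≤ u) {N : ℕ}
    (hN : (N : ℤ) = D.nf.ev u) : ZBlock N := by
  have hN2 := Data.two_le h hu hN
  haveI : NeZero N := ⟨by omega⟩
  haveI : IsEmpty (Fin D.J) := by rw [hJ]; infer_instance
  refine ⟨ZMod N ⊕ Fin D.J, inferInstance, KPart N D.k (Data.k_dvd h hN) (Fin D.J) D.CC, ?_, ?_,
    TabBlocksAux.tri h hu hN⟩
  · rw [Fintype.card_sum, ZMod.card, Fintype.card_fin, hJ, Nat.add_zero]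
  · rintro (x | i) (y | j)
    · change x ≠ y ↔ _
      simp
    · exact isEmptyElim j
    · exact isEmptyElim i
    · exact isEmptyElim i

theorem oblock_of_table {D : Data} (h : D.OK) (hJ : D.J = 2)
    (hf : ∀ e < 2, ∀ c < D.k, D.hasC e (c : ℤ)) {u : ℤ} (hu : D.u₀ ≤ u) {N : ℕ}
    (hN : (N : ℤ) = D.nf.ev u) : OBlock (N + 2) := by
  have hN2 := Data.two_le h hu hN
  haveI : NeZero N := ⟨by omega⟩
  haveI := Data.k_ne h
  have i0 : 0 < D.J := by omega
  have i1 : 1 < D.J := by omega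
  have hcc : ∀ (e : Fin D.J) (c : ZMod D.k), D.CC e c := by
    intro e c
    rw [TabBlocksAux.cc_iff]
    exact hf e (by have := e.2; omega) c.val (ZMod.val_lt c)
  refine ⟨ZMod N ⊕ Fin D.J, inferInstance, KPart N D.k (Data.k_dvd h hN) (Fin D.J) D.CC,
    Sum.inr ⟨0, i0⟩, Sum.inr ⟨1, i1⟩, ?_, ?_, ?_, TabBlocksAux.tri h hu hN⟩
  · rw [Fintype.card_sum, ZMod.card, Fintype.card_fin, hJ]
  · intro h'
    have := congrArg Fin.val (Sum.inr_injective h')
    simp at this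
  · rintro (x | i) (y | j)
    · change x ≠ y ↔ _
      simp
    · change D.CC j _ ↔ _
      simp [hcc]
    · change D.CC i _ ↔ _
      simp [hcc]
    · change False ↔ _
      have h1 := i.2
      have h2 := j.2
      simp only [ne_eq, Sum.inr.injEq, Fin.ext_iff, false_iff]
      omega

theorem hblock_of_table {D : Data} (h : D.OK) (hJ : D.J = 2)
    (h01 : ∀ c < D.k, (D.hasC 0 (c : ℤ) ↔ ¬ D.hasC 1 (c : ℤ)))
    (h0 : ∃ c, c < D.k ∧ D.hasC 0 (c : ℤ)) (h1 : ∃ c, c < D.k ∧ D.hasC 1 (c : ℤ))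
    {u : ℤ} (hu : D.u₀ ≤ u) {N : ℕ} (hN : (N : ℤ) = D.nf.ev u) : HBlock (N + 1) := by
  have hN2 := Data.two_le h hu hN
  haveI : NeZero N := ⟨by omega⟩
  haveI := Data.k_ne h
  have i0 : 0 < D.J := by omega
  have i1 : 1 < D.J := by omega
  have hcl : ∀ c : ℕ, c < D.k →
      (Pool.Agent.Lib.CurG.CG.cl (Data.k_dvd h hN) ((c : ℕ) : ZMod N)).val = c := by
    intro c hc
    rw [Pool.Agent.Lib.CurG.CG.cl, map_natCast, ZMod.val_natCast, Nat.mod_eq_of_lt hc]
  refine ⟨ZMod N ⊕ Fin D.J, inferInstance, KPart N D.k (Data.k_dvd h hN) (Fin D.J) D.CC,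
    Sum.inr ⟨0, i0⟩, Sum.inr ⟨1, i1⟩, ?_, ?_, ?_, ?_, ?_, ?_, ?_, TabBlocksAux.tri h hu hN⟩
  · rw [Fintype.card_sum, ZMod.card, Fintype.card_fin, hJ]
  · intro h'
    have := congrArg Fin.val (Sum.inr_injective h')
    simp at this
  · intro h'
    exact h'
  · rintro (x | i) hv0 hv1
    · exact h01 _ (ZMod.val_lt _)
    · exfalso
      have h2 := i.2
      have h3 : i.val ≠ 0 := fun h' => hv0 (congrArg Sum.inr (Fin.ext h'))
      have h4 : i.val ≠ 1 := fun h' => hv1 (congrArg Sum.inr (Fin.ext h'))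
      omega
  · rintro (x | i) (y | j) hu0 hu1 hv0 hv1
    · change x ≠ y ↔ _
      simp
    · exfalso
      have h2 := j.2
      have h3 : j.val ≠ 0 := fun h' => hv0 (congrArg Sum.inr (Fin.ext h'))
      have h4 : j.val ≠ 1 := fun h' => hv1 (congrArg Sum.inr (Fin.ext h'))
      omega
    · exfalso
      have h2 := i.2
      have h3 : i.val ≠ 0 := fun h' => hu0 (congrArg Sum.inr (Fin.ext h'))
      have h4 : i.val ≠ 1 := fun h' => hu1 (congrArg Sum.inr (Fin.ext h'))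
      omega
    · exfalso
      have h2 := i.2
      have h3 : i.val ≠ 0 := fun h' => hu0 (congrArg Sum.inr (Fin.ext h'))
      have h4 : i.val ≠ 1 := fun h' => hu1 (congrArg Sum.inr (Fin.ext h'))
      omega
  · obtain ⟨c, hc, hc0⟩ := h0
    refine ⟨Sum.inl ((c : ℕ) : ZMod N), ?_⟩
    change D.hasC 0 _
    rw [hcl c hc]
    exact hc0
  · obtain ⟨c, hc, hc1⟩ := h1
    refine ⟨Sum.inl ((c : ℕ) : ZMod N), ?_⟩
    change D.hasC 1 _
    rw [hcl c hc]
    exact hc1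

end Pd97
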