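import Mathlib
import Pool.Agent.Lib.CurG.Rot

/-!
# MP_d97cc3_co : operations on triangular embeddings
-/

namespace Pd97

open Pool.Agent.Lib.CurG

/-- Removing an element from the orbits of a function. -/
theorem reach_remove {V : Type} {F F' : V → V} {p v b : V} (h1 : F p = v) (h2 : F' p = F v)
    (h3 : ∀ x, x ≠ p → F' x = F x) (hb : b ≠ v) (n : ℕ) :
    ∀ a, F^[n] a = b → ∃ m, F'^[m] a = b := by
  induction n using Nat.strong_induction_on with
  | _ n ih =>
    intro a ha
    rcases n with _ | n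
    · exact ⟨0, ha⟩
    · by_cases hap : a = p
      · subst hap
        rw [Function.iterate_succ_apply, h1] at ha
        rcases n with _ | n
        · exact absurd ha.symm hb
        · rw [Function.iterate_succ_apply] at ha
          obtain ⟨m, hm⟩ := ih n (by omega) _ ha
          exact ⟨m + 1, by rw [Function.iterate_succ_apply, h2, hm]⟩
      · rw [Function.iterate_succ_apply] at ha
        obtain ⟨m, hm⟩ := ih n (by omega) _ ha
        exact ⟨m + 1, by rw [Function.iterate_succ_apply, h3 a hap, hm]⟩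

/-- Inserting an element in the orbits of a function. -/
theorem reach_insert {V : Type} {F F' : V → V} (N : V → Prop) {q v b : V}
    (hN : ∀ x, N x → N (F x)) (hq : ¬ N q) (h1 : F' v = q) (h2 : F' q = F v)
    (h3 : ∀ x, x ≠ v → x ≠ q → F' x = F x) (n : ℕ) :
    ∀ a, N a → F^[n] a = b → ∃ m, F'^[m] a = b := by
  induction n with
  | zero => intro a _ ha; exact ⟨0, ha⟩
  | succ n ih =>
    intro a hNa ha
    rw [Function.iterate_succ_apply] at ha
    obtain ⟨m, hm⟩ := ih _ (hN a hNa) ha
    by_cases hav : a = v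
    · subst hav
      exact ⟨m + 2, by rw [Function.iterate_succ_apply, Function.iterate_succ_apply, h1, h2, hm]⟩
    · refine ⟨m + 1, ?_⟩
      rw [Function.iterate_succ_apply, h3 a hav (fun h => hq (h ▸ hNa)), hm]

/-- Reachability after inserting `q` between `v` and `F v`. -/
theorem conn_insert {V : Type} {F F' : V → V} (N : V → Prop) {q v : V}
    (hN : ∀ x, N x → N (F x)) (hq : ¬ N q) (hv : N v) (h1 : F' v = q) (h2 : F' q = F v)
    (h3 : ∀ x, x ≠ v → x ≠ q → F' x = F x)
    (hc : ∀ a b, N a → N b → ∃ n : ℕ, F^[n] a = b) (a b : V) (ha : N a ∨ a = q)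
    (hb : N b ∨ b = q) : ∃ n : ℕ, F'^[n] a = b := by
  have key : ∀ a, N a → (N b ∨ b = q) → ∃ n : ℕ, F'^[n] a = b := by
    intro a' ha' hb'
    rcases hb' with hb' | hb'
    · obtain ⟨n, hn⟩ := hc a' b ha' hb'
      exact reach_insert N hN hq h1 h2 h3 n a' ha' hn
    · obtain ⟨n, hn⟩ := hc a' v ha' hv
      obtain ⟨m, hm⟩ := reach_insert N hN hq h1 h2 h3 n a' ha' hn
      exact ⟨m + 1, by rw [Function.iterate_succ_apply', hm, h1, hb']⟩
  rcases ha with ha | rfl
  · exact key a ha hb
  · obtain ⟨n, hn⟩ := key (F v) (hN v hv) hb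
    exact ⟨n + 1, by rw [Function.iterate_succ_apply, h2, hn]⟩

namespace FlipAux

open scoped Classical in
/-- the new third vertices -/
noncomputable def TF {V : Type} (T : V → V → V) (u v p q a b : V) : V :=
  if a = u ∧ b = q then p else if a = q ∧ b = p then u else if a = p ∧ b = u then q else
  if a = v ∧ b = p then q else if a = p ∧ b = q then v else if a = q ∧ b = v then p else T a b

open scoped Classical in
/-- the third vertices after an insertion -/
noncomputable def TI {V : Type} (T : V → V → V) (x y z : V) : Option V → Option V → Option V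
  | some a, some b =>
    if (a = x ∧ b = y) ∨ (a = y ∧ b = z) ∨ (a = z ∧ b = x) then none else some (T a b)
  | some a, none => if a = x then some z else if a = y then some x else some y
  | none, some b => if b = x then some y else if b = y then some z else some x
  | none, none => none

end FlipAux

open FlipAux in
/-- Flip: remove the edge `u v` and add the other diagonal `p q` of the quadrilateral. -/
theorem exists_flip {V : Type} {Γ : SimpleGraph V} (S : TriSys Γ) (u v p q : V)
    (huv : Γ.Adj u v) (hp : S.T u v = p) (hq : S.T v u = q) (hpq : p ≠ q) (hn : ¬ Γ.Adj p q)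
    (Γ' : SimpleGraph V) (hΓ' : ∀ a b, Γ'.Adj a b ↔
      (Γ.Adj a b ∧ ¬ ((a = u ∧ b = v) ∨ (a = v ∧ b = u))) ∨ (a = p ∧ b = q) ∨ (a = q ∧ b = p)) :
    ∃ S' : TriSys Γ', S'.T u q = p ∧ S'.T q p = u ∧ S'.T p u = q ∧
      S'.T v p = q ∧ S'.T p q = v ∧ S'.T q v = p ∧
      ∀ a b, ¬ ((a = u ∧ b = q) ∨ (a = q ∧ b = p) ∨ (a = p ∧ b = u) ∨
        (a = v ∧ b = p) ∨ (a = p ∧ b = q) ∨ (a = q ∧ b = v)) → S'.T a b = S.T a b := by
  classical
  -- the two triangles
  have avp : Γ.Adj v p := hp ▸ S.adj u v huv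
  have Tvp : S.T v p = u := hp ▸ S.cyc u v huv
  have apu : Γ.Adj p u := Tvp ▸ S.adj v p avp
  have Tpu : S.T p u = v := Tvp ▸ S.cyc v p avp
  have auq : Γ.Adj u q := hq ▸ S.adj v u huv.symm
  have Tuq : S.T u q = v := hq ▸ S.cyc v u huv.symm
  have aqv : Γ.Adj q v := Tuq ▸ S.adj u q auq
  have Tqv : S.T q v = u := Tuq ▸ S.cyc u q auq
  have nuv : u ≠ v := huv.ne
  have nvp : v ≠ p := avp.ne
  have npu : p ≠ u := apu.ne
  have nuq : u ≠ q := auq.ne
  have nqv : q ≠ v := aqv.ne
  have hn' : ¬ Γ.Adj q p := fun h => hn h.symm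
  -- values of the new function
  have e1 : TF S.T u v p q u q = p := by simp [TF]
  have e2 : TF S.T u v p q q p = u := by simp [TF, nuq.symm, hpq]
  have e3 : TF S.T u v p q p u = q := by simp [TF, npu, hpq]
  have e4 : TF S.T u v p q v p = q := by simp [TF, nuv.symm, nvp, nqv.symm]
  have e5 : TF S.T u v p q p q = v := by simp [TF, npu, hpq, nuq.symm, nvp.symm]
  have e6 : TF S.T u v p q q v = p := by
    simp [TF, nuq.symm, nvp, hpq.symm, nqv]
  have e7 : ∀ a b, ¬ ((a = u ∧ b = q) ∨ (a = q ∧ b = p) ∨ (a = p ∧ b = u) ∨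
        (a = v ∧ b = p) ∨ (a = p ∧ b = q) ∨ (a = q ∧ b = v)) → TF S.T u v p q a b = S.T a b := by
    intro a b h
    push Not at h
    obtain ⟨g1, g2, g3, g4, g5, g6⟩ := h
    unfold TF
    rw [if_neg (fun h => g1 h.1 h.2), if_neg (fun h => g2 h.1 h.2), if_neg (fun h => g3 h.1 h.2),
      if_neg (fun h => g4 h.1 h.2), if_neg (fun h => g5 h.1 h.2), if_neg (fun h => g6 h.1 h.2)]
  -- the main case
  have main : ∀ a b, ¬ ((a = u ∧ b = q) ∨ (a = q ∧ b = p) ∨ (a = p ∧ b = u) ∨
        (a = v ∧ b = p) ∨ (a = p ∧ b = q) ∨ (a = q ∧ b = v)) → Γ'.Adj a b →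
      Γ.Adj a b ∧ Γ'.Adj b (S.T a b) ∧ TF S.T u v p q b (S.T a b) = a := by
    intro a b h hab
    rw [hΓ'] at hab
    push Not at h
    obtain ⟨g1, g2, g3, g4, g5, g6⟩ := h
    have hab' : Γ.Adj a b ∧ ¬ ((a = u ∧ b = v) ∨ (a = v ∧ b = u)) := by
      rcases hab with h | h | h
      · exact h
      · exact absurd h.2 (g5 h.1)
      · exact absurd h.2 (g2 h.1)
    obtain ⟨had, hnv⟩ := hab'
    push Not at hnv
    obtain ⟨k1, k2⟩ := hnv
    have hbc := S.adj a b had
    have hcy := S.cyc a b had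
    obtain ⟨c, hc⟩ : ∃ c, c = S.T a b := ⟨_, rfl⟩
    rw [← hc] at hbc hcy ⊢
    refine ⟨had, ?_, ?_⟩
    · rw [hΓ']
      left
      refine ⟨hbc, ?_⟩
      rintro (⟨rfl, rfl⟩ | ⟨rfl, rfl⟩)
      · rw [hp] at hcy
        exact g3 hcy.symm rfl
      · rw [hq] at hcy
        exact g6 hcy.symm rfl
    · rw [e7, hcy]
      rintro (⟨rfl, rfl⟩ | ⟨rfl, rfl⟩ | ⟨rfl, rfl⟩ | ⟨rfl, rfl⟩ | ⟨rfl, rfl⟩ | ⟨rfl, rfl⟩)
      · rw [Tuq] at hcy
        exact k2 hcy.symm rfl
      · exact hn' hbc
      · rw [Tpu] at hcy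
        exact g4 hcy.symm rfl
      · rw [Tvp] at hcy
        exact k1 hcy.symm rfl
      · exact hn hbc
      · rw [Tqv] at hcy
        exact g1 hcy.symm rfl
  have newadj : ∀ a b, Γ.Adj a b → ¬ ((a = u ∧ b = v) ∨ (a = v ∧ b = u)) → Γ'.Adj a b :=
    fun a b h1 h2 => (hΓ' a b).2 (Or.inl ⟨h1, h2⟩)
  have apq' : Γ'.Adj p q := (hΓ' p q).2 (Or.inr (Or.inl ⟨rfl, rfl⟩))
  have aup' : Γ'.Adj u p := newadj u p apu.symm (by rintro (⟨_, h⟩ | ⟨h, _⟩)
                                                    · exact nvp h.symm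
                                                    · exact nuv h)
  have auq' : Γ'.Adj u q := newadj u q auq (by rintro (⟨_, h⟩ | ⟨h, _⟩)
                                               · exact nqv h
                                               · exact nuv h)
  have avp' : Γ'.Adj v p := newadj v p avp (by rintro (⟨h, _⟩ | ⟨_, h⟩)
                                               · exact nuv h.symm
                                               · exact npu h)
  have avq' : Γ'.Adj v q := newadj v q aqv.symm (by rintro (⟨h, _⟩ | ⟨_, h⟩)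
                                                    · exact nuv h.symm
                                                    · exact nuq h.symm)
  have six : ∀ a b, ((a = u ∧ b = q) ∨ (a = q ∧ b = p) ∨ (a = p ∧ b = u) ∨
        (a = v ∧ b = p) ∨ (a = p ∧ b = q) ∨ (a = q ∧ b = v)) →
      Γ'.Adj b (TF S.T u v p q a b) ∧ TF S.T u v p q b (TF S.T u v p q a b) = a := by
    rintro a b (⟨rfl, rfl⟩ | ⟨rfl, rfl⟩ | ⟨rfl, rfl⟩ | ⟨rfl, rfl⟩ | ⟨rfl, rfl⟩ | ⟨rfl, rfl⟩)
    · rw [e1, e2]
      exact ⟨apq'.symm, rfl⟩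
    · rw [e2, e3]
      exact ⟨aup'.symm, rfl⟩
    · rw [e3, e1]
      exact ⟨auq', rfl⟩
    · rw [e4, e5]
      exact ⟨apq', rfl⟩
    · rw [e5, e6]
      exact ⟨avq'.symm, rfl⟩
    · rw [e6, e4]
      exact ⟨avp', rfl⟩
  have hSc : ∀ w a b, Γ.Adj a w → Γ.Adj b w → ∃ n : ℕ, (fun x => S.T x w)^[n] a = b :=
    fun w a b => S.conn w a b
  have hclos : ∀ w x, Γ.Adj x w → Γ.Adj (S.T x w) w := fun w x h => (S.adj x w h).symm
  have hconn : ∀ w a b, Γ'.Adj a w → Γ'.Adj b w →
      ∃ n : ℕ, (fun x => TF S.T u v p q x w)^[n] a = b := by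
    intro w a b ha hb
    by_cases hwu : w = u
    · subst hwu
      have hold : ∀ c, Γ'.Adj c w → Γ.Adj c w ∧ c ≠ v := by
        intro c hc
        rcases (hΓ' c w).1 hc with ⟨h1, h2⟩ | ⟨_, h⟩ | ⟨_, h⟩
        · exact ⟨h1, fun h => h2 (Or.inr ⟨h, rfl⟩)⟩
        · exact absurd h nuq
        · exact absurd h.symm npu
      obtain ⟨n, hn1⟩ := hSc w a b (hold a ha).1 (hold b hb).1
      refine reach_remove (p := p) (v := v) Tpu (by rw [e3, hq]) (fun x hx => ?_) (hold b hb).2 n a
        hn1
      apply e7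
      rintro (⟨_, h⟩ | ⟨_, h⟩ | ⟨h, _⟩ | ⟨_, h⟩ | ⟨_, h⟩ | ⟨_, h⟩)
      · exact nuq h
      · exact npu h.symm
      · exact hx h
      · exact npu h.symm
      · exact nuq h
      · exact nuv h
    by_cases hwv : w = v
    · subst hwv
      have hold : ∀ c, Γ'.Adj c w → Γ.Adj c w ∧ c ≠ u := by
        intro c hc
        rcases (hΓ' c w).1 hc with ⟨h1, h2⟩ | ⟨_, h⟩ | ⟨_, h⟩
        · exact ⟨h1, fun h => h2 (Or.inl ⟨h, rfl⟩)⟩
        · exact absurd h nqv.symm
        · exact absurd h nvp
      obtain ⟨n, hn1⟩ := hSc w a b (hold a ha).1 (hold b hb).1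
      refine reach_remove (p := q) (v := u) Tqv (by rw [e6, hp]) (fun x hx => ?_) (hold b hb).2 n a
        hn1
      apply e7
      rintro (⟨_, h⟩ | ⟨_, h⟩ | ⟨_, h⟩ | ⟨_, h⟩ | ⟨_, h⟩ | ⟨h, _⟩)
      · exact nqv h.symm
      · exact nvp h
      · exact nuv h.symm
      · exact nvp h
      · exact nqv h.symm
      · exact hx h
    by_cases hwp : w = p
    · subst hwp
      have hold : ∀ c, Γ'.Adj c w → Γ.Adj c w ∨ c = q := by
        intro c hc
        rcases (hΓ' c w).1 hc with ⟨h1, h2⟩ | ⟨_, h⟩ | ⟨h, _⟩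
        · exact Or.inl h1
        · exact absurd h hpq
        · exact Or.inr h
      refine conn_insert (fun x => Γ.Adj x w) (v := v) (q := q) (hclos w) hn' avp
        e4 (by rw [e2, Tvp]) (fun x hx hx' => ?_) (hSc w) a b (hold a ha) (hold b hb)
      apply e7
      rintro (⟨_, h⟩ | ⟨h, _⟩ | ⟨_, h⟩ | ⟨h, _⟩ | ⟨_, h⟩ | ⟨h, _⟩)
      · exact hpq h
      · exact hx' h
      · exact npu h
      · exact hx h
      · exact hpq h
      · exact hx' h
    by_cases hwq : w = q
    · subst hwq
      have hold : ∀ c, Γ'.Adj c w → Γ.Adj c w ∨ c = p := by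
        intro c hc
        rcases (hΓ' c w).1 hc with ⟨h1, h2⟩ | ⟨h, _⟩ | ⟨_, h⟩
        · exact Or.inl h1
        · exact Or.inr h
        · exact absurd h.symm hpq
      refine conn_insert (fun x => Γ.Adj x w) (v := u) (q := p) (hclos w) hn auq
        e1 (by rw [e5, Tuq]) (fun x hx hx' => ?_) (hSc w) a b (hold a ha) (hold b hb)
      apply e7
      rintro (⟨h, _⟩ | ⟨_, h⟩ | ⟨h, _⟩ | ⟨_, h⟩ | ⟨h, _⟩ | ⟨_, h⟩)
      · exact hx h
      · exact hpq h.symm
      · exact hx' h
      · exact hpq h.symm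
      · exact hx' h
      · exact nqv h
    · have hold : ∀ c, Γ'.Adj c w → Γ.Adj c w := by
        intro c hc
        rcases (hΓ' c w).1 hc with ⟨h1, h2⟩ | ⟨_, h⟩ | ⟨_, h⟩
        · exact h1
        · exact absurd h hwq
        · exact absurd h hwp
      have hF : (fun x => TF S.T u v p q x w) = fun x => S.T x w := by
        funext x
        apply e7
        rintro (⟨_, h⟩ | ⟨_, h⟩ | ⟨_, h⟩ | ⟨_, h⟩ | ⟨_, h⟩ | ⟨_, h⟩)
        · exact hwq h
        · exact hwp h
        · exact hwu h
        · exact hwp h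
        · exact hwq h
        · exact hwv h
      rw [hF]
      exact hSc w a b (hold a ha) (hold b hb)
  refine ⟨⟨TF S.T u v p q, ?_, ?_, hconn⟩, e1, e2, e3, e4, e5, e6, e7⟩
  · intro a b hab
    by_cases h : ((a = u ∧ b = q) ∨ (a = q ∧ b = p) ∨ (a = p ∧ b = u) ∨
        (a = v ∧ b = p) ∨ (a = p ∧ b = q) ∨ (a = q ∧ b = v))
    · exact (six a b h).1
    · rw [e7 a b h]
      exact (main a b h hab).2.1
  · intro a b hab
    by_cases h : ((a = u ∧ b = q) ∨ (a = q ∧ b = p) ∨ (a = p ∧ b = u) ∨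
        (a = v ∧ b = p) ∨ (a = p ∧ b = q) ∨ (a = q ∧ b = v))
    · exact (six a b h).2
    · rw [e7 a b h]
      exact (main a b h hab).2.2

open FlipAux in
/-- A new vertex in the triangle `x y z`. -/
theorem exists_insert {V : Type} {Γ : SimpleGraph V} (S : TriSys Γ) (x y z : V)
    (hxy : Γ.Adj x y) (hz : S.T x y = z) (Γ' : SimpleGraph (Option V))
    (h1 : ∀ a b, Γ'.Adj (some a) (some b) ↔ Γ.Adj a b)
    (h2 : ∀ a, Γ'.Adj (some a) none ↔ a = x ∨ a = y ∨ a = z) :
    Nonempty (TriSys Γ') := by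
  classical
  have ayz : Γ.Adj y z := hz ▸ S.adj x y hxy
  have Tyz : S.T y z = x := hz ▸ S.cyc x y hxy
  have azx : Γ.Adj z x := Tyz ▸ S.adj y z ayz
  have Tzx : S.T z x = y := Tyz ▸ S.cyc y z ayz
  have nxy : x ≠ y := hxy.ne
  have nyz : y ≠ z := ayz.ne
  have nzx : z ≠ x := azx.ne
  have h2' : ∀ a, Γ'.Adj none (some a) ↔ a = x ∨ a = y ∨ a = z := fun a => by
    rw [← h2, SimpleGraph.adj_comm]
  -- values
  have f1 : TI S.T x y z (some x) (some y) = none := by simp [TI]
  have f2 : TI S.T x y z (some y) (some z) = none := by simp [TI]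
  have f3 : TI S.T x y z (some z) (some x) = none := by simp [TI]
  have f4 : ∀ a b, ¬ ((a = x ∧ b = y) ∨ (a = y ∧ b = z) ∨ (a = z ∧ b = x)) →
      TI S.T x y z (some a) (some b) = some (S.T a b) := by
    intro a b h
    simp only [TI, if_neg h]
  have f5 : TI S.T x y z (some x) none = some z := by simp [TI]
  have f6 : TI S.T x y z (some y) none = some x := by simp [TI, nxy.symm]
  have f7 : TI S.T x y z (some z) none = some y := by simp [TI, nzx, nyz.symm]
  have f8 : TI S.T x y z none (some x) = some y := by simp [TI]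
  have f9 : TI S.T x y z none (some y) = some z := by simp [TI, nxy.symm]
  have f10 : TI S.T x y z none (some z) = some x := by simp [TI, nzx, nyz.symm]
  have hclos : ∀ w x, Γ.Adj x w → Γ.Adj (S.T x w) w := fun w x h => (S.adj x w h).symm
  have both : ∀ a b, Γ'.Adj a b → Γ'.Adj b (TI S.T x y z a b) ∧
      TI S.T x y z b (TI S.T x y z a b) = a := by
    intro a b hab
    rcases a with _ | a <;> rcases b with _ | b
    · exact absurd hab (Γ'.loopless.irrefl _)
    · rcases (h2' b).1 hab with rfl | rfl | rfl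
      · rw [f8]
        exact ⟨(h1 _ _).2 hxy, f1⟩
      · rw [f9]
        exact ⟨(h1 _ _).2 ayz, f2⟩
      · rw [f10]
        exact ⟨(h1 _ _).2 azx, f3⟩
    · rcases (h2 a).1 hab with rfl | rfl | rfl
      · rw [f5]
        exact ⟨(h2' _).2 (by simp), f10⟩
      · rw [f6]
        exact ⟨(h2' _).2 (by simp), f8⟩
      · rw [f7]
        exact ⟨(h2' _).2 (by simp), f9⟩
    · have had := (h1 a b).1 hab
      by_cases h : (a = x ∧ b = y) ∨ (a = y ∧ b = z) ∨ (a = z ∧ b = x)
      · rcases h with ⟨rfl, rfl⟩ | ⟨rfl, rfl⟩ | ⟨rfl, rfl⟩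
        · rw [f1]
          exact ⟨(h2 _).2 (by simp), f6⟩
        · rw [f2]
          exact ⟨(h2 _).2 (by simp), f7⟩
        · rw [f3]
          exact ⟨(h2 _).2 (by simp), f5⟩
      · rw [f4 a b h]
        refine ⟨(h1 _ _).2 (S.adj a b had), ?_⟩
        have hcy := S.cyc a b had
        obtain ⟨c, hc⟩ : ∃ c, c = S.T a b := ⟨_, rfl⟩
        rw [← hc] at hcy ⊢
        rw [f4, hcy]
        rintro (⟨rfl, rfl⟩ | ⟨rfl, rfl⟩ | ⟨rfl, rfl⟩)
        · rw [hz] at hcy
          exact h (Or.inr (Or.inr ⟨hcy.symm, rfl⟩))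
        · rw [Tyz] at hcy
          exact h (Or.inl ⟨hcy.symm, rfl⟩)
        · rw [Tzx] at hcy
          exact h (Or.inr (Or.inl ⟨hcy.symm, rfl⟩))
  -- the old functions on `Option V`
  have hit : ∀ (w : V) (n : ℕ) (a : V),
      (Option.map fun c => S.T c w)^[n] (some a) = some ((fun c => S.T c w)^[n] a) := by
    intro w n
    induction n with
    | zero => intro a; rfl
    | succ n ih => intro a; rw [Function.iterate_succ_apply, Function.iterate_succ_apply]; exact ih _
  -- insertion at a corner: `c`, then `d`, then `e` around `w`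
  have corner : ∀ w c : V, Γ.Adj c w → (w = x ∨ w = y ∨ w = z) →
      TI S.T x y z (some c) (some w) = none → TI S.T x y z none (some w) = some (S.T c w) →
      (∀ d, d ≠ c → ¬ ((d = x ∧ w = y) ∨ (d = y ∧ w = z) ∨ (d = z ∧ w = x))) →
      ∀ a b, Γ'.Adj a (some w) → Γ'.Adj b (some w) →
        ∃ n : ℕ, (fun o => TI S.T x y z o (some w))^[n] a = b := by
    intro w c hcw hw g1 g2 g3 a b ha hb
    have hold : ∀ o, Γ'.Adj o (some w) → (∃ d, o = some d ∧ Γ.Adj d w) ∨ o = none := by
      intro o ho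
      rcases o with _ | d
      · exact Or.inr rfl
      · exact Or.inl ⟨d, rfl, (h1 _ _).1 ho⟩
    refine conn_insert (F := Option.map fun d => S.T d w) (fun o => ∃ d, o = some d ∧ Γ.Adj d w)
      (v := some c) (q := none) ?_ ?_ ⟨c, rfl, hcw⟩ g1 g2 ?_ ?_ a b (hold a ha) (hold b hb)
    · rintro _ ⟨d, rfl, hd⟩
      exact ⟨S.T d w, rfl, hclos w d hd⟩
    · rintro ⟨d, hd, _⟩
      exact Option.some_ne_none d hd.symm
    · intro o ho ho'
      obtain ⟨d, rfl⟩ := Option.ne_none_iff_exists'.1 ho'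
      exact f4 d w (g3 d fun h => ho (by rw [h]))
    · rintro _ _ ⟨d, rfl, hd⟩ ⟨e, rfl, he⟩
      obtain ⟨n, hn⟩ := S.conn w d e hd he
      exact ⟨n, by rw [hit, hn]⟩
  have hconn : ∀ w a b, Γ'.Adj a w → Γ'.Adj b w →
      ∃ n : ℕ, (fun o => TI S.T x y z o w)^[n] a = b := by
    intro w a b ha hb
    rcases w with _ | w
    · -- the new vertex
      have hold : ∀ o, Γ'.Adj o none → o = some x ∨ o = some y ∨ o = some z := by
        intro o ho
        rcases o with _ | d
        · exact absurd ho (Γ'.loopless.irrefl _)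
        · rcases (h2 d).1 ho with rfl | rfl | rfl <;> simp
      rcases hold a ha with rfl | rfl | rfl <;> rcases hold b hb with rfl | rfl | rfl
      · exact ⟨0, rfl⟩
      · exact ⟨2, by simp only [Function.iterate_succ_apply, Function.iterate_zero, id, f5, f7]⟩
      · exact ⟨1, by simp only [Function.iterate_succ_apply, Function.iterate_zero, id, f5]⟩
      · exact ⟨1, by simp only [Function.iterate_succ_apply, Function.iterate_zero, id, f6]⟩
      · exact ⟨0, rfl⟩
      · exact ⟨2, by simp only [Function.iterate_succ_apply, Function.iterate_zero, id, f6, f5]⟩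
      · exact ⟨2, by simp only [Function.iterate_succ_apply, Function.iterate_zero, id, f7, f6]⟩
      · exact ⟨1, by simp only [Function.iterate_succ_apply, Function.iterate_zero, id, f7]⟩
      · exact ⟨0, rfl⟩
    · by_cases hwx : w = x
      · subst hwx
        refine corner w z azx (by simp) f3 (by rw [f8, Tzx]) ?_ a b ha hb
        rintro d hd (⟨_, h⟩ | ⟨_, h⟩ | ⟨h, _⟩)
        · exact nxy h
        · exact nzx h.symm
        · exact hd h
      by_cases hwy : w = y
      · subst hwy
        refine corner w x hxy (by simp) f1 (by rw [f9, hz]) ?_ a b ha hb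
        rintro d hd (⟨h, _⟩ | ⟨_, h⟩ | ⟨_, h⟩)
        · exact hd h
        · exact nyz h
        · exact nxy h.symm
      by_cases hwz : w = z
      · subst hwz
        refine corner w y ayz (by simp) f2 (by rw [f10, Tyz]) ?_ a b ha hb
        rintro d hd (⟨_, h⟩ | ⟨h, _⟩ | ⟨_, h⟩)
        · exact nyz h.symm
        · exact hd h
        · exact nzx h
      · have hold : ∀ o, Γ'.Adj o (some w) → ∃ d, o = some d ∧ Γ.Adj d w := by
          intro o ho
          rcases o with _ | d
          · rcases (h2' w).1 ho with h | h | h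
            · exact absurd h hwx
            · exact absurd h hwy
            · exact absurd h hwz
          · exact ⟨d, rfl, (h1 _ _).1 ho⟩
        obtain ⟨a, rfl, ha'⟩ := hold a ha
        obtain ⟨b, rfl, hb'⟩ := hold b hb
        obtain ⟨n, hn⟩ := S.conn w a b ha' hb'
        refine ⟨n, ?_⟩
        have hit2 : ∀ (n : ℕ) (a : V), (fun o => TI S.T x y z o (some w))^[n] (some a) =
            some ((fun c => S.T c w)^[n] a) := by
          intro n
          induction n with
          | zero => intro a; rfl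
          | succ n ih =>
            intro a
            rw [Function.iterate_succ_apply, Function.iterate_succ_apply, f4]
            · exact ih _
            · rintro (⟨_, h⟩ | ⟨_, h⟩ | ⟨_, h⟩)
              · exact hwy h
              · exact hwz h
              · exact hwx h
        rw [hit2, hn]
  exact ⟨⟨TI S.T x y z, fun a b h => (both a b h).1, fun a b h => (both a b h).2, hconn⟩⟩

end Pd97
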