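import Mathlib
import Pool.Agent.Lib.Pd97.Flip

/-!
# MP_d97cc3_co : a list of flips, checked on finitely many vertices
-/

namespace Pd97

open Pool.Agent.Lib.CurG

/-- Adjacency and some triangles among the vertices number `0, ..., n - 1`. -/
structure Loc (n : ℕ) where
  A : Fin n → Fin n → Bool
  tr : List (Fin n × Fin n × Fin n)

namespace Loc

variable {n : ℕ}

def tri (L : Loc n) (a b c : Fin n) : Bool :=
  decide ((a, b, c) ∈ L.tr ∨ (b, c, a) ∈ L.tr ∨ (c, a, b) ∈ L.tr)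

/-- the edge `u v` lies on the triangles `u v p` and `v u q`, and `p q` can be added -/
def ok (L : Loc n) (u v p q : Fin n) : Bool :=
  L.A u v && L.tri u v p && L.tri v u q && decide (p ≠ q) && !(L.A p q)

def six (u v p q : Fin n) : List (Fin n × Fin n) :=
  [(u, q), (q, p), (p, u), (v, p), (p, q), (q, v)]

def flip (L : Loc n) (u v p q : Fin n) : Loc n where
  A a b := (L.A a b && !(decide ((a = u ∧ b = v) ∨ (a = v ∧ b = u)))) ||
    decide ((a = p ∧ b = q) ∨ (a = q ∧ b = p))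
  tr := (u, q, p) :: (v, p, q) :: L.tr.filter fun t =>
    decide ((t.1, t.2.1) ∉ six u v p q ∧ (t.2.1, t.2.2) ∉ six u v p q ∧
      (t.2.2, t.1) ∉ six u v p q)

def run : Loc n → List (Fin n × Fin n × Fin n × Fin n) → Option (Loc n)
  | L, [] => some L
  | L, f :: fs =>
    if L.ok f.1 f.2.1 f.2.2.1 f.2.2.2 then (L.flip f.1 f.2.1 f.2.2.1 f.2.2.2).run fs else none

/-- `L` describes the vertices `ι 0, ..., ι (n - 1)` of a triangular embedding. -/
def Holds (L : Loc n) {V : Type} {Γ : SimpleGraph V} (S : TriSys Γ) (ι : Fin n → V) : Prop :=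
  (∀ a b, Γ.Adj (ι a) (ι b) ↔ L.A a b = true) ∧
  ∀ t ∈ L.tr, S.T (ι t.1) (ι t.2.1) = ι t.2.2 ∧ S.T (ι t.2.1) (ι t.2.2) = ι t.1 ∧
    S.T (ι t.2.2) (ι t.1) = ι t.2.1

/-- Only the adjacencies between the vertices in the range of `ι` change. -/
def Same {V : Type} (ι : Fin n → V) (Γ Γ' : SimpleGraph V) : Prop :=
  ∀ x y, ¬ ((∃ a, x = ι a) ∧ ∃ b, y = ι b) → (Γ'.Adj x y ↔ Γ.Adj x y)

theorem flip_sound {V : Type} (ι : Fin n → V) (hι : Function.Injective ι) {Γ : SimpleGraph V}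
    (S : TriSys Γ) (L : Loc n) (h : L.Holds S ι) (u v p q : Fin n) (hok : L.ok u v p q = true) :
    ∃ (Γ' : SimpleGraph V) (S' : TriSys Γ'), (L.flip u v p q).Holds S' ι ∧ Same ι Γ Γ' := by
  obtain ⟨hA, hT⟩ := h
  simp only [ok, Bool.and_eq_true, decide_eq_true_eq, Bool.not_eq_true'] at hok
  obtain ⟨⟨⟨⟨h1, h2⟩, h3⟩, h4⟩, h5⟩ := hok
  have huv : Γ.Adj (ι u) (ι v) := (hA u v).2 h1
  have hn : ¬ Γ.Adj (ι p) (ι q) := by
    rw [hA p q, h5]
    exact Bool.false_ne_true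
  have hpq : ι p ≠ ι q := fun h => h4 (hι h)
  have htri : ∀ a b c : Fin n, L.tri a b c = true → S.T (ι a) (ι b) = ι c := by
    intro a b c h
    simp only [tri, decide_eq_true_eq] at h
    rcases h with h | h | h
    · exact (hT _ h).1
    · exact (hT _ h).2.2
    · exact (hT _ h).2.1
  have hp := htri u v p h2
  have hq := htri v u q h3
  let Γ' : SimpleGraph V :=
    { Adj := fun a b => (Γ.Adj a b ∧ ¬ ((a = ι u ∧ b = ι v) ∨ (a = ι v ∧ b = ι u))) ∨
        (a = ι p ∧ b = ι q) ∨ (a = ι q ∧ b = ι p)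
      symm := ⟨by
        rintro a b (⟨h, h'⟩ | h | h)
        · exact Or.inl ⟨h.symm, fun h'' => h' (h''.symm.imp And.symm And.symm)⟩
        · exact Or.inr (Or.inr h.symm)
        · exact Or.inr (Or.inl h.symm)⟩
      loopless := ⟨by
        rintro a (⟨h, -⟩ | ⟨h, h'⟩ | ⟨h, h'⟩)
        · exact h.ne rfl
        · exact hpq (h.symm.trans h')
        · exact hpq (h'.symm.trans h)⟩ }
  have hΓ' : ∀ a b, Γ'.Adj a b ↔
      (Γ.Adj a b ∧ ¬ ((a = ι u ∧ b = ι v) ∨ (a = ι v ∧ b = ι u))) ∨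
        (a = ι p ∧ b = ι q) ∨ (a = ι q ∧ b = ι p) := fun a b => Iff.rfl
  obtain ⟨S', e1, e2, e3, e4, e5, e6, e7⟩ := exists_flip S (ι u) (ι v) (ι p) (ι q) huv hp hq hpq
    hn Γ' hΓ'
  refine ⟨Γ', S', ⟨?_, ?_⟩, ?_⟩
  · intro a b
    rw [hΓ']
    simp only [flip, hA, hι.eq_iff, Bool.or_eq_true, Bool.and_eq_true, Bool.not_eq_true',
      decide_eq_true_eq, decide_eq_false_iff_not]
  · intro t ht
    simp only [flip, List.mem_cons, List.mem_filter, decide_eq_true_eq] at ht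
    rcases ht with rfl | rfl | ⟨ht, g1, g2, g3⟩
    · exact ⟨e1, e2, e3⟩
    · exact ⟨e4, e5, e6⟩
    · have key : ∀ a b : Fin n, (a, b) ∉ six u v p q →
          S'.T (ι a) (ι b) = S.T (ι a) (ι b) := by
        intro a b hab
        apply e7
        intro h
        apply hab
        simp only [hι.eq_iff] at h
        simp only [six, List.mem_cons, Prod.mk.injEq, List.not_mem_nil, or_false]
        exact h
      obtain ⟨k1, k2, k3⟩ := hT t ht
      exact ⟨(key _ _ g1).trans k1, (key _ _ g2).trans k2, (key _ _ g3).trans k3⟩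
  · intro x y hxy
    rw [hΓ']
    constructor
    · rintro (⟨h, -⟩ | ⟨rfl, rfl⟩ | ⟨rfl, rfl⟩)
      · exact h
      · exact absurd ⟨⟨_, rfl⟩, ⟨_, rfl⟩⟩ hxy
      · exact absurd ⟨⟨_, rfl⟩, ⟨_, rfl⟩⟩ hxy
    · intro h
      refine Or.inl ⟨h, ?_⟩
      rintro (⟨rfl, rfl⟩ | ⟨rfl, rfl⟩)
      · exact hxy ⟨⟨_, rfl⟩, ⟨_, rfl⟩⟩
      · exact hxy ⟨⟨_, rfl⟩, ⟨_, rfl⟩⟩

theorem run_sound {V : Type} (ι : Fin n → V) (hι : Function.Injective ι)
    (fs : List (Fin n × Fin n × Fin n × Fin n)) :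
    ∀ {Γ : SimpleGraph V} (S : TriSys Γ) (L L' : Loc n), L.Holds S ι → L.run fs = some L' →
    ∃ (Γ' : SimpleGraph V) (S' : TriSys Γ'), L'.Holds S' ι ∧ Same ι Γ Γ' := by
  induction fs with
  | nil =>
    intro Γ S L L' h hr
    simp only [run, Option.some.injEq] at hr
    subst hr
    exact ⟨Γ, S, h, fun _ _ _ => Iff.rfl⟩
  | cons f fs ih =>
    intro Γ S L L' h hr
    simp only [run] at hr
    split_ifs at hr with hok
    obtain ⟨Γ₁, S₁, h1, s1⟩ := flip_sound ι hι S L h _ _ _ _ hok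
    obtain ⟨Γ₂, S₂, h2, s2⟩ := ih S₁ _ L' h1 hr
    exact ⟨Γ₂, S₂, h2, fun x y hxy => (s2 x y hxy).trans (s1 x y hxy)⟩

end Loc

end Pd97
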