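import Mathlib
import Pool.Agent.Lib.Pd97.TabBlocks
import Pool.Agent.Lib.Pd97.FlipList

/-!
# MP_d97cc3_co : table lookups

A vertex is given by an affine function (an element of `ZMod N`) or by the number of a letter.
-/

namespace Pd97

open Pool.Agent.Lib.CurG Pool.Agent.Lib.CurP Pool.Agent.Lib.CurP.Table

/-- Some vertices, some triangles (with the address of the first dart), and a list of flips. -/
structure Path (n : ℕ) where
  verts : Fin n → Aff ⊕ ℕ
  tris : List (Fin n × Fin n × Fin n × ℕ × ℕ × Aff)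
  flips : List (Fin n × Fin n × Fin n × Fin n)

/-- the vertex with the given description -/
def pt (D : Data) (u : ℤ) (N : ℕ) : Aff ⊕ ℕ → ZMod N ⊕ Fin D.J
  | Sum.inl f => Sum.inl ((f.ev u : ℤ) : ZMod N)
  | Sum.inr e => if h : e < D.J then Sum.inr ⟨e, h⟩ else Sum.inl 0

def vertOK (D : Data) : Aff ⊕ ℕ → Prop
  | Sum.inl f => f.NN D.u₀ ∧ ((D.nf.sub (Aff.cst 1)).sub f).NN D.u₀ ∧ f.a % (D.k : ℤ) = 0
  | Sum.inr e => e < D.J

instance (D : Data) (x : Aff ⊕ ℕ) : Decidable (vertOK D x) := by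
  cases x <;> (unfold vertOK; infer_instance)

def apart (D : Data) : Aff ⊕ ℕ → Aff ⊕ ℕ → Prop
  | Sum.inl f, Sum.inl g =>
    ((f.sub g).sub (Aff.cst 1)).NN D.u₀ ∨ ((g.sub f).sub (Aff.cst 1)).NN D.u₀
  | Sum.inr e, Sum.inr e' => e ≠ e'
  | Sum.inl _, Sum.inr _ => True
  | Sum.inr _, Sum.inl _ => True

instance (D : Data) (x y : Aff ⊕ ℕ) : Decidable (apart D x y) := by
  cases x <;> cases y <;> (unfold apart; infer_instance)

/-- adjacency of two different vertices -/
def adjB (D : Data) : Aff ⊕ ℕ → Aff ⊕ ℕ → Bool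
  | Sum.inl _, Sum.inl _ => true
  | Sum.inl f, Sum.inr e => decide (D.hasC e (f.b % (D.k : ℤ)))
  | Sum.inr e, Sum.inl f => decide (D.hasC e (f.b % (D.k : ℤ)))
  | Sum.inr _, Sum.inr _ => false

/-- `f = x + v` modulo `N`, where all are between `0` and `N` -/
def sumOK (D : Data) (x v f : Aff) : Prop := x.add v = f ∨ x.add v = f.add D.nf

instance (D : Data) (x v f : Aff) : Decidable (sumOK D x v f) := by
  unfold sumOK; infer_instance

/-- the value number `q` of a side -/
def valA (D : Data) (i p : ℕ) (q : Aff) : Aff :=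
  (Aff.smul (D.sideAt i p).va q).add (D.sideAt i p).v

def triB (D : Data) (i p : ℕ) (q : Aff) : Aff ⊕ ℕ → Aff ⊕ ℕ → Aff ⊕ ℕ → Prop
  | Sum.inl x, Sum.inl y, Sum.inl z => (D.cell i).lab = 0 ∧ x.b % (D.k : ℤ) = (D.sideAt i p).cls ∧
      sumOK D x (valA D i p q) y ∧ sumOK D y (valA D i (D.nx i p) q) z
  | Sum.inl x, Sum.inl y, Sum.inr e => (D.cell i).lab = e + 1 ∧
      x.b % (D.k : ℤ) = (D.sideAt i p).cls ∧ sumOK D x (valA D i p q) y
  | _, _, _ => False

instance (D : Data) (i p : ℕ) (q : Aff) (x y z : Aff ⊕ ℕ) : Decidable (triB D i p q x y z) := by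
  cases x <;> cases y <;> cases z <;> (unfold triB; infer_instance)

namespace Path

variable {n : ℕ}

/-- All the vertices are in their ranges and different, all the lookups are right. -/
def OK (P : Path n) (D : Data) : Prop :=
  (∀ a, vertOK D (P.verts a)) ∧ (∀ a b, a ≠ b → apart D (P.verts a) (P.verts b)) ∧
  ∀ t ∈ P.tris, t.1 ≠ t.2.1 ∧ t.2.2.2.1 < D.cells.length ∧ t.2.2.2.2.1 < (D.cell t.2.2.2.1).m ∧
    (t.2.2.2.2.2).NN D.u₀ ∧
    ((D.cell t.2.2.2.1).len.sub ((Aff.cst 1).add t.2.2.2.2.2)).NN D.u₀ ∧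
    triB D t.2.2.2.1 t.2.2.2.2.1 t.2.2.2.2.2 (P.verts t.1) (P.verts t.2.1) (P.verts t.2.2.1)

instance (P : Path n) (D : Data) : Decidable (P.OK D) := by
  unfold OK; infer_instance

/-- the local state before the flips -/
def loc (P : Path n) (D : Data) : Loc n where
  A a b := decide (a ≠ b) && adjB D (P.verts a) (P.verts b)
  tr := P.tris.map fun t => (t.1, t.2.1, t.2.2.1)

theorem pt_ne {D : Data} {u : ℤ} (hu : D.u₀ ≤ u) {N : ℕ} (hN : (N : ℤ) = D.nf.ev u)
    (x y : Aff ⊕ ℕ) (hx : vertOK D x) (hy : vertOK D y) (hxy : apart D x y) :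
    pt D u N x ≠ pt D u N y := by
  rcases x with f | e <;> rcases y with g | e'
  · intro h'
    have h1 : ((f.ev u : ℤ) : ZMod N) = ((g.ev u : ℤ) : ZMod N) := Sum.inl.inj h'
    rw [← sub_eq_zero, ← Int.cast_sub, ZMod.intCast_zmod_eq_zero_iff_dvd] at h1
    obtain ⟨f0, f1, -⟩ := hx
    obtain ⟨g0, g1, -⟩ := hy
    have f0 := f0.ev hu
    have f1 := f1.ev hu
    have g0 := g0.ev hu
    have g1 := g1.ev hu
    simp only [Aff.ev_sub, Aff.ev_cst, ← hN] at f1 g1
    have h2 : f.ev u - g.ev u = 0 := by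
      apply Int.eq_zero_of_abs_lt_dvd h1
      rw [abs_lt]
      constructor <;> omega
    rcases hxy with h3 | h3
    · have h3 := h3.ev hu
      simp only [Aff.ev_sub, Aff.ev_cst] at h3
      omega
    · have h3 := h3.ev hu
      simp only [Aff.ev_sub, Aff.ev_cst] at h3
      omega
  · intro h'
    have he : e' < D.J := hy
    simp only [pt, dif_pos he] at h'
    exact absurd h' (by simp)
  · intro h'
    have he : e < D.J := hx
    simp only [pt, dif_pos he] at h'
    exact absurd h' (by simp)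
  · intro h'
    have he : e < D.J := hx
    have he' : e' < D.J := hy
    simp only [pt, dif_pos he, dif_pos he'] at h'
    exact hxy (congrArg Fin.val (Sum.inr.inj h'))

theorem pt_inj {D : Data} (h : D.OK) (P : Path n) (hP : P.OK D) {u : ℤ} (hu : D.u₀ ≤ u) {N : ℕ}
    (hN : (N : ℤ) = D.nf.ev u) : Function.Injective fun a => pt D u N (P.verts a) := by
  intro a b hab
  by_contra hne
  exact pt_ne hu hN _ _ (hP.1 a) (hP.1 b) (hP.2.1 a b hne) hab

/-- the class of a vertex -/
theorem cl_vert {D : Data} {u : ℤ} {N : ℕ} (hk : D.k ∣ N) (f : Aff)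
    (hf : f.a % (D.k : ℤ) = 0) :
    CG.cl hk ((f.ev u : ℤ) : ZMod N) = ((f.b : ℤ) : ZMod D.k) := by
  rw [CG.cl, Data.cast_val, ← sub_eq_zero, ← Int.cast_sub, ZMod.intCast_zmod_eq_zero_iff_dvd]
  have : f.ev u - f.b = f.a * u := by unfold Aff.ev; ring
  rw [this]
  exact Dvd.dvd.mul_right (Int.dvd_of_emod_eq_zero hf) _

theorem CC_iff {D : Data} (h : D.OK) {u : ℤ} {N : ℕ} (hk : D.k ∣ N) (f : Aff)
    (hf : f.a % (D.k : ℤ) = 0) (e : Fin D.J) :
    D.CC e (CG.cl hk ((f.ev u : ℤ) : ZMod N)) ↔ D.hasC e (f.b % (D.k : ℤ)) := by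
  have := Data.k_ne h
  rw [cl_vert hk f hf, Data.CC, Data.hasC, ZMod.val_intCast]

theorem sum_eq {D : Data} {u : ℤ} {N : ℕ} (hN : (N : ℤ) = D.nf.ev u) {x v f : Aff}
    (hs : sumOK D x v f) :
    ((f.ev u : ℤ) : ZMod N) - ((x.ev u : ℤ) : ZMod N) = ((v.ev u : ℤ) : ZMod N) := by
  rcases hs with hs | hs
  · rw [← hs, Aff.ev_add]; push_cast; ring
  · have h1 := congrArg (fun g => ((Aff.ev g u : ℤ) : ZMod N)) hs
    simp only [Aff.ev_add, ← hN] at h1
    push_cast at h1
    rw [ZMod.natCast_self, add_zero] at h1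
    rw [← h1]; ring

theorem valA_ev {D : Data} {u : ℤ} (i p : ℕ) (q : Aff) :
    (valA D i p q).ev u = D.val u i p (q.ev u) := by
  rw [valA, Aff.ev_add, Aff.ev_smul, Data.val]

theorem loc_holds {D : Data} (h : D.OK) (P : Path n) (hP : P.OK D) {u : ℤ} (hu : D.u₀ ≤ u)
    {N : ℕ} (hN : (N : ℤ) = D.nf.ev u) [NeZero N] :
    (P.loc D).Holds (Data.toCGP h hu hN).triSys (fun a => pt D u N (P.verts a)) := by
  have hinj := pt_inj h P hP hu hN
  have hkk := Data.k_ne h
  have hadj : ∀ a b, (KPart N D.k (Data.k_dvd h hN) (Fin D.J) D.CC).Adj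
      (pt D u N (P.verts a)) (pt D u N (P.verts b)) ↔ (P.loc D).A a b = true := by
    intro a b
    have ha := hP.1 a
    have hb := hP.1 b
    have hne : pt D u N (P.verts a) ≠ pt D u N (P.verts b) ↔ a ≠ b :=
      ⟨fun h1 h2 => h1 (by rw [h2]), fun h1 h2 => h1 (hinj h2)⟩
    change _ ↔ (decide (a ≠ b) && adjB D (P.verts a) (P.verts b)) = true
    rw [Bool.and_eq_true, decide_eq_true_iff]
    rcases hxa : P.verts a with f | e <;> rcases hxb : P.verts b with g | e'
    · rw [hxa, hxb] at hne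
      rw [← hne]
      change ((f.ev u : ℤ) : ZMod N) ≠ ((g.ev u : ℤ) : ZMod N) ↔ _
      constructor
      · intro h1
        exact ⟨fun h2 => h1 (Sum.inl.inj h2), rfl⟩
      · intro h1 h2
        apply h1.1
        change Sum.inl ((f.ev u : ℤ) : ZMod N) = Sum.inl ((g.ev u : ℤ) : ZMod N)
        rw [h2]
    · have hab : a ≠ b := by
        intro h1; rw [h1, hxb] at hxa; cases hxa
      rw [hxb] at hb
      rw [hxa] at ha
      have he : e' < D.J := hb
      have e1 : pt D u N (Sum.inr e') = Sum.inr ⟨e', he⟩ := by simp only [pt, dif_pos he]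
      rw [e1]
      change D.CC ⟨e', he⟩ (CG.cl (Data.k_dvd h hN) ((f.ev u : ℤ) : ZMod N)) ↔
        a ≠ b ∧ decide (D.hasC e' (f.b % (D.k : ℤ))) = true
      rw [CC_iff h _ f ha.2.2, decide_eq_true_iff]
      exact ⟨fun h1 => ⟨hab, h1⟩, fun h1 => h1.2⟩
    · have hab : a ≠ b := by
        intro h1; rw [h1, hxb] at hxa; cases hxa
      rw [hxb] at hb
      rw [hxa] at ha
      have he : e < D.J := ha
      have e1 : pt D u N (Sum.inr e) = Sum.inr ⟨e, he⟩ := by simp only [pt, dif_pos he]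
      rw [e1]
      change D.CC ⟨e, he⟩ (CG.cl (Data.k_dvd h hN) ((g.ev u : ℤ) : ZMod N)) ↔
        a ≠ b ∧ decide (D.hasC e (g.b % (D.k : ℤ))) = true
      rw [CC_iff h _ g hb.2.2, decide_eq_true_iff]
      exact ⟨fun h1 => ⟨hab, h1⟩, fun h1 => h1.2⟩
    · rw [hxb] at hb
      rw [hxa] at ha
      have he : e < D.J := ha
      have he' : e' < D.J := hb
      have e1 : pt D u N (Sum.inr e) = Sum.inr ⟨e, he⟩ := by simp only [pt, dif_pos he]
      have e2 : pt D u N (Sum.inr e') = Sum.inr ⟨e', he'⟩ := by simp only [pt, dif_pos he']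
      rw [e1, e2]
      change False ↔ a ≠ b ∧ false = true
      simp
  refine ⟨hadj, ?_⟩
  intro t ht
  obtain ⟨⟨a, b, c, i, p, q⟩, ht1, rfl⟩ := List.mem_map.1 ht
  obtain ⟨h1, h2, h3, h4, h5, h6⟩ := hP.2.2 _ ht1
  simp only at h1 h2 h3 h4 h5 h6 ⊢
  have hv : D.Valid u i p (q.ev u) := by
    refine ⟨h2, h3, h4.ev hu, ?_⟩
    have h5 := h5.ev hu
    simp only [Aff.ev_sub, Aff.ev_add, Aff.ev_cst] at h5
    omega
  have ha := hP.1 a
  have hb := hP.1 b
  have hne : pt D u N (P.verts a) ≠ pt D u N (P.verts b) := fun h' => h1 (hinj h')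
  have key : (Data.toCGP h hu hN).triSys.T (pt D u N (P.verts a)) (pt D u N (P.verts b))
      = pt D u N (P.verts c) ∧ (KPart N D.k (Data.k_dvd h hN) (Fin D.J) D.CC).Adj
      (pt D u N (P.verts a)) (pt D u N (P.verts b)) := by
    rcases hxa : P.verts a with x | e
    · rcases hxb : P.verts b with y | e'
      · rw [hxa, hxb] at h6 hne
        rw [hxa] at ha
        rw [hxb] at hb
        have hA : (KPart N D.k (Data.k_dvd h hN) (Fin D.J) D.CC).Adj
            (pt D u N (Sum.inl x)) (pt D u N (Sum.inl y)) := by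
          change ((x.ev u : ℤ) : ZMod N) ≠ ((y.ev u : ℤ) : ZMod N)
          intro h'
          apply hne
          change Sum.inl ((x.ev u : ℤ) : ZMod N) = Sum.inl ((y.ev u : ℤ) : ZMod N)
          rw [h']
        refine ⟨?_, hA⟩
        have hcl : x.b % (D.k : ℤ) = (D.sideAt i p).cls →
            CG.cl (Data.k_dvd h hN) ((x.ev u : ℤ) : ZMod N)
            = (((D.sideAt i p).cls : ℤ) : ZMod D.k) := by
          intro h7
          rw [cl_vert _ x ha.2.2, ← h7, ← sub_eq_zero, ← Int.cast_sub,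
            ZMod.intCast_zmod_eq_zero_iff_dvd]
          exact Int.dvd_self_sub_emod
        rcases hxc : P.verts c with z | e
        · rw [hxc] at h6
          obtain ⟨h7, h8, h9, h10⟩ := h6
          have e1 := hcl h8
          have e2 := sum_eq hN h9
          have e3 := sum_eq hN h10
          rw [valA_ev] at e2 e3
          have hl : (Data.toCGP h hu hN).lab
              (CG.cl (Data.k_dvd h hN) ((x.ev u : ℤ) : ZMod N))
              (((y.ev u : ℤ) : ZMod N) - ((x.ev u : ℤ) : ZMod N)) = none := by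
            rw [e1, e2]
            exact (Data.lab_none_iff h hu hN hv).2 h7
          have h11 := (Data.toCGP h hu hN).T_none ((x.ev u : ℤ) : ZMod N)
            ((y.ev u : ℤ) : ZMod N) hl
          change (Data.toCGP h hu hN).T (Sum.inl ((x.ev u : ℤ) : ZMod N))
            (Sum.inl ((y.ev u : ℤ) : ZMod N)) = Sum.inl ((z.ev u : ℤ) : ZMod N)
          rw [h11, e1, e2]
          have h12 : (Data.toCGP h hu hN).psi (((D.sideAt i p).cls : ℤ) : ZMod D.k)
              ((D.val u i p (q.ev u) : ℤ) : ZMod N)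
              = ((D.val u i (D.nx i p) (q.ev u) : ℤ) : ZMod N) := Data.psi_spec h hu hN hv
          rw [h12, ← e3]
          congr 1
          ring
        · rw [hxc] at h6
          obtain ⟨h7, h8, h9⟩ := h6
          have e1 := hcl h8
          have e2 := sum_eq hN h9
          rw [valA_ev] at e2
          have h4' := (h.2.2.2.2.2.1 i hv.1).2.2.2.1
          have he : e < D.J := by omega
          have hl : (Data.toCGP h hu hN).lab
              (CG.cl (Data.k_dvd h hN) ((x.ev u : ℤ) : ZMod N))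
              (((y.ev u : ℤ) : ZMod N) - ((x.ev u : ℤ) : ZMod N)) = some ⟨e, he⟩ := by
            rw [e1, e2]
            have h13 := Data.lab_spec h hu hN hv
            rw [dif_pos ⟨by omega, h4'⟩] at h13
            refine h13.trans ?_
            congr 1
            apply Fin.ext
            change (D.cell i).lab - 1 = e
            omega
          have h11 := (Data.toCGP h hu hN).T_some ((x.ev u : ℤ) : ZMod N)
            ((y.ev u : ℤ) : ZMod N) ⟨e, he⟩ hl
          have e4 : pt D u N (Sum.inr e) = Sum.inr ⟨e, he⟩ := by simp only [pt, dif_pos he]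
          rw [e4]
          exact h11
      · rw [hxa, hxb] at h6
        exact absurd h6 (by unfold triB; exact id)
    · rw [hxa] at h6
      exact absurd h6 (by unfold triB; exact id)
  refine ⟨key.1, ?_, ?_⟩
  · have := (Data.toCGP h hu hN).triSys.cyc _ _ key.2
    rw [key.1] at this
    exact this
  · have := (Data.toCGP h hu hN).triSys.cyc' _ _ key.2
    rw [key.1] at this
    exact this

end Path

end Pd97
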