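import Mathlib
import Pool.Agent.Lib.Pd97.TabLoc

/-!
# MP_d97cc3_co : blocks from tables and flips
-/

namespace Pd97

open Pool.Agent.Lib.CurG Pool.Agent.Lib.CurP Pool.Agent.Lib.CurP.Table

variable {n : ℕ}

/-- Among the `n` vertices: the graph is complete, the vertex `y` is split in `i0` and `i1`, and
the edge `w a` is missing, where `w` is adjacent to `i0` and `a` to `i1`. -/
def Loc.wfin (L : Loc n) (i0 i1 w a : Fin n) : Prop :=
  L.A i0 i1 = false ∧ L.A i1 i0 = false ∧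
  (∀ v, v ≠ i0 → v ≠ i1 → L.A v i0 = !(L.A v i1)) ∧
  (∀ u v, u ≠ i0 → u ≠ i1 → v ≠ i0 → v ≠ i1 →
    (L.A u v = true ↔ u ≠ v ∧ ¬ ((u = w ∧ v = a) ∨ (u = a ∧ v = w)))) ∧
  L.A w i0 = true ∧ L.A a i1 = true ∧ w ≠ i0 ∧ w ≠ i1 ∧ a ≠ i0 ∧ a ≠ i1

instance (L : Loc n) (i0 i1 w a : Fin n) : Decidable (L.wfin i0 i1 w a) := by
  unfold Loc.wfin; infer_instance

/-- Among the `n` vertices: the graph is complete, but `c` is not adjacent to the vertices `x`,
`y`, `z`, which form a face. -/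
def Loc.hfin (L : Loc n) (c x y z : Fin n) : Prop :=
  c ≠ x ∧ c ≠ y ∧ c ≠ z ∧ x ≠ y ∧ L.tri x y z = true ∧
  ∀ a b, L.A a b = true ↔ a ≠ b ∧ ¬ ((a = c ∧ (b = x ∨ b = y ∨ b = z)) ∨
    (b = c ∧ (a = x ∨ a = y ∨ a = z)))

instance (L : Loc n) (c x y z : Fin n) : Decidable (L.hfin c x y z) := by
  unfold Loc.hfin; infer_instance

namespace FlipBlocksAux

/-- all the letters are in the range, so a vertex outside of the range is an element of `ZMod N` -/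
theorem outside {D : Data} (hJ : D.J = 3) (P : Path (n + 3))
    (hv : P.verts 0 = Sum.inr 0 ∧ P.verts 1 = Sum.inr 1 ∧ P.verts 2 = Sum.inr 2)
    (u : ℤ) (N : ℕ) (v : ZMod N ⊕ Fin D.J) (h : ¬ ∃ a, v = pt D u N (P.verts a)) :
    ∃ x, v = Sum.inl x := by
  rcases v with x | ⟨e, he⟩
  · exact ⟨x, rfl⟩
  · exfalso
    apply h
    have h3 : e = 0 ∨ e = 1 ∨ e = 2 := by omega
    rcases h3 with rfl | rfl | rfl
    · exact ⟨0, by rw [hv.1]; simp [pt, he]⟩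
    · exact ⟨1, by rw [hv.2.1]; simp [pt, he]⟩
    · exact ⟨2, by rw [hv.2.2]; simp [pt, he]⟩

theorem pt_inr {D : Data} (u : ℤ) (N : ℕ) (e : ℕ) (he : e < D.J) :
    pt D u N (Sum.inr e) = Sum.inr ⟨e, he⟩ := by
  simp [pt, he]

theorem tri_holds {n : ℕ} {V : Type} {Γ : SimpleGraph V} {S : TriSys Γ} {ι : Fin n → V}
    {L : Loc n} (h : L.Holds S ι) {x y z : Fin n} (ht : L.tri x y z = true) :
    S.T (ι x) (ι y) = ι z := by
  unfold Loc.tri at ht
  rcases of_decide_eq_true ht with h1 | h1 | h1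
  · exact (h.2 _ h1).1
  · exact (h.2 _ h1).2.2
  · exact (h.2 _ h1).2.1

theorem hasC_CC {D : Data} [NeZero D.k] {e : ℕ} (he : e < D.J) (c : ZMod D.k) :
    D.CC ⟨e, he⟩ c ↔ D.hasC e ((c.val : ℕ) : ℤ) := Iff.rfl

end FlipBlocksAux

open FlipBlocksAux

/-- Letters `0` and `1` are the two parts of the split vertex, letter `2` is adjacent to all the
elements of `ZMod N`; they are the vertices number `0`, `1`, `2`. -/
theorem wblock_of_path {D : Data} (h : D.OK) (hJ : D.J = 3)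
    (h2 : ∀ c < D.k, D.hasC 2 (c : ℤ))
    (h01 : ∀ c < D.k, (D.hasC 0 (c : ℤ) ↔ ¬ D.hasC 1 (c : ℤ)))
    (P : Path (n + 3)) (hP : P.OK D) (hv : P.verts 0 = Sum.inr 0 ∧ P.verts 1 = Sum.inr 1 ∧
      P.verts 2 = Sum.inr 2) (w a : Fin (n + 3))
    (hr : ∃ L ∈ (P.loc D).run P.flips, L.wfin 0 1 w a)
    {u : ℤ} (hu : D.u₀ ≤ u) {N : ℕ} (hN : (N : ℤ) = D.nf.ev u) : WBlock (N + 2) := by
  have hN2 : 2 ≤ N := Data.two_le h hu hN
  have : NeZero N := ⟨by omega⟩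
  have : NeZero D.k := ⟨h.1.ne'⟩
  obtain ⟨L, hL, hw⟩ := hr
  obtain ⟨w1, w2, w3, w4, w5, w6, w7, w8, w9, w10⟩ := hw
  set ι : Fin (n + 3) → ZMod N ⊕ Fin D.J := fun b => pt D u N (P.verts b) with hι
  have hinj : Function.Injective ι := P.pt_inj h hP hu hN
  obtain ⟨Γ', S', hH, hS⟩ := Loc.run_sound ι hinj P.flips (Data.toCGP h hu hN).triSys _ L
    (P.loc_holds h hP hu hN) hL
  have h0J : 0 < D.J := by omega
  have h1J : 1 < D.J := by omega
  have h2J : 2 < D.J := by omega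
  have i0 : ι 0 = Sum.inr ⟨0, h0J⟩ := by rw [hι]; simp only; rw [hv.1, pt_inr]
  have i1 : ι 1 = Sum.inr ⟨1, h1J⟩ := by rw [hι]; simp only; rw [hv.2.1, pt_inr]
  have i2 : ι 2 = Sum.inr ⟨2, h2J⟩ := by rw [hι]; simp only; rw [hv.2.2, pt_inr]
  have out : ∀ v, (¬ ∃ b, v = ι b) → ∃ x, v = Sum.inl x := fun v hv' =>
    outside hJ P hv u N v hv'
  have key : ∀ x y : ZMod N ⊕ Fin D.J, x ≠ ι 0 → x ≠ ι 1 → y ≠ ι 0 → y ≠ ι 1 →
      (¬ ∃ b, x = ι b) → (Γ'.Adj x y ↔ x ≠ y) := by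
    intro x y hx0 hx1 hy0 hy1 hx
    rw [hS x y (fun hh => hx hh.1)]
    obtain ⟨x', rfl⟩ := out x hx
    rcases y with y' | ⟨e, he⟩
    · change x' ≠ y' ↔ _
      simp
    · have he2 : e = 2 := by
        have : e ≠ 0 := fun hh => hy0 (by rw [i0]; subst hh; rfl)
        have : e ≠ 1 := fun hh => hy1 (by rw [i1]; subst hh; rfl)
        omega
      subst he2
      change D.CC ⟨2, he⟩ _ ↔ _
      rw [hasC_CC]
      simp only [ne_eq, reduceCtorEq, not_false_eq_true, iff_true]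
      exact h2 _ (ZMod.val_lt _)
  refine ⟨ZMod N ⊕ Fin D.J, inferInstance, Γ', ι 0, ι 1, ι w, ι a, ?_, ?_, ?_, ?_, ?_, ?_, ?_,
    ⟨S'⟩⟩
  · rw [Fintype.card_sum, ZMod.card, Fintype.card_fin, hJ]
  · rw [i0, i1]
    simp
  · rw [hH.1, w1]
    simp
  · intro v hv0 hv1
    by_cases hvr : ∃ b, v = ι b
    · obtain ⟨b, rfl⟩ := hvr
      rw [hH.1, hH.1, w3 b (fun hh => hv0 (by rw [hh])) (fun hh => hv1 (by rw [hh]))]
      simp
    · rw [hS v (ι 0) (fun hh => hvr hh.1), hS v (ι 1) (fun hh => hvr hh.1)]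
      obtain ⟨x', rfl⟩ := out v hvr
      rw [i0, i1]
      change D.CC ⟨0, h0J⟩ _ ↔ ¬ D.CC ⟨1, h1J⟩ _
      rw [hasC_CC, hasC_CC]
      exact h01 _ (ZMod.val_lt _)
  · intro x y hx0 hx1 hy0 hy1
    by_cases hx : ∃ b, x = ι b
    · by_cases hy : ∃ b, y = ι b
      · obtain ⟨b, rfl⟩ := hx
        obtain ⟨c, rfl⟩ := hy
        rw [hH.1, w4 b c (fun hh => hx0 (by rw [hh])) (fun hh => hx1 (by rw [hh]))
          (fun hh => hy0 (by rw [hh])) (fun hh => hy1 (by rw [hh]))]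
        simp only [hinj.eq_iff, ne_eq]
      · rw [SimpleGraph.adj_comm, key y x hy0 hy1 hx0 hx1 hy]
        refine ⟨fun hh => ⟨hh.symm, ?_⟩, fun hh => hh.1.symm⟩
        rintro (⟨_, h5⟩ | ⟨_, h5⟩)
        · exact hy ⟨_, h5⟩
        · exact hy ⟨_, h5⟩
    · rw [key x y hx0 hx1 hy0 hy1 hx]
      refine ⟨fun hh => ⟨hh, ?_⟩, fun hh => hh.1⟩
      rintro (⟨h5, _⟩ | ⟨h5, _⟩)
      · exact hx ⟨_, h5⟩
      · exact hx ⟨_, h5⟩
  · rw [hH.1, w5]
  · rw [hH.1, w6]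

/-- Three letters which are adjacent to all the elements of `ZMod N`; they are the vertices number
`0`, `1`, `2`. At the end, a new vertex is inserted in the face `x y z`. -/
theorem hblock_of_path {D : Data} (h : D.OK) (hJ : D.J = 3)
    (hf : ∀ e < 3, ∀ c < D.k, D.hasC e (c : ℤ))
    (P : Path (n + 3)) (hP : P.OK D) (hv : P.verts 0 = Sum.inr 0 ∧ P.verts 1 = Sum.inr 1 ∧
      P.verts 2 = Sum.inr 2) (c x y z : Fin (n + 3))
    (hr : ∃ L ∈ (P.loc D).run P.flips, L.hfin c x y z)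
    {u : ℤ} (hu : D.u₀ ≤ u) {N : ℕ} (hN : (N : ℤ) = D.nf.ev u) : HBlock (N + 3) := by
  have hN2 : 2 ≤ N := Data.two_le h hu hN
  have : NeZero N := ⟨by omega⟩
  have : NeZero D.k := ⟨h.1.ne'⟩
  obtain ⟨L, hL, hw⟩ := hr
  obtain ⟨hcx, hcy, hcz, hxy, htri, hA⟩ := hw
  set ι : Fin (n + 3) → ZMod N ⊕ Fin D.J := fun b => pt D u N (P.verts b) with hι
  have hinj : Function.Injective ι := P.pt_inj h hP hu hN
  obtain ⟨Γ', S', hH, hS⟩ := Loc.run_sound ι hinj P.flips (Data.toCGP h hu hN).triSys _ L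
    (P.loc_holds h hP hu hN) hL
  have out : ∀ v, (¬ ∃ b, v = ι b) → ∃ x, v = Sum.inl x := fun v hv' =>
    outside hJ P hv u N v hv'
  have key : ∀ p q : ZMod N ⊕ Fin D.J, (¬ ∃ b, p = ι b) → (Γ'.Adj p q ↔ p ≠ q) := by
    intro p q hp
    rw [hS p q (fun hh => hp hh.1)]
    obtain ⟨p', rfl⟩ := out p hp
    rcases q with q' | ⟨e, he⟩
    · change p' ≠ q' ↔ _
      simp
    · change D.CC ⟨e, he⟩ _ ↔ _
      rw [hasC_CC]
      simp only [ne_eq, reduceCtorEq, not_false_eq_true, iff_true]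
      exact hf e (by omega) _ (ZMod.val_lt _)
  -- adjacency in `Γ'`
  have hadj : ∀ p q : ZMod N ⊕ Fin D.J, Γ'.Adj p q ↔ p ≠ q ∧
      ¬ ((p = ι c ∧ (q = ι x ∨ q = ι y ∨ q = ι z)) ∨
        (q = ι c ∧ (p = ι x ∨ p = ι y ∨ p = ι z))) := by
    intro p q
    by_cases hp : ∃ b, p = ι b
    · by_cases hq : ∃ b, q = ι b
      · obtain ⟨b, rfl⟩ := hp
        obtain ⟨d, rfl⟩ := hq
        rw [hH.1, hA]
        simp only [hinj.eq_iff, ne_eq]
      · rw [SimpleGraph.adj_comm, key q p hq]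
        refine ⟨fun hh => ⟨hh.symm, ?_⟩, fun hh => hh.1.symm⟩
        rintro (⟨_, h5 | h5 | h5⟩ | ⟨h5, _⟩)
        · exact hq ⟨_, h5⟩
        · exact hq ⟨_, h5⟩
        · exact hq ⟨_, h5⟩
        · exact hq ⟨_, h5⟩
    · rw [key p q hp]
      refine ⟨fun hh => ⟨hh, ?_⟩, fun hh => hh.1⟩
      rintro (⟨h5, _⟩ | ⟨_, h5 | h5 | h5⟩)
      · exact hp ⟨_, h5⟩
      · exact hp ⟨_, h5⟩
      · exact hp ⟨_, h5⟩
      · exact hp ⟨_, h5⟩
  let Γ'' : SimpleGraph (Option (ZMod N ⊕ Fin D.J)) :=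
    { Adj := fun p q => match p, q with
        | some p, some q => Γ'.Adj p q
        | some p, none => p = ι x ∨ p = ι y ∨ p = ι z
        | none, some q => q = ι x ∨ q = ι y ∨ q = ι z
        | none, none => False
      symm := ⟨by
        rintro (_ | p) (_ | q) hh
        · exact hh
        · exact hh
        · exact hh
        · exact SimpleGraph.Adj.symm (G := Γ') hh⟩
      loopless := ⟨by
        rintro (_ | p) hh
        · exact hh
        · exact Γ'.loopless.irrefl _ hh⟩ }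
  have g1 : ∀ p q, Γ''.Adj (some p) (some q) ↔ Γ'.Adj p q := fun _ _ => Iff.rfl
  have g2 : ∀ p, Γ''.Adj (some p) none ↔ p = ι x ∨ p = ι y ∨ p = ι z := fun _ => Iff.rfl
  have nx : ι c ≠ ι x := fun hh => hcx (hinj hh)
  have ny : ι c ≠ ι y := fun hh => hcy (hinj hh)
  have nz : ι c ≠ ι z := fun hh => hcz (hinj hh)
  have nxy : ι x ≠ ι y := fun hh => hxy (hinj hh)
  have hT : S'.T (ι x) (ι y) = ι z := tri_holds hH htri
  have hxy' : Γ'.Adj (ι x) (ι y) := by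
    rw [hadj]
    refine ⟨nxy, ?_⟩
    rintro (⟨h5, _⟩ | ⟨h5, _⟩)
    · exact nx h5.symm
    · exact ny h5.symm
  have hcard : Fintype.card (ZMod N ⊕ Fin D.J) = N + 3 := by
    rw [Fintype.card_sum, ZMod.card, Fintype.card_fin, hJ]
  refine ⟨Option (ZMod N ⊕ Fin D.J), inferInstance, Γ'', some (ι c), none, ?_, ?_, ?_, ?_, ?_,
    ?_, ?_, exists_insert S' (ι x) (ι y) (ι z) hxy' hT Γ'' g1 g2⟩
  · rw [Fintype.card_option, hcard]
  · simp
  · rw [g2]
    rintro (h5 | h5 | h5)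
    · exact nx h5
    · exact ny h5
    · exact nz h5
  · rintro (_ | p) hp hp'
    · exact absurd rfl hp'
    · have hpc : p ≠ ι c := fun hh => hp (by rw [hh])
      rw [g1, g2, hadj]
      constructor
      · rintro ⟨_, h6⟩ h7
        exact h6 (Or.inr ⟨rfl, h7⟩)
      · intro h6
        refine ⟨hpc, ?_⟩
        rintro (⟨h7, _⟩ | ⟨_, h7⟩)
        · exact hpc h7
        · exact h6 h7
  · rintro (_ | p) (_ | q) hp hp' hq hq'
    · exact absurd rfl hp'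
    · exact absurd rfl hp'
    · exact absurd rfl hq'
    · have hpc : p ≠ ι c := fun hh => hp (by rw [hh])
      have hqc : q ≠ ι c := fun hh => hq (by rw [hh])
      rw [g1, hadj]
      constructor
      · rintro ⟨h6, _⟩ h7
        exact h6 (Option.some.inj h7)
      · intro h6
        refine ⟨fun hh => h6 (by rw [hh]), ?_⟩
        rintro (⟨h7, _⟩ | ⟨h7, _⟩)
        · exact hpc h7
        · exact hqc h7
  · classical
    have hne : ∃ p : ZMod N ⊕ Fin D.J, p ∉ ({ι c, ι x, ι y, ι z} : Finset (ZMod N ⊕ Fin D.J)) := by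
      by_contra hcon
      push Not at hcon
      have h8 : (Finset.univ : Finset (ZMod N ⊕ Fin D.J)) ⊆ {ι c, ι x, ι y, ι z} :=
        fun p _ => hcon p
      have h9 := Finset.card_le_card h8
      rw [Finset.card_univ, hcard] at h9
      have h10 : ({ι c, ι x, ι y, ι z} : Finset (ZMod N ⊕ Fin D.J)).card ≤ 4 :=
        Finset.card_le_four
      omega
    obtain ⟨p, hp⟩ := hne
    simp only [Finset.mem_insert, Finset.mem_singleton, not_or] at hp
    obtain ⟨p1, p2, p3, p4⟩ := hp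
    refine ⟨some p, ?_⟩
    rw [g1, hadj]
    refine ⟨p1, ?_⟩
    rintro (⟨h7, _⟩ | ⟨_, h7 | h7 | h7⟩)
    · exact p1 h7
    · exact p2 h7
    · exact p3 h7
    · exact p4 h7
  · exact ⟨some (ι x), (g2 _).2 (Or.inl rfl)⟩

end Pd97
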