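import Mathlib
import Pool.Agent.Lib.Pd97.Fam.Row1
import Pool.Agent.Lib.Pd97.Fam.Row2
import Pool.Agent.Lib.Pd97.Fam.Row3
import Pool.Agent.Lib.Pd97.Fam.Row4
import Pool.Agent.Lib.Pd97.Fam.Z7
import Pool.Agent.Lib.Pd97.Fam.Z3
import Pool.Agent.Lib.Pd97.Fam.Z4e
import Pool.Agent.Lib.Pd97.Fam.Z4o
import Pool.Agent.Lib.Pd97.Fam.Z0e
import Pool.Agent.Lib.Pd97.Fam.Z0o
import Pool.Agent.Lib.Pd97.Fam.O2e
import Pool.Agent.Lib.Pd97.Fam.O2o
import Pool.Agent.Lib.Pd97.Fam.O5
import Pool.Agent.Lib.Pd97.Fam.H1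
import Pool.Agent.Lib.Pd97.Fam.H9e
import Pool.Agent.Lib.Pd97.Fam.H9o
import Pool.Agent.Lib.Pd97.Fam.H10
import Pool.Agent.Lib.Pd97.Fam.H6
import Pool.Agent.Lib.Pd97.Fam.W11
import Pool.Agent.Lib.Pd97.Fam.W8o
import Pool.Agent.Lib.Pd97.Fam.W8a
import Pool.Agent.Lib.Pd97.Fam.W8b

/-!
# MP_d97cc3_co : all the blocks
-/

namespace Pd97

theorem all_z7 (s : ℕ) : HasPB (12 * s + 7) 0 := by
  rcases Nat.lt_or_ge s 2 with h | h
  · interval_cases s
    · exact smallZ7
    · exact smallZ19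
  · exact hasPB_of_Z (by omega) (fam_z7_block (u := s) (by omega) (by push_cast; ring))

theorem all_z3 (s : ℕ) : HasPB (12 * s + 3) 0 := by
  rcases Nat.lt_or_ge s 3 with h | h
  · interval_cases s
    · exact smallZ3
    · exact smallZ15
    · exact smallZ27
  · exact hasPB_of_Z (by omega) (fam_z3_block (u := s) (by omega) (by push_cast; ring))

theorem all_z4 (s : ℕ) : HasPB (12 * s + 4) 0 := by
  rcases Nat.lt_or_ge s 4 with h | h
  · interval_cases s
    · exact smallZ4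
    · exact smallZ16
    · exact smallZ28
    · exact smallZ40
  · apply hasPB_of_Z (by omega)
    rcases Nat.even_or_odd' s with ⟨u, rfl | rfl⟩
    · exact fam_z4e_block (u := u) (by omega) (by push_cast; ring)
    · exact fam_z4o_block (u := u) (by omega) (by push_cast; ring)

theorem all_z0 (s : ℕ) (hs : 1 ≤ s) : HasPB (12 * s) 0 := by
  rcases Nat.lt_or_ge s 4 with h | h
  · interval_cases s
    · exact smallZ12
    · exact smallZ24
    · exact smallZ36
  · apply hasPB_of_Z (by omega)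
    rcases Nat.even_or_odd' s with ⟨u, rfl | rfl⟩
    · exact fam_z0e_block (u := u) (by omega) (by push_cast; ring)
    · exact fam_z0o_block (u := u) (by omega) (by push_cast; ring)

theorem all_o2 (s : ℕ) (hs : 1 ≤ s) : HasPB (12 * s + 2) 1 := by
  rcases Nat.lt_or_ge s 4 with h | h
  · interval_cases s
    · exact smallO14
    · exact smallO26
    · exact smallO38
  · apply hasPB_of_O
    rcases Nat.even_or_odd' s with ⟨u, rfl | rfl⟩
    · exact fam_o2e_block (u := u) (by omega) (by push_cast; ring)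
    · exact fam_o2o_block (u := u) (by omega) (by push_cast; ring)

theorem all_o5 (s : ℕ) : HasPB (12 * s + 5) 1 := by
  rcases Nat.lt_or_ge s 3 with h | h
  · interval_cases s
    · exact smallO5
    · exact smallO17
    · exact smallO29
  · exact hasPB_of_O (fam_o5_block (u := s) (N := 12 * s + 3) (by omega) (by push_cast; ring))

theorem all_h1 (s : ℕ) (hs : 1 ≤ s) : HasSB (12 * s + 1) 0 := by
  rcases Nat.lt_or_ge s 3 with h | h
  · interval_cases s
    · exact smallH13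
    · exact smallH25
  · exact hasSB_of_H (fam_h1_block (u := s) (N := 12 * s) (by omega) (by push_cast; ring))

theorem all_h9 (s : ℕ) : HasSB (12 * s + 9) 0 := by
  rcases Nat.lt_or_ge s 3 with h | h
  · interval_cases s
    · exact smallH9
    · exact smallH21
    · exact smallH33
  · apply hasSB_of_H
    rcases Nat.even_or_odd' s with ⟨u, rfl | rfl⟩
    · exact fam_h9e_block (u := u) (N := 12 * (2 * u) + 8) (by omega) (by push_cast; ring)
    · exact fam_h9o_block (u := u) (N := 12 * (2 * u + 1) + 8) (by omega) (by push_cast; ring)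

theorem all_h10 (s : ℕ) (hs : 1 ≤ s) : HasSB (12 * s + 10) 0 := by
  rcases Nat.lt_or_ge s 2 with h | h
  · interval_cases s
    exact smallH22
  · exact hasSB_of_H (fam_h10_block (u := s) (N := 12 * s + 9) (by omega) (by push_cast; ring))

theorem all_h6 (s : ℕ) (hs : 1 ≤ s) : HasSB (12 * s + 6) 0 := by
  rcases Nat.lt_or_ge s 3 with h | h
  · interval_cases s
    · exact smallH18
    · exact smallH30
  · exact hasSB_of_H (fam_h6_block (u := s) (N := 12 * s + 3) (by omega) (by push_cast; ring))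

theorem all_w11 (s : ℕ) : HasWB (12 * s + 11) := by
  rcases Nat.lt_or_ge s 3 with h | h
  · interval_cases s
    · exact smallW11
    · exact smallW23
    · exact smallW35
  · exact hasWB_of_W (fam_w11_block (u := s) (N := 12 * s + 9) (by omega) (by push_cast; ring))

theorem all_w8 (s : ℕ) (hs : 1 ≤ s) : HasWB (12 * s + 8) := by
  rcases Nat.lt_or_ge s 4 with h | h
  · interval_cases s
    · exact smallW20
    · exact smallW32
    · exact smallW44
  · apply hasWB_of_W
    obtain ⟨u, rfl | rfl | rfl⟩ : ∃ u, s = 2 * u + 1 ∨ s = 4 * u + 2 ∨ s = 4 * u := by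
      have h1 : s % 4 < 4 := Nat.mod_lt _ (by norm_num)
      rcases Nat.even_or_odd' s with ⟨v, hv | hv⟩
      · rcases Nat.even_or_odd' v with ⟨w, hw | hw⟩
        · exact ⟨w, by omega⟩
        · exact ⟨w, by omega⟩
      · exact ⟨v, by omega⟩
    · exact fam_w8o_block (u := u) (N := 12 * (2 * u + 1) + 6) (by omega) (by push_cast; ring)
    · exact fam_w8a_block (u := u) (N := 12 * (4 * u + 2) + 6) (by omega) (by push_cast; ring)
    · exact fam_w8b_block (u := u) (N := 12 * (4 * u) + 6) (by omega) (by push_cast; ring)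

/-- All the blocks: the type depends on `m` modulo 12. -/
theorem all_blocks (m : ℕ) (hm : 3 ≤ m) (h6 : m ≠ 6) (h10 : m ≠ 10) :
    (HasPB m 0 ∧ (m % 12 = 0 ∨ m % 12 = 3 ∨ m % 12 = 4 ∨ m % 12 = 7)) ∨
    (HasPB m 1 ∧ (m % 12 = 2 ∨ m % 12 = 5) ∧ 5 ≤ m) ∨
    (HasSB m 0 ∧ (m % 12 = 1 ∨ m % 12 = 6 ∨ m % 12 = 9 ∨ m % 12 = 10) ∧ 8 ≤ m) ∨
    (HasSB m 1 ∧ (m % 12 = 8 ∨ m % 12 = 11) ∧ 8 ≤ m ∧ (m = 8 ∨ HasWB m)) := by
  obtain ⟨s, r, hr, rfl⟩ : ∃ s r, r < 12 ∧ m = 12 * s + r :=
    ⟨m / 12, m % 12, Nat.mod_lt _ (by norm_num), by omega⟩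
  interval_cases r
  · exact Or.inl ⟨all_z0 s (by omega), by omega⟩
  · exact Or.inr (Or.inr (Or.inl ⟨all_h1 s (by omega), by omega, by omega⟩))
  · exact Or.inr (Or.inl ⟨all_o2 s (by omega), by omega, by omega⟩)
  · exact Or.inl ⟨all_z3 s, by omega⟩
  · exact Or.inl ⟨all_z4 s, by omega⟩
  · exact Or.inr (Or.inl ⟨all_o5 s, by omega, by omega⟩)
  · exact Or.inr (Or.inr (Or.inl ⟨all_h6 s (by omega), by omega, by omega⟩))
  · exact Or.inl ⟨all_z7 s, by omega⟩
  · rcases Nat.eq_zero_or_pos s with rfl | hs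
    · exact Or.inr (Or.inr (Or.inr ⟨smallT8, by omega, by omega, Or.inl rfl⟩))
    · exact Or.inr (Or.inr (Or.inr ⟨(all_w8 s hs).hasSB, by omega, by omega,
        Or.inr (all_w8 s hs)⟩))
  · exact Or.inr (Or.inr (Or.inl ⟨all_h9 s, by omega, by omega⟩))
  · exact Or.inr (Or.inr (Or.inl ⟨all_h10 s (by omega), by omega, by omega⟩))
  · exact Or.inr (Or.inr (Or.inr ⟨(all_w11 s).hasSB, by omega, by omega, Or.inr (all_w11 s)⟩))

end Pd97
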