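import Mathlib
import Pool.Agent.Lib.Pd97.Final

/-!
# MP_d97cc3_co : rotation systems given by finite tables

`R` is the list of the rotations at the vertices `0, 1, ...`; the darts are the numbers
`0, ..., 2 E - 1` and the dart `d` reversed is `d xor 1`. `F` is the list of the faces.
-/

namespace Pd97

/-- successor in a cyclic list -/
def nxt (l : List ℕ) (x : ℕ) : ℕ := l.getD ((l.idxOf x + 1) % l.length) 0

/-- the vertex of a dart -/
def srcOf (R : List (List ℕ)) (d : ℕ) : ℕ := R.findIdx fun l => l.contains d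

/-- the next dart of the face -/
def phiOf (R : List (List ℕ)) (d : ℕ) : ℕ := nxt (R.getD (srcOf R (d ^^^ 1)) []) (d ^^^ 1)

/-- `R` and `F` are partitions of `{0, ..., 2 E - 1}`, no row of `R` is empty, the elements of `F`
have length at least three and are cycles of `phiOf`. -/
def mapOK (R F : List (List ℕ)) (E : ℕ) : Bool :=
  decide (R.flatten.length = 2 * E) && decide (F.flatten.length = 2 * E) &&
  ((List.range (2 * E)).all fun d => R.flatten.contains d && F.flatten.contains d) &&
  (R.all fun l => !l.isEmpty) &&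
  (F.all fun f => decide (3 ≤ f.length) && f.all fun d => phiOf R d == nxt f d)

namespace FinMapAux

open Equiv

/-- the lists of `L` form a partition of `{0, ..., N - 1}` -/
structure Part (L : List (List ℕ)) (N : ℕ) : Prop where
  nd : L.flatten.Nodup
  mem : ∀ d, d ∈ L.flatten ↔ d < N

theorem part_of {L : List (List ℕ)} {N : ℕ} (h1 : L.flatten.length = N)
    (h2 : ∀ d < N, d ∈ L.flatten) : Part L N := by
  have hsub : (List.range N).Subperm L.flatten :=
    List.subperm_of_subset List.nodup_range (fun d hd => h2 d (List.mem_range.1 hd))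
  have hp := hsub.perm_of_length_le (by rw [h1, List.length_range])
  exact ⟨hp.nodup_iff.1 List.nodup_range, fun d => by rw [← hp.mem_iff, List.mem_range]⟩

variable {L : List (List ℕ)} {N : ℕ}

theorem idx_lt (h : Part L N) {d : ℕ} (hd : d < N) : srcOf L d < L.length := by
  unfold srcOf
  rw [List.findIdx_lt_length]
  obtain ⟨l, hl, hdl⟩ := List.mem_flatten.1 ((h.mem d).2 hd)
  exact ⟨l, hl, by simpa using hdl⟩

theorem mem_row (h : Part L N) {d : ℕ} (hd : d < N) : d ∈ L[srcOf L d]'(idx_lt h hd) := by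
  rw [← List.contains_iff_mem]
  exact List.findIdx_getElem (p := fun l : List ℕ => l.contains d) (xs := L) (w := idx_lt h hd)

theorem lt_of_mem (h : Part L N) {i : ℕ} (hi : i < L.length) {d : ℕ} (hd : d ∈ L[i]) : d < N :=
  (h.mem d).1 (List.mem_flatten.2 ⟨L[i], List.getElem_mem hi, hd⟩)

theorem idx_unique (h : Part L N) {i : ℕ} (hi : i < L.length) {d : ℕ} (hd : d ∈ L[i]) :
    srcOf L d = i := by
  have hdN := lt_of_mem h hi hd
  have h1 := mem_row h hdN
  have hpw := (List.nodup_flatten.1 h.nd).2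
  rw [List.pairwise_iff_getElem] at hpw
  rcases lt_trichotomy (srcOf L d) i with hlt | heq | hgt
  · exact absurd hd (List.disjoint_left.1 (hpw _ _ (idx_lt h hdN) hi hlt) h1)
  · exact heq
  · exact absurd h1 (List.disjoint_left.1 (hpw _ _ hi (idx_lt h hdN) hgt) hd)

theorem row_nodup (h : Part L N) {i : ℕ} (hi : i < L.length) : L[i].Nodup :=
  (List.nodup_flatten.1 h.nd).1 _ (List.getElem_mem hi)

theorem nxt_getElem {l : List ℕ} (hl : l.Nodup) (i : ℕ) (hi : i < l.length) :
    nxt l l[i] = l[(i + 1) % l.length]'(Nat.mod_lt _ (by omega)) := by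
  unfold nxt
  rw [hl.idxOf_getElem i hi, List.getD_eq_getElem _ _ (Nat.mod_lt _ (by omega))]

theorem nxt_mem {l : List ℕ} (hl : l.Nodup) {x : ℕ} (hx : x ∈ l) : nxt l x ∈ l := by
  obtain ⟨i, hi, rfl⟩ := List.getElem_of_mem hx
  rw [nxt_getElem hl i hi]
  exact List.getElem_mem _

theorem nxt_inj {l : List ℕ} (hl : l.Nodup) {x y : ℕ} (hx : x ∈ l) (hy : y ∈ l)
    (h : nxt l x = nxt l y) : x = y := by
  obtain ⟨i, hi, rfl⟩ := List.getElem_of_mem hx
  obtain ⟨j, hj, rfl⟩ := List.getElem_of_mem hy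
  rw [nxt_getElem hl i hi, nxt_getElem hl j hj, hl.getElem_inj_iff] at h
  have hij : i = j := by
    rcases Nat.lt_or_ge (i + 1) l.length with h1 | h1 <;> rcases Nat.lt_or_ge (j + 1) l.length with h2 | h2
    · rw [Nat.mod_eq_of_lt h1, Nat.mod_eq_of_lt h2] at h; omega
    · have : j + 1 = l.length := by omega
      rw [Nat.mod_eq_of_lt h1, this, Nat.mod_self] at h; omega
    · have : i + 1 = l.length := by omega
      rw [Nat.mod_eq_of_lt h2, this, Nat.mod_self] at h; omega
    · omega
  subst hij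
  rfl

theorem inv_of_sameCycle {α β : Type*} (g : Perm α) (f : α → β) (hf : ∀ x, f (g x) = f x) {x y : α}
    (h : g.SameCycle x y) : f x = f y := by
  have h1 : ∀ (n : ℕ) (z : α), f ((g ^ n) z) = f z := by
    intro n
    induction n with
    | zero => intro z; rfl
    | succ n ih => intro z; rw [pow_succ', Perm.mul_apply, hf, ih]
  obtain ⟨k, hk⟩ := h
  rcases Int.eq_nat_or_neg k with ⟨n, rfl | rfl⟩
  · rw [zpow_natCast] at hk
    rw [← hk, h1]
  · rw [← hk]
    have h2 := h1 n ((g ^ (-(n:ℤ))) x)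
    rw [← h2, ← zpow_natCast g n, ← Perm.mul_apply, ← zpow_add]
    simp

theorem pow_row (h : Part L N) (g : Perm (Fin N))
    (hg : ∀ i (hi : i < L.length), ∀ d : Fin N, d.1 ∈ L[i] → (g d).1 = nxt L[i] d.1)
    {i : ℕ} (hi : i < L.length) {a : ℕ} (ha : a < L[i].length) (x : Fin N) (hx : x.1 = L[i][a]) (m : ℕ) :
    ((g ^ m) x).1 = L[i][(a + m) % L[i].length]'(Nat.mod_lt _ (by omega)) := by
  induction m with
  | zero => simp [hx, Nat.mod_eq_of_lt ha]
  | succ m ih =>
    rw [pow_succ', Perm.mul_apply, hg i hi _ (by rw [ih]; exact List.getElem_mem _), ih,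
      nxt_getElem (row_nodup h hi)]
    congr 1
    rw [← add_assoc, Nat.mod_add_mod]

theorem perm_part (h : Part L N) (g : Perm (Fin N))
    (hg : ∀ i (hi : i < L.length), ∀ d : Fin N, d.1 ∈ L[i] → (g d).1 = nxt L[i] d.1)
    (hne : ∀ l ∈ L, l ≠ []) :
    (∀ x y, g.SameCycle x y ↔ srcOf L x = srcOf L y) ∧ ncyc g = L.length := by
  have hinv : ∀ x : Fin N, srcOf L (g x).1 = srcOf L x.1 := by
    intro x
    have hi := idx_lt h x.2
    refine idx_unique h hi ?_
    rw [hg _ hi x (mem_row h x.2)]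
    exact nxt_mem (row_nodup h hi) (mem_row h x.2)
  have h1 : ∀ x y, g.SameCycle x y ↔ srcOf L x = srcOf L y := by
    intro x y
    constructor
    · intro hxy
      exact inv_of_sameCycle g (fun z : Fin N => srcOf L z.1) hinv hxy
    · intro hxy
      have hi := idx_lt h x.2
      obtain ⟨a, ha, hax⟩ := List.getElem_of_mem (mem_row h x.2)
      have hy : y.1 ∈ L[srcOf L x.1] := by
        have := mem_row h y.2
        simp only [← hxy] at this
        exact this
      obtain ⟨b, hb, hby⟩ := List.getElem_of_mem hy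
      refine ⟨((b + (L[srcOf L x.1].length - a) : ℕ) : ℤ), ?_⟩
      rw [zpow_natCast]
      apply Fin.ext
      rw [pow_row h g hg hi ha x hax.symm, ← hby]
      congr 1
      have : a + (b + (L[srcOf L x.1].length - a)) = b + L[srcOf L x.1].length := by omega
      rw [this, Nat.add_mod_right, Nat.mod_eq_of_lt hb]
  refine ⟨h1, ?_⟩
  unfold ncyc
  let F : Quotient (Perm.SameCycle.setoid g) → Fin L.length :=
    Quotient.lift (fun x : Fin N => (⟨srcOf L x.1, idx_lt h x.2⟩ : Fin L.length))
      (fun x y hxy => Fin.ext ((h1 x y).1 hxy))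
  have hF : Function.Bijective F := by
    constructor
    · intro x y
      refine Quotient.inductionOn₂ x y ?_
      intro a b hab
      exact Quotient.sound ((h1 a b).2 (congrArg Fin.val hab))
    · intro i
      obtain ⟨d, hd⟩ := List.exists_mem_of_ne_nil _ (hne _ (List.getElem_mem i.2))
      exact ⟨Quotient.mk _ ⟨d, lt_of_mem h i.2 hd⟩, Fin.ext (idx_unique h i.2 hd)⟩
  rw [Nat.card_congr (Equiv.ofBijective F hF), Nat.card_eq_fintype_card, Fintype.card_fin]

theorem xor_lt {d E : ℕ} (h : d < 2 * E) : d ^^^ 1 < 2 * E := by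
  have h1 : (d ^^^ 1) / 2 = d / 2 := by
    rw [Nat.xor_div_two]
    simp
  omega

theorem xor_xor (d : ℕ) : (d ^^^ 1) ^^^ 1 = d := by
  rw [Nat.xor_assoc]
  simp

theorem xor_ne (d : ℕ) : d ^^^ 1 ≠ d := by
  intro h
  have h1 : d ^^^ (d ^^^ 1) = d ^^^ d := by rw [h]
  rw [← Nat.xor_assoc, Nat.xor_self] at h1
  simp at h1

end FinMapAux

open FinMapAux Equiv in
theorem exists_cmap_of_rows (R F : List (List ℕ)) (E : ℕ) (h : mapOK R F E = true) :
    ∃ (G : CMap (Fin R.length)) (e : Fin (2 * E) ≃ G.D),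
      (∀ d, (G.src (e d)).1 = srcOf R d) ∧
      (∀ d, (e.symm (G.rev (e d))).1 = d.1 ^^^ 1) ∧
      (∀ d, (e.symm (G.phi (e d))).1 = phiOf R d) ∧
      G.nf = F.length ∧ (∀ x, G.phi x ≠ x) ∧ (∀ x, G.phi (G.phi x) ≠ x) := by
  unfold mapOK at h
  simp only [Bool.and_eq_true, decide_eq_true_eq, List.all_eq_true, List.mem_range,
    List.contains_iff_mem, Bool.not_eq_true', List.isEmpty_eq_false_iff, beq_iff_eq] at h
  obtain ⟨⟨⟨⟨hR, hF⟩, hcov⟩, hRne⟩, hface⟩ := h
  have pR : Part R (2 * E) := part_of hR fun d hd => (hcov d hd).1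
  have pF : Part F (2 * E) := part_of hF fun d hd => (hcov d hd).2
  -- the rotation
  have hrot_mem : ∀ d : Fin (2 * E), nxt (R.getD (srcOf R d.1) []) d.1 ∈ R[srcOf R d.1]'(idx_lt pR d.2) := by
    intro d
    rw [List.getD_eq_getElem _ _ (idx_lt pR d.2)]
    exact nxt_mem (row_nodup pR _) (mem_row pR d.2)
  let rotF : Fin (2 * E) → Fin (2 * E) := fun d =>
    ⟨nxt (R.getD (srcOf R d.1) []) d.1, lt_of_mem pR (idx_lt pR d.2) (hrot_mem d)⟩
  have hrot_src : ∀ d, srcOf R (rotF d).1 = srcOf R d.1 := fun d =>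
    idx_unique pR (idx_lt pR d.2) (hrot_mem d)
  have hrot_inj : Function.Injective rotF := by
    intro x y hxy
    have h1 : srcOf R x.1 = srcOf R y.1 := by rw [← hrot_src x, ← hrot_src y, hxy]
    have h2 : nxt (R.getD (srcOf R x.1) []) x.1 = nxt (R.getD (srcOf R y.1) []) y.1 := congrArg Fin.val hxy
    rw [← h1, List.getD_eq_getElem _ _ (idx_lt pR x.2)] at h2
    have hy : y.1 ∈ R[srcOf R x.1]'(idx_lt pR x.2) := by
      have := mem_row pR y.2
      simp only [← h1] at this
      exact this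
    exact Fin.ext (nxt_inj (row_nodup pR _) (mem_row pR x.2) hy h2)
  let rot : Perm (Fin (2 * E)) := Equiv.ofBijective rotF hrot_inj.bijective_of_finite
  let rev : Perm (Fin (2 * E)) :=
    { toFun := fun d => ⟨d.1 ^^^ 1, xor_lt d.2⟩
      invFun := fun d => ⟨d.1 ^^^ 1, xor_lt d.2⟩
      left_inv := fun d => Fin.ext (xor_xor d.1)
      right_inv := fun d => Fin.ext (xor_xor d.1) }
  have hgR : ∀ i (hi : i < R.length), ∀ d : Fin (2 * E), d.1 ∈ R[i] → (rot d).1 = nxt R[i] d.1 := by
    intro i hi d hd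
    have h1 := idx_unique pR hi hd
    change nxt (R.getD (srcOf R d.1) []) d.1 = _
    rw [h1, List.getD_eq_getElem _ _ hi]
  have hphi : ∀ d : Fin (2 * E), ((rot * rev) d).1 = phiOf R d.1 := fun d => rfl
  have hgF : ∀ i (hi : i < F.length), ∀ d : Fin (2 * E), d.1 ∈ F[i] → ((rot * rev) d).1 = nxt F[i] d.1 := by
    intro i hi d hd
    rw [hphi]
    exact (hface _ (List.getElem_mem hi)).2 _ hd
  have cR := perm_part pR rot hgR hRne
  have cF := perm_part pF (rot * rev) hgF (fun l hl hl0 => by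
    have := (hface l hl).1
    rw [hl0] at this
    simp at this)
  let G : CMap (Fin R.length) :=
    { D := Fin (2 * E)
      src := fun d => ⟨srcOf R d.1, idx_lt pR d.2⟩
      rev := rev
      rot := rot
      rev_rev := fun d => Fin.ext (xor_xor d.1)
      rev_ne := fun d hd => xor_ne d.1 (congrArg Fin.val hd)
      src_surj := fun i => by
        obtain ⟨d, hd⟩ := List.exists_mem_of_ne_nil _ (hRne _ (List.getElem_mem i.2))
        exact ⟨⟨d, lt_of_mem pR i.2 hd⟩, Fin.ext (idx_unique pR i.2 hd)⟩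
      src_iff := fun d e => by
        rw [cR.1 d e, Fin.mk.injEq] }
  have hpow : ∀ (x : Fin (2 * E)) (m : ℕ), 0 < m → m < 3 → ((rot * rev) ^ m) x ≠ x := by
    intro x m hm0 hm3 hx
    have hi := idx_lt pF x.2
    obtain ⟨a, ha, hax⟩ := List.getElem_of_mem (mem_row pF x.2)
    have h1 := pow_row pF (rot * rev) hgF hi ha x hax.symm m
    rw [hx] at h1
    have h1 := hax.trans h1
    rw [(row_nodup pF hi).getElem_inj_iff] at h1
    have hlen := (hface _ (List.getElem_mem hi)).1
    rcases Nat.lt_or_ge (a + m) (F[srcOf F x.1].length) with h2 | h2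
    · rw [Nat.mod_eq_of_lt h2] at h1; omega
    · have h3 : (a + m) % F[srcOf F x.1].length = a + m - F[srcOf F x.1].length := by
        rw [Nat.mod_eq_sub_mod h2, Nat.mod_eq_of_lt (by omega)]
      omega
  refine ⟨G, Equiv.refl _, fun d => rfl, fun d => rfl, fun d => rfl, cF.2, fun x => ?_, fun x => ?_⟩
  · have := hpow x 1 (by norm_num) (by norm_num)
    rw [pow_one] at this
    exact this
  · have := hpow x 2 (by norm_num) (by norm_num)
    rw [pow_two] at this
    exact this

end Pd97
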