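import Mathlib
import Pool.Agent.Lib.CurG.Rot

/-!
# MP_d97cc3_co : triangular embeddings given by finite tables

Row `v` of the table `R` is the rotation at the vertex `v`: a cyclic list of its neighbours. The
third vertex of the triangle to the left of `u → v` is the element after `u` in row `v`.
-/

namespace Pd97

open Pool.Agent.Lib.CurG

/-- successor in a cyclic list -/
def nxtT (l : List ℕ) (x : ℕ) : ℕ := l.getD ((l.idxOf x + 1) % l.length) 0

def rowsOK (R : List (List ℕ)) : Bool :=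
  (List.range R.length).all fun v =>
    decide (R.getD v []).Nodup && (R.getD v []).all fun x =>
      decide (x < R.length) && decide (x ≠ v) && (R.getD x []).contains v &&
      (R.getD (nxtT (R.getD v []) x) []).contains v &&
      (nxtT (R.getD (nxtT (R.getD v []) x) []) v == x)

theorem nxtT_mem {l : List ℕ} (hl : l ≠ []) (x : ℕ) : nxtT l x ∈ l := by
  have h0 : 0 < l.length := List.length_pos_iff.2 hl
  have h1 : (l.idxOf x + 1) % l.length < l.length := Nat.mod_lt _ h0
  unfold nxtT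
  rw [List.getD_eq_getElem _ _ h1]
  exact List.getElem_mem h1

theorem nxtT_getElem {l : List ℕ} (hn : l.Nodup) (i : ℕ) (hi : i < l.length) :
    nxtT l l[i] = l[(i + 1) % l.length]'(Nat.mod_lt _ (by omega)) := by
  have h1 : (i + 1) % l.length < l.length := Nat.mod_lt _ (by omega)
  unfold nxtT
  have h2 : l.idxOf l[i] = i := hn.idxOf_getElem i hi
  rw [h2, List.getD_eq_getElem _ _ h1]

theorem nxtT_iter {l : List ℕ} (hn : l.Nodup) (i : ℕ) (hi : i < l.length) (n : ℕ) :
    (nxtT l)^[n] l[i] = l[(i + n) % l.length]'(Nat.mod_lt _ (by omega)) := by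
  induction n with
  | zero =>
    simp only [Function.iterate_zero, id_eq, Nat.add_zero]
    congr 1
    exact (Nat.mod_eq_of_lt hi).symm
  | succ n ih =>
    rw [Function.iterate_succ_apply', ih, nxtT_getElem hn]
    congr 1
    rw [Nat.mod_add_mod, Nat.add_assoc]

theorem exists_triSys_of_rows (R : List (List ℕ)) (h : rowsOK R = true) :
    ∃ Γ : SimpleGraph (Fin R.length),
      (∀ a b, Γ.Adj a b ↔ b.1 ∈ R.getD a.1 []) ∧ Nonempty (TriSys Γ) := by
  have key : ∀ v < R.length, (R.getD v []).Nodup ∧ ∀ x ∈ R.getD v [], x < R.length ∧ x ≠ v ∧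
      v ∈ R.getD x [] ∧ v ∈ R.getD (nxtT (R.getD v []) x) [] ∧
      nxtT (R.getD (nxtT (R.getD v []) x) []) v = x := by
    intro v hv
    unfold rowsOK at h
    rw [List.all_eq_true] at h
    have h1 := h v (List.mem_range.2 hv)
    rw [Bool.and_eq_true, List.all_eq_true] at h1
    refine ⟨of_decide_eq_true h1.1, fun x hx => ?_⟩
    have h2 := h1.2 x hx
    simp only [Bool.and_eq_true, decide_eq_true_eq, List.contains_iff_mem, beq_iff_eq] at h2
    exact ⟨h2.1.1.1.1, h2.1.1.1.2, h2.1.1.2, h2.1.2, h2.2⟩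
  clear h
  -- the graph
  let Γ : SimpleGraph (Fin R.length) :=
    { Adj := fun a b => b.1 ∈ R.getD a.1 []
      symm := ⟨fun a b hab => ((key a.1 a.2).2 b.1 hab).2.2.1⟩
      loopless := ⟨fun a ha => ((key a.1 a.2).2 a.1 ha).2.1 rfl⟩ }
  have hΓ : ∀ a b, Γ.Adj a b ↔ b.1 ∈ R.getD a.1 [] := fun a b => Iff.rfl
  refine ⟨Γ, hΓ, ⟨?_⟩⟩
  -- the third vertex
  let T : Fin R.length → Fin R.length → Fin R.length := fun u v =>
    if hlt : nxtT (R.getD v.1 []) u.1 < R.length then ⟨nxtT (R.getD v.1 []) u.1, hlt⟩ else u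
  have hmem : ∀ u v : Fin R.length, Γ.Adj u v → nxtT (R.getD v.1 []) u.1 ∈ R.getD v.1 [] := by
    intro u v huv
    have h1 : u.1 ∈ R.getD v.1 [] := huv.symm
    exact nxtT_mem (List.ne_nil_of_mem h1) _
  have hT : ∀ u v : Fin R.length, Γ.Adj u v → (T u v).1 = nxtT (R.getD v.1 []) u.1 := by
    intro u v huv
    have hlt : nxtT (R.getD v.1 []) u.1 < R.length := ((key v.1 v.2).2 _ (hmem u v huv)).1
    change (if hlt : nxtT (R.getD v.1 []) u.1 < R.length then
      (⟨nxtT (R.getD v.1 []) u.1, hlt⟩ : Fin R.length) else u).1 = _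
    rw [dif_pos hlt]
  have hadj : ∀ u v, Γ.Adj u v → Γ.Adj v (T u v) := by
    intro u v huv
    rw [hΓ, hT u v huv]
    exact hmem u v huv
  refine ⟨T, hadj, ?_, ?_⟩
  · intro u v huv
    apply Fin.ext
    rw [hT _ _ (hadj u v huv), hT u v huv]
    exact ((key v.1 v.2).2 u.1 huv.symm).2.2.2.2
  · intro u v w hv hw
    have hv' : v.1 ∈ R.getD u.1 [] := hv.symm
    have hw' : w.1 ∈ R.getD u.1 [] := hw.symm
    have hn := (key u.1 u.2).1
    obtain ⟨i, hi, hiv⟩ := List.getElem_of_mem hv'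
    obtain ⟨j, hj, hjw⟩ := List.getElem_of_mem hw'
    have hiter : ∀ n : ℕ, Γ.Adj u ((fun v => T v u)^[n] v) ∧
        ((fun v => T v u)^[n] v).1 = (nxtT (R.getD u.1 []))^[n] v.1 := by
      intro n
      induction n with
      | zero => exact ⟨hv.symm, rfl⟩
      | succ n ih =>
        rw [Function.iterate_succ_apply', Function.iterate_succ_apply', ← ih.2]
        exact ⟨hadj _ _ ih.1.symm, hT _ _ ih.1.symm⟩
    refine ⟨j + ((R.getD u.1 []).length - i), ?_⟩
    apply Fin.ext
    rw [(hiter _).2, ← hiv, nxtT_iter hn i hi, ← hjw]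
    congr 1
    have : i + (j + ((R.getD u.1 []).length - i)) = j + (R.getD u.1 []).length := by omega
    rw [this, Nat.add_mod_right, Nat.mod_eq_of_lt hj]

end Pd97
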