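import Mathlib
import Pool.Agent.Lib.Pd97.Common

/-!
# MP_d97cc3_co : the cases n = 6 and n = 10

`K_k` with one hexagonal face.
-/

namespace Pd97

/-- `K_k` embedded with one hexagonal face with six different vertices, all the other faces are
triangles. -/
def HexMap (k : ℕ) : Prop :=
  ∃ (G : CMap (Fin k)) (z : Fin 6 → G.D),
    (∀ P : Fin k → Fin k → Prop, Nat.card {x : G.D // P (G.src x) (G.src (G.rev x))} =
      Nat.card {p : Fin k × Fin k // p.1 ≠ p.2 ∧ P p.1 p.2}) ∧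
    (∀ x, G.phi x ≠ x) ∧ (∀ x, G.phi (G.phi x) ≠ x) ∧
    3 * G.nf + 3 = Fintype.card G.D ∧ (∀ i, G.phi (z i) = z (i + 1)) ∧
    (Function.Injective fun i => G.src (z i)) ∧
    (∀ x, (∀ i, x ≠ z i) → G.phi (G.phi (G.phi x)) = x)

/-- `K_k` with one edge `w a` doubled, embedded with slack two and without faces of length two. -/
def ChordMap (k : ℕ) : Prop :=
  ∃ (G : CMap (Fin k)) (w a : Fin k), w ≠ a ∧
    (∀ P : Fin k → Fin k → Prop, Nat.card {x : G.D // P (G.src x) (G.src (G.rev x))} =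
      Nat.card {p : Fin k × Fin k // p.1 ≠ p.2 ∧ P p.1 p.2} +
      (@ite ℕ (P a w) (Classical.propDecidable _) 1 0 +
        @ite ℕ (P w a) (Classical.propDecidable _) 1 0)) ∧
    (∀ x, G.phi x ≠ x) ∧ (∀ x, G.phi (G.phi x) ≠ x) ∧
    3 * G.nf + 2 = Fintype.card G.D

namespace HexAux

theorem r_of_ne {V : Type} {δ : ℕ} (B : SB V δ) {v : V} (h : v ≠ B.e) : B.r v = v := by
  unfold SB.r
  rw [if_neg h]

theorem r_e {V : Type} {δ : ℕ} (B : SB V δ) : B.r B.e = B.y := by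
  unfold SB.r
  rw [if_pos rfl]

theorem ne_of_r {V : Type} {δ : ℕ} (B : SB V δ) {v : V} (h : B.r v = v) : v ≠ B.e := by
  rintro rfl
  rw [r_e] at h
  exact B.hye h

theorem r_r {V : Type} {δ : ℕ} (B : SB V δ) (v : V) : B.r (B.r v) = B.r v := by
  by_cases h : v = B.e
  · subst h
    rw [r_e, r_of_ne B B.hye]
  · rw [r_of_ne B h, r_of_ne B h]

theorem card_names {V : Type} [Fintype V] {δ m : ℕ} (B : SB V δ) (hm : Fintype.card V = m + 1) :
    Nat.card {v // B.r v = v} = m := by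
  classical
  rw [Nat.card_congr (Equiv.subtypeEquivRight (q := fun v => v ≠ B.e)
    fun v => ⟨fun h => ne_of_r B h, fun h => r_of_ne B h⟩), Nat.card_eq_fintype_card,
    Fintype.card_subtype_compl, Fintype.card_subtype_eq, hm]
  rfl

theorem card_names' {V : Type} [Fintype V] {n : ℕ} (hn : Fintype.card V = n) :
    Nat.card {v : V // (id v : V) = v} = n := by
  rw [Nat.card_congr (Equiv.subtypeUnivEquiv (p := fun v : V => (id v : V) = v) fun v => rfl),
    Nat.card_eq_fintype_card, hn]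

theorem adj1 {V : Type} {δ : ℕ} (B : SB V δ) {u v : V} (h1 : u ≠ B.y) (h2 : u ≠ B.e)
    (h3 : v ≠ B.y) (h4 : v ≠ B.e) (huv : u ≠ v) (hu : δ = 1 → u ≠ B.w) (hv : δ = 1 → v ≠ B.w) :
    B.Γ.Adj u v := by
  rw [B.adj u v h1 h2 h3 h4]
  refine ⟨huv, ?_⟩
  rintro ⟨hd, ⟨h, -⟩ | ⟨-, h⟩⟩
  · exact hu hd h
  · exact hv hd h


theorem exists_ext {L1 L2 ι : Type} [Fintype L1] [Fintype L2] [Finite ι]
    (hc : Fintype.card L2 ≤ Fintype.card L1) (f : ι → L2) (g : ι → L1)
    (hf : Function.Injective f) (hg : Function.Injective g) :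
    ∃ j : L2 → L1, Function.Injective j ∧ ∀ i, j (f i) = g i := by
  classical
  obtain ⟨j0⟩ := Function.Embedding.nonempty_of_card_le hc
  have hjf : Function.Injective fun i => j0 (f i) := j0.injective.comp hf
  let e : {x // x ∈ Set.range fun i => j0 (f i)} ≃ {x // x ∈ Set.range g} :=
    (Equiv.ofInjective _ hjf).symm.trans (Equiv.ofInjective g hg)
  refine ⟨fun v => e.extendSubtype (j0 v), (e.extendSubtype.injective).comp j0.injective,
    fun i => ?_⟩
  have hi : j0 (f i) ∈ Set.range fun i => j0 (f i) := ⟨i, rfl⟩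
  show e.extendSubtype (j0 (f i)) = g i
  rw [Equiv.extendSubtype_apply_of_mem e _ hi]
  have h1 : (Equiv.ofInjective _ hjf).symm ⟨j0 (f i), hi⟩ = i := by
    rw [Equiv.symm_apply_eq]
    rfl
  show (Equiv.ofInjective g hg ((Equiv.ofInjective _ hjf).symm ⟨j0 (f i), hi⟩) : L1) = g i
  rw [h1]
  rfl

theorem exists_new {L : Type} [Fintype L] (A : Finset L) (h : A.card < Fintype.card L) :
    ∃ x, x ∉ A := by
  by_contra hc
  push Not at hc
  have : (Finset.univ : Finset L).card ≤ A.card := Finset.card_le_card fun x _ => hc x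
  rw [Finset.card_univ] at this
  omega

theorem inj4 {L : Type} {a b c d : L} (hab : a ≠ b) (hac : a ≠ c) (had : a ≠ d) (hbc : b ≠ c)
    (hbd : b ≠ d) (hcd : c ≠ d) : Function.Injective ![a, b, c, d] := by
  intro i j h
  fin_cases i <;> fin_cases j <;> first | rfl | (exfalso; revert h; simp [*, hab.symm, hac.symm, had.symm, hbc.symm, hbd.symm, hcd.symm])

theorem ad_of_cnt {k : ℕ} {G : CMap (Fin k)}
    (hc : ∀ P : Fin k → Fin k → Prop, Nat.card {p : Fin k × Fin k // p.1 ≠ p.2 ∧ P p.1 p.2} ≤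
      Nat.card {x : G.D // P (G.src x) (G.src (G.rev x))}) {u v : Fin k} (h : u ≠ v) :
    G.Ad u v := by
  have h1 := hc fun a b => a = u ∧ b = v
  have h2 : 0 < Nat.card {p : Fin k × Fin k // p.1 ≠ p.2 ∧ p.1 = u ∧ p.2 = v} := by
    rw [Nat.card_pos_iff]
    exact ⟨⟨⟨(u, v), h, rfl, rfl⟩⟩, inferInstance⟩
  have h3 : 0 < Nat.card {x : G.D // G.src x = u ∧ G.src (G.rev x) = v} := lt_of_lt_of_le h2 h1
  rw [Nat.card_pos_iff] at h3
  obtain ⟨⟨x, hx⟩⟩ := h3.1
  exact ⟨x, hx.1, hx.2⟩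

theorem cntTop {k : ℕ} (w b : Fin k) (u v : Fin k) :
    Nat.card {p : Fin k × Fin k // (⊤ : SimpleGraph (Fin k)).Adj p.1 p.2 ∧
      (id p.1 : Fin k) = u ∧ (id p.2 : Fin k) = v} =
      @ite ℕ (u = v ∨ Mis 0 w b u v) (Classical.propDecidable _) 0 1 := by
  by_cases h : u = v
  · rw [if_pos (Or.inl h), Nat.card_eq_zero]
    left
    refine ⟨fun p => ?_⟩
    obtain ⟨⟨a, b'⟩, h1, h2, h3⟩ := p
    exact h1 (by simpa using (h2.trans h).trans h3.symm)
  · rw [if_neg, Nat.card_eq_one_iff_unique]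
    · refine ⟨⟨?_⟩, ⟨⟨(u, v), h, rfl, rfl⟩⟩⟩
      rintro ⟨⟨a, b'⟩, h1, h2, h3⟩ ⟨⟨a', b''⟩, h1', h2', h3'⟩
      simp only [id] at h2 h3 h2' h3'
      subst h2 h3 h2' h3'
      rfl
    · rintro (h1 | h1)
      · exact h h1
      · exact absurd h1.1 (by norm_num)

theorem card_names_id {V : Type} [Fintype V] {n : ℕ} (hn : Fintype.card V = n) :
    Nat.card {v : V // (fun v : V => v) v = v} = n := by
  rw [Nat.card_congr (Equiv.subtypeUnivEquiv (p := fun v : V => (fun v : V => v) v = v)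
    fun v => rfl), Nat.card_eq_fintype_card, hn]

end HexAux

open HexAux Equiv Pool.Agent.Lib.CurG

/-- `merge0` with slack `0 + 3` -/
theorem hexPP {V1 : Type} [Fintype V1] (B1 : PB V1 0) {k m : ℕ} (hk : HexMap k) (hke : Even k)
    (hm : Fintype.card V1 = m) (h6 : 6 ≤ k) (hkm : k ≤ m) (g : ℤ)
    (hg : 12 * g = ((m : ℤ) - 3) * (m - 4) + k * (k - 1) + 2 * 3) : Cel (K m k 2) g := by
  classical
  obtain ⟨G, z, hcn, hnf, hns, hcard, -, -, -⟩ := hk
  obtain ⟨c, hinj, -, -⟩ := exists_inj0 (L1 := V1) (L2 := Fin k)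
    (by rw [Fintype.card_fin]; omega) ∅ ∅ (by simp)
  obtain ⟨W1, t1, -, A1, n1, -, c1⟩ := exists_wg B1.S (fun v => B1.hne (by omega) v) B1.w
    B1.a 0 (by omega) (fun h => absurd h (by omega))
  have hA2 : ∀ {u v : Fin k}, u ≠ v → G.Ad u v := fun h =>
    ad_of_cnt (fun P => (hcn P).ge) h
  have hA1 : ∀ {u v : V1}, u ≠ v → W1.G.Ad u v := fun h => A1 _ _ (by
    rw [B1.adj]
    exact ⟨h, fun h' => absurd h'.1 (by norm_num)⟩)
  have hM : Mults W1.G G (fun v => v) c m k := by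
    refine mults_of (r2 := id) (w1 := c ⟨0, by omega⟩) (a1 := c ⟨0, by omega⟩)
      (w2 := ⟨0, by omega⟩) (a2 := ⟨0, by omega⟩) (b2 := ⟨0, by omega⟩)
      (Γ1 := B1.Γ) (Γ2 := (⊤ : SimpleGraph (Fin k))) (δ1 := 0) (δ2 := 0)
      (by omega) (by omega) (fun _ => rfl) (fun _ => rfl) (fun _ => rfl)
      (fun u v => hinj.eq_iff) (card_names_id hm) (card_names' (Fintype.card_fin k)) rfl
      (fun _ => rfl) rfl
      (fun _ => rfl) (fun _ => rfl) (fun h => absurd h (by omega)) (fun h => absurd h (by omega))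
      (fun u v _ _ => ?_) (fun u v _ _ => cntTop _ _ u v) (fun P => ?_) (fun P => ?_)
    · rw [PB.cnt B1 u v]
      simp [Mis]
    · rw [c1 P, Nat.zero_mul, Nat.zero_mul]
    · rw [hcn P, Nat.zero_mul]
      rfl
  refine merge0 W1 ⟨G, z 0, 3, hnf, fun x hx => absurd hx (hns x), by exact_mod_cast hcard⟩ hM
    (by omega) (n1 rfl) hns ?_ g ?_
  · refine cov_pp (fun _ => rfl) ∅ ?_ fun u v _ _ huv => ?_
    · rw [Set.compl_empty, Nat.card_congr (Equiv.Set.univ _), Nat.card_eq_fintype_card,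
        Fintype.card_fin]
      exact hke
    · exact ⟨fun h => huv (hinj h), hA2 huv, hA1 fun h => huv (hinj h)⟩
  · rw [hg, t1]
    simp

/-- `merge0` with slack `0 + 2`; the doubled edge of the second map is the missing edge of the
first; the two vertices are matched with two other vertices. -/
theorem hexPO {V1 : Type} [Fintype V1] (B1 : PB V1 1) {k m : ℕ} (hk : ChordMap k) (hke : Even k)
    (hm : Fintype.card V1 = m) (h6 : 6 ≤ k) (hkm : k ≤ m) (g : ℤ)
    (hg : 12 * g = ((m : ℤ) - 3) * (m - 4) + k * (k - 1) + 2 * 2) : Cel (K m k 2) g := by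
  classical
  obtain ⟨G, w, a, hwa, hcn, hnf, hns, hcard⟩ := hk
  obtain ⟨c, hinj, hcf⟩ := exists_ext (L1 := V1) (L2 := Fin k) (ι := Bool)
    (by rw [Fintype.card_fin]; omega) (fun b => cond b w a) (fun b => cond b B1.w B1.a)
    (by
      intro b b' h
      cases b <;> cases b' <;> first | rfl | exact absurd h hwa | exact absurd h hwa.symm)
    (by
      intro b b' h
      cases b <;> cases b' <;> first | rfl | exact absurd h B1.hwa | exact absurd h B1.hwa.symm)
  have hcw : c w = B1.w := hcf true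
  have hca : c a = B1.a := hcf false
  obtain ⟨u1, hu1⟩ := exists_new ({w, a} : Finset (Fin k)) (by
    have := Finset.card_le_two (a := w) (b := a)
    rw [Fintype.card_fin]
    omega)
  obtain ⟨u2, hu2⟩ := exists_new ({w, a, u1} : Finset (Fin k)) (by
    have := Finset.card_le_three (a := w) (b := a) (c := u1)
    rw [Fintype.card_fin]
    omega)
  simp only [Finset.mem_insert, Finset.mem_singleton, not_or] at hu1 hu2
  obtain ⟨W1, t1, -, A1, n1, -, c1⟩ := exists_wg B1.S (fun v => B1.hne (by omega) v) B1.w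
    B1.a 0 (by omega) (fun h => absurd h (by omega))
  have hA2 : ∀ {u v : Fin k}, u ≠ v → G.Ad u v := fun h =>
    ad_of_cnt (fun P => (hcn P).symm ▸ Nat.le_add_right _ _) h
  have hA1 : ∀ {u v : V1}, u ≠ v → v ≠ B1.w → v ≠ B1.a → W1.G.Ad u v := fun h hw ha => A1 _ _ (by
    rw [B1.adj]
    refine ⟨h, ?_⟩
    rintro ⟨-, ⟨-, h'⟩ | ⟨-, h'⟩⟩
    · exact ha h'
    · exact hw h')
  have hM : Mults W1.G G (fun v => v) c m k := by
    refine mults_of (r2 := id) (w1 := B1.w) (a1 := B1.a)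
      (w2 := w) (a2 := a) (b2 := w)
      (Γ1 := B1.Γ) (Γ2 := (⊤ : SimpleGraph (Fin k))) (δ1 := 1) (δ2 := 0)
      (by omega) (by omega) (fun _ => rfl) (fun _ => rfl) (fun _ => rfl)
      (fun u v => hinj.eq_iff) (card_names_id hm) (card_names' (Fintype.card_fin k)) hcw
      (fun _ => hca) rfl
      (fun _ => rfl) (fun _ => rfl) (fun _ => B1.hwa) (fun h => absurd h (by omega))
      (fun u v _ _ => PB.cnt B1 u v) (fun u v _ _ => cntTop _ _ u v) (fun P => ?_) (fun P => ?_)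
    · rw [c1 P, Nat.zero_mul, Nat.zero_mul]
    · rw [hcn P, Nat.one_mul]
      rfl
  have hok : ∀ {u v : Fin k}, u ≠ v → v ≠ w → v ≠ a → okp W1.G G c u v := fun {u v} h hw ha =>
    ⟨fun h' => h (hinj h'), hA2 h, hA1 (fun h' => h (hinj h'))
      (fun h' => hw (hinj (by rw [h', hcw]))) (fun h' => ha (hinj (by rw [h', hca])))⟩
  refine merge0 W1 ⟨G, (ad_of_cnt (G := G) (fun P => (hcn P).symm ▸ Nat.le_add_right _ _) hwa).choose,
    2, hnf, fun x hx => absurd hx (hns x), by exact_mod_cast hcard⟩ hM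
    (by omega) (n1 rfl) hns ?_ g ?_
  · refine Or.inl ⟨fun _ => rfl, ?_⟩
    refine Mat.pair _ _ w u1 (Set.notMem_empty _) (Set.notMem_empty _) (Ne.symm hu1.1)
      (hok (Ne.symm hu1.1) hu1.1 hu1.2) ?_
    refine Mat.pair _ _ a u2 ⟨Set.notMem_empty _, ?_⟩ ⟨Set.notMem_empty _, ?_⟩ (Ne.symm hu2.2.1)
      (hok (Ne.symm hu2.2.1) hu2.1 hu2.2.1) ?_
    · rintro (h | h)
      · exact hwa h.symm
      · exact hu1.2 h.symm
    · rintro (h | h)
      · exact hu2.1 h
      · exact hu2.2.2 h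
    · refine Mat.of_pairwise _ _ ?_ fun u hu v hv huv => ?_
      · have h1 : (∅ᶜ \ {w, u1}) \ {a, u2} = ((({w, u1, a, u2} : Finset (Fin k)) : Set (Fin k)))ᶜ := by
          ext x
          simp only [Set.mem_sdiff, Set.mem_compl_iff, Set.mem_empty_iff_false, not_false_eq_true,
            Set.mem_insert_iff, Set.mem_singleton_iff, true_and, Finset.coe_insert,
            Finset.coe_singleton, not_or]
          tauto
        rw [h1, Nat.card_coe_set_eq, Set.ncard_compl, Set.ncard_coe_finset, Nat.card_eq_fintype_card,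
          Fintype.card_fin, Finset.card_insert_of_notMem, Finset.card_insert_of_notMem,
          Finset.card_pair (Ne.symm hu2.2.1)]
        · obtain ⟨l, hl⟩ := hke
          exact ⟨l - 2, by omega⟩
        · simp only [Finset.mem_insert, Finset.mem_singleton, not_or]
          exact ⟨hu1.2, Ne.symm hu2.2.2⟩
        · simp only [Finset.mem_insert, Finset.mem_singleton, not_or]
          exact ⟨Ne.symm hu1.1, hwa, Ne.symm hu2.1⟩
      · exact hok huv (fun h => hv.1.2 (Or.inl h)) (fun h => hv.2 (Or.inl h))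
  · rw [hg, t1]
    simp

/-- `merge3`: the hexagon is joined to a triangle at `y`. -/
theorem hexSH {V1 : Type} [Fintype V1] (B1 : SB V1 0) {k m : ℕ} (hk : HexMap k) (hke : Even k)
    (hm : Fintype.card V1 = m + 1) (h6 : 6 ≤ k) (hkm : k ≤ m) (g : ℤ)
    (hg : 12 * g = ((m : ℤ) - 3) * (m - 4) + k * (k - 1)) : Cel (K m k 2) g := by
  classical
  obtain ⟨G, z, hcn, hnf, hns, hcard, hz, hzi, htri⟩ := hk
  have hA2 : ∀ {u v : Fin k}, u ≠ v → G.Ad u v := fun h =>
    ad_of_cnt (fun P => (hcn P).ge) h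
  have hz02 : G.src (z 0) ≠ G.src (z 2) := fun h => absurd (hzi h) (by decide)
  have hz04 : G.src (z 0) ≠ G.src (z 4) := fun h => absurd (hzi h) (by decide)
  have hz24 : G.src (z 2) ≠ G.src (z 4) := fun h => absurd (hzi h) (by decide)
  obtain ⟨u, hu⟩ := exists_new ({G.src (z 0), G.src (z 2), G.src (z 4)} : Finset (Fin k)) (by
    have := Finset.card_le_three (a := G.src (z 0)) (b := G.src (z 2)) (c := G.src (z 4))
    rw [Fintype.card_fin]
    omega)
  simp only [Finset.mem_insert, Finset.mem_singleton, not_or] at hu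
  -- the vertices of the triangle
  have hyp : B1.Γ.Adj B1.y B1.p := B1.py.symm
  have hpT : B1.Γ.Adj B1.p (B1.S.T B1.y B1.p) := B1.S.adj _ _ hyp
  have hTy : B1.Γ.Adj (B1.S.T B1.y B1.p) B1.y := by
    have := B1.S.adj _ _ hpT
    rwa [B1.S.cyc _ _ hyp] at this
  have hTe : B1.S.T B1.y B1.p ≠ B1.e := by
    intro h
    rw [h] at hTy
    exact B1.nye hTy.symm
  have hTq : B1.S.T B1.y B1.p ≠ B1.q := by
    intro h
    rw [h] at hTy
    exact B1.adjye B1.q ⟨hTy, B1.qe⟩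
  obtain ⟨j, hj, hjf⟩ := exists_ext (L1 := {v : V1 // v ≠ B1.e}) (L2 := Fin k) (ι := Fin 4)
    (by
      rw [Fintype.card_fin, Fintype.card_subtype_compl, Fintype.card_subtype_eq, hm]
      exact hkm)
    ![G.src (z 0), G.src (z 2), G.src (z 4), u]
    ![⟨B1.y, B1.hye⟩, ⟨B1.S.T B1.y B1.p, hTe⟩, ⟨B1.p, B1.hpe⟩, ⟨B1.q, B1.hqe⟩]
    (inj4 hz02 hz04 (Ne.symm hu.1) hz24 (Ne.symm hu.2.1) (Ne.symm hu.2.2))
    (inj4 (fun h => hTy.ne.symm (congrArg Subtype.val h))
      (fun h => B1.hpy.symm (congrArg Subtype.val h))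
      (fun h => B1.hqy.symm (congrArg Subtype.val h))
      (fun h => hpT.ne.symm (congrArg Subtype.val h))
      (fun h => hTq (congrArg Subtype.val h))
      (fun h => B1.hpq (congrArg Subtype.val h)))
  set c : Fin k → V1 := fun v => (j v).1 with hcdef
  have hinj : Function.Injective c := Subtype.val_injective.comp hj
  have hce : ∀ v, c v ≠ B1.e := fun v => (j v).2
  have hc0 : c (G.src (z 0)) = B1.y := congrArg Subtype.val (hjf 0)
  have hc2 : c (G.src (z 2)) = B1.S.T B1.y B1.p := congrArg Subtype.val (hjf 1)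
  have hc4 : c (G.src (z 4)) = B1.p := congrArg Subtype.val (hjf 2)
  have hcu : c u = B1.q := congrArg Subtype.val (hjf 3)
  obtain ⟨G1, g1, g2, g3, g4, g5, g6, g7, g8, g9, g10⟩ := exists_cmap B1.S B1.hne
  obtain ⟨x1, hx1, hx1'⟩ := g1 _ _ hyp
  have hM : Mults G1 G B1.r c m k := by
    refine mults_of (r2 := id) (w1 := c u) (a1 := c u) (w2 := u) (a2 := u) (b2 := u)
      (Γ1 := B1.Γ) (Γ2 := (⊤ : SimpleGraph (Fin k))) (δ1 := 0) (δ2 := 0)
      (by omega) (by omega) (r_r B1) (fun _ => rfl) (fun v => r_of_ne B1 (hce v))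
      (fun u v => hinj.eq_iff) (card_names B1 hm) (card_names' (Fintype.card_fin k)) rfl
      (fun _ => rfl) rfl
      (fun _ => rfl) (fun _ => rfl) (fun h => absurd h (by omega)) (fun h => absurd h (by omega))
      (fun u v hu hv => ?_) (fun u v _ _ => cntTop _ _ u v) (fun P => ?_) (fun P => ?_)
    · rw [SB.cnt B1 u v (ne_of_r B1 hu) (ne_of_r B1 hv)]
      simp [Mis]
    · rw [g10 P, Nat.zero_mul, Nat.add_zero]
    · rw [hcn P, Nat.zero_mul]
      rfl
  refine merge3 G1 G hM (by omega) g4 g5 z hz hzi htri hnf x1 (by rw [hx1, hc0])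
    (by rw [hx1', hc4]) (by rw [(g7 x1).2, hx1, hx1', hc2]) ?_ g hg
  have hnd : u ∉ ({G.src (z 0), G.src (z 2), G.src (z 4)} : Set (Fin k)) := by
    simp only [Set.mem_insert_iff, Set.mem_singleton_iff, not_or]
    exact hu
  refine cov_sp_mem _ B1.e (G.src (z 0)) u (by rw [r_e]; exact B1.hye)
    (fun v hv => r_of_ne B1 hv) (by rw [r_e, hc0]) hu.1 hnd (fun h => hu.1 (hinj h))
    (by rw [hcu]; exact g1 _ _ B1.qe.symm) (hA2 (Ne.symm hu.1)) (by simp) ?_
    (fun v v' hv hv' hvu hv'u hvv => ?_)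
  · rw [Nat.card_coe_set_eq, Set.ncard_sdiff_singleton_of_mem hnd,
      Set.ncard_compl, Set.ncard_eq_toFinset_card', Nat.card_eq_fintype_card, Fintype.card_fin]
    have h3 : (({G.src (z 0), G.src (z 2), G.src (z 4)} : Set (Fin k)).toFinset).card = 3 := by
      rw [Finset.card_eq_three]
      exact ⟨_, _, _, hz02, hz04, hz24, by simp⟩
    rw [h3]
    obtain ⟨l, hl⟩ := hke
    exact ⟨l - 2, by omega⟩
  · simp only [Set.mem_insert_iff, Set.mem_singleton_iff, not_or] at hv hv'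
    refine ⟨fun h => hvv (hinj h), hA2 hvv, g1 _ _ (adj1 B1 ?_ (hce _) ?_ (hce _)
      (fun h => hvv (hinj h)) (fun h => absurd h (by omega)) (fun h => absurd h (by omega)))⟩
    · rw [← hc0]
      exact fun h => hv.1 (hinj h)
    · rw [← hc0]
      exact fun h => hv'.1 (hinj h)

/-- `merge1` with slack `0 + 2 + 3`; the edge `w a` of the second map is doubled. -/
theorem hexSW {V1 : Type} [Fintype V1] (B1 : SB V1 1) {k m : ℕ} (hk : HexMap k) (hke : Even k)
    (hm : Fintype.card V1 = m + 1) (h6 : 6 ≤ k) (hkm : k ≤ m) (g : ℤ)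
    (hg : 12 * g = ((m : ℤ) - 3) * (m - 4) + k * (k - 1) + 2 * 5) : Cel (K m k 2) g := by
  classical
  obtain ⟨G, z, hcn, hnf, hns, hcard, -, -, -⟩ := hk
  have hA2 : ∀ {u v : Fin k}, u ≠ v → G.Ad u v := fun h =>
    ad_of_cnt (fun P => (hcn P).ge) h
  obtain ⟨j, hj, hjf⟩ := exists_ext (L1 := {v : V1 // v ≠ B1.e}) (L2 := Fin k) (ι := Fin 4)
    (by
      rw [Fintype.card_fin, Fintype.card_subtype_compl, Fintype.card_subtype_eq, hm]
      exact hkm)
    (Fin.castLE (by omega : 4 ≤ k))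
    ![⟨B1.w, B1.hwe⟩, ⟨B1.y, B1.hye⟩, ⟨B1.p, B1.hpe⟩, ⟨B1.q, B1.hqe⟩]
    (Fin.castLE_injective _)
    (inj4 (fun h => B1.hwy (congrArg Subtype.val h))
      (fun h => B1.hpw.symm (congrArg Subtype.val h))
      (fun h => B1.hqw.symm (congrArg Subtype.val h))
      (fun h => B1.hpy.symm (congrArg Subtype.val h))
      (fun h => B1.hqy.symm (congrArg Subtype.val h))
      (fun h => B1.hpq (congrArg Subtype.val h)))
  set c : Fin k → V1 := fun v => (j v).1 with hcdef
  have hinj : Function.Injective c := Subtype.val_injective.comp hj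
  have hce : ∀ v, c v ≠ B1.e := fun v => (j v).2
  obtain ⟨w2, hw2⟩ : ∃ v, c v = B1.w := ⟨_, congrArg Subtype.val (hjf 0)⟩
  obtain ⟨y2, hy2⟩ : ∃ v, c v = B1.y := ⟨_, congrArg Subtype.val (hjf 1)⟩
  obtain ⟨p2, hp2⟩ : ∃ v, c v = B1.p := ⟨_, congrArg Subtype.val (hjf 2)⟩
  obtain ⟨q2, hq2⟩ : ∃ v, c v = B1.q := ⟨_, congrArg Subtype.val (hjf 3)⟩
  obtain ⟨a2, ha2⟩ : ∃ v, c v = B1.a := by
    rcases B1.ha rfl with h | h
    · exact ⟨y2, by rw [hy2, h]⟩
    · exact ⟨q2, by rw [hq2, h]⟩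
  have haw : a2 ≠ w2 := fun h => B1.haw (by rw [← ha2, h, hw2])
  obtain ⟨β, hβ, hβ'⟩ := hA2 haw
  obtain ⟨H, x0, k1, k2, k3, k4, k5, k6, k7⟩ := exists_dbl G β hnf hns (by
    rw [hβ, hβ']
    exact haw.symm)
  rw [hβ, hβ'] at k7
  rw [hβ'] at k3
  have hA2' : ∀ {u v : Fin k}, u ≠ v → H.Ad u v := fun {u v} h => by
    obtain ⟨d, hd, hd'⟩ := hA2 h
    obtain ⟨x', hx1, hx2, -⟩ := k6 d
    exact ⟨x', hx1.trans hd, hx2.trans hd'⟩
  obtain ⟨W1, e1, e2, e3, -, -, e6⟩ := exists_wg B1.S B1.hne B1.w B1.w 0 (by omega)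
    (fun h => absurd h (by omega))
  have hM : Mults W1.G H B1.r c m k := by
    refine mults_of (r2 := id) (w1 := B1.w) (a1 := B1.a) (w2 := w2) (a2 := a2) (b2 := w2)
      (Γ1 := B1.Γ) (Γ2 := (⊤ : SimpleGraph (Fin k))) (δ1 := 1) (δ2 := 0)
      (by omega) (by omega) (r_r B1) (fun _ => rfl) (fun v => r_of_ne B1 (hce v))
      (fun u v => hinj.eq_iff) (card_names B1 hm) (card_names' (Fintype.card_fin k)) hw2
      (fun _ => ha2) rfl
      (fun _ => rfl) (fun _ => rfl) (fun _ => B1.haw.symm) (fun h => absurd h (by omega))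
      (fun u v hu hv => SB.cnt B1 u v (ne_of_r B1 hu) (ne_of_r B1 hv))
      (fun u v _ _ => cntTop _ _ u v) (fun P => ?_) (fun P => ?_)
    · rw [e6 P, Nat.zero_mul, Nat.zero_mul]
    · rw [k7 P, hcn P, Nat.one_mul, Nat.add_assoc]
      rfl
  have hyp : y2 ≠ p2 := fun h => B1.hpy (by rw [← hp2, ← hy2, h])
  have hyq : y2 ≠ q2 := fun h => B1.hqy (by rw [← hq2, ← hy2, h])
  have hpq : p2 ≠ q2 := fun h => B1.hpq (by rw [← hp2, ← hq2, h])
  have hyw : y2 ≠ w2 := fun h => B1.hwy (by rw [← hw2, ← hy2, h])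
  have hpw : p2 ≠ w2 := fun h => B1.hpw (by rw [← hw2, ← hp2, h])
  have hqw : q2 ≠ w2 := fun h => B1.hqw (by rw [← hw2, ← hq2, h])
  refine merge1 W1 ⟨H, x0, 2, k4, k5, by rw [k1, k2]; push_cast; omega⟩ hM (by omega) w2
    (by rw [e2, hw2]) k3 ?_ g ?_
  · refine cov_sp {w2} B1.e y2 q2 p2 (by rw [r_e]; exact B1.hye) (fun u hu => r_of_ne B1 hu)
      (by rw [r_e, hy2]) hyq.symm (by simpa using hqw) (fun h => hyq.symm (hinj h))
      (e3 _ _ (by rw [hq2]; exact B1.qe.symm)) (hA2' hyq) (by simpa using hyw)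
      (by simpa using hpw) hyp.symm hpq
      ⟨fun h => hyp (hinj h), hA2' hyp, e3 _ _ (by rw [hp2, hy2]; exact B1.py.symm)⟩ ?_
      (fun u u' hu hu' huq hu'q huy hu'y huu => ?_)
    · rw [Nat.card_coe_set_eq, Set.ncard_sdiff_singleton_of_mem (by simpa using hqw),
        Set.ncard_compl, Set.ncard_singleton, Nat.card_eq_fintype_card, Fintype.card_fin]
      obtain ⟨l, hl⟩ := hke
      exact ⟨l - 1, by omega⟩
    · simp only [Set.mem_singleton_iff] at hu hu'
      refine ⟨fun h => huu (hinj h), hA2' huu,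
        e3 _ _ (adj1 B1 ?_ (hce _) ?_ (hce _) (fun h => huu (hinj h)) (fun _ => ?_)
          (fun _ => ?_))⟩
      · rw [← hy2]
        exact fun h => huy (hinj h)
      · rw [← hy2]
        exact fun h => hu'y (hinj h)
      · rw [← hw2]
        exact fun h => hu (hinj h)
      · rw [← hw2]
        exact fun h => hu' (hinj h)
  · rw [hg, e1]
    simp

end Pd97
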