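import Mathlib
import Pool.Agent.Lib.Pd97.FinMap

/-!
# MP_d97cc3_co : multiplicities of rotation systems given by finite tables
-/

namespace Pd97

namespace RowAux

theorem flatten_nodup {L : List (List ℕ)} {N : ℕ} (h1 : L.flatten.length = N)
    (h2 : ∀ d < N, d ∈ L.flatten) : L.flatten.Nodup ∧ ∀ d ∈ L.flatten, d < N := by
  have h3 : (Finset.range N) ⊆ L.flatten.toFinset := by
    intro d hd
    rw [List.mem_toFinset]
    exact h2 d (Finset.mem_range.1 hd)
  have h4 : L.flatten.toFinset.card ≤ N := by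
    rw [← h1]
    exact List.toFinset_card_le _
  have h5 : Finset.range N = L.flatten.toFinset :=
    Finset.eq_of_subset_of_card_le h3 (by rwa [Finset.card_range])
  constructor
  · have h6 : (L.flatten : Multiset ℕ).toFinset.card = (L.flatten : Multiset ℕ).card := by
      change L.flatten.toFinset.card = L.flatten.length
      rw [← h5, Finset.card_range, h1]
    exact Multiset.toFinset_card_eq_card_iff_nodup.1 h6
  · intro d hd
    rw [← Finset.mem_range, h5, List.mem_toFinset]
    exact hd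

theorem srcOf_iff {R : List (List ℕ)} (hnd : R.flatten.Nodup) {d u : ℕ} (hd : d ∈ R.flatten)
    (hu : u < R.length) : srcOf R d = u ↔ d ∈ R.getD u [] := by
  have hex : ∃ l ∈ R, (fun l : List ℕ => l.contains d) l = true := by
    obtain ⟨l, hl, hdl⟩ := List.mem_flatten.1 hd
    exact ⟨l, hl, by simpa using hdl⟩
  have hlt : srcOf R d < R.length := List.findIdx_lt_length_of_exists hex
  have hmem : d ∈ R[srcOf R d] := by
    have := List.findIdx_getElem (p := fun l : List ℕ => l.contains d) (xs := R) (w := hlt)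
    exact List.contains_iff_mem.1 this
  rw [List.getD_eq_getElem _ _ hu]
  constructor
  · intro h
    subst h
    exact hmem
  · intro h
    by_contra hne
    obtain ⟨_, hpw⟩ := List.nodup_flatten.1 hnd
    rcases lt_or_gt_of_ne hne with h1 | h1
    · exact (List.pairwise_iff_getElem.1 hpw _ _ hlt hu h1) hmem h
    · exact (List.pairwise_iff_getElem.1 hpw _ _ hu hlt h1) h hmem

theorem mapOK_left {R F : List (List ℕ)} {E : ℕ} (h : mapOK R F E = true) :
    R.flatten.Nodup ∧ (∀ d ∈ R.flatten, d < 2 * E) ∧ ∀ d < 2 * E, d ∈ R.flatten := by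
  unfold mapOK at h
  simp only [Bool.and_eq_true, decide_eq_true_eq, List.all_eq_true, List.mem_range] at h
  obtain ⟨⟨⟨⟨h1, _⟩, h3⟩, _⟩, _⟩ := h
  have h4 : ∀ d < 2 * E, d ∈ R.flatten := fun d hd => by simpa using (h3 d hd).1
  obtain ⟨h5, h6⟩ := flatten_nodup h1 h4
  exact ⟨h5, h6, h4⟩

theorem mult_rows {R F : List (List ℕ)} {E : ℕ} (h : mapOK R F E = true)
    {G : CMap (Fin R.length)} {e : Fin (2 * E) ≃ G.D}
    (hsrc : ∀ d, (G.src (e d)).1 = srcOf R d)
    (hrev : ∀ d, (e.symm (G.rev (e d))).1 = d.1 ^^^ 1) (u v : Fin R.length) :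
    G.mult u v = (R.getD u.1 []).countP (fun d => srcOf R (d ^^^ 1) == v.1) := by
  classical
  obtain ⟨hnd, hlt, hall⟩ := mapOK_left h
  have hrow : (R.getD u.1 []).Nodup := by
    rw [List.getD_eq_getElem _ _ u.2]
    exact (List.nodup_flatten.1 hnd).1 _ (List.getElem_mem _)
  have hsub : ∀ d ∈ R.getD u.1 [], d ∈ R.flatten := by
    intro d hd
    rw [List.getD_eq_getElem _ _ u.2] at hd
    exact List.mem_flatten.2 ⟨_, List.getElem_mem _, hd⟩
  have hsrc2 : ∀ d : Fin (2 * E), (G.src (G.rev (e d))).1 = srcOf R (d.1 ^^^ 1) := by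
    intro d
    have h1 := hsrc (e.symm (G.rev (e d)))
    rw [Equiv.apply_symm_apply, hrev] at h1
    exact h1
  unfold CMap.mult
  have e1 : {d : G.D // G.src d = u ∧ G.src (G.rev d) = v} ≃
      {d // d ∈ ((R.getD u.1 []).filter (fun d => srcOf R (d ^^^ 1) == v.1)).toFinset} := by
    refine Equiv.ofBijective (fun x => ⟨(e.symm x.1).1, ?_⟩) ⟨?_, ?_⟩
    · obtain ⟨x, hx1, hx2⟩ := x
      have h1 := hsrc (e.symm x)
      have h2 := hsrc2 (e.symm x)
      rw [Equiv.apply_symm_apply] at h1 h2
      rw [List.mem_toFinset, List.mem_filter]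
      refine ⟨?_, ?_⟩
      · rw [← srcOf_iff hnd (hall _ (e.symm x).2) u.2, ← h1, hx1]
      · rw [beq_iff_eq, ← h2, hx2]
    · intro x y hxy
      have h1 := congrArg Subtype.val hxy
      exact Subtype.ext (e.symm.injective (Fin.ext h1))
    · rintro ⟨d, hd⟩
      rw [List.mem_toFinset, List.mem_filter] at hd
      obtain ⟨hd1, hd2⟩ := hd
      have hd3 := hsub d hd1
      have hd4 := hlt d hd3
      refine ⟨⟨e ⟨d, hd4⟩, ?_, ?_⟩, ?_⟩
      · apply Fin.ext
        rw [hsrc]
        exact (srcOf_iff hnd hd3 u.2).2 hd1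
      · apply Fin.ext
        rw [hsrc2]
        exact beq_iff_eq.1 hd2
      · apply Subtype.ext
        simp
  rw [Nat.card_congr e1, Nat.card_eq_fintype_card, Fintype.card_coe,
    List.toFinset_card_of_nodup (hrow.filter _), List.countP_eq_length_filter]

end RowAux

open RowAux

/-- the number of the darts from `u` to `v` -/
def rowMul (R : List (List ℕ)) (u v : ℕ) : ℕ :=
  (R.getD u []).countP (fun d => srcOf R (d ^^^ 1) == v)

/-- the value of `K m n 2` -/
def kval (n u v : ℕ) : ℕ := if u = v then 0 else if u < n ∧ v < n then 2 else 1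

/-- check of the multiplicities -/
def kOK (R : List (List ℕ)) (m n : ℕ) : Bool :=
  (List.range m).all fun u => (List.range m).all fun v => rowMul R u v == kval n u v

theorem cel_of_rows {m n : ℕ} {R F : List (List ℕ)} (E : ℕ) {g : ℤ} (hm : R.length = m)
    (h : mapOK R F E = true) (hK : kOK R m n = true)
    (hg : 2 * (m : ℤ) + 2 * (F.length : ℤ) + 4 * g = 2 * (E : ℤ) + 4) : Cel (K m n 2) g := by
  subst hm
  obtain ⟨G, e, hsrc, hrev, _, hnf, _, h2⟩ := exists_cmap_of_rows R F E h
  refine ⟨G, fun u v => ?_, h2, ?_⟩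
  · rw [mult_rows h hsrc hrev u v]
    unfold kOK at hK
    rw [List.all_eq_true] at hK
    have h3 := hK u.1 (List.mem_range.2 u.2)
    rw [List.all_eq_true] at h3
    have h4 := h3 v.1 (List.mem_range.2 v.2)
    rw [beq_iff_eq] at h4
    unfold rowMul at h4
    rw [h4]
    unfold kval K
    by_cases huv : u = v
    · rw [if_pos huv, if_pos (congrArg Fin.val huv)]
    · rw [if_neg huv, if_neg (fun h' => huv (Fin.ext h'))]
  · unfold CMap.HasGenus
    rw [hnf, ← Fintype.card_congr e, Fintype.card_fin, Fintype.card_fin]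
    push_cast
    exact hg

end Pd97
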