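import Mathlib
import Pool.Agent.Lib.Pd97.FinMap
import Pool.Agent.Lib.Pd97.Hex
import Pool.Agent.Lib.Pd97.RowAux

/-!
# MP_d97cc3_co : K_6 and K_10 with a hexagonal face, or with one doubled edge
-/

namespace Pd97

namespace HexAux

open scoped Classical in
theorem card_P {k : ℕ} (G : CMap (Fin k)) (P : Fin k → Fin k → Prop) :
    Nat.card {x : G.D // P (G.src x) (G.src (G.rev x))} =
      ∑ p : Fin k × Fin k, if P p.1 p.2 then G.mult p.1 p.2 else 0 := by
  rw [Nat.card_eq_fintype_card, Fintype.card_subtype,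
    Finset.card_eq_sum_card_fiberwise (f := fun x => (G.src x, G.src (G.rev x)))
      (t := Finset.univ) (fun x _ => Finset.mem_coe.2 (Finset.mem_univ _))]
  refine Finset.sum_congr rfl fun p _ => ?_
  rw [Finset.filter_filter]
  split_ifs with h
  · unfold CMap.mult
    rw [Nat.card_eq_fintype_card, Fintype.card_subtype]
    congr 1
    ext x
    simp only [Finset.mem_filter, Finset.mem_univ, true_and]
    constructor
    · rintro ⟨_, hx⟩
      rw [← hx]
      exact ⟨rfl, rfl⟩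
    · rintro ⟨h1, h2⟩
      refine ⟨by rw [h1, h2]; exact h, ?_⟩
      rw [h1, h2]
  · rw [Finset.card_eq_zero, Finset.filter_eq_empty_iff]
    rintro x _ ⟨h1, h2⟩
    apply h
    rw [← h2]
    exact h1

open scoped Classical in
theorem card_pairs {k : ℕ} (P : Fin k → Fin k → Prop) :
    Nat.card {p : Fin k × Fin k // p.1 ≠ p.2 ∧ P p.1 p.2} =
      ∑ p : Fin k × Fin k, if P p.1 p.2 then (if p.1 = p.2 then 0 else 1) else 0 := by
  rw [Nat.card_eq_fintype_card, Fintype.card_subtype, Finset.card_filter]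
  refine Finset.sum_congr rfl fun p _ => ?_
  by_cases h1 : p.1 = p.2 <;> by_cases h2 : P p.1 p.2 <;> simp [h1, h2]

/-- check of the multiplicities of the complete graph -/
def oneOK (R : List (List ℕ)) (m : ℕ) : Bool :=
  (List.range m).all fun u => (List.range m).all fun v =>
    rowMul R u v == if u = v then 0 else 1

/-- check of the hexagon and the triangles -/
def hexOK (R : List (List ℕ)) (Z : List ℕ) (E : ℕ) : Bool :=
  decide (Z.length = 6) &&
  ((List.range 6).all fun i => decide (Z.getD i 0 < 2 * E) &&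
    phiOf R (Z.getD i 0) == Z.getD ((i + 1) % 6) 0) &&
  ((List.range 6).all fun i => (List.range 6).all fun j =>
    decide (srcOf R (Z.getD i 0) = srcOf R (Z.getD j 0) → i = j)) &&
  ((List.range (2 * E)).all fun d => decide (d ∈ Z ∨ phiOf R (phiOf R (phiOf R d)) = d))

theorem hexMap_of_rows {k : ℕ} {R F : List (List ℕ)} {Z : List ℕ} (E : ℕ) (hm : R.length = k)
    (h : mapOK R F E = true) (hK : oneOK R k = true) (hF : 3 * F.length + 3 = 2 * E)
    (hZ : hexOK R Z E = true) : HexMap k := by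
  classical
  subst hm
  obtain ⟨G, e, hsrc, hrev, hphi, hnf, hn1, hn2⟩ := exists_cmap_of_rows R F E h
  unfold hexOK at hZ
  simp only [Bool.and_eq_true, decide_eq_true_eq, List.all_eq_true, List.mem_range,
    beq_iff_eq] at hZ
  obtain ⟨⟨⟨hZ0, hZ1⟩, hZ2⟩, hZ3⟩ := hZ
  have hval : ∀ x, (e.symm (G.phi x)).1 = phiOf R (e.symm x).1 := by
    intro x
    have := hphi (e.symm x)
    rwa [Equiv.apply_symm_apply] at this
  have hsv : ∀ x, (G.src x).1 = srcOf R (e.symm x).1 := by
    intro x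
    have := hsrc (e.symm x)
    rwa [Equiv.apply_symm_apply] at this
  have hext : ∀ x y : G.D, (e.symm x).1 = (e.symm y).1 → x = y := fun x y hxy =>
    e.symm.injective (Fin.ext hxy)
  have hzv : ∀ i : Fin 6, (e.symm (e ⟨Z.getD i.1 0, (hZ1 i.1 i.2).1⟩)).1 = Z.getD i.1 0 := by
    intro i
    rw [Equiv.symm_apply_apply]
  refine ⟨G, fun i => e ⟨Z.getD i.1 0, (hZ1 i.1 i.2).1⟩, fun P => ?_, hn1, hn2, ?_,
    fun i => ?_, ?_, fun x hx => ?_⟩
  · rw [card_P, card_pairs]
    refine Finset.sum_congr rfl fun p _ => ?_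
    unfold oneOK at hK
    rw [List.all_eq_true] at hK
    have h3 := hK p.1.1 (List.mem_range.2 p.1.2)
    rw [List.all_eq_true] at h3
    have h4 := h3 p.2.1 (List.mem_range.2 p.2.2)
    rw [beq_iff_eq] at h4
    have h5 := RowAux.mult_rows h hsrc hrev p.1 p.2
    unfold rowMul at h4
    rw [h5, h4]
    by_cases huv : p.1 = p.2
    · rw [if_pos huv, if_pos (congrArg Fin.val huv)]
    · rw [if_neg huv, if_neg (fun h' => huv (Fin.ext h'))]
  · rw [hnf, ← Fintype.card_congr e, Fintype.card_fin]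
    exact hF
  · apply hext
    rw [hval]
    change phiOf R (e.symm (e ⟨Z.getD i.1 0, (hZ1 i.1 i.2).1⟩)).1 =
      (e.symm (e ⟨Z.getD (i + 1).1 0, (hZ1 (i + 1).1 (i + 1).2).1⟩)).1
    rw [hzv, hzv, (hZ1 i.1 i.2).2, Fin.val_add]
    rfl
  · intro i j hij
    have h1 := congrArg Fin.val hij
    dsimp only at h1
    rw [hsv, hsv, hzv, hzv] at h1
    exact Fin.ext (hZ2 i.1 i.2 j.1 j.2 h1)
  · apply hext
    rw [hval, hval, hval]
    rcases hZ3 (e.symm x).1 (e.symm x).2 with h1 | h1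
    · exfalso
      obtain ⟨i, hi, hi'⟩ := List.getElem_of_mem h1
      rw [hZ0] at hi
      apply hx ⟨i, hi⟩
      apply hext
      rw [hzv, ← hi', List.getD_eq_getElem]
    · exact h1

open scoped Classical in
theorem chordMap_of_rows {k : ℕ} {R F : List (List ℕ)} (E : ℕ) (hk : 2 ≤ k) (hm : R.length = k)
    (h : mapOK R F E = true) (hK : kOK R k 2 = true) (hF : 3 * F.length + 2 = 2 * E) :
    ChordMap k := by
  subst hm
  obtain ⟨G, e, hsrc, hrev, hphi, hnf, hn1, hn2⟩ := exists_cmap_of_rows R F E h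
  refine ⟨G, ⟨0, by omega⟩, ⟨1, by omega⟩, ?_, fun P => ?_, hn1, hn2, ?_⟩
  · intro h'
    exact absurd (congrArg Fin.val h') (by norm_num)
  · set w : Fin R.length := ⟨0, by omega⟩ with hw
    set a : Fin R.length := ⟨1, by omega⟩ with ha
    rw [card_P, card_pairs]
    have h6 : ∀ q : Fin R.length × Fin R.length, (if P q.1 q.2 then 1 else 0) =
        ∑ p : Fin R.length × Fin R.length, if p = q then (if P p.1 p.2 then 1 else 0) else 0 := by
      intro q
      rw [Finset.sum_ite_eq' Finset.univ q, if_pos (Finset.mem_univ _)]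
    have h7 := h6 (a, w)
    have h8 := h6 (w, a)
    dsimp only at h7 h8
    have h9 : @ite ℕ (P a w) (Classical.propDecidable _) 1 0 = ∑ p : Fin R.length × Fin R.length,
        if p = (a, w) then (if P p.1 p.2 then 1 else 0) else 0 := h7
    have h10 : @ite ℕ (P w a) (Classical.propDecidable _) 1 0 = ∑ p : Fin R.length × Fin R.length,
        if p = (w, a) then (if P p.1 p.2 then 1 else 0) else 0 := h8
    rw [h9, h10, ← Finset.sum_add_distrib, ← Finset.sum_add_distrib]
    refine Finset.sum_congr rfl fun p _ => ?_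
    unfold kOK at hK
    rw [List.all_eq_true] at hK
    have h3 := hK p.1.1 (List.mem_range.2 p.1.2)
    rw [List.all_eq_true] at h3
    have h4 := h3 p.2.1 (List.mem_range.2 p.2.2)
    rw [beq_iff_eq] at h4
    have h5 := RowAux.mult_rows h hsrc hrev p.1 p.2
    unfold rowMul at h4
    rw [h5, h4]
    unfold kval
    have e1 : p = (a, w) ↔ p.1.1 = 1 ∧ p.2.1 = 0 := by
      rw [Prod.ext_iff, Fin.ext_iff, Fin.ext_iff]
    have e2 : p = (w, a) ↔ p.1.1 = 0 ∧ p.2.1 = 1 := by
      rw [Prod.ext_iff, Fin.ext_iff, Fin.ext_iff]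
    have e3 : p.1 = p.2 ↔ p.1.1 = p.2.1 := Fin.ext_iff
    simp only [e1, e2, e3]
    by_cases hP : P p.1 p.2
    · simp only [if_pos hP]
      by_cases c1 : p.1.1 = p.2.1
      · rw [if_pos c1, if_pos c1, if_neg (by omega), if_neg (by omega)]
        rfl
      · rw [if_neg c1, if_neg c1]
        by_cases c2 : p.1.1 < 2 ∧ p.2.1 < 2
        · rw [if_pos c2]
          by_cases c3 : p.1.1 = 1
          · rw [if_pos ⟨c3, by omega⟩, if_neg (by omega)]
            rfl
          · rw [if_neg (fun h' => c3 h'.1), if_pos ⟨by omega, by omega⟩]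
            rfl
        · rw [if_neg c2, if_neg (by omega), if_neg (by omega)]
          rfl
    · simp only [if_neg hP, ite_self, add_zero]
  · rw [hnf, ← Fintype.card_congr e, Fintype.card_fin]
    exact hF

end HexAux

open HexAux

/-- rotations, darts of `K_6`; the dart `d` reversed is `d xor 1` -/
def RX_6 : List (List ℕ) :=
  [[0, 4, 6, 8, 2], [1, 10, 14, 16, 12], [3, 22, 18, 20, 11], [5, 13, 26, 24, 19],
  [7, 15, 21, 25, 28], [9, 29, 27, 17, 23]]

/-- faces -/
def FX_6 : List (List ℕ) :=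
  [[0, 10, 3], [1, 4, 13], [2, 22, 9], [5, 6, 15, 16, 23, 18], [7, 8, 29], [11, 14, 21],
  [12, 26, 17], [19, 20, 25], [24, 28, 27]]

/-- the hexagon -/
def ZX_6 : List ℕ := [5, 6, 15, 16, 23, 18]

theorem hexMap6 : HexMap 6 :=
  hexMap_of_rows (R := RX_6) (F := FX_6) (Z := ZX_6) 15 rfl (by decide +kernel)
    (by decide +kernel) (by decide) (by decide +kernel)

/-- rotations of `K_6` with the edge `0 1` doubled -/
def RC_6 : List (List ℕ) :=
  [[0, 10, 2, 8, 4, 6], [1, 14, 3, 12, 16, 18], [5, 22, 13, 24, 20], [7, 21, 28, 26, 15],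
  [9, 27, 30, 17, 23], [11, 19, 31, 29, 25]]

def FC_6 : List (List ℕ) :=
  [[0, 14, 7], [1, 10, 19], [2, 12, 24, 11], [3, 8, 27, 15], [4, 22, 9], [5, 6, 21], [13, 16, 23],
  [17, 18, 31], [20, 28, 25], [26, 30, 29]]

theorem chordMap6 : ChordMap 6 :=
  chordMap_of_rows (R := RC_6) (F := FC_6) 16 (by norm_num) rfl (by decide +kernel)
    (by decide +kernel) (by decide)

/-- rotations, darts of `K_10`; the dart `d` reversed is `d xor 1` -/
def RX_10 : List (List ℕ) :=
  [[0, 2, 10, 4, 14, 6, 16, 8, 12], [1, 28, 18, 30, 32, 22, 20, 26, 24],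
  [3, 36, 38, 44, 19, 42, 34, 46, 40], [5, 52, 21, 48, 50, 58, 35, 54, 56],
  [7, 66, 62, 64, 60, 37, 49, 23, 68], [9, 76, 51, 25, 70, 74, 39, 61, 72],
  [11, 41, 82, 78, 63, 80, 71, 27, 53], [13, 73, 65, 79, 86, 84, 55, 43, 29],
  [15, 57, 85, 88, 31, 45, 75, 81, 67], [17, 69, 33, 89, 87, 83, 47, 59, 77]]

/-- faces -/
def FX_10 : List (List ℕ) :=
  [[0, 28, 13], [1, 2, 36, 49, 50, 25], [3, 10, 41], [4, 52, 11], [5, 14, 57], [6, 66, 15],
  [7, 16, 69], [8, 76, 17], [9, 12, 73], [18, 42, 29], [19, 30, 45], [20, 48, 23], [21, 26, 53],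
  [22, 68, 33], [24, 70, 27], [31, 32, 89], [34, 54, 43], [35, 46, 59], [37, 38, 61], [39, 44, 75],
  [40, 82, 47], [51, 58, 77], [55, 56, 85], [60, 72, 65], [62, 80, 67], [63, 64, 79], [71, 74, 81],
  [78, 86, 83], [84, 88, 87]]

/-- the hexagon -/
def ZX_10 : List ℕ := [1, 2, 36, 49, 50, 25]

theorem hexMap10 : HexMap 10 :=
  hexMap_of_rows (R := RX_10) (F := FX_10) (Z := ZX_10) 45 rfl (by decide +kernel)
    (by decide +kernel) (by decide) (by decide +kernel)

/-- rotations of `K_10` with the edge `0 1` doubled -/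
def RC_10 : List (List ℕ) :=
  [[0, 12, 14, 10, 18, 2, 4, 16, 6, 8], [1, 24, 26, 32, 30, 22, 20, 3, 34, 28],
  [5, 21, 36, 42, 40, 44, 48, 38, 46], [7, 58, 52, 60, 54, 37, 23, 56, 50],
  [9, 51, 66, 64, 68, 39, 70, 62, 25], [11, 74, 41, 72, 78, 53, 76, 27, 63],
  [13, 29, 73, 43, 55, 84, 82, 65, 80], [15, 81, 67, 57, 31, 86, 88, 45, 75],
  [17, 47, 69, 83, 90, 87, 33, 77, 59], [19, 71, 49, 89, 91, 85, 61, 79, 35]]

def FC_10 : List (List ℕ) :=
  [[0, 24, 9], [1, 12, 29], [2, 34, 19], [3, 4, 21], [5, 16, 47], [6, 58, 17], [7, 8, 51],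
  [10, 74, 15], [11, 18, 71, 62], [13, 14, 81], [20, 36, 23], [22, 56, 31], [25, 26, 63],
  [27, 32, 77], [28, 73, 78, 35], [30, 86, 33], [37, 42, 55], [38, 70, 49], [39, 46, 69],
  [40, 72, 43], [41, 44, 75], [45, 48, 89], [50, 66, 57], [52, 76, 59], [53, 60, 79], [54, 84, 61],
  [64, 80, 67], [65, 68, 83], [82, 90, 85], [87, 88, 91]]

theorem chordMap10 : ChordMap 10 :=
  chordMap_of_rows (R := RC_10) (F := FC_10) 46 (by norm_num) rfl (by decide +kernel)
    (by decide +kernel) (by decide)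

end Pd97
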