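import Mathlib
import Pool.Agent.Lib.Pd97.Perm

/-!
# MP_d97cc3_co : the lower bound given by Euler's formula
-/

namespace Pd97

open Equiv

namespace LowAux

theorem three_le_cycle {α : Type} [Finite α] (σ : Perm α) (h2 : ∀ x, σ (σ x) ≠ x) (x₀ : α)
    (P : α → Prop) (hP : ∀ x, σ.SameCycle x₀ x → P x) : 3 ≤ Nat.card {x // P x} := by
  have h1 : ∀ x, σ x ≠ x := by
    intro x h
    have := h2 x
    rw [h, h] at this
    exact this rfl
  have e0 : P x₀ := hP _ (Perm.SameCycle.refl _ _)
  have e1 : P (σ x₀) := hP _ ⟨1, by simp⟩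
  have e2 : P (σ (σ x₀)) := hP _ ⟨2, by rw [zpow_two]; rfl⟩
  let f : Fin 3 → {x // P x} := ![⟨x₀, e0⟩, ⟨σ x₀, e1⟩, ⟨σ (σ x₀), e2⟩]
  have n1 : x₀ ≠ σ x₀ := (h1 x₀).symm
  have n2 : x₀ ≠ σ (σ x₀) := (h2 x₀).symm
  have n3 : σ x₀ ≠ σ (σ x₀) := (h1 (σ x₀)).symm
  have hf : Function.Injective f := by
    intro i j hij
    have h3 := congrArg Subtype.val hij
    fin_cases i <;> fin_cases j <;>
      first
        | rfl
        | exact absurd h3 n1
        | exact absurd h3 n2
        | exact absurd h3 n3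
        | exact absurd h3.symm n1
        | exact absurd h3.symm n2
        | exact absurd h3.symm n3
  have := Nat.card_le_card_of_injective f hf
  rwa [Nat.card_fin] at this

open Classical in
theorem sum_lt {m n : ℕ} (hnm : n ≤ m) :
    ∑ i : Fin m, (if i.1 < n then (1 : ℤ) else 0) = n := by
  rw [Fin.sum_univ_eq_sum_range (fun i => if i < n then (1 : ℤ) else 0) m, ← Finset.sum_filter]
  have : (Finset.range m).filter (fun i => i < n) = Finset.range n := by
    ext i
    simp only [Finset.mem_filter, Finset.mem_range]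
    omega
  rw [this]
  simp

open Classical in
theorem sum_K {m n : ℕ} (hnm : n ≤ m) :
    ((∑ p : Fin m × Fin m, K m n 2 p.1 p.2 : ℕ) : ℤ) = m * (m - 1) + n * (n - 1) := by
  push_cast
  rw [Fintype.sum_prod_type]
  have h : ∀ i j : Fin m, ((K m n 2 i j : ℕ) : ℤ) = 1 - (if j = i then 1 else 0) +
      (if i.1 < n then 1 else 0) * (if j.1 < n then 1 else 0) -
        (if j = i then (if i.1 < n then 1 else 0) else 0) := by
    intro i j
    unfold K
    by_cases h1 : i = j
    · subst h1
      by_cases h2 : i.1 < n <;> simp [h2]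
    · have h1' : ¬ j = i := fun h => h1 h.symm
      by_cases h2 : i.1 < n <;> by_cases h3 : j.1 < n <;> simp [h1, h1', h2, h3]
  have h4 : ∀ i : Fin m, ∑ j : Fin m, ((K m n 2 i j : ℕ) : ℤ) =
      m - 1 + (if i.1 < n then 1 else 0) * n - (if i.1 < n then 1 else 0) := by
    intro i
    simp only [h]
    rw [Finset.sum_sub_distrib, Finset.sum_add_distrib, Finset.sum_sub_distrib, ← Finset.mul_sum,
      sum_lt hnm, Finset.sum_ite_eq' Finset.univ i, Finset.sum_ite_eq' Finset.univ i]
    simp
  simp only [h4]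
  rw [Finset.sum_sub_distrib, Finset.sum_add_distrib, ← Finset.sum_mul, sum_lt hnm]
  simp
  ring

open Classical in
theorem card_D {m n : ℕ} (hnm : n ≤ m) (G : GMap (Fin m)) (h : ∀ u v, G.mult u v = K m n 2 u v) :
    (Fintype.card G.D : ℤ) = m * (m - 1) + n * (n - 1) := by
  rw [← sum_K hnm]
  congr 1
  rw [← Finset.card_univ, Finset.card_eq_sum_card_fiberwise
    (f := fun d : G.D => (G.src d, G.src (G.rev d))) (t := Finset.univ)
    (fun _ _ => Finset.mem_coe.2 (Finset.mem_univ _))]
  refine Finset.sum_congr rfl fun p _ => ?_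
  rw [← h]
  unfold GMap.mult
  rw [Nat.card_eq_fintype_card, Fintype.card_subtype]
  congr 1
  ext d
  simp [Prod.ext_iff]

end LowAux

open LowAux

/-- A cellular embedding is an embedding. -/
theorem embeds_of_cel {V : Type} [Fintype V] {μ : V → V → ℕ} {g : ℕ} (h : Cel μ (g : ℤ)) :
    Embeds μ g := by
  classical
  obtain ⟨G, hm, hs, hg⟩ := h
  let Q := Quotient (Perm.SameCycle.setoid (G.rot * G.rev))
  have : Fintype Q := Fintype.ofFinite Q
  let G' : GMap V :=
    { D := G.D
      W := Q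
      R := Q
      src := G.src
      rev := G.rev
      rot := G.rot
      walk := Quotient.mk _
      face := id
      handles := fun _ => 0
      rev_rev := G.rev_rev
      rev_ne := G.rev_ne
      src_surj := G.src_surj
      src_iff := G.src_iff
      walk_surj := Quotient.mk_surjective
      walk_iff := fun d e => Quotient.eq
      face_surj := Function.surjective_id }
  refine ⟨G', hm, ?_, ?_⟩
  · intro r _ _
    obtain ⟨x₀, hx₀⟩ := Quotient.exists_rep r
    refine three_le_cycle G.phi hs x₀ (fun d => G'.face (G'.walk d) = r) fun x hx => ?_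
    rw [← hx₀]
    exact (Quotient.sound hx).symm
  · unfold GMap.HasGenus
    have h1 : Fintype.card G'.R = G.nf := (Nat.card_eq_fintype_card (α := G'.R)).symm
    have h2 : Fintype.card G'.W = G.nf := (Nat.card_eq_fintype_card (α := G'.W)).symm
    have h3 : Fintype.card G'.D = Fintype.card G.D := rfl
    have h4 : ∑ r : G'.R, G'.handles r = 0 := Finset.sum_eq_zero fun r _ => rfl
    unfold CMap.HasGenus at hg
    have hg' : 2 * Fintype.card V + 2 * G.nf + 4 * g = Fintype.card G.D + 4 := by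
      exact_mod_cast hg
    omega

/-- Euler's formula. -/
theorem lower_bound {m n g : ℕ} (hn : 2 ≤ n) (hnm : n ≤ m) (h : Embeds (K m n 2) g) :
    ((m : ℤ) - 3) * (m - 4) + n * (n - 1) ≤ 12 * g := by
  classical
  obtain ⟨G, hm, hs, hg⟩ := h
  have hD := card_D hnm G hm
  -- the numbers of walks and darts of a face
  set b : G.R → ℕ := fun r => (Finset.univ.filter fun w : G.W => G.face w = r).card with hb
  set dd : G.R → ℕ := fun r => (Finset.univ.filter fun d : G.D => G.face (G.walk d) = r).card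
    with hdd
  have hbs : Fintype.card G.W = ∑ r, b r := by
    rw [← Finset.card_univ, Finset.card_eq_sum_card_fiberwise (f := G.face) (t := Finset.univ)
      (fun _ _ => Finset.mem_coe.2 (Finset.mem_univ _))]
  have hds : Fintype.card G.D = ∑ r, dd r := by
    rw [← Finset.card_univ, Finset.card_eq_sum_card_fiberwise
      (f := fun d => G.face (G.walk d)) (t := Finset.univ)
      (fun _ _ => Finset.mem_coe.2 (Finset.mem_univ _))]
  have hb1 : ∀ r, 1 ≤ b r := by
    intro r
    obtain ⟨w, hw⟩ := G.face_surj r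
    exact Finset.card_pos.2 ⟨w, Finset.mem_filter.2 ⟨Finset.mem_univ _, hw⟩⟩
  have hr : ∀ r, (12 : ℤ) - 12 * G.handles r - 6 * b r ≤ 2 * dd r := by
    intro r
    have h1 := hb1 r
    by_cases h2 : G.handles r = 0 ∧ b r = 1
    · have h3 : 3 ≤ dd r := by
        have h4 := hs r h2.1 (by
          intro w w' hw hw'
          obtain ⟨w₀, hw₀⟩ := Finset.card_eq_one.1 h2.2
          have e1 : w ∈ ({w₀} : Finset G.W) := by
            rw [← hw₀]
            exact Finset.mem_filter.2 ⟨Finset.mem_univ _, hw⟩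
          have e2 : w' ∈ ({w₀} : Finset G.W) := by
            rw [← hw₀]
            exact Finset.mem_filter.2 ⟨Finset.mem_univ _, hw'⟩
          rw [Finset.mem_singleton] at e1 e2
          rw [e1, e2])
        rwa [Nat.card_eq_fintype_card, Fintype.card_subtype] at h4
      omega
    · have h3 : (0 : ℤ) ≤ dd r := Nat.cast_nonneg _
      by_cases h4 : G.handles r = 0
      · have h5 : b r ≠ 1 := fun h => h2 ⟨h4, h⟩
        omega
      · omega
  have hsum : ∑ r, ((12 : ℤ) - 12 * G.handles r - 6 * b r) ≤ ∑ r, (2 : ℤ) * dd r :=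
    Finset.sum_le_sum fun r _ => hr r
  rw [Finset.sum_sub_distrib, Finset.sum_sub_distrib, ← Finset.mul_sum, ← Finset.mul_sum,
    ← Finset.mul_sum, Finset.sum_const, Finset.card_univ, nsmul_eq_mul] at hsum
  have hbs' : (Fintype.card G.W : ℤ) = ∑ r, (b r : ℤ) := by exact_mod_cast hbs
  have hds' : (Fintype.card G.D : ℤ) = ∑ r, (dd r : ℤ) := by exact_mod_cast hds
  rw [← hbs', ← hds'] at hsum
  unfold GMap.HasGenus at hg
  have hg' : 2 * (m : ℤ) + 4 * Fintype.card G.R + 4 * g =
      Fintype.card G.D + 4 + 4 * (∑ r : G.R, (G.handles r : ℤ)) + 2 * Fintype.card G.W := by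
    rw [Fintype.card_fin] at hg
    exact_mod_cast hg
  nlinarith

/-- If the slack is less than six then the genus is given by Euler's formula. -/
theorem gamma_eq {m n : ℕ} (hn : 2 ≤ n) (hnm : n ≤ m) {g t : ℤ} (hC : Cel (K m n 2) g)
    (hg : 12 * g = ((m : ℤ) - 3) * (m - 4) + n * (n - 1) + 2 * t) (h0 : 0 ≤ t) (h6 : t < 6) :
    (gamma (K m n 2) : ℤ) = ⌈(((m : ℚ) - 3) * (m - 4) + n * (n - 1)) / 12⌉ := by
  have hpos : 0 ≤ ((m : ℤ) - 3) * (m - 4) := by
    rcases le_or_gt (m : ℤ) 3 with h | h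
    · exact mul_nonneg_of_nonpos_of_nonpos (by linarith) (by linarith)
    · exact mul_nonneg (by linarith) (by omega)
  have hnn : 0 ≤ (n : ℤ) * (n - 1) := by
    have : (2 : ℤ) ≤ n := by exact_mod_cast hn
    nlinarith
  have hg0 : 0 ≤ g := by linarith
  obtain ⟨g', rfl⟩ := Int.eq_ofNat_of_zero_le hg0
  have he := embeds_of_cel hC
  have h1 : gamma (K m n 2) ≤ g' := Nat.sInf_le he
  have h2 : Embeds (K m n 2) (gamma (K m n 2)) := Nat.sInf_mem (s := {g | Embeds (K m n 2) g})
    ⟨g', he⟩
  have h3 := lower_bound hn hnm h2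
  have h4 : (gamma (K m n 2) : ℤ) = g' := by
    have h5 : (gamma (K m n 2) : ℤ) ≤ g' := by exact_mod_cast h1
    omega
  rw [h4]
  symm
  rw [Int.ceil_eq_iff]
  have hq : (12 : ℚ) * (g' : ℤ) = ((m : ℚ) - 3) * (m - 4) + n * (n - 1) + 2 * t := by
    exact_mod_cast hg
  have t0 : (0 : ℚ) ≤ t := by exact_mod_cast h0
  have t6 : (t : ℚ) < 6 := by exact_mod_cast h6
  constructor
  · rw [lt_div_iff₀ (by norm_num)]
    linarith
  · rw [div_le_iff₀ (by norm_num)]
    linarith

end Pd97
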