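import Mathlib
import Pool.Agent.Lib.Pd97.Common

/-!
# MP_d97cc3_co : merging two plain blocks
-/

namespace Pd97

open Pool.Agent.Lib.CurG

/-- the common part of the three constructions -/
theorem mpp_setup {V1 V2 : Type} [Fintype V1] [Fintype V2] {δ1 δ2 : ℕ} (hδ1 : δ1 ≤ 1)
    (hδ2 : δ2 ≤ 1) (B1 : PB V1 δ1) (B2 : PB V2 δ2) {m n : ℕ}
    (hm : Fintype.card V1 = m) (hn : Fintype.card V2 = n) (hnm : n ≤ m) (hn0 : 3 ≤ n) :
    ∃ (c : V2 → V1) (W1 : Wg V1) (W2 : Wg V2), Mults W1.G W2.G (fun v => v) c m n ∧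
      Function.Injective c ∧ c B2.w = B1.w ∧ W1.t = -(δ2 : ℤ) ∧ W2.t = -(δ1 : ℤ) ∧
      W1.G.src (W1.G.rev W1.x0) = B1.w ∧ W2.G.src (W2.G.rev W2.x0) = B2.w ∧
      (∀ u v, B1.Γ.Adj u v → W1.G.Ad u v) ∧ (∀ u v, B2.Γ.Adj u v → W2.G.Ad u v) ∧
      (δ2 = 0 → ∀ x, W1.G.phi (W1.G.phi x) ≠ x) ∧ (δ1 = 0 → ∀ x, W2.G.phi (W2.G.phi x) ≠ x) ∧
      (∀ v, ∃ x, W1.G.src (W1.G.rev x) = v ∧ ¬ W1.G.phi.SameCycle W1.x0 x) ∧
      (∀ v, ∃ x, W2.G.src (W2.G.rev x) = v ∧ ¬ W2.G.phi.SameCycle W2.x0 x) := by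
  classical
  obtain ⟨c, hc, hcw, hcA, hcB⟩ := exists_inj (L1 := V1) (L2 := V2) (by omega) B1.w B2.w
    {B1.a} {B2.a} (by simpa using B1.hwa) (by simpa using B2.hwa) (by
      rw [Finset.card_singleton, Finset.card_singleton]; omega)
  obtain ⟨a2, ha2⟩ := hcA B1.a (Finset.mem_singleton_self _)
  have hb2 : c B2.a ≠ B1.a := by
    have := hcB B2.a (Finset.mem_singleton_self _)
    simpa using this
  have hadj1 : δ2 = 1 → B1.Γ.Adj (c B2.a) B1.w := by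
    intro _
    rw [B1.adj]
    refine ⟨fun h => B2.hwa (hc (by rw [hcw, h])), ?_⟩
    rintro ⟨_, ⟨h1, h2⟩ | ⟨h1, h2⟩⟩
    · exact B1.hwa h2
    · exact hb2 h1
  have hadj2 : δ1 = 1 → B2.Γ.Adj a2 B2.w := by
    intro _
    rw [B2.adj]
    refine ⟨fun h => B1.hwa (by rw [← hcw, ← h, ha2]), ?_⟩
    rintro ⟨_, ⟨h1, h2⟩ | ⟨h1, h2⟩⟩
    · exact B2.hwa h2
    · exact hb2 (by rw [← h1, ha2])
  obtain ⟨W1, t1, s1, A1, n1, f1, c1⟩ := exists_wg B1.S (fun v => B1.hne (by omega) v) B1.w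
    (c B2.a) δ2 hδ2 hadj1
  obtain ⟨W2, t2, s2, A2, n2, f2, c2⟩ := exists_wg B2.S (fun v => B2.hne (by omega) v) B2.w
    a2 δ1 hδ1 hadj2
  refine ⟨c, W1, W2, ?_, hc, hcw, t1, t2, s1, s2, A1, A2, n1, n2, f1, f2⟩
  refine mults_of (Γ1 := B1.Γ) (Γ2 := B2.Γ) (r1 := fun v => v) (r2 := fun v => v) hδ1 hδ2
    (w1 := B1.w) (a1 := B1.a) (w2 := B2.w) (a2 := a2) (b2 := B2.a) (fun _ => rfl) (fun _ => rfl)
    (fun _ => rfl) (fun u v => hc.eq_iff) ?_ ?_ hcw (fun _ => ha2) rfl (fun _ => rfl)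
    (fun _ => rfl) (fun _ => B1.hwa) (fun _ => B2.hwa) (fun u v _ _ => B1.cnt u v)
    (fun u v _ _ => B2.cnt u v) c1 c2
  · rw [← hm, Nat.card_congr (Equiv.subtypeUnivEquiv fun _ => rfl), Nat.card_eq_fintype_card]
  · rw [← hn, Nat.card_congr (Equiv.subtypeUnivEquiv fun _ => rfl), Nat.card_eq_fintype_card]

/-- two vertices other than `w` can be matched -/
theorem mpp_okp {V1 V2 : Type} {δ1 δ2 : ℕ} (B1 : PB V1 δ1) (B2 : PB V2 δ2) {c : V2 → V1}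
    {G1 : CMap V1} {G2 : CMap V2} (hc : Function.Injective c) (hcw : c B2.w = B1.w)
    (A1 : ∀ u v, B1.Γ.Adj u v → G1.Ad u v) (A2 : ∀ u v, B2.Γ.Adj u v → G2.Ad u v)
    {u v : V2} (hu : (δ1 = 1 ∨ δ2 = 1) → u ≠ B2.w) (hv : (δ1 = 1 ∨ δ2 = 1) → v ≠ B2.w)
    (huv : u ≠ v) : okp G1 G2 c u v := by
  refine ⟨fun h => huv (hc h), A2 u v ?_, A1 (c u) (c v) ?_⟩
  · rw [B2.adj]
    refine ⟨huv, ?_⟩
    rintro ⟨hδ, ⟨h1, h2⟩ | ⟨h1, h2⟩⟩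
    · exact hu (Or.inr hδ) h1
    · exact hv (Or.inr hδ) h2
  · rw [B1.adj]
    refine ⟨fun h => huv (hc h), ?_⟩
    rintro ⟨hδ, ⟨h1, h2⟩ | ⟨h1, h2⟩⟩
    · exact hu (Or.inl hδ) (hc (by rw [h1, hcw]))
    · exact hv (Or.inl hδ) (hc (by rw [h2, hcw]))

theorem mpp_three_le {V : Type} [Fintype V] (B : PB V 0) : 3 ≤ Fintype.card V := by
  classical
  have h : B.Γ.Adj B.w B.a := by
    rw [B.adj]
    exact ⟨B.hwa, fun h => absurd h.1 (by norm_num)⟩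
  have h1 := (B.S.adj _ _ h).ne
  have h2 : B.S.T B.w B.a ≠ B.w := by
    intro h3
    have h4 := B.S.cyc _ _ h
    have h5 := (B.S.adj _ _ (B.S.adj _ _ h)).ne
    rw [h4] at h5
    exact h5 h3
  have : ({B.w, B.a, B.S.T B.w B.a} : Finset V).card = 3 := by
    rw [Finset.card_eq_three]
    exact ⟨_, _, _, B.hwa, h2.symm, h1, rfl⟩
  rw [← this]
  exact Finset.card_le_univ _

/-- All the vertices are merged by slit gluing. -/
theorem mergePP0 {V1 V2 : Type} [Fintype V1] [Fintype V2] (B1 : PB V1 0) (B2 : PB V2 0) {m n : ℕ}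
    (hm : Fintype.card V1 = m) (hn : Fintype.card V2 = n) (hnm : n ≤ m) (hn0 : 2 ≤ n)
    (hpar : Even n) (g : ℤ)
    (hg : 12 * g = ((m : ℤ) - 3) * (m - 4) + n * (n - 1)) : Cel (K m n 2) g := by
  have h3 := mpp_three_le B2
  obtain ⟨c, W1, W2, hM, hc, hcw, t1, t2, s1, s2, A1, A2, n1, n2, f1, f2⟩ :=
    mpp_setup (by norm_num) (by norm_num) B1 B2 hm hn hnm (by omega)
  refine merge0 W1 W2 hM (by omega) (n1 rfl) (n2 rfl) ?_ g ?_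
  · refine cov_pp (fun _ => rfl) ∅ ?_ fun u v _ _ huv => ?_
    · rw [Set.compl_empty, Nat.card_congr (Equiv.Set.univ V2), Nat.card_eq_fintype_card, hn]
      exact hpar
    · exact mpp_okp B1 B2 hc hcw A1 A2 (fun h => by omega) (fun h => by omega) huv
  · rw [t1, t2, hg]
    push_cast
    ring

/-- One single tube, at `w`. -/
theorem mergePP1 {V1 V2 : Type} [Fintype V1] [Fintype V2] {δ1 δ2 : ℕ} (hδ1 : δ1 ≤ 1)
    (hδ2 : δ2 ≤ 1) (B1 : PB V1 δ1) (B2 : PB V2 δ2) {m n : ℕ}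
    (hm : Fintype.card V1 = m) (hn : Fintype.card V2 = n) (hnm : n ≤ m) (hn0 : 3 ≤ n)
    (hpar : Odd n) (g : ℤ)
    (hg : 12 * g = ((m : ℤ) - 3) * (m - 4) + n * (n - 1) + 2 * (3 - δ1 - δ2)) :
    Cel (K m n 2) g := by
  classical
  obtain ⟨c, W1, W2, hM, hc, hcw, t1, t2, s1, s2, A1, A2, n1, n2, f1, f2⟩ :=
    mpp_setup hδ1 hδ2 B1 B2 hm hn hnm hn0
  refine merge1 W1 W2 hM (by omega) B2.w (by rw [s1, hcw]) s2 ?_ g ?_
  · refine cov_pp (fun _ => rfl) _ ?_ fun u v hu hv huv => ?_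
    · have h1 : Nat.card (({B2.w} : Set V2)ᶜ : Set V2) = n - 1 := by
        rw [Nat.card_eq_fintype_card, Fintype.card_compl_set, hn, Set.card_singleton]
      rw [h1]
      obtain ⟨k, hk⟩ := hpar
      exact ⟨k, by omega⟩
    · exact mpp_okp B1 B2 hc hcw A1 A2 (fun _ h => hu h) (fun _ h => hv h) huv
  · rw [t1, t2, hg]
    ring

/-- Two single tubes, one of them at `w`. -/
theorem mergePP2 {V1 V2 : Type} [Fintype V1] [Fintype V2] {δ1 δ2 : ℕ} (hδ1 : δ1 ≤ 1)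
    (hδ2 : δ2 ≤ 1) (B1 : PB V1 δ1) (B2 : PB V2 δ2) {m n : ℕ}
    (hm : Fintype.card V1 = m) (hn : Fintype.card V2 = n) (hnm : n ≤ m) (hn0 : 4 ≤ n)
    (hpar : Even n) (g : ℤ)
    (hg : 12 * g = ((m : ℤ) - 3) * (m - 4) + n * (n - 1) + 2 * (6 - δ1 - δ2)) :
    Cel (K m n 2) g := by
  classical
  obtain ⟨c, W1, W2, hM, hc, hcw, t1, t2, s1, s2, A1, A2, n1, n2, f1, f2⟩ :=
    mpp_setup hδ1 hδ2 B1 B2 hm hn hnm (by omega)
  obtain ⟨x3, h3, h3'⟩ := f1 (c B2.a)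
  obtain ⟨x4, h4, -⟩ := f2 B2.a
  refine merge2 W1 W2 hM (by omega) B2.w B2.a B2.hwa (by rw [s1, hcw]) s2 x3 h3 h3' x4 h4 ?_ g ?_
  · refine cov_pp (fun _ => rfl) _ ?_ fun u v hu hv huv => ?_
    · have h1 : Nat.card (({B2.w, B2.a} : Set V2)ᶜ : Set V2) = n - 2 := by
        rw [Nat.card_eq_fintype_card, Fintype.card_compl_set, hn, Set.card_insert _ (by
          simpa using B2.hwa), Set.card_singleton]
      rw [h1]
      obtain ⟨k, hk⟩ := hpar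
      exact ⟨k - 1, by omega⟩
    · exact mpp_okp B1 B2 hc hcw A1 A2 (fun _ h => hu (Or.inl h)) (fun _ h => hv (Or.inl h)) huv
  · rw [t1, t2, hg]
    ring

end Pd97
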