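import Mathlib
import Pool.Agent.Lib.Pd97.Common

/-!
# MP_d97cc3_co : merging a plain block and a split block
-/

namespace Pd97

namespace MPSAux

variable {V : Type} {δ : ℕ} (B : SB V δ)

theorem r_e : B.r B.e = B.y := by
  classical
  unfold SB.r
  rw [if_pos rfl]

theorem r_ne {v : V} (h : v ≠ B.e) : B.r v = v := by
  classical
  unfold SB.r
  rw [if_neg h]

theorem r_ne_e (v : V) : B.r v ≠ B.e := by
  by_cases h : v = B.e
  · rw [h, r_e]; exact B.hye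
  · rw [r_ne B h]; exact h

theorem r_r (v : V) : B.r (B.r v) = B.r v := r_ne B (r_ne_e B v)

theorem fix_iff (v : V) : B.r v = v ↔ v ≠ B.e := by
  constructor
  · intro h h2
    exact r_ne_e B v (h.trans h2)
  · exact fun h => r_ne B h

theorem card_names [Fintype V] {n : ℕ} (hn : Fintype.card V = n + 1) :
    Nat.card {v // B.r v = v} = n := by
  classical
  rw [Nat.card_congr (Equiv.subtypeEquivRight (fix_iff B)), Nat.card_eq_fintype_card,
    Fintype.card_subtype_compl, Fintype.card_subtype_eq, hn]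
  rfl

theorem card_compl {V : Type} [Fintype V] (S : Set V) (N : ℕ) (hN : Fintype.card V = N) :
    S.ncard + Nat.card (Sᶜ : Set V) = N := by
  rw [Nat.card_coe_set_eq, Set.ncard_add_ncard_compl, Nat.card_eq_fintype_card, hN]

/-- the common set-up -/
theorem setup {V1 V2 : Type} [Fintype V1] [Fintype V2] {δ1 δ2 : ℕ} (hδ1 : δ1 ≤ 1)
    (hδ2 : δ2 ≤ 1) (B1 : PB V1 δ1) (B2 : SB V2 δ2) {m n : ℕ}
    (hm : Fintype.card V1 = m) (hn : Fintype.card V2 = n + 1) (hnm : n ≤ m) (hn0 : 8 ≤ n) :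
    ∃ (c : V2 → V1) (W1 : Wg V1) (W2 : Wg V2), Mults W1.G W2.G id c m n ∧
      W1.t = -(δ2 : ℤ) ∧ W2.t = -(δ1 : ℤ) ∧ W1.G.src (W1.G.rev W1.x0) = c B2.w ∧
      W2.G.src (W2.G.rev W2.x0) = B2.w ∧ (δ2 = 0 → ∀ x, W1.G.phi (W1.G.phi x) ≠ x) ∧
      (δ1 = 0 → ∀ x, W2.G.phi (W2.G.phi x) ≠ x) ∧
      (∀ v, ∃ x, W1.G.src (W1.G.rev x) = v ∧ ¬ W1.G.phi.SameCycle W1.x0 x) ∧
      (∀ v, ∃ x, W2.G.src (W2.G.rev x) = v) ∧
      (∀ S : Set V2, (B2.w ∈ S ∨ (δ1 = 0 ∧ δ2 = 0)) → B2.y ∉ S → B2.e ∉ S → B2.p ∉ S →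
        B2.q ∉ S → Even (Nat.card (Sᶜ : Set V2)) → Cov W1.G W2.G id c S) := by
  classical
  have hcard : Nat.card {v // B2.r v = v} = n := card_names B2 hn
  have hcardF : Fintype.card {v // B2.r v = v} = n := by rw [← hcard, Nat.card_eq_fintype_card]
  have hry : B2.r B2.y = B2.y := r_ne B2 B2.hye
  have hrp : B2.r B2.p = B2.p := r_ne B2 B2.hpe
  have hrq : B2.r B2.q = B2.q := r_ne B2 B2.hqe
  have hrw : B2.r B2.w = B2.w := r_ne B2 B2.hwe
  have hra : B2.r B2.a = B2.a := r_ne B2 B2.hae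
  have hB3 : ({⟨B2.y, hry⟩, ⟨B2.p, hrp⟩, ⟨B2.q, hrq⟩} : Finset {v // B2.r v = v}).card ≤ 3 :=
    Finset.card_le_three
  obtain ⟨j, hj, hjw, hjA, hjB⟩ := exists_inj (L1 := V1) (L2 := {v // B2.r v = v})
    (by rw [hcardF, hm]; exact hnm) B1.w ⟨B2.w, hrw⟩ {B1.a}
    {⟨B2.y, hry⟩, ⟨B2.p, hrp⟩, ⟨B2.q, hrq⟩}
    (by rw [Finset.mem_singleton]; exact B1.hwa)
    (by
      simp only [Finset.mem_insert, Finset.mem_singleton, Subtype.mk.injEq, not_or]
      exact ⟨B2.hwy, fun h => B2.hpw h.symm, fun h => B2.hqw h.symm⟩)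
    (by rw [hcardF, Finset.card_singleton]; omega)
  obtain ⟨⟨a2, ha2⟩, hja2⟩ := hjA B1.a (Finset.mem_singleton_self _)
  have hjy : j ⟨B2.y, hry⟩ ≠ B1.a := by
    have := hjB ⟨B2.y, hry⟩ (by simp)
    rwa [Finset.mem_singleton] at this
  have hjq : j ⟨B2.q, hrq⟩ ≠ B1.a := by
    have := hjB ⟨B2.q, hrq⟩ (by simp)
    rwa [Finset.mem_singleton] at this
  obtain ⟨c, hcdef⟩ : ∃ c : V2 → V1, c = fun v => j ⟨B2.r v, r_r B2 v⟩ := ⟨_, rfl⟩
  have hcj : ∀ v (h : B2.r v = v), c v = j ⟨v, h⟩ := by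
    intro v h
    rw [hcdef]
    exact congrArg j (Subtype.ext h)
  have hc : ∀ u v, c u = c v ↔ B2.r u = B2.r v := by
    intro u v
    rw [hcdef]
    constructor
    · intro h
      exact congrArg Subtype.val (hj h)
    · intro h
      exact congrArg j (Subtype.ext h)
  have hcw : c B2.w = B1.w := by rw [hcj _ hrw]; exact hjw
  have hca2 : c a2 = B1.a := by rw [hcj _ ha2]; exact hja2
  have ha2e : a2 ≠ B2.e := (fix_iff B2 a2).1 ha2
  have ha2y : a2 ≠ B2.y := by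
    intro h
    apply hjy
    rw [← hcj _ hry, ← h, hca2]
  have ha2w : a2 ≠ B2.w := by
    intro h
    rw [h, hcw] at hca2
    exact B1.hwa hca2
  -- `c B2.a ≠ B1.a` if `δ2 = 1`
  have hcb : δ2 = 1 → c B2.a ≠ B1.a := by
    intro h
    rcases B2.ha h with h1 | h1
    · rw [h1, hcj _ hry]; exact hjy
    · rw [h1, hcj _ hrq]; exact hjq
  have hcbw : c B2.a ≠ B1.w := by
    rw [← hcw]
    intro h
    rw [hc, hra, hrw] at h
    exact B2.haw h
  obtain ⟨W1, t1, x1, ad1, ns1, nc1, cn1⟩ := exists_wg B1.S (B1.hne (by omega)) B1.w (c B2.a) δ2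
    hδ2 (by
      intro h
      rw [B1.adj]
      refine ⟨hcbw, ?_⟩
      rintro ⟨-, h1 | h1⟩
      · exact hcbw h1.1
      · exact hcb h h1.1)
  obtain ⟨W2, t2, x2, ad2, ns2, nc2, cn2⟩ := exists_wg B2.S B2.hne B2.w a2 δ1
    hδ1 (by
      intro h
      rw [B2.adj a2 B2.w ha2y ha2e B2.hwy B2.hwe]
      refine ⟨ha2w, ?_⟩
      rintro ⟨h0, h1 | h1⟩
      · exact ha2w h1.1
      · exact hcb h0 (by rw [← h1.1]; exact hca2))
  refine ⟨c, W1, W2, ?_, t1, t2, ?_, x2, ns1, ns2, nc1, fun v => ?_, ?_⟩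
  · refine mults_of (Γ1 := B1.Γ) (Γ2 := B2.Γ) (r1 := id) (r2 := B2.r) (δ1 := δ1) (δ2 := δ2)
      (w1 := B1.w) (a1 := B1.a) (w2 := B2.w) (a2 := a2) (b2 := B2.a) hδ1 hδ2
      (fun v => rfl) (r_r B2) (fun v => rfl) hc ?_ hcard hcw (fun _ => hca2) hrw
      (fun _ => ha2) (fun _ => hra) (fun _ => B1.hwa) (fun _ => fun h => B2.haw h.symm) ?_ ?_ cn1 cn2
    · rw [← hm, ← Nat.card_eq_fintype_card]
      exact Nat.card_congr (Equiv.subtypeUnivEquiv fun v => rfl)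
    · intro u v _ _
      exact B1.cnt u v
    · intro u v hu hv
      exact B2.cnt u v ((fix_iff B2 u).1 hu) ((fix_iff B2 v).1 hv)
  · rw [x1, hcw]
  · obtain ⟨x, hx, -⟩ := nc2 v
    exact ⟨x, hx⟩
  · intro S hS hy he hp hq hev
    have hcwr : ∀ u, B2.r u ≠ B2.w → c u ≠ B1.w := by
      intro u hu h
      rw [← hcw, hc, hrw] at h
      exact hu h
    have had1 : ∀ u v, c u ≠ c v → (δ1 = 0 ∨ (c u ≠ B1.w ∧ c v ≠ B1.w)) →
        W1.G.Ad (c u) (c v) := by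
      intro u v huv h
      apply ad1
      rw [B1.adj]
      refine ⟨huv, ?_⟩
      rintro ⟨h0, h1 | h1⟩
      · rcases h with h | h
        · omega
        · exact h.1 h1.1
      · rcases h with h | h
        · omega
        · exact h.2 h1.2
    refine cov_ps (fun v => rfl) S hev B2.y B2.e B2.p B2.q ?_ hy he hp hq ?_ ?_ ?_
    · simp only [List.nodup_cons, List.mem_cons, List.not_mem_nil, or_false, not_or,
        List.nodup_nil, and_true, not_false_eq_true]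
      exact ⟨⟨B2.hye, B2.hpy.symm, B2.hqy.symm⟩, ⟨B2.hpe.symm, B2.hqe.symm⟩, B2.hpq⟩
    · have h1 : c B2.y ≠ c B2.p := by
        intro h
        rw [hc, hry, hrp] at h
        exact B2.hpy h.symm
      refine ⟨h1, ad2 _ _ B2.py.symm, had1 _ _ h1 (Or.inr ⟨hcwr _ ?_, hcwr _ ?_⟩)⟩
      · rw [hry]; exact B2.hwy.symm
      · rw [hrp]; exact B2.hpw
    · have h1 : c B2.e ≠ c B2.q := by
        intro h
        rw [hc, r_e, hrq] at h
        exact B2.hqy h.symm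
      refine ⟨h1, ad2 _ _ B2.qe.symm, had1 _ _ h1 (Or.inr ⟨hcwr _ ?_, hcwr _ ?_⟩)⟩
      · rw [r_e]; exact B2.hwy.symm
      · rw [hrq]; exact B2.hqw
    · intro u v hu hv huy hue hvy hve huv
      have hru : B2.r u = u := r_ne B2 hue
      have hrv : B2.r v = v := r_ne B2 hve
      have h1 : c u ≠ c v := by
        intro h
        rw [hc, hru, hrv] at h
        exact huv h
      refine ⟨h1, ad2 _ _ ?_, had1 _ _ h1 ?_⟩
      · rw [B2.adj u v huy hue hvy hve]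
        refine ⟨huv, ?_⟩
        rintro ⟨h0, h2 | h2⟩
        · rcases hS with h3 | h3
          · exact hu (h2.1 ▸ h3)
          · omega
        · rcases hS with h3 | h3
          · exact hv (h2.2 ▸ h3)
          · omega
      · rcases hS with h3 | h3
        · refine Or.inr ⟨hcwr _ ?_, hcwr _ ?_⟩
          · rw [hru]
            intro h
            exact hu (h ▸ h3)
          · rw [hrv]
            intro h
            exact hv (h ▸ h3)
        · exact Or.inl h3.1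

end MPSAux

open MPSAux in
/-- All the vertices are merged by slit gluing. -/
theorem mergePS0 {V1 V2 : Type} [Fintype V1] [Fintype V2] (B1 : PB V1 0) (B2 : SB V2 0) {m n : ℕ}
    (hm : Fintype.card V1 = m) (hn : Fintype.card V2 = n + 1) (hnm : n ≤ m) (hn0 : 8 ≤ n)
    (hpar : Odd n) (g : ℤ)
    (hg : 12 * g = ((m : ℤ) - 3) * (m - 4) + n * (n - 1)) : Cel (K m n 2) g := by
  obtain ⟨c, W1, W2, hM, t1, t2, -, -, ns1, ns2, -, -, hcov⟩ :=
    setup (by norm_num) (by norm_num) B1 B2 hm hn hnm hn0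
  refine merge0 W1 W2 hM (by omega) (ns1 rfl) (ns2 rfl)
    (hcov ∅ (Or.inr ⟨rfl, rfl⟩) (by simp) (by simp) (by simp) (by simp) ?_) g ?_
  · have := card_compl (∅ : Set V2) _ hn
    rw [Set.ncard_empty, zero_add] at this
    rw [this]
    exact hpar.add_one
  · rw [t1, t2, hg]
    push_cast
    ring

open MPSAux in
/-- One single tube, at `w`. -/
theorem mergePS1 {V1 V2 : Type} [Fintype V1] [Fintype V2] {δ1 δ2 : ℕ} (hδ1 : δ1 ≤ 1)
    (hδ2 : δ2 ≤ 1) (B1 : PB V1 δ1) (B2 : SB V2 δ2) {m n : ℕ}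
    (hm : Fintype.card V1 = m) (hn : Fintype.card V2 = n + 1) (hnm : n ≤ m) (hn0 : 8 ≤ n)
    (hpar : Even n) (g : ℤ)
    (hg : 12 * g = ((m : ℤ) - 3) * (m - 4) + n * (n - 1) + 2 * (3 - δ1 - δ2)) :
    Cel (K m n 2) g := by
  obtain ⟨c, W1, W2, hM, t1, t2, x1, x2, -, -, -, -, hcov⟩ :=
    setup hδ1 hδ2 B1 B2 hm hn hnm hn0
  refine merge1 W1 W2 hM (by omega) B2.w x1 x2
    (hcov {B2.w} (Or.inl (Set.mem_singleton _)) (fun h => B2.hwy (Set.mem_singleton_iff.1 h).symm)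
      (fun h => B2.hwe (Set.mem_singleton_iff.1 h).symm) (fun h => B2.hpw h)
      (fun h => B2.hqw h) ?_) g ?_
  · have := card_compl ({B2.w} : Set V2) _ hn
    rw [Set.ncard_singleton] at this
    have h2 : Nat.card (({B2.w} : Set V2)ᶜ : Set V2) = n := by omega
    rw [h2]
    exact hpar
  · rw [t1, t2, hg]
    ring

open MPSAux in
/-- Two single tubes, one of them at `w`. -/
theorem mergePS2 {V1 V2 : Type} [Fintype V1] [Fintype V2] {δ1 δ2 : ℕ} (hδ1 : δ1 ≤ 1)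
    (hδ2 : δ2 ≤ 1) (B1 : PB V1 δ1) (B2 : SB V2 δ2) {m n : ℕ}
    (hm : Fintype.card V1 = m) (hn : Fintype.card V2 = n + 1) (hnm : n ≤ m) (hn0 : 8 ≤ n)
    (hpar : Odd n) (g : ℤ)
    (hg : 12 * g = ((m : ℤ) - 3) * (m - 4) + n * (n - 1) + 2 * (6 - δ1 - δ2)) :
    Cel (K m n 2) g := by
  classical
  obtain ⟨c, W1, W2, hM, t1, t2, x1, x2, -, -, nc1, hd2, hcov⟩ :=
    setup hδ1 hδ2 B1 B2 hm hn hnm hn0
  obtain ⟨v, hv⟩ : ∃ v, v ∉ ({B2.w, B2.y, B2.e, B2.p, B2.q} : Finset V2) := by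
    by_contra hcon
    push Not at hcon
    have h1 : Fintype.card V2 ≤ 5 := by
      rw [← Finset.card_univ]
      refine (Finset.card_le_card fun x _ => hcon x).trans ?_
      exact Finset.card_le_five
    omega
  simp only [Finset.mem_insert, Finset.mem_singleton, not_or] at hv
  obtain ⟨hvw, hvy, hve, hvp, hvq⟩ := hv
  obtain ⟨x3, h3, h3'⟩ := nc1 (c v)
  obtain ⟨x4, h4⟩ := hd2 v
  refine merge2 W1 W2 hM (by omega) B2.w v (Ne.symm hvw) x1 x2 x3 h3 h3' x4 h4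
    (hcov {B2.w, v} (Or.inl (Set.mem_insert _ _)) ?_ ?_ ?_ ?_ ?_) g ?_
  · simp only [Set.mem_insert_iff, Set.mem_singleton_iff, not_or]
    exact ⟨B2.hwy.symm, Ne.symm hvy⟩
  · simp only [Set.mem_insert_iff, Set.mem_singleton_iff, not_or]
    exact ⟨B2.hwe.symm, Ne.symm hve⟩
  · simp only [Set.mem_insert_iff, Set.mem_singleton_iff, not_or]
    exact ⟨B2.hpw, Ne.symm hvp⟩
  · simp only [Set.mem_insert_iff, Set.mem_singleton_iff, not_or]
    exact ⟨B2.hqw, Ne.symm hvq⟩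
  · have := card_compl ({B2.w, v} : Set V2) _ hn
    rw [Set.ncard_pair (Ne.symm hvw)] at this
    have h2 : Nat.card (({B2.w, v} : Set V2)ᶜ : Set V2) = n - 1 := by omega
    rw [h2]
    obtain ⟨k, hk⟩ := hpar
    exact ⟨k, by omega⟩
  · rw [t1, t2, hg]
    ring

end Pd97
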