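import Mathlib
import Pool.Agent.Lib.Pd97.Common

/-!
# MP_d97cc3_co : merging a split block and a plain block
-/

namespace Pd97

namespace MSP

theorem r_of_ne {V : Type} {δ : ℕ} (B : SB V δ) {v : V} (h : v ≠ B.e) : B.r v = v := by
  unfold SB.r
  rw [if_neg h]

theorem r_e {V : Type} {δ : ℕ} (B : SB V δ) : B.r B.e = B.y := by
  unfold SB.r
  rw [if_pos rfl]

theorem ne_of_r {V : Type} {δ : ℕ} (B : SB V δ) {v : V} (h : B.r v = v) : v ≠ B.e := by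
  rintro rfl
  rw [r_e] at h
  exact B.hye h

theorem r_r {V : Type} {δ : ℕ} (B : SB V δ) (v : V) : B.r (B.r v) = B.r v := by
  by_cases h : v = B.e
  · subst h
    rw [r_e, r_of_ne B B.hye]
  · rw [r_of_ne B h, r_of_ne B h]

theorem card_names {V : Type} [Fintype V] {δ m : ℕ} (B : SB V δ) (hm : Fintype.card V = m + 1) :
    Nat.card {v // B.r v = v} = m := by
  classical
  rw [Nat.card_congr (Equiv.subtypeEquivRight (q := fun v => v ≠ B.e)
    fun v => ⟨fun h => ne_of_r B h, fun h => r_of_ne B h⟩), Nat.card_eq_fintype_card,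
    Fintype.card_subtype_compl, Fintype.card_subtype_eq, hm]
  rfl

theorem card_names' {V : Type} [Fintype V] {n : ℕ} (hn : Fintype.card V = n) :
    Nat.card {v : V // (id v : V) = v} = n := by
  rw [Nat.card_congr (Equiv.subtypeUnivEquiv (p := fun v : V => (id v : V) = v) fun v => rfl),
    Nat.card_eq_fintype_card, hn]

/-- the injection -/
theorem exists_c {V1 V2 : Type} [Fintype V1] [Fintype V2] {δ1 δ2 : ℕ} (B1 : SB V1 δ1)
    (B2 : PB V2 δ2) {m n : ℕ} (hm : Fintype.card V1 = m + 1) (hn : Fintype.card V2 = n)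
    (hnm : n ≤ m) (A : Finset V1) (hAe : B1.e ∉ A) (hAw : B1.w ∉ A) (hδ2 : δ2 ≤ 1)
    (h : A.card + δ2 + 1 ≤ n) :
    ∃ c : V2 → V1, Function.Injective c ∧ (∀ v, c v ≠ B1.e) ∧ c B2.w = B1.w ∧
      (∀ a ∈ A, ∃ v, c v = a) ∧ (δ2 = 1 → c B2.a ∉ A) := by
  classical
  have hc : Fintype.card V2 ≤ Fintype.card {v : V1 // v ≠ B1.e} := by
    rw [Fintype.card_subtype_compl, Fintype.card_subtype_eq, hm, hn]
    exact hnm
  have hBc : (if δ2 = 1 then ({B2.a} : Finset V2) else ∅).card = δ2 := by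
    split_ifs with h1
    · rw [Finset.card_singleton, h1]
    · rw [Finset.card_empty]
      omega
  have hAc : (A.subtype fun v => v ≠ B1.e).card = A.card := by
    rw [Finset.card_subtype]
    congr 1
    refine Finset.filter_true_of_mem fun v hv => ?_
    rintro rfl
    exact hAe hv
  obtain ⟨j, h1, h2, h3, h4⟩ := exists_inj hc (⟨B1.w, B1.hwe⟩ : {v : V1 // v ≠ B1.e}) B2.w
    (A.subtype fun v => v ≠ B1.e) (if δ2 = 1 then ({B2.a} : Finset V2) else ∅)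
    (by rwa [Finset.mem_subtype]) (by
      split_ifs with h1
      · rw [Finset.mem_singleton]
        exact B2.hwa
      · exact Finset.notMem_empty _) (by rw [hAc, hBc, hn]; exact h)
  refine ⟨fun v => (j v).1, Subtype.val_injective.comp h1, fun v => (j v).2, ?_, fun a ha => ?_,
    fun hd => ?_⟩
  · exact congrArg Subtype.val h2
  · have hae : a ≠ B1.e := by
      rintro rfl
      exact hAe ha
    obtain ⟨v, hv⟩ := h3 ⟨a, hae⟩ (by rwa [Finset.mem_subtype])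
    exact ⟨v, congrArg Subtype.val hv⟩
  · have := h4 B2.a (by rw [if_pos hd]; exact Finset.mem_singleton_self _)
    rwa [Finset.mem_subtype] at this

theorem adj1 {V : Type} {δ : ℕ} (B : SB V δ) {u v : V} (h1 : u ≠ B.y) (h2 : u ≠ B.e)
    (h3 : v ≠ B.y) (h4 : v ≠ B.e) (huv : u ≠ v) (hu : δ = 1 → u ≠ B.w) (hv : δ = 1 → v ≠ B.w) :
    B.Γ.Adj u v := by
  rw [B.adj u v h1 h2 h3 h4]
  refine ⟨huv, ?_⟩
  rintro ⟨hd, ⟨h, -⟩ | ⟨-, h⟩⟩
  · exact hu hd h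
  · exact hv hd h

theorem adj2 {V : Type} {δ : ℕ} (B : PB V δ) {u v : V} (huv : u ≠ v) (hu : δ = 1 → u ≠ B.w)
    (hv : δ = 1 → v ≠ B.w) : B.Γ.Adj u v := by
  rw [B.adj u v]
  refine ⟨huv, ?_⟩
  rintro ⟨hd, ⟨h, -⟩ | ⟨-, h⟩⟩
  · exact hu hd h
  · exact hv hd h

/-- The data common to `mergeSP1` and `mergeSP2`. -/
theorem setup {V1 V2 : Type} [Fintype V1] [Fintype V2] {δ1 δ2 : ℕ} (hδ1 : δ1 ≤ 1)
    (hδ2 : δ2 ≤ 1) (B1 : SB V1 δ1) (B2 : PB V2 δ2) {m n : ℕ}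
    (hm : Fintype.card V1 = m + 1) (hn : Fintype.card V2 = n) (h3 : 3 ≤ n)
    (c : V2 → V1) (hinj : Function.Injective c) (hce : ∀ v, c v ≠ B1.e) (hcw : c B2.w = B1.w)
    (y2 q2 : V2) (hy2 : c y2 = B1.y) (hq2 : c q2 = B1.q)
    (hb : δ2 = 1 → c B2.a ≠ B1.y ∧ c B2.a ≠ B1.q) :
    ∃ (W1 : Wg V1) (W2 : Wg V2), W1.t = - (δ2 : ℤ) ∧ W2.t = - (δ1 : ℤ) ∧
      Mults W1.G W2.G B1.r c m n ∧
      W1.G.src (W1.G.rev W1.x0) = c B2.w ∧ W2.G.src (W2.G.rev W2.x0) = B2.w ∧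
      (∀ u v, B1.Γ.Adj u v → W1.G.Ad u v) ∧ (∀ u v, B2.Γ.Adj u v → W2.G.Ad u v) ∧
      (∀ v, ∃ x, W1.G.src (W1.G.rev x) = v ∧ ¬ W1.G.phi.SameCycle W1.x0 x) ∧
      (∀ v, ∃ x, W2.G.src (W2.G.rev x) = v ∧ ¬ W2.G.phi.SameCycle W2.x0 x) := by
  obtain ⟨a2, ha2, ha2'⟩ : ∃ a2, (δ1 = 1 → c a2 = B1.a) ∧ (a2 = y2 ∨ a2 = q2) := by
    by_cases hd : δ1 = 1
    · rcases B1.ha hd with h | h
      · exact ⟨y2, fun _ => by rw [hy2, h], Or.inl rfl⟩
      · exact ⟨q2, fun _ => by rw [hq2, h], Or.inr rfl⟩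
    · exact ⟨y2, fun h => absurd h hd, Or.inl rfl⟩
  have hb1 : δ2 = 1 → B1.Γ.Adj (c B2.a) B1.w := by
    intro hd
    rw [B1.adj _ _ (hb hd).1 (hce _) B1.hwy B1.hwe]
    refine ⟨fun h => ?_, ?_⟩
    · rw [← hcw] at h
      exact B2.hwa (hinj h).symm
    · rintro ⟨hd1, ⟨h, -⟩ | ⟨h, -⟩⟩
      · rw [← hcw] at h
        exact B2.hwa (hinj h).symm
      · rcases B1.ha hd1 with h' | h'
        · exact (hb hd).1 (h.trans h')
        · exact (hb hd).2 (h.trans h')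
  have ha2w : a2 ≠ B2.w := by
    rintro rfl
    rcases ha2' with h | h
    · rw [h, hy2] at hcw
      exact B1.hwy hcw.symm
    · rw [h, hq2] at hcw
      exact B1.hqw hcw
  have hb2 : δ1 = 1 → B2.Γ.Adj a2 B2.w := by
    intro hd
    rw [B2.adj]
    refine ⟨ha2w, ?_⟩
    rintro ⟨hd2, ⟨h, -⟩ | ⟨h, -⟩⟩
    · exact ha2w h
    · rcases ha2' with h' | h'
      · exact (hb hd2).1 (by rw [← h, h', hy2])
      · exact (hb hd2).2 (by rw [← h, h', hq2])
  obtain ⟨W1, e1, e2, e3, -, e5, e6⟩ := exists_wg B1.S B1.hne B1.w (c B2.a) δ2 hδ2 hb1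
  obtain ⟨W2, f1, f2, f3, -, f5, f6⟩ := exists_wg B2.S (B2.hne (by omega)) B2.w a2 δ1 hδ1 hb2
  refine ⟨W1, W2, e1, f1, ?_, ?_, f2, e3, f3, e5, f5⟩
  · exact mults_of (r2 := id) hδ1 hδ2 (r_r B1) (fun _ => rfl) (fun v => r_of_ne B1 (hce v))
      (fun u v => hinj.eq_iff) (card_names B1 hm) (card_names' hn) hcw ha2 rfl (fun _ => rfl)
      (fun _ => rfl) (fun _ => B1.haw.symm) (fun _ => B2.hwa)
      (fun u v hu hv => SB.cnt B1 u v (ne_of_r B1 hu) (ne_of_r B1 hv))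
      (fun u v _ _ => PB.cnt B2 u v) e6 f6
  · rw [e2, hcw]

end MSP

open MSP

/-- All the vertices are merged by slit gluing. -/
theorem mergeSP0 {V1 V2 : Type} [Fintype V1] [Fintype V2] (B1 : SB V1 0) (B2 : PB V2 0) {m n : ℕ}
    (hm : Fintype.card V1 = m + 1) (hn : Fintype.card V2 = n) (hnm : n ≤ m) (hn0 : 3 ≤ n)
    (hpar : Odd n) (g : ℤ)
    (hg : 12 * g = ((m : ℤ) - 3) * (m - 4) + n * (n - 1)) : Cel (K m n 2) g := by
  classical
  have hcd : Fintype.card V2 ≤ Fintype.card {v : V1 // v ≠ B1.e} := by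
    rw [Fintype.card_subtype_compl, Fintype.card_subtype_eq, hm, hn]
    exact hnm
  obtain ⟨j, hj1, hj2, -⟩ := exists_inj0 hcd
    {⟨B1.y, B1.hye⟩, ⟨B1.p, B1.hpe⟩, ⟨B1.q, B1.hqe⟩} (∅ : Finset V2)
    (by rw [Finset.card_empty, hn]; exact (Finset.card_le_three).trans hn0)
  set c : V2 → V1 := fun v => (j v).1 with hcdef
  have hinj : Function.Injective c := Subtype.val_injective.comp hj1
  have hce : ∀ v, c v ≠ B1.e := fun v => (j v).2
  obtain ⟨y2, hy2⟩ : ∃ v, c v = B1.y := by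
    obtain ⟨v, hv⟩ := hj2 ⟨B1.y, B1.hye⟩ (by simp)
    exact ⟨v, by rw [hcdef]; exact congrArg Subtype.val hv⟩
  obtain ⟨p2, hp2⟩ : ∃ v, c v = B1.p := by
    obtain ⟨v, hv⟩ := hj2 ⟨B1.p, B1.hpe⟩ (by simp)
    exact ⟨v, by rw [hcdef]; exact congrArg Subtype.val hv⟩
  obtain ⟨q2, hq2⟩ : ∃ v, c v = B1.q := by
    obtain ⟨v, hv⟩ := hj2 ⟨B1.q, B1.hqe⟩ (by simp)
    exact ⟨v, by rw [hcdef]; exact congrArg Subtype.val hv⟩
  obtain ⟨W1, e1, e2, e3, e4, e5, e6⟩ := exists_wg B1.S B1.hne B1.w (c y2) 0 (by omega)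
    (fun h => absurd h (by omega))
  obtain ⟨W2, f1, f2, f3, f4, f5, f6⟩ := exists_wg B2.S (B2.hne (by omega)) y2 y2 0 (by omega)
    (fun h => absurd h (by omega))
  have hM : Mults W1.G W2.G B1.r c m n := by
    refine mults_of (r2 := id) (w1 := c y2) (a1 := c y2) (w2 := y2) (a2 := y2) (b2 := y2)
      (Γ1 := B1.Γ) (Γ2 := B2.Γ) (δ1 := 0) (δ2 := 0)
      (by omega) (by omega) (r_r B1) (fun _ => rfl) (fun v => r_of_ne B1 (hce v))
      (fun u v => hinj.eq_iff) (card_names B1 hm) (card_names' hn) rfl (fun _ => rfl) rfl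
      (fun _ => rfl) (fun _ => rfl) (fun h => absurd h (by omega)) (fun h => absurd h (by omega))
      (fun u v hu hv => ?_) (fun u v _ _ => ?_) (fun P => ?_) (fun P => ?_)
    · rw [SB.cnt B1 u v (ne_of_r B1 hu) (ne_of_r B1 hv)]
      simp [Mis]
    · rw [show (fun p : V2 × V2 => B2.Γ.Adj p.1 p.2 ∧ (id p.1 : V2) = u ∧ (id p.2 : V2) = v) =
        fun p => B2.Γ.Adj p.1 p.2 ∧ p.1 = u ∧ p.2 = v from rfl, PB.cnt B2 u v]
      simp [Mis]
    · rw [e6 P, Nat.zero_mul, Nat.zero_mul]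
    · rw [f6 P, Nat.zero_mul]
  have hyp : y2 ≠ p2 := fun h => B1.hpy (by rw [← hp2, ← hy2, h])
  have hyq : y2 ≠ q2 := fun h => B1.hqy (by rw [← hq2, ← hy2, h])
  have hpq : p2 ≠ q2 := fun h => B1.hpq (by rw [← hp2, ← hq2, h])
  have hA2 : ∀ {u v : V2}, u ≠ v → W2.G.Ad u v := fun h =>
    f3 _ _ (adj2 B2 h (fun h => absurd h (by omega)) (fun h => absurd h (by omega)))
  have hS : Cov W1.G W2.G B1.r c ∅ := by
    refine cov_sp ∅ B1.e y2 q2 p2 (by rw [r_e]; exact B1.hye) (fun u hu => r_of_ne B1 hu)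
      (by rw [r_e, hy2]) hyq.symm (Set.notMem_empty _) (fun h => hyq.symm (hinj h))
      (e3 _ _ (by rw [hq2]; exact B1.qe.symm)) (hA2 hyq) (Set.notMem_empty _)
      (Set.notMem_empty _) hyp.symm hpq
      ⟨fun h => hyp (hinj h), hA2 hyp, e3 _ _ (by rw [hp2, hy2]; exact B1.py.symm)⟩ ?_
      (fun u u' _ _ huq hu'q huy hu'y huu => ?_)
    · rw [Set.compl_empty, Nat.card_coe_set_eq, Set.ncard_sdiff_singleton_of_mem (Set.mem_univ _),
        Set.ncard_univ, Nat.card_eq_fintype_card, hn]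
      obtain ⟨k, hk⟩ := hpar
      exact ⟨k, by omega⟩
    · refine ⟨fun h => huu (hinj h), hA2 huu, e3 _ _ (adj1 B1 ?_ (hce _) ?_ (hce _)
        (fun h => huu (hinj h)) (fun h => absurd h (by omega)) (fun h => absurd h (by omega)))⟩
      · rw [← hy2]
        exact fun h => huy (hinj h)
      · rw [← hy2]
        exact fun h => hu'y (hinj h)
  refine merge0 W1 W2 hM (by omega) (e4 rfl) (f4 rfl) hS g ?_
  rw [hg, e1, f1]
  simp

/-- One single tube, at `w`. -/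
theorem mergeSP1 {V1 V2 : Type} [Fintype V1] [Fintype V2] {δ1 δ2 : ℕ} (hδ1 : δ1 ≤ 1)
    (hδ2 : δ2 ≤ 1) (B1 : SB V1 δ1) (B2 : PB V2 δ2) {m n : ℕ}
    (hm : Fintype.card V1 = m + 1) (hn : Fintype.card V2 = n) (hnm : n ≤ m) (hn0 : 4 + δ2 ≤ n)
    (hpar : Even n) (g : ℤ)
    (hg : 12 * g = ((m : ℤ) - 3) * (m - 4) + n * (n - 1) + 2 * (3 - δ1 - δ2)) :
    Cel (K m n 2) g := by
  classical
  obtain ⟨c, hinj, hce, hcw, hA, hB⟩ := exists_c B1 B2 hm hn hnm {B1.y, B1.p, B1.q}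
    (by simp [B1.hye.symm, B1.hpe.symm, B1.hqe.symm])
    (by simp [B1.hwy, B1.hpw.symm, B1.hqw.symm]) hδ2
    (by
      have := Finset.card_le_three (a := B1.y) (b := B1.p) (c := B1.q)
      omega)
  obtain ⟨y2, hy2⟩ := hA B1.y (by simp)
  obtain ⟨p2, hp2⟩ := hA B1.p (by simp)
  obtain ⟨q2, hq2⟩ := hA B1.q (by simp)
  obtain ⟨W1, W2, ht1, ht2, hM, h1, h2, hA1, hA2, -, -⟩ := setup hδ1 hδ2 B1 B2 hm hn (by omega) c
    hinj hce hcw y2 q2 hy2 hq2 (fun hd => by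
      have := hB hd
      simp only [Finset.mem_insert, Finset.mem_singleton, not_or] at this
      exact ⟨this.1, this.2.2⟩)
  have hyp : y2 ≠ p2 := fun h => B1.hpy (by rw [← hp2, ← hy2, h])
  have hyq : y2 ≠ q2 := fun h => B1.hqy (by rw [← hq2, ← hy2, h])
  have hpq : p2 ≠ q2 := fun h => B1.hpq (by rw [← hp2, ← hq2, h])
  have hyw : y2 ≠ B2.w := fun h => B1.hwy (by rw [← hcw, ← hy2, h])
  have hpw : p2 ≠ B2.w := fun h => B1.hpw (by rw [← hcw, ← hp2, h])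
  have hqw : q2 ≠ B2.w := fun h => B1.hqw (by rw [← hcw, ← hq2, h])
  have hS : Cov W1.G W2.G B1.r c {B2.w} := by
    refine cov_sp {B2.w} B1.e y2 q2 p2 (by rw [r_e]; exact B1.hye) (fun u hu => r_of_ne B1 hu)
      (by rw [r_e, hy2]) hyq.symm (by simpa using hqw) (fun h => hyq.symm (hinj h))
      (hA1 _ _ (by rw [hq2]; exact B1.qe.symm))
      (hA2 _ _ (adj2 B2 hyq (fun _ => hyw) (fun _ => hqw))) (by simpa using hyw)
      (by simpa using hpw) hyp.symm hpq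
      ⟨fun h => hyp (hinj h), hA2 _ _ (adj2 B2 hyp (fun _ => hyw) (fun _ => hpw)),
        hA1 _ _ (by rw [hp2, hy2]; exact B1.py.symm)⟩ ?_
      (fun u u' hu hu' huq hu'q huy hu'y huu => ?_)
    · rw [Nat.card_coe_set_eq, Set.ncard_sdiff_singleton_of_mem (by simpa using hqw),
        Set.ncard_compl, Set.ncard_singleton, Nat.card_eq_fintype_card, hn]
      obtain ⟨k, hk⟩ := hpar
      exact ⟨k - 1, by omega⟩
    · simp only [Set.mem_singleton_iff] at hu hu'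
      refine ⟨fun h => huu (hinj h), hA2 _ _ (adj2 B2 huu (fun _ => hu) (fun _ => hu')),
        hA1 _ _ (adj1 B1 ?_ (hce _) ?_ (hce _) (fun h => huu (hinj h)) (fun _ => ?_)
          (fun _ => ?_))⟩
      · rw [← hy2]
        exact fun h => huy (hinj h)
      · rw [← hy2]
        exact fun h => hu'y (hinj h)
      · rw [← hcw]
        exact fun h => hu (hinj h)
      · rw [← hcw]
        exact fun h => hu' (hinj h)
  refine merge1 W1 W2 hM (by omega) B2.w h1 h2 hS g ?_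
  rw [hg, ht1, ht2]
  ring

/-- Two single tubes, at `w` and `y`. -/
theorem mergeSP2 {V1 V2 : Type} [Fintype V1] [Fintype V2] {δ1 δ2 : ℕ} (hδ1 : δ1 ≤ 1)
    (hδ2 : δ2 ≤ 1) (B1 : SB V1 δ1) (B2 : PB V2 δ2) {m n : ℕ}
    (hm : Fintype.card V1 = m + 1) (hn : Fintype.card V2 = n) (hnm : n ≤ m) (hn0 : 3 + δ2 ≤ n)
    (hpar : Odd n) (g : ℤ)
    (hg : 12 * g = ((m : ℤ) - 3) * (m - 4) + n * (n - 1) + 2 * (6 - δ1 - δ2)) :
    Cel (K m n 2) g := by
  classical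
  obtain ⟨c, hinj, hce, hcw, hA, hB⟩ := exists_c B1 B2 hm hn hnm {B1.y, B1.q}
    (by simp [B1.hye.symm, B1.hqe.symm])
    (by simp [B1.hwy, B1.hqw.symm]) hδ2
    (by
      have := Finset.card_le_two (a := B1.y) (b := B1.q)
      omega)
  obtain ⟨y2, hy2⟩ := hA B1.y (by simp)
  obtain ⟨q2, hq2⟩ := hA B1.q (by simp)
  obtain ⟨W1, W2, ht1, ht2, hM, h1, h2, hA1, hA2, hx1, hx2⟩ := setup hδ1 hδ2 B1 B2 hm hn
    (by omega) c hinj hce hcw y2 q2 hy2 hq2 (fun hd => by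
      have := hB hd
      simp only [Finset.mem_insert, Finset.mem_singleton, not_or] at this
      exact this)
  have hyq : y2 ≠ q2 := fun h => B1.hqy (by rw [← hq2, ← hy2, h])
  have hyw : y2 ≠ B2.w := fun h => B1.hwy (by rw [← hcw, ← hy2, h])
  have hqw : q2 ≠ B2.w := fun h => B1.hqw (by rw [← hcw, ← hq2, h])
  have hS : Cov W1.G W2.G B1.r c {B2.w, y2} := by
    refine cov_sp_mem {B2.w, y2} B1.e y2 q2 (by rw [r_e]; exact B1.hye)
      (fun u hu => r_of_ne B1 hu)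
      (by rw [r_e, hy2]) hyq.symm (by simp [hqw, hyq.symm]) (fun h => hyq.symm (hinj h))
      (hA1 _ _ (by rw [hq2]; exact B1.qe.symm))
      (hA2 _ _ (adj2 B2 hyq (fun _ => hyw) (fun _ => hqw))) (by simp) ?_
      (fun u u' hu hu' huq hu'q huu => ?_)
    · rw [Nat.card_coe_set_eq, Set.ncard_sdiff_singleton_of_mem (by simp [hqw, hyq.symm]),
        Set.ncard_compl, Set.ncard_pair hyw.symm, Nat.card_eq_fintype_card, hn]
      obtain ⟨k, hk⟩ := hpar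
      exact ⟨k - 1, by omega⟩
    · simp only [Set.mem_insert_iff, Set.mem_singleton_iff, not_or] at hu hu'
      refine ⟨fun h => huu (hinj h), hA2 _ _ (adj2 B2 huu (fun _ => hu.1) (fun _ => hu'.1)),
        hA1 _ _ (adj1 B1 ?_ (hce _) ?_ (hce _) (fun h => huu (hinj h)) (fun _ => ?_)
          (fun _ => ?_))⟩
      · rw [← hy2]
        exact fun h => hu.2 (hinj h)
      · rw [← hy2]
        exact fun h => hu'.2 (hinj h)
      · rw [← hcw]
        exact fun h => hu.1 (hinj h)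
      · rw [← hcw]
        exact fun h => hu'.1 (hinj h)
  obtain ⟨x3, h3, h3'⟩ := hx1 (c y2)
  obtain ⟨x4, h4, -⟩ := hx2 y2
  refine merge2 W1 W2 hM (by omega) B2.w y2 hyw.symm h1 h2 x3 h3 h3' x4 h4 hS g ?_
  rw [hg, ht1, ht2]
  ring

end Pd97
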