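import Mathlib
import Pool.Agent.Lib.Pd97.Common

/-!
# MP_d97cc3_co : merging two split blocks
-/

namespace Pd97

namespace MSSAux

theorem r_e {V : Type} {δ : ℕ} (B : SB V δ) : B.r B.e = B.y := by
  unfold SB.r
  rw [if_pos rfl]

theorem r_ne {V : Type} {δ : ℕ} (B : SB V δ) {v : V} (h : v ≠ B.e) : B.r v = v := by
  unfold SB.r
  rw [if_neg h]

theorem r_iff {V : Type} {δ : ℕ} (B : SB V δ) (v : V) : B.r v = v ↔ v ≠ B.e := by
  constructor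
  · rintro h rfl
    rw [r_e] at h
    exact B.hye h
  · exact r_ne B

theorem r_ne_e {V : Type} {δ : ℕ} (B : SB V δ) (v : V) : B.r v ≠ B.e := by
  by_cases h : v = B.e
  · rw [h, r_e]
    exact B.hye
  · rw [r_ne B h]
    exact h

theorem r_r {V : Type} {δ : ℕ} (B : SB V δ) (v : V) : B.r (B.r v) = B.r v :=
  r_ne B (r_ne_e B v)

theorem card_r {V : Type} [Fintype V] {δ : ℕ} (B : SB V δ) {n : ℕ} (h : Fintype.card V = n + 1) :
    Nat.card {v // B.r v = v} = n := by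
  classical
  rw [Nat.card_congr (Equiv.subtypeEquivRight (r_iff B)), Nat.card_eq_fintype_card,
    Fintype.card_subtype, Finset.filter_ne', Finset.card_erase_of_mem (Finset.mem_univ _),
    Finset.card_univ, h]
  rfl

structure Setup {V1 V2 : Type} {δ1 δ2 : ℕ} (B1 : SB V1 δ1) (B2 : SB V2 δ2) (c : V2 → V1)
    (y p q : V2) : Prop where
  rc : ∀ v, B1.r (c v) = c v
  cc : ∀ u v, c u = c v ↔ B2.r u = B2.r v
  cw : c B2.w = B1.w
  cy : c y = B1.y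
  cp : c p = B1.p
  cq : c q = B1.q
  ye : y ≠ B2.e
  pe : p ≠ B2.e
  qe : q ≠ B2.e
  sy : ∀ v, v = B2.y ∨ v = B2.p ∨ v = B2.q → c v ≠ B1.y
  sp : ∀ v, v = B2.y ∨ v = B2.p ∨ v = B2.q → c v ≠ B1.p
  sq : ∀ v, v = B2.y ∨ v = B2.p ∨ v = B2.q → c v ≠ B1.q

variable {V1 V2 : Type} [Fintype V1] [Fintype V2] {δ1 δ2 : ℕ}

theorem exists_setup (B1 : SB V1 δ1) (B2 : SB V2 δ2) {m n : ℕ}
    (hm : Fintype.card V1 = m + 1) (hn : Fintype.card V2 = n + 1) (hnm : n ≤ m) (hn0 : 8 ≤ n) :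
    ∃ c y p q, Setup B1 B2 c y p q := by
  classical
  have f1 : Fintype {v // B1.r v = v} := Fintype.ofFinite _
  have f2 : Fintype {v // B2.r v = v} := Fintype.ofFinite _
  have c1 : Fintype.card {v // B1.r v = v} = m := by
    rw [← Nat.card_eq_fintype_card]
    exact card_r B1 hm
  have c2 : Fintype.card {v // B2.r v = v} = n := by
    rw [← Nat.card_eq_fintype_card]
    exact card_r B2 hn
  have hA3 : ∀ a b d : {v // B1.r v = v}, ({a, b, d} : Finset {v // B1.r v = v}).card ≤ 3 :=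
    fun a b d => Finset.card_le_three
  have hB3 : ∀ a b d : {v // B2.r v = v}, ({a, b, d} : Finset {v // B2.r v = v}).card ≤ 3 :=
    fun a b d => Finset.card_le_three
  obtain ⟨j, hj, hjw, hA, hB⟩ := exists_inj (L1 := {v // B1.r v = v}) (L2 := {v // B2.r v = v})
    (by rw [c1, c2]; exact hnm) ⟨B1.w, r_ne B1 B1.hwe⟩ ⟨B2.w, r_ne B2 B2.hwe⟩
    {⟨B1.y, r_ne B1 B1.hye⟩, ⟨B1.p, r_ne B1 B1.hpe⟩, ⟨B1.q, r_ne B1 B1.hqe⟩}
    {⟨B2.y, r_ne B2 B2.hye⟩, ⟨B2.p, r_ne B2 B2.hpe⟩, ⟨B2.q, r_ne B2 B2.hqe⟩}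
    (by
      simp only [Finset.mem_insert, Finset.mem_singleton, Subtype.mk.injEq, not_or]
      exact ⟨B1.hwy, B1.hpw.symm, B1.hqw.symm⟩)
    (by
      simp only [Finset.mem_insert, Finset.mem_singleton, Subtype.mk.injEq, not_or]
      exact ⟨B2.hwy, B2.hpw.symm, B2.hqw.symm⟩)
    (by
      rw [c2]
      have h1 := hA3 ⟨B1.y, r_ne B1 B1.hye⟩ ⟨B1.p, r_ne B1 B1.hpe⟩ ⟨B1.q, r_ne B1 B1.hqe⟩
      have h2 := hB3 ⟨B2.y, r_ne B2 B2.hye⟩ ⟨B2.p, r_ne B2 B2.hpe⟩ ⟨B2.q, r_ne B2 B2.hqe⟩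
      omega)
  obtain ⟨y, hy⟩ := hA ⟨B1.y, r_ne B1 B1.hye⟩ (by simp)
  obtain ⟨p, hp⟩ := hA ⟨B1.p, r_ne B1 B1.hpe⟩ (by simp)
  obtain ⟨q, hq⟩ := hA ⟨B1.q, r_ne B1 B1.hqe⟩ (by simp)
  have hjr : ∀ x : {v // B2.r v = v}, j ⟨B2.r x.1, r_r B2 x.1⟩ = j x := by
    intro x
    congr 1
    exact Subtype.ext x.2
  have hsp : ∀ v, v = B2.y ∨ v = B2.p ∨ v = B2.q → ∀ a : {v // B1.r v = v},
      a ∈ ({⟨B1.y, r_ne B1 B1.hye⟩, ⟨B1.p, r_ne B1 B1.hpe⟩, ⟨B1.q, r_ne B1 B1.hqe⟩} :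
        Finset {v // B1.r v = v}) → (j ⟨B2.r v, r_r B2 v⟩).1 ≠ a.1 := by
    intro v hv a ha he
    have hve : v ≠ B2.e := by
      rcases hv with rfl | rfl | rfl
      · exact B2.hye
      · exact B2.hpe
      · exact B2.hqe
    refine hB ⟨v, r_ne B2 hve⟩ ?_ ?_
    · simp only [Finset.mem_insert, Finset.mem_singleton, Subtype.mk.injEq]
      exact hv
    · have h1 : j ⟨B2.r v, r_r B2 v⟩ = j ⟨v, r_ne B2 hve⟩ := hjr ⟨v, r_ne B2 hve⟩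
      rw [← h1, Subtype.ext he]
      exact ha
  refine ⟨fun v => (j ⟨B2.r v, r_r B2 v⟩).1, y.1, p.1, q.1, ?_⟩
  exact
    { rc := fun v => (j ⟨B2.r v, r_r B2 v⟩).2
      cc := by
        intro u v
        constructor
        · intro h
          exact congrArg Subtype.val (hj (Subtype.ext h))
        · intro h
          show (j ⟨B2.r u, r_r B2 u⟩).1 = (j ⟨B2.r v, r_r B2 v⟩).1
          congr 2
          exact Subtype.ext h
      cw := by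
        have := hjr ⟨B2.w, r_ne B2 B2.hwe⟩
        rw [hjw] at this
        exact congrArg Subtype.val this
      cy := by
        have := hjr y
        rw [hy] at this
        exact congrArg Subtype.val this
      cp := by
        have := hjr p
        rw [hp] at this
        exact congrArg Subtype.val this
      cq := by
        have := hjr q
        rw [hq] at this
        exact congrArg Subtype.val this
      ye := (r_iff B2 y.1).1 y.2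
      pe := (r_iff B2 p.1).1 p.2
      qe := (r_iff B2 q.1).1 q.2
      sy := fun v hv => hsp v hv ⟨B1.y, r_ne B1 B1.hye⟩ (by simp)
      sp := fun v hv => hsp v hv ⟨B1.p, r_ne B1 B1.hpe⟩ (by simp)
      sq := fun v hv => hsp v hv ⟨B1.q, r_ne B1 B1.hqe⟩ (by simp) }

section
variable {B1 : SB V1 δ1} {B2 : SB V2 δ2} {c : V2 → V1} {y p q : V2}

omit [Fintype V1] [Fintype V2] in
theorem Setup.ce (h : Setup B1 B2 c y p q) (v : V2) : c v ≠ B1.e :=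
  (r_iff B1 _).1 (h.rc v)

omit [Fintype V1] [Fintype V2] in
theorem Setup.inj (h : Setup B1 B2 c y p q) {u v : V2} (hu : u ≠ B2.e) (hv : v ≠ B2.e)
    (huv : u ≠ v) : c u ≠ c v := by
  intro h1
  rw [h.cc, r_ne B2 hu, r_ne B2 hv] at h1
  exact huv h1

omit [Fintype V1] [Fintype V2] in
theorem Setup.yp (h : Setup B1 B2 c y p q) : y ≠ p := by
  rintro rfl
  exact B1.hpy (h.cp.symm.trans h.cy)

omit [Fintype V1] [Fintype V2] in
theorem Setup.yq (h : Setup B1 B2 c y p q) : y ≠ q := by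
  rintro rfl
  exact B1.hqy (h.cq.symm.trans h.cy)

omit [Fintype V1] [Fintype V2] in
theorem Setup.pq (h : Setup B1 B2 c y p q) : p ≠ q := by
  rintro rfl
  exact B1.hpq (h.cp.symm.trans h.cq)

omit [Fintype V1] [Fintype V2] in
theorem Setup.yw (h : Setup B1 B2 c y p q) : y ≠ B2.w := by
  rintro rfl
  exact B1.hwy (h.cw.symm.trans h.cy)

omit [Fintype V1] [Fintype V2] in
theorem Setup.pw (h : Setup B1 B2 c y p q) : p ≠ B2.w := by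
  rintro rfl
  exact B1.hpw (h.cp.symm.trans h.cw)

omit [Fintype V1] [Fintype V2] in
theorem Setup.qw (h : Setup B1 B2 c y p q) : q ≠ B2.w := by
  rintro rfl
  exact B1.hqw (h.cq.symm.trans h.cw)

omit [Fintype V1] [Fintype V2] in
theorem Setup.ny (h : Setup B1 B2 c y p q) {v : V2} (hv : v = B2.y ∨ v = B2.p ∨ v = B2.q) :
    y ≠ v := by
  rintro rfl
  exact h.sy _ hv h.cy

omit [Fintype V1] [Fintype V2] in
theorem Setup.np (h : Setup B1 B2 c y p q) {v : V2} (hv : v = B2.y ∨ v = B2.p ∨ v = B2.q) :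
    p ≠ v := by
  rintro rfl
  exact h.sp _ hv h.cp

omit [Fintype V1] [Fintype V2] in
theorem Setup.nq (h : Setup B1 B2 c y p q) {v : V2} (hv : v = B2.y ∨ v = B2.p ∨ v = B2.q) :
    q ≠ v := by
  rintro rfl
  exact h.sq _ hv h.cq

omit [Fintype V1] [Fintype V2] in
theorem Setup.nd (h : Setup B1 B2 c y p q) : [B2.y, B2.e, B2.p, B2.q, q, y, p].Nodup := by
  have iy : B2.y = B2.y ∨ B2.y = B2.p ∨ B2.y = B2.q := Or.inl rfl
  have ip : B2.p = B2.y ∨ B2.p = B2.p ∨ B2.p = B2.q := Or.inr (Or.inl rfl)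
  have iq : B2.q = B2.y ∨ B2.q = B2.p ∨ B2.q = B2.q := Or.inr (Or.inr rfl)
  simp only [List.nodup_cons, List.mem_cons, List.not_mem_nil, or_false, not_or,
    List.nodup_nil, and_true, not_false_eq_true]
  exact ⟨⟨B2.hye, B2.hpy.symm, B2.hqy.symm, (h.nq iy).symm, (h.ny iy).symm, (h.np iy).symm⟩,
    ⟨B2.hpe.symm, B2.hqe.symm, h.qe.symm, h.ye.symm, h.pe.symm⟩,
    ⟨B2.hpq, (h.nq ip).symm, (h.ny ip).symm, (h.np ip).symm⟩,
    ⟨(h.nq iq).symm, (h.ny iq).symm, (h.np iq).symm⟩, ⟨h.yq.symm, h.pq.symm⟩, h.yp⟩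

theorem not_mis {V : Type} {δ : ℕ} {w a u v : V} (hu : u ≠ w) (hv : v ≠ w) :
    ¬ Mis δ w a u v := by
  rintro ⟨_, ⟨h1, _⟩ | ⟨_, h1⟩⟩
  · exact hu h1
  · exact hv h1

variable {W1 : Wg V1} {W2 : Wg V2}

omit [Fintype V1] [Fintype V2] in
/-- generic pairs -/
theorem Setup.ok (h : Setup B1 B2 c y p q) (a1 : ∀ u v, B1.Γ.Adj u v → W1.G.Ad u v)
    (a2 : ∀ u v, B2.Γ.Adj u v → W2.G.Ad u v) {u v : V2} (hu1 : u ≠ B2.y) (hu2 : u ≠ B2.e)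
    (hv1 : v ≠ B2.y) (hv2 : v ≠ B2.e) (huv : u ≠ v) (hu : u ≠ y) (hv : v ≠ y)
    (hw : (δ1 = 0 ∧ δ2 = 0) ∨ (u ≠ B2.w ∧ v ≠ B2.w)) : okp W1.G W2.G c u v := by
  have hcuv : c u ≠ c v := h.inj hu2 hv2 huv
  refine ⟨hcuv, a2 _ _ ((B2.adj u v hu1 hu2 hv1 hv2).2 ⟨huv, ?_⟩),
    a1 _ _ ((B1.adj _ _ ?_ (h.ce u) ?_ (h.ce v)).2 ⟨hcuv, ?_⟩)⟩
  · rcases hw with ⟨_, h2⟩ | ⟨h1, h2⟩
    · rintro ⟨h3, _⟩
      omega
    · exact not_mis h1 h2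
  · rw [← h.cy]
    exact h.inj hu2 h.ye hu
  · rw [← h.cy]
    exact h.inj hv2 h.ye hv
  · rcases hw with ⟨h2, _⟩ | ⟨h1, h2⟩
    · rintro ⟨h3, _⟩
      omega
    · refine not_mis ?_ ?_
      · rw [← h.cw]
        exact h.inj hu2 B2.hwe h1
      · rw [← h.cw]
        exact h.inj hv2 B2.hwe h2

omit [Fintype V1] [Fintype V2] in
theorem Setup.ok_yp (h : Setup B1 B2 c y p q) (a1 : ∀ u v, B1.Γ.Adj u v → W1.G.Ad u v)
    (a2 : ∀ u v, B2.Γ.Adj u v → W2.G.Ad u v) : okp W1.G W2.G c y p := by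
  refine ⟨h.inj h.ye h.pe h.yp, a2 _ _ ((B2.adj y p (h.ny (Or.inl rfl)) h.ye (h.np (Or.inl rfl))
    h.pe).2 ⟨h.yp, not_mis h.yw h.pw⟩), a1 _ _ ?_⟩
  rw [h.cy, h.cp]
  exact B1.py.symm

omit [Fintype V1] [Fintype V2] in
theorem Setup.ok0 (h : Setup B1 B2 c y p q) (a1 : ∀ u v, B1.Γ.Adj u v → W1.G.Ad u v)
    (a2 : ∀ u v, B2.Γ.Adj u v → W2.G.Ad u v) : okp W1.G W2.G c B2.y B2.p := by
  have hc : c B2.y ≠ c B2.p := h.inj B2.hye B2.hpe B2.hpy.symm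
  refine ⟨hc, a2 _ _ B2.py.symm, a1 _ _ ((B1.adj _ _ (h.sy _ (Or.inl rfl)) (h.ce _)
    (h.sy _ (Or.inr (Or.inl rfl))) (h.ce _)).2 ⟨hc, not_mis ?_ ?_⟩)⟩
  · rw [← h.cw]
    exact h.inj B2.hye B2.hwe B2.hwy.symm
  · rw [← h.cw]
    exact h.inj B2.hpe B2.hwe B2.hpw

omit [Fintype V1] [Fintype V2] in
theorem Setup.ok1 (h : Setup B1 B2 c y p q) (a1 : ∀ u v, B1.Γ.Adj u v → W1.G.Ad u v)
    (a2 : ∀ u v, B2.Γ.Adj u v → W2.G.Ad u v) : okp W1.G W2.G c B2.e B2.q := by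
  have he : c B2.e = c B2.y := by
    rw [h.cc, r_e, r_ne B2 B2.hye]
  have hc : c B2.y ≠ c B2.q := h.inj B2.hye B2.hqe B2.hqy.symm
  refine ⟨by rw [he]; exact hc, a2 _ _ B2.qe.symm, ?_⟩
  rw [he]
  refine a1 _ _ ((B1.adj _ _ (h.sy _ (Or.inl rfl)) (h.ce _)
    (h.sy _ (Or.inr (Or.inr rfl))) (h.ce _)).2 ⟨hc, not_mis ?_ ?_⟩)
  · rw [← h.cw]
    exact h.inj B2.hye B2.hwe B2.hwy.symm
  · rw [← h.cw]
    exact h.inj B2.hqe B2.hwe B2.hqw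

omit [Fintype V1] [Fintype V2] in
/-- adjacencies for the extra slit -/
theorem Setup.ex1 (h : Setup B1 B2 c y p q) (a1 : ∀ u v, B1.Γ.Adj u v → W1.G.Ad u v) :
    W1.G.Ad B1.e (c q) := by
  rw [h.cq]
  exact a1 _ _ B1.qe.symm

omit [Fintype V1] [Fintype V2] in
theorem Setup.ex2 (h : Setup B1 B2 c y p q) (a2 : ∀ u v, B2.Γ.Adj u v → W2.G.Ad u v) :
    W2.G.Ad y q :=
  a2 _ _ ((B2.adj y q (h.ny (Or.inl rfl)) h.ye (h.nq (Or.inl rfl)) h.qe).2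
    ⟨h.yq, not_mis h.yw h.qw⟩)

end

theorem card_compl {V : Type} [Fintype V] (F : Finset V) (S : Set V) (hS : S = ↑F) :
    Nat.card (Sᶜ : Set V) = Fintype.card V - F.card := by
  classical
  subst hS
  rw [← Finset.coe_compl, Nat.card_coe_set_eq, Set.ncard_coe_finset, Finset.card_compl]

theorem exists_all (hδ1 : δ1 ≤ 1) (hδ2 : δ2 ≤ 1) (B1 : SB V1 δ1) (B2 : SB V2 δ2) {m n : ℕ}
    (hm : Fintype.card V1 = m + 1) (hn : Fintype.card V2 = n + 1) (hnm : n ≤ m) (hn0 : 8 ≤ n) :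
    ∃ (c : V2 → V1) (y p q : V2) (W1 : Wg V1) (W2 : Wg V2), Setup B1 B2 c y p q ∧
      W1.t = - (δ2 : ℤ) ∧ W2.t = - (δ1 : ℤ) ∧
      W1.G.src (W1.G.rev W1.x0) = B1.w ∧ W2.G.src (W2.G.rev W2.x0) = B2.w ∧
      (∀ u v, B1.Γ.Adj u v → W1.G.Ad u v) ∧ (∀ u v, B2.Γ.Adj u v → W2.G.Ad u v) ∧
      (δ2 = 0 → ∀ x, W1.G.phi (W1.G.phi x) ≠ x) ∧ (δ1 = 0 → ∀ x, W2.G.phi (W2.G.phi x) ≠ x) ∧
      (∀ v, ∃ x, W1.G.src (W1.G.rev x) = v ∧ ¬ W1.G.phi.SameCycle W1.x0 x) ∧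
      (∀ v, ∃ x, W2.G.src (W2.G.rev x) = v ∧ ¬ W2.G.phi.SameCycle W2.x0 x) ∧
      Mults W1.G W2.G B1.r c m n := by
  classical
  obtain ⟨c, y, p, q, h⟩ := exists_setup B1 B2 hm hn hnm hn0
  have iy : B2.y = B2.y ∨ B2.y = B2.p ∨ B2.y = B2.q := Or.inl rfl
  have iq : B2.q = B2.y ∨ B2.q = B2.p ∨ B2.q = B2.q := Or.inr (Or.inr rfl)
  have hb : δ2 = 1 → B1.Γ.Adj (c B2.a) B1.w := by
    intro hd
    have hsp : B2.a = B2.y ∨ B2.a = B2.p ∨ B2.a = B2.q := by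
      rcases B2.ha hd with h1 | h1
      · exact Or.inl h1
      · exact Or.inr (Or.inr h1)
    have hne : c B2.a ≠ B1.w := by
      rw [← h.cw]
      exact h.inj B2.hae B2.hwe B2.haw
    refine (B1.adj _ _ (h.sy _ hsp) (h.ce _) B1.hwy B1.hwe).2 ⟨hne, ?_⟩
    rintro ⟨h1, ⟨h2, _⟩ | ⟨h2, _⟩⟩
    · exact hne h2
    · rcases B1.ha h1 with h3 | h3
      · exact h.sy _ hsp (h2.trans h3)
      · exact h.sq _ hsp (h2.trans h3)
  obtain ⟨a2, ha2, ha2'⟩ : ∃ a2 : V2, (a2 = y ∨ a2 = q) ∧ (δ1 = 1 → c a2 = B1.a) := by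
    by_cases h1 : B1.a = B1.y
    · exact ⟨y, Or.inl rfl, fun _ => by rw [h1, h.cy]⟩
    · refine ⟨q, Or.inr rfl, fun hd => ?_⟩
      rw [h.cq]
      exact ((B1.ha hd).resolve_left h1).symm
  have ha2y : a2 ≠ B2.y := by
    rcases ha2 with rfl | rfl
    · exact h.ny iy
    · exact h.nq iy
  have ha2q : a2 ≠ B2.q := by
    rcases ha2 with rfl | rfl
    · exact h.ny iq
    · exact h.nq iq
  have ha2e : a2 ≠ B2.e := by
    rcases ha2 with rfl | rfl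
    · exact h.ye
    · exact h.qe
  have ha2w : a2 ≠ B2.w := by
    rcases ha2 with rfl | rfl
    · exact h.yw
    · exact h.qw
  have hb' : δ1 = 1 → B2.Γ.Adj a2 B2.w := by
    intro _
    refine (B2.adj _ _ ha2y ha2e B2.hwy B2.hwe).2 ⟨ha2w, ?_⟩
    rintro ⟨h1, ⟨h2, _⟩ | ⟨h2, _⟩⟩
    · exact ha2w h2
    · rcases B2.ha h1 with h3 | h3
      · exact ha2y (h2.trans h3)
      · exact ha2q (h2.trans h3)
  obtain ⟨W1, t1, x1, ad1, ns1, ex1, cn1⟩ := exists_wg B1.S (SB.hne B1) B1.w (c B2.a) δ2 hδ2 hb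
  obtain ⟨W2, t2, x2, ad2, ns2, ex2, cn2⟩ := exists_wg B2.S (SB.hne B2) B2.w a2 δ1 hδ1 hb'
  refine ⟨c, y, p, q, W1, W2, h, t1, t2, x1, x2, ad1, ad2, ns1, ns2, ex1, ex2, ?_⟩
  exact mults_of (Γ1 := B1.Γ) (Γ2 := B2.Γ) (r1 := B1.r) (r2 := B2.r) hδ1 hδ2 (w1 := B1.w)
    (a1 := B1.a) (w2 := B2.w) (a2 := a2) (b2 := B2.a) (r_r B1) (r_r B2) h.rc h.cc
    (card_r B1 hm) (card_r B2 hn) h.cw ha2' (r_ne B2 B2.hwe) (fun _ => r_ne B2 ha2e)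
    (fun _ => r_ne B2 B2.hae) (fun _ => B1.haw.symm) (fun _ => B2.haw.symm)
    (fun u v hu hv => SB.cnt B1 u v ((r_iff B1 u).1 hu) ((r_iff B1 v).1 hv))
    (fun u v hu hv => SB.cnt B2 u v ((r_iff B2 u).1 hu) ((r_iff B2 v).1 hv)) cn1 cn2

end MSSAux

open MSSAux

/-- All the vertices are merged by slit gluing. -/
theorem mergeSS0 {V1 V2 : Type} [Fintype V1] [Fintype V2] (B1 : SB V1 0) (B2 : SB V2 0) {m n : ℕ}
    (hm : Fintype.card V1 = m + 1) (hn : Fintype.card V2 = n + 1) (hnm : n ≤ m) (hn0 : 8 ≤ n)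
    (hpar : Even n) (g : ℤ)
    (hg : 12 * g = ((m : ℤ) - 3) * (m - 4) + n * (n - 1)) : Cel (K m n 2) g := by
  classical
  obtain ⟨c, y, p, q, W1, W2, h, t1, t2, x1, x2, ad1, ad2, ns1, ns2, ex1, ex2, hM⟩ :=
    exists_all (Nat.zero_le 1) (Nat.zero_le 1) B1 B2 hm hn hnm hn0
  have hcov : Cov W1.G W2.G B1.r c ∅ := by
    refine cov_ss ∅ B1.e y q p ?_ (fun u hu => r_ne B1 hu) ?_ h.yq.symm (Set.notMem_empty _) ?_
      (h.ex1 ad1) (h.ex2 ad2) (Set.notMem_empty _) (Set.notMem_empty _) (h.ok_yp ad1 ad2) ?_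
      B2.y B2.e B2.p B2.q h.nd (Set.notMem_empty _) (Set.notMem_empty _) (Set.notMem_empty _)
      (Set.notMem_empty _) (h.ok0 ad1 ad2) (h.ok1 ad1 ad2) ?_
    · rw [r_e]
      exact B1.hye
    · rw [r_e, h.cy]
    · rw [h.cq, h.cy]
      exact B1.hqy
    · have h1 : (∅ᶜ \ {q} : Set V2) = ({q} : Set V2)ᶜ := by
        ext x
        simp
      rw [h1, card_compl {q} {q} (by simp), hn, Finset.card_singleton, Nat.add_sub_cancel]
      exact hpar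
    · intro u v _ _ _ _ hu hv hu1 hu2 hv1 hv2 huv
      exact h.ok ad1 ad2 hu1 hu2 hv1 hv2 huv hu hv (Or.inl ⟨rfl, rfl⟩)
  refine merge0 W1 W2 hM (by omega) (ns1 rfl) (ns2 rfl) hcov g ?_
  rw [hg, t1, t2]
  push_cast
  ring

/-- One single tube, at `w`. -/
theorem mergeSS1 {V1 V2 : Type} [Fintype V1] [Fintype V2] {δ1 δ2 : ℕ} (hδ1 : δ1 ≤ 1)
    (hδ2 : δ2 ≤ 1) (B1 : SB V1 δ1) (B2 : SB V2 δ2) {m n : ℕ}
    (hm : Fintype.card V1 = m + 1) (hn : Fintype.card V2 = n + 1) (hnm : n ≤ m) (hn0 : 8 ≤ n)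
    (hpar : Odd n) (g : ℤ)
    (hg : 12 * g = ((m : ℤ) - 3) * (m - 4) + n * (n - 1) + 2 * (3 - δ1 - δ2)) :
    Cel (K m n 2) g := by
  classical
  obtain ⟨c, y, p, q, W1, W2, h, t1, t2, x1, x2, ad1, ad2, ns1, ns2, ex1, ex2, hM⟩ :=
    exists_all hδ1 hδ2 B1 B2 hm hn hnm hn0
  have hcov : Cov W1.G W2.G B1.r c {B2.w} := by
    refine cov_ss {B2.w} B1.e y q p ?_ (fun u hu => r_ne B1 hu) ?_ h.yq.symm h.qw ?_
      (h.ex1 ad1) (h.ex2 ad2) h.yw h.pw (h.ok_yp ad1 ad2) ?_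
      B2.y B2.e B2.p B2.q h.nd B2.hwy.symm B2.hwe.symm B2.hpw B2.hqw
      (h.ok0 ad1 ad2) (h.ok1 ad1 ad2) ?_
    · rw [r_e]
      exact B1.hye
    · rw [r_e, h.cy]
    · rw [h.cq, h.cy]
      exact B1.hqy
    · have h1 : ({B2.w}ᶜ \ {q} : Set V2) = ({B2.w, q} : Set V2)ᶜ := by
        ext x
        simp
      rw [h1, card_compl {B2.w, q} {B2.w, q} (by simp), hn, Finset.card_pair h.qw.symm]
      obtain ⟨k, hk⟩ := hpar
      exact ⟨k, by omega⟩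
    · intro u v huS hvS _ _ hu hv hu1 hu2 hv1 hv2 huv
      exact h.ok ad1 ad2 hu1 hu2 hv1 hv2 huv hu hv (Or.inr ⟨huS, hvS⟩)
  refine merge1 W1 W2 hM (by omega) B2.w (by rw [x1, h.cw]) x2 hcov g ?_
  rw [hg, t1, t2]
  ring

/-- Two single tubes, at `w` and `y`. -/
theorem mergeSS2 {V1 V2 : Type} [Fintype V1] [Fintype V2] {δ1 δ2 : ℕ} (hδ1 : δ1 ≤ 1)
    (hδ2 : δ2 ≤ 1) (B1 : SB V1 δ1) (B2 : SB V2 δ2) {m n : ℕ}
    (hm : Fintype.card V1 = m + 1) (hn : Fintype.card V2 = n + 1) (hnm : n ≤ m) (hn0 : 8 ≤ n)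
    (hpar : Even n) (g : ℤ)
    (hg : 12 * g = ((m : ℤ) - 3) * (m - 4) + n * (n - 1) + 2 * (6 - δ1 - δ2)) :
    Cel (K m n 2) g := by
  classical
  obtain ⟨c, y, p, q, W1, W2, h, t1, t2, x1, x2, ad1, ad2, ns1, ns2, ex1, ex2, hM⟩ :=
    exists_all hδ1 hδ2 B1 B2 hm hn hnm hn0
  have hqS : q ∉ ({B2.w, y} : Set V2) := by
    rintro (h1 | h1)
    · exact h.qw h1
    · exact h.yq h1.symm
  have hS : ∀ v : V2, v ≠ B2.w → v ≠ y → v ∉ ({B2.w, y} : Set V2) := by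
    rintro v h1 h2 (h3 | h3)
    · exact h1 h3
    · exact h2 h3
  have hS' : ∀ v : V2, v ∉ ({B2.w, y} : Set V2) → v ≠ B2.w ∧ v ≠ y := by
    intro v hv
    exact ⟨fun h1 => hv (Or.inl h1), fun h1 => hv (Or.inr h1)⟩
  have hnd : [B2.y, B2.e, B2.p, B2.q, q].Nodup := by
    have h1 := h.nd
    have h2 : ([B2.y, B2.e, B2.p, B2.q, q] ++ [y, p]).Nodup := h1
    exact h2.of_append_left
  have hcov : Cov W1.G W2.G B1.r c {B2.w, y} := by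
    refine cov_ss_mem {B2.w, y} B1.e y q ?_ (fun u hu => r_ne B1 hu) ?_ h.yq.symm hqS ?_
      (h.ex1 ad1) (h.ex2 ad2) (Or.inr rfl) ?_
      B2.y B2.e B2.p B2.q hnd (hS _ B2.hwy.symm (h.ny (Or.inl rfl)).symm)
      (hS _ B2.hwe.symm h.ye.symm) (hS _ B2.hpw (h.ny (Or.inr (Or.inl rfl))).symm)
      (hS _ B2.hqw (h.ny (Or.inr (Or.inr rfl))).symm) (h.ok0 ad1 ad2) (h.ok1 ad1 ad2) ?_
    · rw [r_e]
      exact B1.hye
    · rw [r_e, h.cy]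
    · rw [h.cq, h.cy]
      exact B1.hqy
    · have h1 : ({B2.w, y}ᶜ \ {q} : Set V2) = ({B2.w, y, q} : Set V2)ᶜ := by
        ext x
        simp only [Set.mem_sdiff, Set.mem_compl_iff, Set.mem_insert_iff, Set.mem_singleton_iff,
          not_or]
        tauto
      have h2 : ({B2.w, y, q} : Finset V2).card = 3 :=
        Finset.card_eq_three.2 ⟨_, _, _, h.yw.symm, h.qw.symm, h.yq, rfl⟩
      rw [h1, card_compl {B2.w, y, q} {B2.w, y, q} (by simp), hn, h2]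
      obtain ⟨k, hk⟩ := hpar
      exact ⟨k - 1, by omega⟩
    · intro u v huS hvS _ _ hu1 hu2 hv1 hv2 huv
      exact h.ok ad1 ad2 hu1 hu2 hv1 hv2 huv (hS' u huS).2 (hS' v hvS).2
        (Or.inr ⟨(hS' u huS).1, (hS' v hvS).1⟩)
  obtain ⟨x3, h3, h3'⟩ := ex1 (c y)
  obtain ⟨x4, h4, _⟩ := ex2 y
  refine merge2 W1 W2 hM (by omega) B2.w y h.yw.symm (by rw [x1, h.cw]) x2 x3 h3 h3' x4 h4
    hcov g ?_
  rw [hg, t1, t2]
  ring

end Pd97
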