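import Mathlib
import Pool.Agent.Lib.Pd97.Common

/-!
# MP_d97cc3_co : the case n = 2
-/

namespace Pd97

open Equiv

namespace N2Aux

open Classical in
theorem card_sub {α : Type} [Fintype α] (Q : α → Prop) :
    Nat.card {x : α // Q x} = ∑ x : α, if Q x then 1 else 0 := by
  rw [Nat.card_eq_fintype_card, Fintype.card_subtype, Finset.card_filter]

end N2Aux

open N2Aux

/-- one edge on the sphere: one face of length two, slack `-1` -/
theorem exists_K2 : ∃ W : Wg Bool, W.t = -1 ∧ W.G.src (W.G.rev W.x0) = false ∧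
    (∀ u v : Bool, u ≠ v → W.G.Ad u v) ∧ (∀ x y : W.G.D, W.G.phi.SameCycle x y) ∧
    (∀ P : Bool → Bool → Prop, Nat.card {x : W.G.D // P (W.G.src x) (W.G.src (W.G.rev x))} =
      Nat.card {p : Bool × Bool // p.1 ≠ p.2 ∧ P p.1 p.2}) := by
  let G : CMap Bool :=
    { D := Bool
      src := fun x => x
      rev := Equiv.boolNot
      rot := 1
      rev_rev := fun d => by cases d <;> rfl
      rev_ne := fun d => by cases d <;> decide
      src_surj := fun x => ⟨x, rfl⟩
      src_iff := fun d e => by rw [Perm.sameCycle_one] }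
  have hphi : ∀ x, G.phi x = !x := fun x => rfl
  have hsc : ∀ x y : G.D, G.phi.SameCycle x y := by
    intro x y
    by_cases h : x = y
    · rw [h]
    · refine ⟨1, ?_⟩
      rw [zpow_one, hphi]
      change Bool at x y
      cases x <;> cases y <;> simp_all
  have hnf : G.nf = 1 := by
    unfold CMap.nf ncyc
    rw [Nat.card_eq_one_iff_unique]
    refine ⟨⟨fun a b => ?_⟩, ⟨Quotient.mk _ (true : Bool)⟩⟩
    refine Quotient.inductionOn₂ a b fun x y => Quotient.sound (hsc x y)
  let W : Wg Bool :=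
    { G := G
      x0 := (true : Bool)
      t := -1
      nofix := fun x => by
        rw [hphi]
        change Bool at x
        cases x <;> decide
      short := fun x _ => hsc _ _
      nf := by
        rw [hnf]
        change (3:ℤ) * ((1:ℕ):ℤ) + -1 = (Fintype.card Bool : ℤ)
        simp }
  refine ⟨W, rfl, rfl, fun u v huv => ⟨u, rfl, ?_⟩, hsc, fun P => ?_⟩
  · change (!u) = v
    cases u <;> cases v <;> simp_all
  · change Nat.card {x : Bool // P x (!x)} = _
    rw [card_sub, card_sub, Fintype.sum_prod_type]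
    simp only [Fintype.sum_bool]
    by_cases h1 : P true false <;> by_cases h2 : P false true <;> simp [h1, h2]

/-- two parallel edges on the sphere: two faces of length two, slack `-2` -/
theorem exists_K22 : ∃ (G : CMap Bool) (x0 x4 : G.D), (∀ x, G.phi x ≠ x) ∧
    ¬ G.phi.SameCycle x0 x4 ∧ (∀ x, G.phi.SameCycle x0 x ∨ G.phi.SameCycle x4 x) ∧
    3 * (G.nf : ℤ) + (-2) = Fintype.card G.D ∧ G.src (G.rev x0) = false ∧
    G.src (G.rev x4) = true ∧
    (∀ P : Bool → Bool → Prop, Nat.card {x : G.D // P (G.src x) (G.src (G.rev x))} =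
      Nat.card {p : Bool × Bool // p.1 ≠ p.2 ∧ P p.1 p.2} +
      (@ite ℕ (P true false) (Classical.propDecidable _) 1 0 +
        @ite ℕ (P false true) (Classical.propDecidable _) 1 0)) := by
  have hrot : ∀ d e : Bool × Bool, d.1 = e.1 ↔
      Perm.SameCycle (Equiv.prodCongr (Equiv.refl Bool) Equiv.boolNot) d e := by
    intro d e
    constructor
    · intro h
      by_cases h2 : d.2 = e.2
      · rw [Prod.ext h h2]
      · refine ⟨1, ?_⟩
        rw [zpow_one]
        obtain ⟨d1, d2⟩ := d
        obtain ⟨e1, e2⟩ := e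
        cases d1 <;> cases d2 <;> cases e1 <;> cases e2 <;> simp_all
    · rintro ⟨k, hk⟩
      have h1 : ∀ (n : ℕ) (z : Bool × Bool),
          (((Equiv.prodCongr (Equiv.refl Bool) Equiv.boolNot : Perm (Bool × Bool)) ^ n) z).1 = z.1 := by
        intro n
        induction n with
        | zero => intro z; rfl
        | succ n ih => intro z; rw [pow_succ', Perm.mul_apply]; exact ih z
      rcases Int.eq_nat_or_neg k with ⟨n, rfl | rfl⟩
      · rw [zpow_natCast] at hk
        rw [← hk, h1]
      · have h2 := h1 n (((Equiv.prodCongr (Equiv.refl Bool) Equiv.boolNot : Perm (Bool × Bool)) ^ (-(n:ℤ))) d)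
        rw [← zpow_natCast _ n, ← Perm.mul_apply, ← zpow_add] at h2
        simp only [add_neg_cancel, zpow_zero, Perm.one_apply] at h2
        rw [h2, hk]
  let G : CMap Bool :=
    { D := Bool × Bool
      src := fun x => x.1
      rev := Equiv.prodCongr Equiv.boolNot (Equiv.refl Bool)
      rot := Equiv.prodCongr (Equiv.refl Bool) Equiv.boolNot
      rev_rev := fun d => by
        obtain ⟨d1, d2⟩ := d
        cases d1 <;> cases d2 <;> rfl
      rev_ne := fun d => by
        obtain ⟨d1, d2⟩ := d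
        cases d1 <;> cases d2 <;> decide
      src_surj := fun x => ⟨(x, true), rfl⟩
      src_iff := hrot }
  have hphi : ∀ x, G.phi x = (!x.1, !x.2) := fun x => rfl
  have hinv : ∀ x y, G.phi.SameCycle x y → (x.1 = x.2 ↔ y.1 = y.2) := by
    rintro x y ⟨k, hk⟩
    have h1 : ∀ (n : ℕ) (z : Bool × Bool), (((G.phi ^ n) z).1 = ((G.phi ^ n) z).2) ↔ (z.1 = z.2) := by
      intro n
      induction n with
      | zero => intro z; rfl
      | succ n ih =>
        intro z
        rw [pow_succ', Perm.mul_apply, hphi]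
        simp only [Bool.not_inj_iff]
        exact ih z
    rcases Int.eq_nat_or_neg k with ⟨n, rfl | rfl⟩
    · rw [zpow_natCast] at hk
      rw [← hk]
      exact (h1 n x).symm
    · have h2 := h1 n ((G.phi ^ (-(n:ℤ))) x)
      rw [← zpow_natCast _ n, ← Perm.mul_apply, ← zpow_add] at h2
      simp only [add_neg_cancel, zpow_zero, Perm.one_apply] at h2
      rw [h2, hk]
  have hsc : ∀ x y : Bool × Bool, (x.1 = x.2 ↔ y.1 = y.2) → G.phi.SameCycle x y := by
    intro x y hxy
    by_cases h : x = y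
    · rw [h]
    · refine ⟨1, ?_⟩
      rw [zpow_one, hphi]
      obtain ⟨x1, x2⟩ := x
      obtain ⟨y1, y2⟩ := y
      cases x1 <;> cases x2 <;> cases y1 <;> cases y2 <;> simp_all
  have hnf : G.nf = 2 := by
    unfold CMap.nf ncyc
    let F : Quotient (Perm.SameCycle.setoid G.phi) → Prop :=
      Quotient.lift (fun x : Bool × Bool => x.1 = x.2) (fun x y hxy => propext (hinv x y hxy))
    have hF : Function.Bijective F := by
      constructor
      · intro a b
        refine Quotient.inductionOn₂ a b fun x y hxy => Quotient.sound (hsc x y (iff_of_eq hxy))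
      · intro p
        by_cases hp : p
        · exact ⟨Quotient.mk _ ((true, true) : Bool × Bool), by
            change (true = true) = p
            simp [hp]⟩
        · exact ⟨Quotient.mk _ ((true, false) : Bool × Bool), by
            change (true = false) = p
            simp [hp]⟩
    rw [Nat.card_congr (Equiv.ofBijective F hF), Nat.card_eq_fintype_card, Fintype.card_prop]
  refine ⟨G, ((true, true) : Bool × Bool), ((false, true) : Bool × Bool), fun x => ?_, fun h => ?_, fun x => ?_, ?_,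
    rfl, rfl, fun P => ?_⟩
  · rw [hphi]
    obtain ⟨x1, x2⟩ := x
    intro h
    have h2 : (!x1) = x1 := congrArg Prod.fst h
    revert h2
    cases x1 <;> decide
  · have := hinv _ _ h
    simp at this
  · obtain ⟨x1, x2⟩ := x
    cases x1 <;> cases x2
    · exact Or.inl (hsc _ _ (by simp))
    · exact Or.inr (hsc _ _ (by simp))
    · exact Or.inr (hsc _ _ (by simp))
    · exact Or.inl (hsc _ _ (by simp))
  · rw [hnf]
    change (3:ℤ) * ((2:ℕ):ℤ) + -2 = (Fintype.card (Bool × Bool) : ℤ)
    simp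
  · change Nat.card {x : Bool × Bool // P x.1 (!x.1)} = _
    rw [card_sub, card_sub, Fintype.sum_prod_type, Fintype.sum_prod_type]
    simp only [Fintype.sum_bool]
    by_cases h1 : P true false <;> by_cases h2 : P false true <;> simp [h1, h2]

namespace N2Aux

theorem cnt_top {w b : Bool} (u v : Bool) :
    Nat.card {p : Bool × Bool // (⊤ : SimpleGraph Bool).Adj p.1 p.2 ∧ id p.1 = u ∧ id p.2 = v} =
      @ite ℕ (u = v ∨ Mis 0 w b u v) (Classical.propDecidable _) 0 1 := by
  rw [card_sub, Fintype.sum_prod_type]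
  simp only [Fintype.sum_bool, SimpleGraph.top_adj, Mis]
  cases u <;> cases v <;> simp

theorem mat_empty {V : Type} (ok : V → V → Prop) (S : Set V) (h : S = ∅) : Mat ok S := by
  rw [h]
  exact Mat.nil

end N2Aux

/-- `merge2`, slack `0 - 1 + 6` -/
theorem n2Z {V1 : Type} [Fintype V1] (B1 : PB V1 0) {m : ℕ} (hm : Fintype.card V1 = m)
    (h3 : 3 ≤ m) (g : ℤ) (hg : 12 * g = ((m : ℤ) - 3) * (m - 4) + 2 + 2 * 5) :
    Cel (K m 2 2) g := by
  obtain ⟨W2, ht2, hx2, had2, hsc2, hc2⟩ := exists_K2
  let c : Bool → V1 := fun b => if b then B1.a else B1.w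
  have hcf : c false = B1.w := rfl
  have hct : c true = B1.a := rfl
  obtain ⟨W1, ht1, hx1, had1, hns1, hex1, hc1⟩ := exists_wg B1.S (B1.hne (by rw [hm]; exact h3))
    B1.w (c true) 0 (by norm_num) (by norm_num)
  have hcinj : ∀ u v, c u = c v ↔ id u = id v := by
    intro u v
    have := B1.hwa
    cases u <;> cases v <;> simp [hcf, hct, this, this.symm]
  have hM : Mults W1.G W2.G id c m 2 := by
    refine mults_of (Γ1 := B1.Γ) (Γ2 := (⊤ : SimpleGraph Bool)) (r2 := id) (δ1 := 0) (δ2 := 0)
      (w1 := B1.w) (a1 := B1.a) (w2 := false) (a2 := true) (b2 := true)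
      (by norm_num) (by norm_num) (fun v => rfl) (fun v => rfl) (fun v => rfl) hcinj ?_ ?_ hcf
      (by norm_num) rfl (by norm_num) (by norm_num) (by norm_num) (by norm_num)
      (fun u v _ _ => B1.cnt u v) (fun u v _ _ => cnt_top u v) hc1 ?_
    · rw [← hm, ← Nat.card_eq_fintype_card]
      exact Nat.card_congr (Equiv.subtypeUnivEquiv fun v => rfl)
    · rw [Nat.card_congr (Equiv.subtypeUnivEquiv (p := fun v : Bool => id v = v) fun v => rfl)]
      simp
    · intro P
      rw [hc2 P]
      simp only [SimpleGraph.top_adj]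
      simp
  obtain ⟨x3, hx3, hx3'⟩ := hex1 (c true)
  obtain ⟨x4, _, hx4⟩ := had2 false true (by decide)
  refine merge2 W1 W2 hM (by omega) false true (by decide) hx1 hx2 x3 hx3 hx3' x4 hx4 ?_ g ?_
  · refine Or.inl ⟨fun v => rfl, mat_empty _ _ ?_⟩
    ext b
    cases b <;> simp
  · rw [ht1, ht2, hg]
    push_cast
    ring

/-- `merge2'`, slack `0 - 2 + 6` -/
theorem n2O {V1 : Type} [Fintype V1] (B1 : PB V1 1) {m : ℕ} (hm : Fintype.card V1 = m)
    (h3 : 3 ≤ m) (g : ℤ) (hg : 12 * g = ((m : ℤ) - 3) * (m - 4) + 2 + 2 * 4) :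
    Cel (K m 2 2) g := by
  obtain ⟨G2, x0, x4, nofix2, h04, hall, hnf2, hx0, hx4, hc2⟩ := exists_K22
  let c : Bool → V1 := fun b => if b then B1.a else B1.w
  have hcf : c false = B1.w := rfl
  have hct : c true = B1.a := rfl
  obtain ⟨W1, ht1, hx1, had1, hns1, hex1, hc1⟩ := exists_wg B1.S (B1.hne (by rw [hm]; exact h3))
    B1.w (c true) 0 (by norm_num) (by norm_num)
  have hcinj : ∀ u v, c u = c v ↔ id u = id v := by
    intro u v
    have := B1.hwa
    cases u <;> cases v <;> simp [hcf, hct, this, this.symm]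
  have hM : Mults W1.G G2 id c m 2 := by
    refine mults_of (Γ1 := B1.Γ) (Γ2 := (⊤ : SimpleGraph Bool)) (r2 := id) (δ1 := 1) (δ2 := 0)
      (w1 := B1.w) (a1 := B1.a) (w2 := false) (a2 := true) (b2 := true)
      (by norm_num) (by norm_num) (fun v => rfl) (fun v => rfl) (fun v => rfl) hcinj ?_ ?_ hcf
      (fun _ => hct) rfl (fun _ => rfl) (by norm_num) (fun _ => B1.hwa) (by norm_num)
      (fun u v _ _ => B1.cnt u v) (fun u v _ _ => cnt_top u v) hc1 ?_
    · rw [← hm, ← Nat.card_eq_fintype_card]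
      exact Nat.card_congr (Equiv.subtypeUnivEquiv fun v => rfl)
    · rw [Nat.card_congr (Equiv.subtypeUnivEquiv (p := fun v : Bool => id v = v) fun v => rfl)]
      simp
    · intro P
      rw [hc2 P, one_mul]
      simp only [SimpleGraph.top_adj]
  obtain ⟨x3, hx3, hx3'⟩ := hex1 (c true)
  refine merge2' W1 G2 hM (by omega) false true (by decide) x0 x4 (-2) nofix2 (hns1 rfl)
    (fun x _ => hall x) h04 hnf2 hx1 hx0 x3 hx3 hx3' hx4 ?_ g ?_
  · refine Or.inl ⟨fun v => rfl, mat_empty _ _ ?_⟩
    ext b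
    cases b <;> simp
  · rw [ht1, hg]
    push_cast
    ring

/-- `merge1` (single tube at `y`, slit gluing of `e q` ), slack `0 - 1 + 3` -/
theorem n2H {V1 : Type} [Fintype V1] (B1 : SB V1 0) {m : ℕ} (hm : Fintype.card V1 = m + 1)
    (g : ℤ) (hg : 12 * g = ((m : ℤ) - 3) * (m - 4) + 2 + 2 * 2) : Cel (K m 2 2) g := by
  obtain ⟨W2, ht2, hx2, had2, hsc2, hc2⟩ := exists_K2
  let c : Bool → V1 := fun b => if b then B1.q else B1.y
  have hcf : c false = B1.y := rfl
  have hct : c true = B1.q := rfl
  obtain ⟨W1, ht1, hx1, had1, hns1, hex1, hc1⟩ := exists_wg B1.S B1.hne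
    B1.y (c true) 0 (by norm_num) (by norm_num)
  have hcinj : ∀ u v, c u = c v ↔ id u = id v := by
    intro u v
    have := B1.hqy
    cases u <;> cases v <;> simp [hcf, hct, this, this.symm]
  have hre : B1.r B1.e = B1.y := by
    unfold SB.r
    rw [if_pos rfl]
  have hrn : ∀ u, u ≠ B1.e → B1.r u = u := by
    intro u hu
    unfold SB.r
    rw [if_neg hu]
  have hfix : ∀ u, B1.r u = u ↔ u ≠ B1.e := by
    intro u
    refine ⟨fun h he => ?_, hrn u⟩
    rw [he, hre] at h
    exact B1.hye h
  have hcnt : Nat.card {v // B1.r v = v} = m := by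
    rw [Nat.card_congr (Equiv.subtypeEquivRight hfix)]
    classical
    rw [Nat.card_eq_fintype_card, Fintype.card_subtype_compl, Fintype.card_subtype_eq, hm]
    rfl
  have hm2 : 2 ≤ m := by
    classical
    have h5 : ({B1.y, B1.e, B1.w} : Finset V1).card = 3 := by
      rw [Finset.card_eq_three]
      exact ⟨_, _, _, B1.hye, B1.hwy.symm, B1.hwe.symm, rfl⟩
    have h6 := Finset.card_le_univ ({B1.y, B1.e, B1.w} : Finset V1)
    omega
  have hM : Mults W1.G W2.G B1.r c m 2 := by
    refine mults_of (Γ1 := B1.Γ) (Γ2 := (⊤ : SimpleGraph Bool)) (r2 := id) (δ1 := 0) (δ2 := 0)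
      (w1 := B1.y) (a1 := B1.y) (w2 := false) (a2 := true) (b2 := true)
      (by norm_num) (by norm_num) (fun v => ?_) (fun v => rfl) (fun v => ?_) hcinj hcnt ?_ hcf
      (by norm_num) rfl (by norm_num) (by norm_num) (by norm_num) (by norm_num)
      (fun u v hu hv => ?_) (fun u v _ _ => cnt_top u v) hc1 ?_
    · by_cases hv : v = B1.e
      · rw [hv, hre, hrn _ B1.hye]
      · rw [hrn v hv, hrn v hv]
    · cases v
      · exact hrn _ B1.hye
      · exact hrn _ B1.hqe
    · rw [Nat.card_congr (Equiv.subtypeUnivEquiv (p := fun v : Bool => id v = v) fun v => rfl)]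
      simp
    · rw [B1.cnt u v ((hfix u).1 hu) ((hfix v).1 hv)]
      have h01 : ¬ ((0:ℕ) = 1) := by norm_num
      have hiff : (u = v ∨ Mis 0 B1.w B1.a u v) ↔ (u = v ∨ Mis 0 B1.y B1.y u v) := by
        unfold Mis
        tauto
      by_cases hQ : u = v ∨ Mis 0 B1.w B1.a u v
      · rw [if_pos hQ, if_pos (hiff.1 hQ)]
      · rw [if_neg hQ, if_neg (fun h => hQ (hiff.2 h))]
    · intro P
      rw [hc2 P]
      simp only [SimpleGraph.top_adj]
      simp
  refine merge1 W1 W2 hM hm2 false hx1 hx2 ?_ g ?_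
  · refine Or.inr ⟨B1.e, false, true, ?_, hrn, hre, by decide, by simp, B1.hqy,
      had1 _ _ B1.qe.symm, had2 _ _ (by decide), mat_empty _ _ ?_⟩
    · rw [hre]
      exact B1.hye
    · ext b
      cases b <;> simp
  · rw [ht1, ht2, hg]
    push_cast
    ring

end Pd97
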