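import Mathlib
import Pool.Agent.Lib.Pd97.N2

/-!
# MP_d97cc3_co : the case n = 2, split block with a missing cross edge
-/

namespace Pd97

namespace N2WAux

open Equiv Pool.Agent.Lib.CurG

/-- the map of a triangular embedding -/
noncomputable def triMap {V : Type} [Fintype V] {Γ : SimpleGraph V} (S : TriSys Γ)
    (hne : ∀ v, ∃ u, Γ.Adj v u) : CMap V where
  D := Γ.Dart
  finD := by
    classical
    exact Fintype.ofInjective (fun d : Γ.Dart => d.toProd) SimpleGraph.Dart.toProd_injective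
  src := fun d => d.fst
  rev := Function.Involutive.toPerm SimpleGraph.Dart.symm SimpleGraph.Dart.symm_involutive
  rot := S.rot
  rev_rev := fun d => d.symm_symm
  rev_ne := fun d => d.symm_ne
  src_surj := fun v => by
    obtain ⟨u, hu⟩ := hne v
    exact ⟨⟨(v, u), hu⟩, rfl⟩
  src_iff := S.toRotSys.rot_iff

section
variable {V : Type} [Fintype V] {Γ : SimpleGraph V} (S : TriSys Γ) (hne : ∀ v, ∃ u, Γ.Adj v u)

theorem phi_fst (d : Γ.Dart) : ((triMap S hne).phi d : Γ.Dart).fst = d.snd := rfl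

theorem phi_snd (d : Γ.Dart) : ((triMap S hne).phi d : Γ.Dart).snd = S.T d.fst d.snd := rfl

theorem phi_phi (d : Γ.Dart) : (triMap S hne).phi ((triMap S hne).phi d) ≠ d := by
  intro h
  have h1 : S.T d.snd (S.T d.fst d.snd) = d.snd := congrArg (fun x : Γ.Dart => x.snd) h
  rw [S.cyc _ _ d.adj] at h1
  exact d.adj.ne h1

theorem nf_eq : 3 * (triMap S hne).nf = Fintype.card (triMap S hne).D := by
  have h := S.faces_eq
  rw [← Nat.card_eq_fintype_card]
  exact h

theorem cnt_eq (P : V → V → Prop) : Nat.card {x : (triMap S hne).D //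
    P ((triMap S hne).src x) ((triMap S hne).src ((triMap S hne).rev x))} =
    Nat.card {p : V × V // Γ.Adj p.1 p.2 ∧ P p.1 p.2} := by
  refine Nat.card_congr ⟨fun x => ⟨(x.1 : Γ.Dart).toProd, (x.1 : Γ.Dart).adj, x.2⟩,
    fun p => ⟨(⟨p.1, p.2.1⟩ : Γ.Dart), p.2.2⟩, fun x => rfl, fun p => rfl⟩

end

/-- two disjoint edges -/
def twoMap : CMap (Bool × Bool) where
  D := Bool × Bool
  src := id
  rev := Equiv.prodCongr (Equiv.refl Bool) Equiv.boolNot
  rot := 1
  rev_rev := fun d => by rcases d with ⟨_ | _, _ | _⟩ <;> rfl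
  rev_ne := fun d => by rcases d with ⟨_ | _, _ | _⟩ <;> simp
  src_surj := Function.surjective_id
  src_iff := fun d e => by rw [Perm.sameCycle_one]; rfl

theorem twoMap_phi (a b : Bool) : twoMap.phi (a, b) = (a, !b) := rfl

theorem twoMap_rev (a b : Bool) : twoMap.rev (a, b) = (a, !b) := rfl

theorem twoMap_same {x y : twoMap.D} (h : twoMap.phi.SameCycle x y) :
    (x : Bool × Bool).1 = (y : Bool × Bool).1 := by
  refine rel_of_sameCycle (D := Bool × Bool) twoMap.phi (fun x y => x.1 = y.1) (fun _ => rfl)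
    (fun x y z h1 h2 => h1.trans h2) (fun x => rfl) h

theorem twoMap_nf : ncyc twoMap.phi = 2 := by
  unfold ncyc
  have h : Nat.card (Quotient (Equiv.Perm.SameCycle.setoid twoMap.phi)) = Nat.card Bool := by
    refine Nat.card_congr (Equiv.ofBijective (Quotient.lift (fun x : twoMap.D => (x : Bool × Bool).1)
      (fun x y h => twoMap_same h)) ?_)
    constructor
    · intro x y hxy
      induction x using Quotient.inductionOn with
      | h x =>
      induction y using Quotient.inductionOn with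
      | h y =>
      apply Quotient.sound
      change twoMap.phi.SameCycle x y
      obtain ⟨a, b⟩ := x
      obtain ⟨a', b'⟩ := y
      have h1 : a = a' := hxy
      subst h1
      by_cases hb : b = b'
      · subst hb
        exact Perm.SameCycle.refl _ _
      · refine ⟨1, ?_⟩
        rw [zpow_one]
        rcases b with _ | _ <;> rcases b' with _ | _
        · exact absurd rfl hb
        · rfl
        · rfl
        · exact absurd rfl hb
    · intro a
      exact ⟨Quotient.mk _ ((a, true) : Bool × Bool), rfl⟩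
  rw [h, Nat.card_eq_fintype_card, Fintype.card_bool]

/-- the names of the four ends -/
def cc {V : Type} (w q y : V) (p : Bool × Bool) : V := cond p.2 (cond p.1 y q) w

theorem two_cnt {V : Type} (w q y : V) (P : V → V → Prop) :
    Nat.card {x : twoMap.D // P (cc w q y (twoMap.src x)) (cc w q y (twoMap.src (twoMap.rev x)))} =
      @ite ℕ (P w q) (Classical.propDecidable _) 1 0 + @ite ℕ (P q w) (Classical.propDecidable _) 1 0 +
      (@ite ℕ (P w y) (Classical.propDecidable _) 1 0 +
        @ite ℕ (P y w) (Classical.propDecidable _) 1 0) := by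
  classical
  have h3 : ∀ {A : Type} [Fintype A] (Q : A → Prop),
      Nat.card {x : A // Q x} = ∑ x : A, if Q x then 1 else 0 := by
    intro A _ Q
    rw [Nat.card_eq_fintype_card, Fintype.card_subtype, Finset.card_filter]
  change Nat.card {x : Bool × Bool // P (cc w q y x) (cc w q y (x.1, !x.2))} = _
  rw [h3, Fintype.sum_prod_type, Fintype.sum_bool, Fintype.sum_bool, Fintype.sum_bool]
  simp only [cc, cond_true, cond_false, Bool.not_true, Bool.not_false]
  split_ifs <;> rfl

end N2WAux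

open N2WAux Equiv Pool.Agent.Lib.CurG in
/-- The missing edge `w q` (`w` adjacent to `y`, `q` adjacent to `e`) is added and the edge `w y` is
doubled. -/
theorem n2W {V1 : Type} [Fintype V1] (B1 : SB V1 1) (ha : B1.a = B1.q)
    (hw : B1.Γ.Adj B1.w B1.y) {m : ℕ} (hm : Fintype.card V1 = m + 1)
    (g : ℤ) (hg : 12 * g = ((m : ℤ) - 3) * (m - 4) + 2 + 2 * 1) : Cel (K m 2 2) g := by
  classical
  have hye := B1.hye
  have hwy := B1.hwy
  have hwe := B1.hwe
  have hqy := B1.hqy
  have hqe := B1.hqe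
  have hqw := B1.hqw
  set G1 : CMap V1 := triMap B1.S B1.hne with hG1
  set r : V1 → V1 := B1.r with hrdef
  set c : Bool × Bool → V1 := cc B1.w B1.q B1.y with hcdef
  have hre : r B1.e = B1.y := by
    rw [hrdef]
    unfold SB.r
    rw [if_pos rfl]
  have hrn : ∀ v, v ≠ B1.e → r v = v := by
    intro v hv
    rw [hrdef]
    unfold SB.r
    rw [if_neg hv]
  have hrne : ∀ v, r v ≠ B1.e := by
    intro v
    by_cases hv : v = B1.e
    · rw [hv, hre]; exact hye
    · rw [hrn v hv]; exact hv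
  have hrr : ∀ v, r (r v) = r v := fun v => hrn _ (hrne v)
  have hcne : ∀ p, c p ≠ B1.e := by
    rintro ⟨_ | _, _ | _⟩
    · exact hwe
    · exact hqe
    · exact hwe
    · exact hye
  have hrc : ∀ p, r (c p) = c p := fun p => hrn _ (hcne p)
  have hcen : ∀ v, cn r c (cn r c v) = cn r c v := by
    rintro (v | v)
    · exact congrArg Sum.inl (hrr v)
    · exact congrArg Sum.inl (hrc v)
  -- the start
  let g0 : B1.Γ.Dart := ⟨(B1.e, B1.q), B1.qe.symm⟩
  let p0 : B1.Γ.Dart := (G1.phi.symm g0 : G1.D)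
  have hp0 : G1.phi p0 = g0 := G1.phi.apply_symm_apply _
  have hp0e : p0.snd = B1.e := by
    have h1 : (G1.phi p0 : B1.Γ.Dart).fst = g0.fst := congrArg (fun x : B1.Γ.Dart => x.fst) hp0
    exact h1
  have hstart := good_start G1 twoMap r c
  have hL : leaves r c = insert (Sum.inr (true, false)) (insert (Sum.inr (true, true))
      {Sum.inl B1.e, Sum.inr (false, false), Sum.inr (false, true)}) := by
    ext v
    rcases v with v | ⟨_ | _, _ | _⟩
    · simp only [leaves, cn, Set.mem_ofPred_eq, Sum.elim_inl, Set.mem_insert_iff, Set.mem_singleton_iff,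
        reduceCtorEq, false_or, or_false, ne_eq, Sum.inl.injEq]
      constructor
      · intro h
        by_contra h2
        exact h (hrn v h2)
      · rintro rfl
        rw [hre]
        exact hye
    · simp [leaves, cn]
    · simp [leaves, cn]
    · simp [leaves, cn]
    · simp [leaves, cn]
  rw [hL] at hstart
  have hsub : ({Sum.inl B1.e, Sum.inr (false, false), Sum.inr (false, true)} :
      Set (V1 ⊕ Bool × Bool)) ⊆ leaves r c := by
    rw [hL]
    intro x hx
    exact Set.mem_insert_of_mem _ (Set.mem_insert_of_mem _ hx)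
  have hA := good_pair (G1 := G1) (G2 := twoMap) hrr hrc _ hsub (true, false) (true, true)
    (by simp) (by simp) (by exact hwy) ⟨(true, false), rfl, rfl⟩
    ⟨(⟨(B1.w, B1.y), hw⟩ : B1.Γ.Dart), rfl, rfl⟩ hstart
  set phi0 : Perm (G1.D ⊕ twoMap.D) := Perm.sumCongr G1.phi twoMap.phi with hphi0
  let P : G1.D ⊕ twoMap.D := Sum.inl p0
  let Q : G1.D ⊕ twoMap.D := Sum.inl g0
  let F0 : G1.D ⊕ twoMap.D := Sum.inr ((true, false) : Bool × Bool)
  let F1 : G1.D ⊕ twoMap.D := Sum.inr ((true, true) : Bool × Bool)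
  let E0 : G1.D ⊕ twoMap.D := Sum.inr ((false, false) : Bool × Bool)
  let E1 : G1.D ⊕ twoMap.D := Sum.inr ((false, true) : Bool × Bool)
  have hfR : ∀ (R : Set (V1 ⊕ Bool × Bool)) v, v ∉ R → fR (cn r c) R v = cn r c v := by
    intro R v hv
    unfold fR
    rw [if_neg hv]
  have hfR' : ∀ (R : Set (V1 ⊕ Bool × Bool)) v, v ∈ R → fR (cn r c) R v = v := by
    intro R v hv
    unfold fR
    rw [if_pos hv]
  have hB := Good.single_leaf (cn r c) hcen {Sum.inr (false, false), Sum.inr (false, true)}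
    (by rintro v (rfl | rfl) <;> exact Sum.inl_ne_inr) (Sum.inl B1.e) (by simp)
    (by
      change (Sum.inl (r B1.e) : V1 ⊕ Bool × Bool) ≠ Sum.inl B1.e
      rw [hre]
      simpa using hye) hA P F0
    (by
      change fR (cn r c) _ (Sum.inl p0.snd) = _
      rw [hp0e]
      exact hfR' _ _ (Set.mem_insert _ _))
    (by
      change fR (cn r c) _ (Sum.inr (true, true)) = _
      rw [hfR _ _ (by simp)]
      change (Sum.inl B1.y : V1 ⊕ Bool × Bool) = Sum.inl (r B1.e)
      rw [hre])
  set phi1 : Perm (G1.D ⊕ twoMap.D) := phi0 * swap P F0 with hphi1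
  have hC := Good.single_leaf (cn r c) hcen {Sum.inr (false, true)}
    (by rintro v rfl; exact Sum.inl_ne_inr) (Sum.inr (false, false)) (by simp)
    (by exact Sum.inl_ne_inr) hB E1 F1
    (by
      change fR (cn r c) _ (Sum.inr (false, false)) = _
      exact hfR' _ _ (Set.mem_insert _ _))
    (by
      change fR (cn r c) _ (Sum.inr (true, false)) = _
      rw [hfR _ _ (by simp)]
      rfl)
  set phi2 : Perm (G1.D ⊕ twoMap.D) := phi1 * swap E1 F1 with hphi2
  rw [← LawfulSingleton.insert_empty_eq (Sum.inr (false, true) : V1 ⊕ Bool × Bool)] at hC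
  have hD := Good.single_leaf (cn r c) hcen ∅ (by simp) (Sum.inr (false, true)) (by simp)
    (by exact Sum.inl_ne_inr) hC E0 Q
    (by
      change fR (cn r c) _ (Sum.inr (false, true)) = _
      exact hfR' _ _ (Set.mem_insert _ _))
    (by
      change fR (cn r c) _ (Sum.inl B1.q) = _
      rw [hfR _ _ (by simp)]
      change (Sum.inl (r B1.q) : V1 ⊕ Bool × Bool) = Sum.inl B1.q
      rw [hrn _ hqe])
  set phi3 : Perm (G1.D ⊕ twoMap.D) := phi2 * swap E0 Q with hphi3
  -- the values of the permutations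
  have hpg : p0 ≠ g0 := by
    intro h
    have h1 : p0.snd = g0.snd := by rw [h]
    rw [hp0e] at h1
    exact hqe h1.symm
  have hPQ : P ≠ Q := fun h => hpg (Sum.inl_injective h)
  have n1 : ∀ (d : G1.D) (x : twoMap.D), (Sum.inl d : G1.D ⊕ twoMap.D) ≠ Sum.inr x :=
    fun d x => Sum.inl_ne_inr
  have n2 : ∀ (x y : Bool × Bool), x ≠ y → (Sum.inr (x : twoMap.D) : G1.D ⊕ twoMap.D) ≠
    Sum.inr (y : twoMap.D) := fun x y h h' => h (Sum.inr_injective h')
  have hE1F1 : E1 ≠ F1 := n2 _ _ (by simp)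
  have hE0E1 : E0 ≠ E1 := n2 _ _ (by simp)
  have hE0F0 : E0 ≠ F0 := n2 _ _ (by simp)
  have hE0F1 : E0 ≠ F1 := n2 _ _ (by simp)
  have hE1F0 : E1 ≠ F0 := n2 _ _ (by simp)
  have hF0F1 : F0 ≠ F1 := n2 _ _ (by simp)
  have hPE0 : P ≠ E0 := n1 _ _
  have hPE1 : P ≠ E1 := n1 _ _
  have hPF0 : P ≠ F0 := n1 _ _
  have hPF1 : P ≠ F1 := n1 _ _
  have hQE0 : Q ≠ E0 := n1 _ _
  have hQE1 : Q ≠ E1 := n1 _ _
  have hQF0 : Q ≠ F0 := n1 _ _
  have hQF1 : Q ≠ F1 := n1 _ _
  have v0P : phi0 P = Q := congrArg Sum.inl hp0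
  have v0E0 : phi0 E0 = E1 := rfl
  have v0E1 : phi0 E1 = E0 := rfl
  have v0F0 : phi0 F0 = F1 := rfl
  have v0F1 : phi0 F1 = F0 := rfl
  have hval : ∀ x, phi3 x = if x = P then F1 else if x = F0 then Q else if x = E1 then F0
      else if x = F1 then E0 else if x = E0 then phi0 Q else if x = Q then E1 else phi0 x := by
    intro x
    rw [hphi3, hphi2, hphi1]
    simp only [Perm.mul_apply]
    by_cases x1 : x = P
    · subst x1
      rw [if_pos rfl, swap_apply_of_ne_of_ne hPE0 hPQ, swap_apply_of_ne_of_ne hPE1 hPF1,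
        swap_apply_left, v0F0]
    rw [if_neg x1]
    by_cases x2 : x = F0
    · subst x2
      rw [if_pos rfl, swap_apply_of_ne_of_ne hE0F0.symm hQF0.symm,
        swap_apply_of_ne_of_ne hE1F0.symm hF0F1, swap_apply_right, v0P]
    rw [if_neg x2]
    by_cases x3 : x = E1
    · subst x3
      rw [if_pos rfl, swap_apply_of_ne_of_ne hE0E1.symm hQE1.symm, swap_apply_left,
        swap_apply_of_ne_of_ne hPF1.symm hF0F1.symm, v0F1]
    rw [if_neg x3]
    by_cases x4 : x = F1
    · subst x4
      rw [if_pos rfl, swap_apply_of_ne_of_ne hE0F1.symm hQF1.symm, swap_apply_right,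
        swap_apply_of_ne_of_ne hPE1.symm hE1F0, v0E1]
    rw [if_neg x4]
    by_cases x5 : x = E0
    · subst x5
      rw [if_pos rfl, swap_apply_left, swap_apply_of_ne_of_ne hQE1 hQF1,
        swap_apply_of_ne_of_ne hPQ.symm hQF0]
    rw [if_neg x5]
    by_cases x6 : x = Q
    · subst x6
      rw [if_pos rfl, swap_apply_right, swap_apply_of_ne_of_ne hE0E1 hE0F1,
        swap_apply_of_ne_of_ne hPE0.symm hE0F0, v0E0]
    rw [if_neg x6, swap_apply_of_ne_of_ne x5 x6, swap_apply_of_ne_of_ne x3 x4,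
      swap_apply_of_ne_of_ne x1 x2]
  have hlF0 : ∀ d : G1.D, phi0 (Sum.inl d) ≠ F0 := fun d => n1 _ _
  have hlF1 : ∀ d : G1.D, phi0 (Sum.inl d) ≠ F1 := fun d => n1 _ _
  have hlE0 : ∀ d : G1.D, phi0 (Sum.inl d) ≠ E0 := fun d => n1 _ _
  have hlE1 : ∀ d : G1.D, phi0 (Sum.inl d) ≠ E1 := fun d => n1 _ _
  have hns : ∀ x, phi3 (phi3 x) ≠ x := by
    intro x
    have wP : phi3 P = F1 := by rw [hval, if_pos rfl]
    have wF0 : phi3 F0 = Q := by rw [hval, if_neg hPF0.symm, if_pos rfl]
    have wE1 : phi3 E1 = F0 := by rw [hval, if_neg hPE1.symm, if_neg hE1F0, if_pos rfl]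
    have wF1 : phi3 F1 = E0 := by
      rw [hval, if_neg hPF1.symm, if_neg hF0F1.symm, if_neg hE1F1.symm, if_pos rfl]
    have wE0 : phi3 E0 = phi0 Q := by
      rw [hval, if_neg hPE0.symm, if_neg hE0F0, if_neg hE0E1, if_neg hE0F1, if_pos rfl]
    have wQ : phi3 Q = E1 := by
      rw [hval, if_neg hPQ.symm, if_neg hQF0, if_neg hQE1, if_neg hQF1, if_neg hQE0, if_pos rfl]
    by_cases x1 : x = P
    · rw [x1, wP, wF1]; exact hPE0.symm
    by_cases x2 : x = F0
    · rw [x2, wF0, wQ]; exact hE1F0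
    by_cases x3 : x = E1
    · rw [x3, wE1, wF0]; exact hQE1
    by_cases x4 : x = F1
    · rw [x4, wF1, wE0]; exact n1 _ _
    by_cases x5 : x = E0
    · rw [x5, wE0]
      by_cases y1 : phi0 Q = P
      · rw [y1, wP]; exact hE0F1.symm
      by_cases y2 : phi0 Q = Q
      · rw [y2, wQ]; exact hE0E1.symm
      rw [hval, if_neg y1, if_neg (hlF0 g0), if_neg (hlE1 g0), if_neg (hlF1 g0), if_neg (hlE0 g0),
        if_neg y2]
      exact n1 _ _
    by_cases x6 : x = Q
    · rw [x6, wQ, wE1]; exact hQF0.symm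
    have wx : phi3 x = phi0 x := by
      rw [hval, if_neg x1, if_neg x2, if_neg x3, if_neg x4, if_neg x5, if_neg x6]
    rcases x with d | ⟨_ | _, _ | _⟩
    · rw [wx]
      by_cases y1 : phi0 (Sum.inl d) = P
      · rw [y1, wP]; exact (n1 _ _).symm
      by_cases y2 : phi0 (Sum.inl d) = Q
      · rw [y2, wQ]; exact (n1 _ _).symm
      rw [hval, if_neg y1, if_neg (hlF0 d), if_neg (hlE1 d), if_neg (hlF1 d), if_neg (hlE0 d),
        if_neg y2]
      intro h
      exact phi_phi B1.S B1.hne d (Sum.inl_injective h)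
    · exact absurd rfl x5
    · exact absurd rfl x3
    · exact absurd rfl x2
    · exact absurd rfl x4
  -- the number of faces
  have hF : 3 * (ncyc phi3 : ℤ) + 1 = Fintype.card (G1.D ⊕ twoMap.D) := by
    have s0 : ¬ phi0.SameCycle P F0 := not_sameCycle_sumCongr _ _ _ _
    have c1 := ncyc_mul_swap phi0 P F0 s0
    rw [← hphi1] at c1
    have s1 : ¬ phi1.SameCycle E1 F1 := by
      rw [hphi1, sameCycle_mul_swap phi0 P F0 s0]
      rintro (h | ⟨h, _⟩ | ⟨h, _⟩)
      · have := twoMap_same ((sameCycle_sumCongr_inr _ _ _ _).1 h)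
        simp at this
      · exact not_sameCycle_sumCongr' _ _ _ _ h
      · have := twoMap_same ((sameCycle_sumCongr_inr _ _ _ _).1 h)
        simp at this
    have c2 := ncyc_mul_swap phi1 E1 F1 s1
    rw [← hphi2] at c2
    have s2 : phi2.SameCycle E0 Q := by
      refine ⟨3, ?_⟩
      have e1 : phi2 E0 = E1 := by
        rw [hphi2, hphi1]
        simp only [Perm.mul_apply]
        rw [swap_apply_of_ne_of_ne hE0E1 hE0F1, swap_apply_of_ne_of_ne hPE0.symm hE0F0, v0E0]
      have e2 : phi2 E1 = F0 := by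
        rw [hphi2, hphi1]
        simp only [Perm.mul_apply]
        rw [swap_apply_left, swap_apply_of_ne_of_ne hPF1.symm hF0F1.symm, v0F1]
      have e3 : phi2 F0 = Q := by
        rw [hphi2, hphi1]
        simp only [Perm.mul_apply]
        rw [swap_apply_of_ne_of_ne hE1F0.symm hF0F1, swap_apply_right, v0P]
      have e4 : (phi2 ^ (3 : ℤ)) E0 = phi2 (phi2 (phi2 E0)) := by
        rw [show (3 : ℤ) = 1 + 1 + 1 by norm_num, zpow_add, zpow_add]
        simp
      rw [e4, e1, e2, e3]
    have c3 := ncyc_mul_swap' phi2 E0 Q hQE0.symm s2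
    rw [← hphi3] at c3
    have c0 : ncyc phi0 = ncyc G1.phi + ncyc twoMap.phi := ncyc_sumCongr _ _
    rw [twoMap_nf] at c0
    have hnf : 3 * ncyc G1.phi = Fintype.card G1.D := nf_eq B1.S B1.hne
    have hcard : Fintype.card (G1.D ⊕ twoMap.D) = Fintype.card G1.D + 4 := by
      rw [Fintype.card_sum]
      rfl
    rw [hcard]
    push_cast
    omega
  -- the names
  let nm : V1 ⊕ Bool × Bool → {v : V1 // v ≠ B1.e} := fun v => ⟨Sum.elim r c v, by
    rcases v with v | v
    · exact hrne v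
    · exact hcne v⟩
  have hcn : ∀ v, cn r c v = Sum.inl (nm v).1 := by
    rintro (v | v) <;> rfl
  have hE : Good (tl G1 twoMap) (hd G1 twoMap) phi3 nm := by
    refine hD.congr nm fun u v => ?_
    rw [hfR _ u (Set.notMem_empty _), hfR _ v (Set.notMem_empty _), hcn, hcn, Sum.inl.injEq]
    exact Subtype.ext_iff
  have hcardL : Fintype.card {v : V1 // v ≠ B1.e} = m := by
    rw [Fintype.card_subtype_compl, Fintype.card_subtype_eq, hm]
    rfl
  have hN : Nat.card {l : {v : V1 // v ≠ B1.e} // l.1 = B1.w ∨ l.1 = B1.y} = 2 := by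
    have h1 : Nat.card {l : {v : V1 // v ≠ B1.e} // l.1 = B1.w ∨ l.1 = B1.y} = Nat.card Bool := by
      refine Nat.card_congr (Equiv.symm (Equiv.ofBijective
        (fun b : Bool => ⟨⟨cond b B1.w B1.y, by cases b; exacts [hye, hwe]⟩, by
          cases b; exacts [Or.inr rfl, Or.inl rfl]⟩) ⟨?_, ?_⟩))
      · intro a b hab
        have h2 : cond a B1.w B1.y = cond b B1.w B1.y := congrArg (fun z => z.1.1) hab
        cases a <;> cases b
        · rfl
        · exact absurd h2.symm hwy
        · exact absurd h2 hwy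
        · rfl
      · rintro ⟨⟨l, hl1⟩, hl2⟩
        rcases hl2 with hl2 | hl2
        · exact ⟨true, Subtype.ext (Subtype.ext hl2.symm)⟩
        · exact ⟨false, Subtype.ext (Subtype.ext hl2.symm)⟩
    rw [h1, Nat.card_eq_fintype_card, Fintype.card_bool]
  have hm2 : 2 ≤ m := by
    rw [← hN, ← hcardL, Nat.card_eq_fintype_card]
    exact Fintype.card_subtype_le _
  have hsplit : ∀ u v : {v : V1 // v ≠ B1.e},
      Nat.card {x : G1.D ⊕ twoMap.D // nm (tl G1 twoMap x) = u ∧ nm (hd G1 twoMap x) = v} =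
      Nat.card {p : V1 × V1 // B1.Γ.Adj p.1 p.2 ∧ B1.r p.1 = u.1 ∧ B1.r p.2 = v.1} +
      (@ite ℕ (B1.w = u.1 ∧ B1.q = v.1) (Classical.propDecidable _) 1 0 +
        @ite ℕ (B1.q = u.1 ∧ B1.w = v.1) (Classical.propDecidable _) 1 0 +
      (@ite ℕ (B1.w = u.1 ∧ B1.y = v.1) (Classical.propDecidable _) 1 0 +
        @ite ℕ (B1.y = u.1 ∧ B1.w = v.1) (Classical.propDecidable _) 1 0)) := by
    intro u v
    have h3 : ∀ {A : Type} [Fintype A] (Q : A → Prop),
        Nat.card {x : A // Q x} = ∑ x : A, if Q x then 1 else 0 := by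
      intro A _ Q
      rw [Nat.card_eq_fintype_card, Fintype.card_subtype, Finset.card_filter]
    rw [← two_cnt B1.w B1.q B1.y (fun a b => a = u.1 ∧ b = v.1),
      ← cnt_eq B1.S B1.hne (fun a b => B1.r a = u.1 ∧ B1.r b = v.1), h3, h3, h3,
      Fintype.sum_sum_type]
    congr 1
    · refine Finset.sum_congr rfl fun x _ => ?_
      congr 1
      exact propext (and_congr Subtype.ext_iff Subtype.ext_iff)
    · refine Finset.sum_congr rfl fun x _ => ?_
      congr 1
      exact propext (and_congr Subtype.ext_iff Subtype.ext_iff)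
  refine cel_K_of_good (fun l : {v : V1 // v ≠ B1.e} => l.1 = B1.w ∨ l.1 = B1.y) m 2 hcardL hN hm2
    hE hns ?_ ?_ 1 g hF (by push_cast; linarith)
  · rintro ⟨u, hu⟩ ⟨v, hv⟩ huv
    have huv' : u ≠ v := fun h => huv (Subtype.ext h)
    rw [hsplit, SB.cnt B1 u v hu hv]
    simp only [Mis, ha]
    split_ifs <;> grind
  · rintro ⟨u, hu⟩
    rw [hsplit, SB.cnt B1 u u hu hu]
    simp only [Mis, ha]
    split_ifs <;> grind

end Pd97
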