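import Mathlib
import Pool.Agent.Lib.Pd97.FinMap
import Pool.Agent.Lib.Pd97.RowAux

/-!
# MP_d97cc3_co : explicit embeddings of K_8 + K_2, K_6 + K_n and K_10 + K_n
-/

namespace Pd97

def R_6_2 : List (List ℕ) :=
  [[0, 10, 2, 8, 4, 6], [1, 14, 3, 12, 16, 18], [5, 22, 13, 24, 20], [7, 21, 28, 26, 15],
  [9, 27, 30, 17, 23], [11, 19, 31, 29, 25]]

def F_6_2 : List (List ℕ) :=
  [[0, 14, 7], [1, 10, 19], [2, 12, 24, 11], [3, 8, 27, 15], [4, 22, 9], [5, 6, 21], [13, 16, 23],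
  [17, 18, 31], [20, 28, 25], [26, 30, 29]]

theorem cel_6_2 : Cel (K 6 2 2) 1 :=
  cel_of_rows (R := R_6_2) (F := F_6_2) 16 rfl (by decide +kernel) (by decide +kernel) (by decide)

def R_6_3 : List (List ℕ) :=
  [[0, 12, 10, 4, 2, 8, 6], [1, 14, 20, 18, 3, 16, 22], [5, 26, 15, 7, 24, 28, 17],
  [9, 19, 30, 32, 25], [11, 34, 31, 21, 27], [13, 23, 29, 33, 35]]

def F_6_3 : List (List ℕ) :=
  [[0, 14, 7], [1, 12, 23], [2, 16, 5], [3, 8, 19], [4, 26, 11], [6, 24, 9], [10, 34, 13],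
  [15, 20, 27], [17, 22, 29], [18, 30, 21], [25, 28, 33], [31, 32, 35]]

theorem cel_6_3 : Cel (K 6 3 2) 1 :=
  cel_of_rows (R := R_6_3) (F := F_6_3) 18 rfl (by decide +kernel) (by decide +kernel) (by decide)

def R_6_4 : List (List ℕ) :=
  [[0, 10, 12, 6, 2, 8, 14, 4], [1, 16, 22, 26, 24, 20, 3, 18], [19, 7, 32, 28, 17, 5, 34, 30],
  [9, 21, 11, 31, 23, 29, 36, 38], [13, 25, 40, 37, 33], [15, 39, 41, 27, 35]]

def F_6_4 : List (List ℕ) :=
  [[0, 16, 5], [1, 10, 31, 19], [2, 18, 7], [3, 8, 21], [4, 34, 15], [6, 32, 13], [9, 14, 39],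
  [11, 12, 25, 20], [17, 22, 29], [23, 26, 35, 30], [24, 40, 27], [28, 36, 33], [37, 38, 41]]

theorem cel_6_4 : Cel (K 6 4 2) 2 :=
  cel_of_rows (R := R_6_4) (F := F_6_4) 21 rfl (by decide +kernel) (by decide +kernel) (by decide)

def R_6_5 : List (List ℕ) :=
  [[0, 8, 16, 6, 2, 14, 4, 10, 12], [1, 28, 30, 22, 18, 24, 26, 3, 20],
  [5, 38, 19, 36, 32, 21, 7, 40, 34], [9, 33, 25, 44, 11, 35, 42, 23, 46],
  [13, 45, 39, 15, 27, 37, 43, 48, 29], [17, 47, 31, 49, 41]]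

def F_6_5 : List (List ℕ) :=
  [[0, 28, 13], [1, 8, 33, 21], [2, 20, 7], [3, 14, 27], [4, 38, 15], [5, 10, 35], [6, 40, 17],
  [9, 16, 47], [11, 12, 45], [18, 36, 43, 23], [19, 24, 44, 39], [22, 46, 31], [25, 26, 37, 32],
  [29, 30, 49], [34, 42, 48, 41]]

theorem cel_6_5 : Cel (K 6 5 2) 3 :=
  cel_of_rows (R := R_6_5) (F := F_6_5) 25 rfl (by decide +kernel) (by decide +kernel) (by decide)

def R_6_6 : List (List ℕ) :=
  [[0, 8, 12, 16, 10, 2, 4, 18, 6, 14], [1, 28, 34, 30, 22, 3, 24, 20, 32, 26],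
  [5, 23, 42, 7, 44, 21, 36, 40, 38, 46], [9, 27, 54, 48, 37, 25, 11, 52, 39, 50],
  [13, 51, 41, 49, 58, 29, 15, 43, 31, 56], [17, 57, 35, 59, 55, 33, 45, 19, 47, 53]]

def F_6_6 : List (List ℕ) :=
  [[0, 28, 15], [1, 8, 27], [2, 24, 11], [3, 4, 23], [5, 18, 47], [6, 44, 19], [7, 14, 43],
  [9, 12, 51], [10, 52, 17], [13, 16, 57], [20, 36, 25], [21, 32, 45], [22, 42, 31], [26, 54, 33],
  [29, 34, 59], [30, 56, 35], [37, 40, 49], [38, 50, 41], [39, 46, 53], [48, 58, 55]]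

theorem cel_6_6 : Cel (K 6 6 2) 3 :=
  cel_of_rows (R := R_6_6) (F := F_6_6) 30 rfl (by decide +kernel) (by decide +kernel) (by decide)

def R_8_2 : List (List ℕ) :=
  [[0, 8, 14, 12, 10, 2, 4, 6], [1, 18, 24, 26, 16, 3, 22, 20], [5, 17, 36, 32, 34, 30, 28],
  [7, 29, 38, 40, 44, 42, 19], [9, 21, 46, 39, 31, 48, 50], [11, 52, 33, 54, 41, 47, 23],
  [13, 25, 43, 56, 49, 35, 53], [15, 51, 57, 45, 55, 37, 27]]

def F_8_2 : List (List ℕ) :=
  [[0, 18, 7], [1, 8, 21], [2, 22, 11], [3, 4, 17], [5, 6, 29], [9, 14, 51], [10, 52, 13],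
  [12, 25, 26, 15], [16, 36, 27], [19, 24, 43], [20, 46, 23], [28, 38, 31], [30, 48, 35],
  [32, 54, 37], [33, 34, 53], [39, 40, 47], [41, 44, 55], [42, 56, 45], [49, 50, 57]]

theorem cel_8_2 : Cel (K 8 2 2) 2 :=
  cel_of_rows (R := R_8_2) (F := F_8_2) 29 rfl (by decide +kernel) (by decide +kernel) (by decide)

def R_10_2 : List (List ℕ) :=
  [[0, 12, 14, 10, 18, 2, 4, 16, 6, 8], [1, 24, 26, 32, 30, 22, 20, 3, 34, 28],
  [5, 21, 36, 42, 40, 44, 48, 38, 46], [7, 58, 52, 60, 54, 37, 23, 56, 50],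
  [9, 51, 66, 64, 68, 39, 70, 62, 25], [11, 74, 41, 72, 78, 53, 76, 27, 63],
  [13, 29, 73, 43, 55, 84, 82, 65, 80], [15, 81, 67, 57, 31, 86, 88, 45, 75],
  [17, 47, 69, 83, 90, 87, 33, 77, 59], [19, 71, 49, 89, 91, 85, 61, 79, 35]]

def F_10_2 : List (List ℕ) :=
  [[0, 24, 9], [1, 12, 29], [2, 34, 19], [3, 4, 21], [5, 16, 47], [6, 58, 17], [7, 8, 51],
  [10, 74, 15], [11, 18, 71, 62], [13, 14, 81], [20, 36, 23], [22, 56, 31], [25, 26, 63],
  [27, 32, 77], [28, 73, 78, 35], [30, 86, 33], [37, 42, 55], [38, 70, 49], [39, 46, 69],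
  [40, 72, 43], [41, 44, 75], [45, 48, 89], [50, 66, 57], [52, 76, 59], [53, 60, 79], [54, 84, 61],
  [64, 80, 67], [65, 68, 83], [82, 90, 85], [87, 88, 91]]

theorem cel_10_2 : Cel (K 10 2 2) 4 :=
  cel_of_rows (R := R_10_2) (F := F_10_2) 46 rfl (by decide +kernel) (by decide +kernel) (by decide)

def R_10_3 : List (List ℕ) :=
  [[0, 6, 10, 16, 12, 2, 8, 18, 14, 4, 20], [1, 38, 36, 28, 26, 3, 30, 24, 32, 34, 22],
  [5, 46, 25, 44, 42, 7, 23, 48, 50, 40, 52], [9, 27, 54, 58, 56, 60, 64, 41, 62],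
  [11, 43, 66, 74, 68, 55, 29, 72, 70], [13, 78, 57, 76, 80, 82, 67, 45, 31],
  [15, 86, 77, 59, 69, 88, 84, 33, 47], [17, 71, 90, 49, 35, 85, 92, 61, 79],
  [19, 63, 51, 91, 73, 37, 94, 81, 87], [21, 53, 65, 93, 89, 75, 83, 95, 39]]

def F_10_3 : List (List ℕ) :=
  [[0, 38, 21], [1, 6, 23], [2, 30, 13], [3, 8, 27], [4, 46, 15], [5, 20, 53], [7, 10, 43],
  [9, 18, 63], [11, 16, 71], [12, 78, 17], [14, 86, 19], [22, 48, 35], [24, 44, 31], [25, 32, 47],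
  [26, 54, 29], [28, 72, 37], [33, 34, 85], [36, 94, 39], [40, 62, 51], [41, 52, 65], [42, 66, 45],
  [49, 50, 91], [55, 58, 69], [56, 76, 59], [57, 60, 79], [61, 64, 93], [67, 74, 83], [68, 88, 75],
  [70, 90, 73], [77, 80, 87], [81, 82, 95], [84, 92, 89]]

theorem cel_10_3 : Cel (K 10 3 2) 4 :=
  cel_of_rows (R := R_10_3) (F := F_10_3) 48 rfl (by decide +kernel) (by decide +kernel) (by decide)

def R_10_4 : List (List ℕ) :=
  [[0, 22, 10, 14, 18, 20, 8, 2, 6, 16, 12, 4], [1, 26, 3, 30, 38, 40, 42, 36, 28, 24, 34, 32],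
  [5, 48, 44, 58, 50, 25, 46, 56, 54, 52, 7, 27], [9, 68, 47, 29, 64, 62, 11, 70, 45, 60, 66, 31],
  [13, 74, 80, 33, 72, 78, 76, 61, 49], [15, 63, 82, 86, 73, 35, 51, 88, 84],
  [17, 53, 90, 92, 83, 65, 37, 94, 75], [19, 85, 98, 91, 55, 39, 67, 77, 96],
  [21, 97, 79, 87, 93, 100, 41, 57, 69], [23, 81, 95, 43, 101, 99, 89, 59, 71]]

def F_10_4 : List (List ℕ) :=
  [[0, 26, 5], [1, 22, 81, 33], [2, 30, 9], [3, 6, 27], [4, 48, 13], [7, 16, 53], [8, 68, 21],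
  [10, 70, 23], [11, 14, 63], [12, 74, 17], [15, 18, 85], [19, 20, 97], [24, 46, 29], [25, 34, 51],
  [28, 64, 37], [31, 38, 67], [32, 72, 35], [36, 94, 43], [39, 40, 57, 54], [41, 42, 101],
  [44, 60, 49], [45, 58, 71], [47, 56, 69], [50, 88, 59], [52, 90, 55], [61, 66, 77], [62, 82, 65],
  [73, 78, 87], [75, 80, 95], [76, 96, 79], [83, 86, 93], [84, 98, 89], [91, 92, 100, 99]]

theorem cel_10_4 : Cel (K 10 4 2) 5 :=
  cel_of_rows (R := R_10_4) (F := F_10_4) 51 rfl (by decide +kernel) (by decide +kernel) (by decide)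

def R_10_5 : List (List ℕ) :=
  [[0, 16, 8, 6, 14, 20, 22, 12, 2, 24, 4, 18, 10],
  [1, 30, 44, 26, 32, 36, 40, 46, 3, 34, 28, 42, 38],
  [5, 64, 60, 29, 54, 7, 48, 27, 62, 56, 50, 52, 58],
  [9, 68, 51, 70, 74, 76, 31, 11, 72, 78, 66, 33, 49],
  [13, 86, 37, 67, 88, 82, 53, 69, 80, 84, 15, 55, 35], [17, 39, 71, 57, 94, 96, 90, 92, 81],
  [19, 59, 83, 41, 100, 98, 91, 102, 73], [21, 85, 93, 99, 75, 43, 61, 106, 104],
  [23, 105, 108, 95, 63, 45, 77, 101, 87], [25, 47, 89, 79, 103, 97, 109, 107, 65]]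

def F_10_5 : List (List ℕ) :=
  [[0, 30, 11], [1, 16, 39], [2, 34, 13], [3, 24, 47], [4, 64, 25], [5, 18, 59], [6, 48, 9],
  [7, 14, 55], [8, 68, 80, 17], [10, 72, 19], [12, 86, 23], [15, 20, 85], [21, 22, 105],
  [26, 62, 45], [27, 32, 49], [28, 54, 35], [29, 42, 61], [31, 44, 77], [33, 36, 67],
  [37, 40, 100, 87], [38, 71, 74, 43], [41, 46, 89, 82], [50, 70, 57], [51, 52, 69], [53, 58, 83],
  [56, 94, 63], [60, 106, 65], [66, 88, 79], [73, 78, 103], [75, 76, 101, 98], [81, 84, 93],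
  [90, 102, 97], [91, 92, 99], [95, 96, 109], [104, 108, 107]]

theorem cel_10_5 : Cel (K 10 5 2) 6 :=
  cel_of_rows (R := R_10_5) (F := F_10_5) 55 rfl (by decide +kernel) (by decide +kernel) (by decide)

def R_10_6 : List (List ℕ) :=
  [[0, 6, 26, 8, 14, 24, 22, 18, 20, 4, 16, 2, 10, 12],
  [1, 38, 40, 32, 3, 42, 36, 30, 46, 44, 50, 48, 34, 28],
  [5, 64, 68, 60, 56, 52, 66, 31, 58, 70, 7, 29, 54, 62],
  [9, 86, 76, 55, 35, 84, 80, 72, 11, 33, 78, 82, 53, 74],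
  [13, 73, 92, 94, 98, 59, 37, 88, 96, 15, 75, 57, 90, 39],
  [17, 63, 77, 106, 100, 19, 102, 79, 41, 91, 61, 104, 89, 43],
  [21, 101, 112, 45, 108, 93, 81, 110, 65], [23, 114, 116, 95, 109, 47, 67, 83, 103],
  [25, 97, 105, 69, 111, 85, 49, 118, 115], [27, 71, 99, 117, 119, 51, 113, 107, 87]]

def F_10_6 : List (List ℕ) :=
  [[0, 38, 13], [1, 6, 29], [2, 42, 17], [3, 10, 33], [4, 64, 21], [5, 16, 63], [7, 26, 71],
  [8, 86, 27], [9, 14, 75], [11, 12, 73], [15, 24, 97], [18, 102, 23], [19, 20, 101],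
  [22, 114, 25], [28, 54, 35], [30, 58, 37], [31, 46, 67], [32, 78, 41], [34, 84, 49],
  [36, 88, 43], [39, 40, 91], [44, 108, 47], [45, 50, 113], [48, 118, 51], [52, 74, 57],
  [53, 66, 83], [55, 62, 77], [56, 90, 61], [59, 70, 99], [60, 104, 69], [65, 68, 111],
  [72, 92, 81], [76, 106, 87], [79, 82, 103], [80, 110, 85], [89, 96, 105], [93, 94, 109],
  [95, 98, 117], [100, 112, 107], [115, 116, 119]]

theorem cel_10_6 : Cel (K 10 6 2) 6 :=
  cel_of_rows (R := R_10_6) (F := F_10_6) 60 rfl (by decide +kernel) (by decide +kernel) (by decide)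

def R_10_7 : List (List ℕ) :=
  [[0, 22, 6, 26, 16, 8, 20, 14, 10, 4, 28, 12, 2, 24, 18],
  [1, 44, 36, 38, 54, 52, 50, 3, 40, 30, 48, 42, 32, 34, 46],
  [5, 58, 33, 66, 60, 70, 56, 74, 7, 68, 31, 62, 64, 72, 76],
  [9, 84, 78, 92, 57, 88, 35, 59, 11, 80, 37, 82, 94, 90, 86],
  [13, 108, 39, 81, 15, 102, 61, 98, 100, 104, 106, 79, 96, 63, 41],
  [17, 116, 112, 99, 67, 43, 110, 118, 83, 45, 19, 114, 65, 97, 85],
  [21, 87, 120, 101, 113, 122, 124, 111, 49, 69, 23, 47, 89, 71, 103],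
  [25, 51, 126, 105, 121, 91, 128, 73, 115], [27, 75, 93, 107, 127, 53, 130, 123, 117],
  [29, 77, 129, 95, 119, 125, 131, 55, 109]]

def F_10_7 : List (List ℕ) :=
  [[0, 44, 19], [1, 22, 47], [2, 40, 13], [3, 24, 51], [4, 58, 11], [5, 28, 77], [6, 68, 23],
  [7, 26, 75], [8, 84, 17], [9, 20, 87], [10, 80, 15], [12, 108, 29], [14, 102, 21], [16, 116, 27],
  [18, 114, 25], [30, 62, 41], [31, 48, 69], [32, 66, 43], [33, 34, 59], [35, 46, 89],
  [36, 82, 45], [37, 38, 81], [39, 54, 109], [42, 110, 49], [50, 126, 53], [52, 130, 55],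
  [56, 88, 71], [57, 74, 93], [60, 98, 67], [61, 70, 103], [63, 64, 97], [65, 72, 115],
  [73, 76, 129], [78, 96, 85], [79, 92, 107], [83, 94, 119], [86, 120, 91], [90, 128, 95],
  [99, 100, 113], [101, 104, 121], [105, 106, 127], [111, 118, 125], [112, 122, 117],
  [123, 124, 131]]

theorem cel_10_7 : Cel (K 10 7 2) 7 :=
  cel_of_rows (R := R_10_7) (F := F_10_7) 66 rfl (by decide +kernel) (by decide +kernel) (by decide)

def R_10_8 : List (List ℕ) :=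
  [[0, 6, 30, 20, 10, 2, 18, 8, 26, 22, 12, 24, 28, 4, 14, 16],
  [1, 46, 3, 36, 58, 50, 54, 40, 32, 38, 34, 48, 44, 52, 56, 42],
  [5, 80, 82, 7, 64, 72, 35, 60, 74, 76, 70, 78, 68, 62, 33, 66],
  [9, 90, 100, 96, 84, 92, 102, 37, 11, 94, 61, 39, 63, 88, 86, 98],
  [13, 118, 106, 110, 65, 43, 116, 108, 85, 114, 87, 104, 15, 67, 41, 112],
  [17, 105, 89, 69, 120, 107, 130, 126, 71, 124, 45, 122, 128, 91, 19, 47],
  [21, 93, 109, 136, 123, 49, 73, 111, 121, 132, 51, 138, 23, 134, 75, 95],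
  [25, 113, 55, 133, 79, 127, 142, 53, 125, 77, 135, 27, 99, 115, 97, 140],
  [29, 141, 101, 129, 137, 117, 57, 144, 81], [31, 83, 145, 143, 131, 119, 139, 59, 103]]

def F_10_8 : List (List ℕ) :=
  [[0, 46, 17], [1, 6, 64, 43], [2, 36, 11], [3, 18, 47], [4, 80, 29], [5, 14, 67], [7, 30, 83],
  [8, 90, 19], [9, 26, 99], [10, 94, 21], [12, 118, 139, 23], [13, 24, 113], [15, 16, 105],
  [20, 93, 102, 31], [22, 134, 27], [25, 28, 141], [32, 66, 41], [33, 38, 63], [34, 60, 39],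
  [35, 48, 73], [37, 58, 103], [40, 112, 55], [42, 116, 57], [44, 122, 49], [45, 52, 125],
  [50, 138, 59], [51, 54, 133], [53, 56, 144, 143], [61, 74, 95], [62, 88, 69], [65, 72, 111],
  [68, 120, 132, 79], [70, 124, 77], [71, 78, 127], [75, 76, 135], [81, 82, 145], [84, 114, 97],
  [85, 92, 109], [86, 104, 89], [87, 98, 115], [91, 100, 129], [96, 140, 101], [106, 130, 119],
  [107, 110, 121], [108, 136, 117], [123, 128, 137], [126, 142, 131]]

theorem cel_10_8 : Cel (K 10 8 2) 9 :=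
  cel_of_rows (R := R_10_8) (F := F_10_8) 73 rfl (by decide +kernel) (by decide +kernel) (by decide)

def R_10_9 : List (List ℕ) :=
  [[0, 28, 22, 10, 32, 6, 26, 14, 2, 16, 4, 24, 20, 8, 12, 30, 18],
  [1, 46, 38, 36, 42, 48, 3, 44, 34, 40, 50, 60, 56, 52, 62, 54, 58],
  [5, 74, 78, 82, 7, 88, 76, 66, 84, 72, 70, 37, 64, 35, 68, 86, 80],
  [9, 98, 41, 65, 39, 94, 104, 108, 67, 100, 96, 106, 110, 11, 92, 102, 90],
  [13, 91, 120, 124, 69, 45, 15, 122, 93, 116, 114, 43, 71, 112, 128, 118, 126],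
  [17, 49, 115, 132, 134, 95, 47, 19, 138, 136, 142, 113, 73, 140, 97, 130, 75],
  [21, 144, 79, 131, 101, 77, 53, 146, 133, 117, 23, 150, 119, 152, 148, 51, 99],
  [25, 81, 55, 158, 137, 156, 105, 135, 147, 57, 154, 121, 103, 123, 27, 83, 145],
  [29, 59, 87, 125, 155, 61, 149, 160, 107, 141, 85, 109, 157, 139, 31, 127, 151],
  [33, 111, 161, 153, 129, 143, 159, 63, 89]]

def F_10_9 : List (List ℕ) :=
  [[0, 46, 19], [1, 28, 59], [2, 44, 15], [3, 16, 49], [4, 74, 17], [5, 24, 81], [6, 88, 33],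
  [7, 26, 83], [8, 98, 21], [9, 12, 91], [10, 92, 116, 23], [11, 32, 111], [13, 30, 127],
  [14, 122, 27], [18, 138, 31], [20, 144, 25], [22, 150, 29], [34, 68, 45], [35, 40, 65],
  [36, 64, 39], [37, 42, 71], [38, 94, 47], [41, 50, 99], [43, 48, 115], [51, 60, 149],
  [52, 146, 57], [53, 62, 89, 76], [54, 158, 63], [55, 58, 87, 80], [56, 154, 61], [66, 100, 77],
  [67, 84, 109], [69, 86, 125], [70, 112, 73], [72, 140, 85], [75, 78, 131], [79, 82, 145],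
  [90, 120, 103], [93, 102, 123], [95, 104, 135], [96, 130, 101], [97, 106, 141], [105, 108, 157],
  [107, 110, 161], [113, 128, 143], [114, 132, 117], [118, 152, 129], [119, 126, 151],
  [121, 124, 155], [133, 134, 147], [136, 156, 139], [137, 142, 159], [148, 160, 153]]

theorem cel_10_9 : Cel (K 10 9 2) 10 :=
  cel_of_rows (R := R_10_9) (F := F_10_9) 81 rfl (by decide +kernel) (by decide +kernel) (by decide)

def R_10_10 : List (List ℕ) :=
  [[0, 22, 16, 20, 30, 2, 12, 8, 32, 28, 6, 26, 10, 24, 18, 14, 4, 34],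
  [1, 64, 40, 56, 46, 3, 60, 50, 62, 42, 38, 48, 58, 66, 54, 36, 44, 52],
  [5, 72, 86, 78, 94, 76, 39, 70, 80, 74, 37, 82, 90, 84, 7, 88, 68, 92],
  [9, 96, 118, 69, 112, 98, 102, 106, 71, 43, 114, 104, 100, 110, 11, 108, 41, 116],
  [13, 47, 130, 73, 15, 120, 99, 134, 128, 126, 45, 75, 124, 138, 132, 122, 136, 97],
  [17, 142, 103, 121, 19, 144, 49, 77, 152, 123, 150, 51, 148, 154, 79, 146, 101, 140],
  [21, 141, 105, 162, 83, 55, 164, 125, 81, 107, 143, 23, 53, 127, 156, 166, 158, 160],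
  [25, 111, 147, 87, 131, 57, 109, 27, 85, 168, 174, 157, 129, 170, 159, 172, 59, 145],
  [29, 176, 169, 91, 163, 115, 63, 151, 133, 178, 149, 61, 31, 161, 171, 135, 113, 89],
  [33, 117, 65, 35, 93, 119, 137, 153, 95, 155, 179, 139, 165, 67, 173, 167, 175, 177]]

def F_10_10 : List (List ℕ) :=
  [[0, 64, 35], [1, 22, 53], [2, 60, 31], [3, 12, 47], [4, 72, 15], [5, 34, 93], [6, 88, 29],
  [7, 26, 85], [8, 96, 13], [9, 32, 117], [10, 108, 27], [11, 24, 111], [14, 120, 19],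
  [16, 142, 23], [17, 20, 141], [18, 144, 25], [21, 30, 161], [28, 176, 33], [36, 82, 55],
  [37, 44, 75], [38, 70, 43], [39, 48, 77], [40, 116, 65], [41, 56, 109], [42, 114, 63],
  [45, 52, 127], [46, 130, 57], [49, 58, 145], [50, 148, 61], [51, 62, 151], [54, 164, 67],
  [59, 66, 173], [68, 112, 89], [69, 92, 119], [71, 80, 107], [73, 86, 131], [74, 124, 81],
  [76, 152, 95], [78, 146, 87], [79, 94, 155], [83, 90, 163], [84, 168, 91], [97, 118, 137],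
  [98, 134, 113], [99, 102, 121], [100, 140, 105], [101, 110, 147], [103, 106, 143],
  [104, 162, 115], [122, 150, 133], [123, 136, 153], [125, 138, 165], [126, 156, 129],
  [128, 170, 135], [132, 178, 139], [149, 154, 179], [157, 166, 175], [158, 172, 167],
  [159, 160, 171], [169, 174, 177]]

theorem cel_10_10 : Cel (K 10 10 2) 11 :=
  cel_of_rows (R := R_10_10) (F := F_10_10) 90 rfl (by decide +kernel) (by decide +kernel) (by decide)

theorem special {m n : ℕ} (h : (m = 8 ∧ n = 2) ∨ (m = 6 ∧ 2 ≤ n ∧ n ≤ 6) ∨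
    (m = 10 ∧ 2 ≤ n ∧ n ≤ 10)) : ∃ g t : ℤ, Cel (K m n 2) g ∧
      12 * g = ((m : ℤ) - 3) * (m - 4) + n * (n - 1) + 2 * t ∧ 0 ≤ t ∧ t < 6 := by
  rcases h with ⟨rfl, rfl⟩ | ⟨rfl, h1, h2⟩ | ⟨rfl, h1, h2⟩
  · exact ⟨2, 1, cel_8_2, by norm_num, by norm_num, by norm_num⟩
  · interval_cases n
    · exact ⟨1, 2, cel_6_2, by norm_num, by norm_num, by norm_num⟩
    · exact ⟨1, 0, cel_6_3, by norm_num, by norm_num, by norm_num⟩
    · exact ⟨2, 3, cel_6_4, by norm_num, by norm_num, by norm_num⟩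
    · exact ⟨3, 5, cel_6_5, by norm_num, by norm_num, by norm_num⟩
    · exact ⟨3, 0, cel_6_6, by norm_num, by norm_num, by norm_num⟩
  · interval_cases n
    · exact ⟨4, 2, cel_10_2, by norm_num, by norm_num, by norm_num⟩
    · exact ⟨4, 0, cel_10_3, by norm_num, by norm_num, by norm_num⟩
    · exact ⟨5, 3, cel_10_4, by norm_num, by norm_num, by norm_num⟩
    · exact ⟨6, 5, cel_10_5, by norm_num, by norm_num, by norm_num⟩
    · exact ⟨6, 0, cel_10_6, by norm_num, by norm_num, by norm_num⟩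
    · exact ⟨7, 0, cel_10_7, by norm_num, by norm_num, by norm_num⟩
    · exact ⟨9, 5, cel_10_8, by norm_num, by norm_num, by norm_num⟩
    · exact ⟨10, 3, cel_10_9, by norm_num, by norm_num, by norm_num⟩
    · exact ⟨11, 0, cel_10_10, by norm_num, by norm_num, by norm_num⟩

end Pd97
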