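import Mathlib
import Pool.Agent.Lib.Pd97.Low

/-!
# MP_d97cc3_co : the case m = n = 2
-/

namespace Pd97

theorem sameCycle_invol {α : Type} [Finite α] (σ : Equiv.Perm α) (h : ∀ x, σ (σ x) = x) (x y : α) :
    σ.SameCycle x y ↔ (x = y ∨ σ x = y) := by
  constructor
  · intro hs
    obtain ⟨n, hn⟩ := hs.exists_nat_pow_eq
    have hmod : ∀ n : ℕ, (σ ^ n) x = x ∨ (σ ^ n) x = σ x := by
      intro n
      induction n with
      | zero => left; rfl
      | succ n ih =>
        rw [pow_succ', Equiv.Perm.mul_apply]
        rcases ih with ih | ih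
        · right; rw [ih]
        · left; rw [ih]; exact h x
    rcases hmod n with h' | h'
    · left; rw [← hn, h']
    · right; rw [← hn, h']
  · rintro (rfl | rfl)
    · exact Equiv.Perm.SameCycle.refl _ _
    · exact ⟨1, by simp⟩

/-- the reversal of the darts `(vertex, edge)` -/
def rev22 : Equiv.Perm (Bool × Bool) :=
  Function.Involutive.toPerm (fun d => (!d.1, d.2)) (fun d => by simp)

/-- the rotation -/
def rot22 : Equiv.Perm (Bool × Bool) :=
  Function.Involutive.toPerm (fun d => (d.1, !d.2)) (fun d => by simp)

/-- Two vertices, two parallel edges, one annulus. -/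
def G22 : GMap (Fin 2) where
  D := Bool × Bool
  W := Bool
  R := Unit
  src := fun d => if d.1 = true then 1 else 0
  rev := rev22
  rot := rot22
  walk := fun d => xor d.1 d.2
  face := fun _ => ()
  handles := fun _ => 0
  rev_rev := by decide
  rev_ne := by decide
  src_surj := by decide
  src_iff := by
    intro d e
    rw [sameCycle_invol rot22 (by decide)]
    revert d e
    decide
  walk_surj := by decide
  walk_iff := by
    intro d e
    rw [sameCycle_invol (rot22 * rev22) (by decide)]
    revert d e
    decide
  face_surj := by decide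

/-- Two parallel edges which form an essential closed curve on the torus: one face, an annulus. -/
theorem embeds_two_two : Embeds (K 2 2 2) 1 := by
  refine ⟨G22, ?_, ?_, ?_⟩
  · intro u v
    have h : G22.mult u v = Fintype.card {d : Bool × Bool //
        (if d.1 = true then (1 : Fin 2) else 0) = u ∧
          (if (rev22 d).1 = true then (1 : Fin 2) else 0) = v} := by
      rw [← Nat.card_eq_fintype_card]
      rfl
    rw [h]
    clear h
    revert u v
    decide
  · intro r _ h
    have h' : (false : Bool) = true := h false true rfl rfl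
    exact absurd h' Bool.false_ne_true
  · show 2 * Fintype.card (Fin 2) + 4 * Fintype.card Unit + 4 * 1
      = Fintype.card (Bool × Bool) + 4 + 4 * (∑ r : Unit, 0) + 2 * Fintype.card Bool
    simp

theorem gamma_two_two :
    (gamma (K 2 2 2) : ℤ) = ⌈((((2 : ℕ) : ℚ) - 3) * (((2 : ℕ) : ℚ) - 4) + ((2 : ℕ) : ℚ) * (((2 : ℕ) : ℚ) - 1)) / 12⌉ := by
  have h1 : gamma (K 2 2 2) = 1 := by
    apply le_antisymm
    · exact Nat.sInf_le embeds_two_two
    · have hmem : gamma (K 2 2 2) ∈ {g | Embeds (K 2 2 2) g} := Nat.sInf_mem ⟨1, embeds_two_two⟩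
      have h := lower_bound (m := 2) (n := 2) le_rfl le_rfl hmem
      push_cast at h
      omega
  rw [h1]
  symm
  rw [Int.ceil_eq_iff]
  push_cast
  norm_num

end Pd97
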