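import Mathlib
import Pool.Agent.Lib.Pd97.FamAll
import Pool.Agent.Lib.Pd97.MPP
import Pool.Agent.Lib.Pd97.MSP
import Pool.Agent.Lib.Pd97.MPS
import Pool.Agent.Lib.Pd97.MSS
import Pool.Agent.Lib.Pd97.HexData
import Pool.Agent.Lib.Pd97.N2
import Pool.Agent.Lib.Pd97.N2W
import Pool.Agent.Lib.Pd97.TwoTwo
import Pool.Agent.Lib.Pd97.Special
import Pool.Agent.Lib.Pd97.Low

/-!
# MP_d97cc3_co : the genus of `K_m + K_n`
-/

namespace Pd97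

/-- What we have to show for `m`, `n`. -/
def Goal (m n : ℕ) : Prop :=
  ∃ g t : ℤ, Cel (K m n 2) g ∧ 12 * g = ((m : ℤ) - 3) * (m - 4) + n * (n - 1) + 2 * t ∧
    0 ≤ t ∧ t < 6

theorem exists_g (m n : ℕ) (t : ℤ)
    (h : ((((m % 12 : ℕ) : ℤ) - 3) * (((m % 12 : ℕ) : ℤ) - 4) +
      ((n % 12 : ℕ) : ℤ) * (((n % 12 : ℕ) : ℤ) - 1) + 2 * t) % 12 = 0) :
    ∃ g : ℤ, 12 * g = ((m : ℤ) - 3) * (m - 4) + n * (n - 1) + 2 * t := by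
  have hm : (m : ℤ) = 12 * ((m / 12 : ℕ) : ℤ) + ((m % 12 : ℕ) : ℤ) := by omega
  have hn : (n : ℤ) = 12 * ((n / 12 : ℕ) : ℤ) + ((n % 12 : ℕ) : ℤ) := by omega
  obtain ⟨k, hk⟩ := Int.dvd_of_emod_eq_zero h
  generalize ((m % 12 : ℕ) : ℤ) = r at *
  generalize ((n % 12 : ℕ) : ℤ) = r' at *
  generalize ((m / 12 : ℕ) : ℤ) = a at *
  generalize ((n / 12 : ℕ) : ℤ) = b at *
  refine ⟨12 * a ^ 2 + a * (2 * r - 7) + 12 * b ^ 2 + b * (2 * r' - 1) + k, ?_⟩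
  rw [hm, hn]
  linear_combination - hk

theorem goal_of {m n : ℕ} (t : ℤ) (h0 : 0 ≤ t) (h6 : t < 6)
    (h : ((((m % 12 : ℕ) : ℤ) - 3) * (((m % 12 : ℕ) : ℤ) - 4) +
      ((n % 12 : ℕ) : ℤ) * (((n % 12 : ℕ) : ℤ) - 1) + 2 * t) % 12 = 0)
    (H : ∀ g : ℤ, 12 * g = ((m : ℤ) - 3) * (m - 4) + n * (n - 1) + 2 * t → Cel (K m n 2) g) :
    Goal m n := by
  obtain ⟨g, hg⟩ := exists_g m n t h
  exact ⟨g, t, H g hg, hg, h0, h6⟩

theorem parity_of (n : ℕ) : Even n ↔ n % 12 % 2 = 0 := by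
  rw [Nat.even_iff]; omega

/-- `n = 2` -/
theorem goal_two (m : ℕ) (h3 : 3 ≤ m) (h6 : m ≠ 6) (h10 : m ≠ 10) (h8 : m ≠ 8) : Goal m 2 := by
  rcases all_blocks m h3 h6 h10 with ⟨⟨V, fV, hc, ⟨B⟩⟩, hr⟩ | ⟨⟨V, fV, hc, ⟨B⟩⟩, hr, -⟩ |
    ⟨⟨V, fV, hc, ⟨B⟩⟩, hr, -⟩ | ⟨-, hr, -, hw⟩
  · refine goal_of 5 (by norm_num) (by norm_num) ?_ fun g hg => n2Z B hc h3 g ?_
    · rcases hr with h | h | h | h <;> rw [h] <;> norm_num
    · rw [hg]; norm_num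
  · refine goal_of 4 (by norm_num) (by norm_num) ?_ fun g hg => n2O B hc h3 g ?_
    · rcases hr with h | h <;> rw [h] <;> norm_num
    · rw [hg]; norm_num
  · refine goal_of 2 (by norm_num) (by norm_num) ?_ fun g hg => n2H B hc g ?_
    · rcases hr with h | h | h | h <;> rw [h] <;> norm_num
    · rw [hg]; norm_num
  · obtain ⟨V, fV, hc, B, ha, hwy⟩ := hw.resolve_left h8
    refine goal_of 1 (by norm_num) (by norm_num) ?_ fun g hg => n2W B ha hwy hc g ?_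
    · rcases hr with h | h <;> rw [h] <;> norm_num
    · rw [hg]; norm_num

/-- `n = 6` and `n = 10` -/
theorem goal_hex (m k : ℕ) (hk : k = 6 ∨ k = 10) (hkm : k ≤ m) (h6 : m ≠ 6) (h10 : m ≠ 10) :
    Goal m k := by
  have hX : HexMap k := by rcases hk with rfl | rfl; exacts [hexMap6, hexMap10]
  have hC : ChordMap k := by rcases hk with rfl | rfl; exacts [chordMap6, chordMap10]
  have hke : Even k := by rcases hk with rfl | rfl <;> decide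
  have hk6 : 6 ≤ k := by omega
  have hkr : k % 12 = 6 ∨ k % 12 = 10 := by omega
  rcases all_blocks m (by omega) h6 h10 with ⟨⟨V, fV, hc, ⟨B⟩⟩, hr⟩ | ⟨⟨V, fV, hc, ⟨B⟩⟩, hr, -⟩ |
    ⟨⟨V, fV, hc, ⟨B⟩⟩, hr, -⟩ | ⟨⟨V, fV, hc, ⟨B⟩⟩, hr, -⟩
  · refine goal_of 3 (by norm_num) (by norm_num) ?_ fun g hg => hexPP B hX hke hc hk6 hkm g hg
    rcases hr with h | h | h | h <;> rcases hkr with h' | h' <;> rw [h, h'] <;> norm_num
  · refine goal_of 2 (by norm_num) (by norm_num) ?_ fun g hg => hexPO B hC hke hc hk6 hkm g hg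
    rcases hr with h | h <;> rcases hkr with h' | h' <;> rw [h, h'] <;> norm_num
  · refine goal_of 0 (by norm_num) (by norm_num) ?_ fun g hg =>
      hexSH B hX hke hc hk6 hkm g (by rw [hg]; ring)
    rcases hr with h | h | h | h <;> rcases hkr with h' | h' <;> rw [h, h'] <;> norm_num
  · refine goal_of 5 (by norm_num) (by norm_num) ?_ fun g hg => hexSW B hX hke hc hk6 hkm g hg
    rcases hr with h | h <;> rcases hkr with h' | h' <;> rw [h, h'] <;> norm_num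

/-- the residues of the four types -/
def Res (σ δ r : ℕ) : Prop :=
  (σ = 0 ∧ δ = 0 ∧ (r = 0 ∨ r = 3 ∨ r = 4 ∨ r = 7)) ∨ (σ = 0 ∧ δ = 1 ∧ (r = 2 ∨ r = 5)) ∨
  (σ = 1 ∧ δ = 0 ∧ (r = 1 ∨ r = 6 ∨ r = 9 ∨ r = 10)) ∨ (σ = 1 ∧ δ = 1 ∧ (r = 8 ∨ r = 11))

instance (σ δ r : ℕ) : Decidable (Res σ δ r) := by unfold Res; infer_instance

/-- the slack -/
def slack (σ1 δ1 σ2 δ2 r : ℕ) : ℤ :=
  if (r + σ1 + σ2) % 2 = 1 then 3 - δ1 - δ2 else if δ1 + δ2 = 0 then 0 else 6 - δ1 - δ2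

/-- the genus is an integer -/
def ResOK (σ1 δ1 σ2 δ2 r1 r2 : ℕ) : Prop :=
  Res σ1 δ1 r1 ∧ Res σ2 δ2 r2 →
    (((r1 : ℤ) - 3) * ((r1 : ℤ) - 4) + (r2 : ℤ) * ((r2 : ℤ) - 1) +
      2 * slack σ1 δ1 σ2 δ2 r2) % 12 = 0 ∧ 0 ≤ slack σ1 δ1 σ2 δ2 r2 ∧
      slack σ1 δ1 σ2 δ2 r2 < 6

instance (σ1 δ1 σ2 δ2 r1 r2 : ℕ) : Decidable (ResOK σ1 δ1 σ2 δ2 r1 r2) := by
  unfold ResOK; infer_instance

theorem res_check : ∀ σ1 < 2, ∀ δ1 < 2, ∀ σ2 < 2, ∀ δ2 < 2, ∀ r1 < 12, ∀ r2 < 12,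
    ResOK σ1 δ1 σ2 δ2 r1 r2 := by
  decide +kernel

theorem goal_of' {m n : ℕ} (σ1 δ1 σ2 δ2 : ℕ) (h1 : σ1 < 2) (h2 : δ1 < 2) (h3 : σ2 < 2)
    (h4 : δ2 < 2) (r1 : Res σ1 δ1 (m % 12)) (r2 : Res σ2 δ2 (n % 12)) (t : ℤ)
    (ht : t = slack σ1 δ1 σ2 δ2 (n % 12))
    (H : ∀ g : ℤ, 12 * g = ((m : ℤ) - 3) * (m - 4) + n * (n - 1) + 2 * t → Cel (K m n 2) g) :
    Goal m n := by
  obtain ⟨c1, c2, c3⟩ := res_check σ1 h1 δ1 h2 σ2 h3 δ2 h4 (m % 12) (Nat.mod_lt _ (by norm_num))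
    (n % 12) (Nat.mod_lt _ (by norm_num)) ⟨r1, r2⟩
  rw [← ht] at c1 c2 c3
  exact goal_of t c2 c3 c1 H

theorem blocks_cases (m : ℕ) (hm : 3 ≤ m) (h6 : m ≠ 6) (h10 : m ≠ 10) :
    ∃ δ, δ < 2 ∧ ((HasPB m δ ∧ Res 0 δ (m % 12) ∧ 3 + 2 * δ ≤ m) ∨
      (HasSB m δ ∧ Res 1 δ (m % 12) ∧ 8 ≤ m)) := by
  rcases all_blocks m hm h6 h10 with ⟨h, hr⟩ | ⟨h, hr, h5⟩ | ⟨h, hr, h8⟩ | ⟨h, hr, h8, -⟩
  · exact ⟨0, by norm_num, Or.inl ⟨h, Or.inl ⟨rfl, rfl, hr⟩, by omega⟩⟩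
  · exact ⟨1, by norm_num, Or.inl ⟨h, Or.inr (Or.inl ⟨rfl, rfl, hr⟩), by omega⟩⟩
  · exact ⟨0, by norm_num, Or.inr ⟨h, Or.inr (Or.inr (Or.inl ⟨rfl, rfl, hr⟩)), h8⟩⟩
  · exact ⟨1, by norm_num, Or.inr ⟨h, Or.inr (Or.inr (Or.inr ⟨rfl, rfl, hr⟩)), h8⟩⟩

theorem slack_odd {σ1 δ1 σ2 δ2 r : ℕ} (h : (r + σ1 + σ2) % 2 = 1) :
    slack σ1 δ1 σ2 δ2 r = 3 - δ1 - δ2 := by rw [slack, if_pos h]

theorem slack_zero {σ1 σ2 r : ℕ} (h : ¬ (r + σ1 + σ2) % 2 = 1) :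
    slack σ1 0 σ2 0 r = 0 := by rw [slack, if_neg h, if_pos rfl]

theorem slack_even {σ1 δ1 σ2 δ2 r : ℕ} (h : ¬ (r + σ1 + σ2) % 2 = 1) (hd : δ1 + δ2 ≠ 0) :
    slack σ1 δ1 σ2 δ2 r = 6 - δ1 - δ2 := by rw [slack, if_neg h, if_neg hd]

/-- the general case -/
theorem goal_merge (m n : ℕ) (hn : 3 ≤ n) (hnm : n ≤ m) (h6 : m ≠ 6) (h10 : m ≠ 10)
    (h6' : n ≠ 6) (h10' : n ≠ 10) : Goal m n := by
  obtain ⟨δ1, d1, H1⟩ := blocks_cases m (by omega) h6 h10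
  obtain ⟨δ2, d2, H2⟩ := blocks_cases n hn h6' h10'
  have hpar : n % 2 = n % 12 % 2 := by omega
  rcases H1 with ⟨⟨V1, f1, c1, ⟨B1⟩⟩, r1, l1⟩ | ⟨⟨V1, f1, c1, ⟨B1⟩⟩, r1, l1⟩ <;>
  rcases H2 with ⟨⟨V2, f2, c2, ⟨B2⟩⟩, r2, l2⟩ | ⟨⟨V2, f2, c2, ⟨B2⟩⟩, r2, l2⟩
  · -- PP
    refine goal_of' 0 δ1 0 δ2 (by norm_num) d1 (by norm_num) d2 r1 r2 _ rfl ?_
    by_cases hp : (n % 12 + 0 + 0) % 2 = 1
    · rw [slack_odd hp]
      exact fun g hg => mergePP1 (by omega) (by omega) B1 B2 c1 c2 hnm hn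
        (Nat.odd_iff.2 (by omega)) g hg
    · by_cases hd : δ1 + δ2 = 0
      · obtain ⟨rfl, rfl⟩ : δ1 = 0 ∧ δ2 = 0 := by omega
        rw [slack_zero hp]
        exact fun g hg => mergePP0 B1 B2 c1 c2 hnm (by omega) (Nat.even_iff.2 (by omega)) g
          (by rw [hg]; ring)
      · rw [slack_even hp hd]
        exact fun g hg => mergePP2 (by omega) (by omega) B1 B2 c1 c2 hnm (by omega)
          (Nat.even_iff.2 (by omega)) g hg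
  · -- PS
    refine goal_of' 0 δ1 1 δ2 (by norm_num) d1 (by norm_num) d2 r1 r2 _ rfl ?_
    by_cases hp : (n % 12 + 0 + 1) % 2 = 1
    · rw [slack_odd hp]
      exact fun g hg => mergePS1 (by omega) (by omega) B1 B2 c1 c2 hnm l2
        (Nat.even_iff.2 (by omega)) g hg
    · by_cases hd : δ1 + δ2 = 0
      · obtain ⟨rfl, rfl⟩ : δ1 = 0 ∧ δ2 = 0 := by omega
        rw [slack_zero hp]
        exact fun g hg => mergePS0 B1 B2 c1 c2 hnm l2 (Nat.odd_iff.2 (by omega)) g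
          (by rw [hg]; ring)
      · rw [slack_even hp hd]
        exact fun g hg => mergePS2 (by omega) (by omega) B1 B2 c1 c2 hnm l2
          (Nat.odd_iff.2 (by omega)) g hg
  · -- SP
    refine goal_of' 1 δ1 0 δ2 (by norm_num) d1 (by norm_num) d2 r1 r2 _ rfl ?_
    by_cases hp : (n % 12 + 1 + 0) % 2 = 1
    · rw [slack_odd hp]
      have h4 : 4 + δ2 ≤ n := by
        rcases Nat.lt_or_ge 5 n with h | h
        · omega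
        · have : δ2 = 1 → False := by
            rintro rfl
            omega
          omega
      exact fun g hg => mergeSP1 (by omega) (by omega) B1 B2 c1 c2 hnm h4
        (Nat.even_iff.2 (by omega)) g hg
    · by_cases hd : δ1 + δ2 = 0
      · obtain ⟨rfl, rfl⟩ : δ1 = 0 ∧ δ2 = 0 := by omega
        rw [slack_zero hp]
        exact fun g hg => mergeSP0 B1 B2 c1 c2 hnm hn (Nat.odd_iff.2 (by omega)) g
          (by rw [hg]; ring)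
      · rw [slack_even hp hd]
        exact fun g hg => mergeSP2 (by omega) (by omega) B1 B2 c1 c2 hnm (by omega)
          (Nat.odd_iff.2 (by omega)) g hg
  · -- SS
    refine goal_of' 1 δ1 1 δ2 (by norm_num) d1 (by norm_num) d2 r1 r2 _ rfl ?_
    by_cases hp : (n % 12 + 1 + 1) % 2 = 1
    · rw [slack_odd hp]
      exact fun g hg => mergeSS1 (by omega) (by omega) B1 B2 c1 c2 hnm l2
        (Nat.odd_iff.2 (by omega)) g hg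
    · by_cases hd : δ1 + δ2 = 0
      · obtain ⟨rfl, rfl⟩ : δ1 = 0 ∧ δ2 = 0 := by omega
        rw [slack_zero hp]
        exact fun g hg => mergeSS0 B1 B2 c1 c2 hnm l2 (Nat.even_iff.2 (by omega)) g
          (by rw [hg]; ring)
      · rw [slack_even hp hd]
        exact fun g hg => mergeSS2 (by omega) (by omega) B1 B2 c1 c2 hnm l2
          (Nat.even_iff.2 (by omega)) g hg

theorem goal_all (m n : ℕ) (hn : 2 ≤ n) (hnm : n ≤ m) (h22 : ¬ (m = 2 ∧ n = 2)) : Goal m n := by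
  by_cases hs : (m = 8 ∧ n = 2) ∨ (m = 6 ∧ 2 ≤ n ∧ n ≤ 6) ∨ (m = 10 ∧ 2 ≤ n ∧ n ≤ 10)
  · exact special hs
  have h6 : m ≠ 6 := by omega
  have h10 : m ≠ 10 := by omega
  by_cases h2 : n = 2
  · subst h2
    exact goal_two m (by omega) h6 h10 (by omega)
  by_cases hk : n = 6 ∨ n = 10
  · exact goal_hex m n hk hnm h6 h10
  exact goal_merge m n (by omega) hnm h6 h10 (by omega) (by omega)

/-- The genus of `K_m + K_n` for all `m ≥ n ≥ 2`. -/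
theorem gamma_K (m n : ℕ) (hn : 2 ≤ n) (hnm : n ≤ m) :
    (gamma (K m n 2) : ℤ) = ⌈(((m : ℚ) - 3) * (m - 4) + n * (n - 1)) / 12⌉ := by
  by_cases h22 : m = 2 ∧ n = 2
  · obtain ⟨rfl, rfl⟩ := h22
    exact gamma_two_two
  · obtain ⟨g, t, h1, h2, h3, h4⟩ := goal_all m n hn hnm h22
    exact gamma_eq hn hnm h1 h2 h3 h4

end Pd97
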