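import Mathlib
import Pool.Agent.Lib.Pd97.FinTri
import Pool.Agent.Lib.Pd97.Conv

/-!
# MP_d97cc3_co : small blocks

Row `v` of a table is the rotation at the vertex `v` (a cyclic list of its neighbours).
-/

namespace Pd97

/-! ### Decidable forms -/

def pbP (R : List (List ℕ)) (δ w a : ℕ) : Prop :=
  rowsOK R = true ∧ w < R.length ∧ a < R.length ∧ w ≠ a ∧
  ∀ u < R.length, ∀ v < R.length,
    (v ∈ R.getD u [] ↔ u ≠ v ∧ ¬ (δ = 1 ∧ ((u = w ∧ v = a) ∨ (u = a ∧ v = w))))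

instance (R : List (List ℕ)) (δ w a : ℕ) : Decidable (pbP R δ w a) := by
  unfold pbP; infer_instance

theorem hasPB_of_rows (R : List (List ℕ)) (δ w a : ℕ) (h : pbP R δ w a) :
    HasPB R.length δ := by
  obtain ⟨h0, hw, ha, hwa, hadj⟩ := h
  obtain ⟨Γ, hΓ, ⟨S⟩⟩ := exists_triSys_of_rows R h0
  refine ⟨Fin R.length, inferInstance, Fintype.card_fin _,
    ⟨{ Γ := Γ, S := S, w := ⟨w, hw⟩, a := ⟨a, ha⟩, hwa := ?_, adj := ?_ }⟩⟩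
  · exact fun h => hwa (congrArg Fin.val h)
  · intro u v
    rw [hΓ, hadj u.1 u.2 v.1 v.2]
    simp only [Mis, Fin.ext_iff, ne_eq]

def sbA (R : List (List ℕ)) (y e w a p q : ℕ) : Prop :=
  rowsOK R = true ∧ y < R.length ∧ e < R.length ∧ w < R.length ∧ a < R.length ∧ p < R.length ∧
  q < R.length

instance (R : List (List ℕ)) (y e w a p q : ℕ) : Decidable (sbA R y e w a p q) := by
  unfold sbA; infer_instance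

def sbN (y e w a p q : ℕ) : Prop :=
  y ≠ e ∧ w ≠ y ∧ w ≠ e ∧ p ≠ y ∧ p ≠ e ∧ p ≠ w ∧ q ≠ y ∧ q ≠ e ∧ q ≠ w ∧ p ≠ q ∧
  a ≠ w ∧ a ≠ e

instance (y e w a p q : ℕ) : Decidable (sbN y e w a p q) := by
  unfold sbN; infer_instance

def sbC1 (R : List (List ℕ)) (δ y e w a u v : ℕ) : Prop :=
  u = y ∨ u = e ∨ v = y ∨ v = e ∨
    (v ∈ R.getD u [] ↔ u ≠ v ∧ ¬ (δ = 1 ∧ ((u = w ∧ v = a) ∨ (u = a ∧ v = w))))

instance (R : List (List ℕ)) (δ y e w a u v : ℕ) : Decidable (sbC1 R δ y e w a u v) := by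
  unfold sbC1; infer_instance

def sbC (R : List (List ℕ)) (δ y e w a : ℕ) : Prop :=
  ∀ u < R.length, ∀ v < R.length, sbC1 R δ y e w a u v

instance (R : List (List ℕ)) (δ y e w a : ℕ) : Decidable (sbC R δ y e w a) := by
  unfold sbC; infer_instance

def sbD (R : List (List ℕ)) (δ y e w a : ℕ) : Prop :=
  ∀ v < R.length, v = y ∨ v = e ∨ ((y ∈ R.getD v [] ∨ e ∈ R.getD v []) ↔
    ¬ (δ = 1 ∧ ((v = w ∧ y = a) ∨ (v = a ∧ y = w))))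

instance (R : List (List ℕ)) (δ y e w a : ℕ) : Decidable (sbD R δ y e w a) := by
  unfold sbD; infer_instance

def sbE (R : List (List ℕ)) (δ y e a p q : ℕ) : Prop :=
  ¬ (e ∈ R.getD y []) ∧ (∀ v < R.length, ¬ (y ∈ R.getD v [] ∧ e ∈ R.getD v [])) ∧
  y ∈ R.getD p [] ∧ e ∈ R.getD q [] ∧ (δ = 1 → a = y ∨ a = q)

instance (R : List (List ℕ)) (δ y e a p q : ℕ) : Decidable (sbE R δ y e a p q) := by
  unfold sbE; infer_instance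

def sbP (R : List (List ℕ)) (δ y e w a p q : ℕ) : Prop :=
  sbA R y e w a p q ∧ sbN y e w a p q ∧ sbC R δ y e w a ∧ sbD R δ y e w a ∧ sbE R δ y e a p q

instance (R : List (List ℕ)) (δ y e w a p q : ℕ) : Decidable (sbP R δ y e w a p q) := by
  unfold sbP; infer_instance

theorem exists_sb_of_rows (R : List (List ℕ)) (δ y e w a p q : ℕ) (h : sbP R δ y e w a p q) :
    ∃ B : SB (Fin R.length) δ, B.a.1 = a ∧ B.q.1 = q ∧ B.w.1 = w ∧ B.y.1 = y ∧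
      ∀ u v, B.Γ.Adj u v ↔ v.1 ∈ R.getD u.1 [] := by
  obtain ⟨⟨h0, hy, he, hw, ha, hp, hq⟩, ⟨h1, h2, h3, h4, h5, h6, h7, h8, h9, h10, h11, h12⟩,
    h14, h15, ⟨h13, h16, h17, h18, h19⟩⟩ := h
  obtain ⟨Γ, hΓ, ⟨S⟩⟩ := exists_triSys_of_rows R h0
  have ne : ∀ {i j : ℕ} (hi : i < R.length) (hj : j < R.length), i ≠ j →
      (⟨i, hi⟩ : Fin R.length) ≠ ⟨j, hj⟩ := fun _ _ hij h => hij (congrArg Fin.val h)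
  have ne' : ∀ {u : Fin R.length} {j : ℕ} (hj : j < R.length), u ≠ ⟨j, hj⟩ → u.1 ≠ j :=
    fun hj huj h => huj (Fin.ext h)
  refine ⟨{ Γ := Γ, S := S, y := ⟨y, hy⟩, e := ⟨e, he⟩, w := ⟨w, hw⟩, a := ⟨a, ha⟩, p := ⟨p, hp⟩,
            q := ⟨q, hq⟩, hye := ne _ _ h1, hwy := ne _ _ h2, hwe := ne _ _ h3, hpy := ne _ _ h4,
            hpe := ne _ _ h5, hpw := ne _ _ h6, hqy := ne _ _ h7, hqe := ne _ _ h8,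
            hqw := ne _ _ h9, hpq := ne _ _ h10, haw := ne _ _ h11, hae := ne _ _ h12,
            nye := ?_, adj := ?_, adjy := ?_, adjye := ?_, py := ?_, qe := ?_, ha := ?_ },
    rfl, rfl, rfl, rfl, hΓ⟩
  · rw [hΓ]; exact h13
  · intro u v hu1 hu2 hv1 hv2
    have h20 := h14 u.1 u.2 v.1 v.2
    have h21 := (((h20.resolve_left (ne' _ hu1)).resolve_left (ne' _ hu2)).resolve_left
      (ne' _ hv1)).resolve_left (ne' _ hv2)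
    rw [hΓ, h21]
    simp only [Mis, Fin.ext_iff, ne_eq]
  · intro v hv1 hv2
    rw [hΓ, hΓ, ((h15 v.1 v.2).resolve_left (ne' _ hv1)).resolve_left (ne' _ hv2)]
    simp only [Mis, Fin.ext_iff]
  · intro v
    rw [hΓ, hΓ]
    exact h16 v.1 v.2
  · rw [hΓ]; exact h17
  · rw [hΓ]; exact h18
  · intro hδ
    rcases h19 hδ with h | h
    · exact Or.inl (Fin.ext h)
    · exact Or.inr (Fin.ext h)

theorem hasSB_of_rows (R : List (List ℕ)) (m δ y e w a p q : ℕ) (hm : R.length = m + 1)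
    (h : sbP R δ y e w a p q) : HasSB m δ := by
  obtain ⟨B, -⟩ := exists_sb_of_rows R δ y e w a p q h
  exact ⟨Fin R.length, inferInstance, by rw [Fintype.card_fin, hm], ⟨B⟩⟩

theorem hasWB_of_rows (R : List (List ℕ)) (m y e w a p : ℕ) (hm : R.length = m + 1)
    (h : sbP R 1 y e w a p a) (hwy : y ∈ R.getD w []) : HasWB m := by
  obtain ⟨B, ha, hq, hw, hy, hadj⟩ := exists_sb_of_rows R 1 y e w a p a h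
  refine ⟨Fin R.length, inferInstance, by rw [Fintype.card_fin, hm], B, ?_, ?_⟩
  · exact Fin.ext (ha.trans hq.symm)
  · rw [hadj, hw, hy]
    exact hwy

/-- `K_3` -/
def rZ3 : List (List ℕ) :=
  [[1, 2], [2, 0], [0, 1]]

theorem smallZ3 : HasPB 3 0 := by
  exact hasPB_of_rows rZ3 0 0 1 (by decide +kernel)

/-- `K_4` -/
def rZ4 : List (List ℕ) :=
  [[1, 3, 2], [0, 2, 3], [0, 3, 1], [0, 1, 2]]

theorem smallZ4 : HasPB 4 0 := by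
  exact hasPB_of_rows rZ4 0 0 1 (by decide +kernel)

/-- `K_7` -/
def rZ7 : List (List ℕ) :=
  [[1, 3, 6, 4, 5, 2], [0, 2, 4, 6, 5, 3], [0, 5, 6, 3, 4, 1], [0, 1, 5, 4, 2, 6],
  [0, 6, 1, 2, 3, 5], [0, 4, 3, 1, 6, 2], [0, 3, 2, 5, 1, 4]]

theorem smallZ7 : HasPB 7 0 := by
  exact hasPB_of_rows rZ7 0 0 1 (by decide +kernel)

/-- `K_12` -/
def rZ12 : List (List ℕ) :=
  [[1, 11, 3, 5, 2, 4, 10, 8, 7, 9, 6], [0, 6, 4, 3, 8, 9, 10, 7, 2, 5, 11],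
  [0, 5, 1, 7, 8, 6, 11, 10, 9, 3, 4], [0, 11, 7, 10, 6, 8, 1, 4, 2, 9, 5],
  [0, 2, 3, 1, 6, 7, 11, 9, 8, 5, 10], [0, 3, 9, 7, 6, 10, 4, 8, 11, 1, 2],
  [0, 9, 11, 2, 8, 3, 10, 5, 7, 4, 1], [0, 8, 2, 1, 10, 3, 11, 4, 6, 5, 9],
  [0, 10, 11, 5, 4, 9, 1, 3, 6, 2, 7], [0, 7, 5, 3, 2, 10, 1, 8, 4, 11, 6],
  [0, 4, 5, 6, 3, 7, 1, 9, 2, 11, 8], [0, 1, 5, 8, 10, 2, 6, 9, 4, 7, 3]]

theorem smallZ12 : HasPB 12 0 := by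
  exact hasPB_of_rows rZ12 0 0 1 (by decide +kernel)

/-- `K_5` minus the edge `0 1` -/
def rO5 : List (List ℕ) :=
  [[2, 4, 3], [2, 3, 4], [0, 3, 1, 4], [0, 4, 1, 2], [0, 2, 1, 3]]

theorem smallO5 : HasPB 5 1 := by
  exact hasPB_of_rows rO5 1 0 1 (by decide +kernel)

/-- `K_14` minus the edge `0 1` -/
def rO14 : List (List ℕ) :=
  [[2, 13, 5, 6, 4, 12, 9, 7, 8, 3, 10, 11], [2, 3, 11, 9, 8, 6, 7, 10, 4, 13, 12, 5],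
  [0, 11, 12, 7, 4, 8, 9, 3, 1, 5, 10, 6, 13], [0, 8, 5, 12, 4, 7, 13, 11, 1, 2, 9, 6, 10],
  [0, 6, 11, 13, 1, 10, 9, 5, 8, 2, 7, 3, 12], [0, 13, 10, 2, 1, 12, 3, 8, 4, 9, 11, 7, 6],
  [0, 5, 7, 1, 8, 13, 2, 10, 3, 9, 12, 11, 4], [0, 9, 13, 3, 4, 2, 12, 10, 1, 6, 5, 11, 8],
  [0, 7, 11, 10, 12, 13, 6, 1, 9, 2, 4, 5, 3], [0, 12, 6, 3, 2, 8, 1, 11, 5, 4, 10, 13, 7],
  [0, 3, 6, 2, 5, 13, 9, 4, 1, 7, 12, 8, 11], [0, 10, 8, 7, 5, 9, 1, 3, 13, 4, 6, 12, 2],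
  [0, 4, 3, 5, 1, 13, 8, 10, 7, 2, 11, 6, 9], [0, 2, 6, 8, 12, 1, 4, 11, 3, 7, 9, 10, 5]]

theorem smallO14 : HasPB 14 1 := by
  exact hasPB_of_rows rO14 1 0 1 (by decide +kernel)

/-- `K_9`, `y = 8` (neighbours 0-3), `e = 9` (neighbours 4-7) -/
def rH9 : List (List ℕ) :=
  [[1, 8, 2, 6, 4, 5, 3, 7], [0, 7, 5, 6, 2, 4, 3, 8], [0, 8, 3, 5, 7, 4, 1, 6],
  [0, 5, 2, 8, 1, 4, 6, 7], [0, 6, 3, 1, 2, 7, 9, 5], [0, 4, 9, 6, 1, 7, 2, 3],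
  [0, 2, 1, 5, 9, 7, 3, 4], [0, 3, 6, 9, 4, 2, 5, 1], [0, 1, 3, 2], [4, 7, 6, 5]]

theorem smallH9 : HasSB 9 0 := by
  exact hasSB_of_rows rH9 9 0 8 9 1 2 0 4 rfl (by decide +kernel)

/-- `K_13`, `y = 12` (neighbours 0-5), `e = 13` (neighbours 6-11) -/
def rH13 : List (List ℕ) :=
  [[1, 12, 2, 9, 8, 5, 4, 10, 3, 7, 11, 6], [0, 6, 9, 3, 11, 2, 7, 10, 8, 4, 5, 12],
  [0, 12, 4, 6, 8, 3, 5, 7, 1, 11, 10, 9], [0, 10, 6, 11, 1, 9, 4, 12, 5, 2, 8, 7],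
  [0, 5, 1, 8, 11, 7, 6, 2, 12, 3, 9, 10], [0, 8, 10, 11, 9, 6, 7, 2, 3, 12, 1, 4],
  [0, 11, 3, 10, 13, 8, 2, 4, 7, 5, 9, 1], [0, 3, 8, 9, 13, 10, 1, 2, 5, 6, 4, 11],
  [0, 9, 7, 3, 2, 6, 13, 11, 4, 1, 10, 5], [0, 2, 10, 4, 3, 1, 6, 5, 11, 13, 7, 8],
  [0, 4, 9, 2, 11, 5, 8, 1, 7, 13, 6, 3], [0, 7, 4, 8, 13, 9, 5, 10, 2, 1, 3, 6],
  [0, 1, 5, 3, 4, 2], [6, 10, 7, 9, 11, 8]]

theorem smallH13 : HasSB 13 0 := by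
  exact hasSB_of_rows rH13 13 0 12 13 1 2 0 6 rfl (by decide +kernel)

/-- `K_18`, `y = 17` (neighbours 0-13), `e = 18` (neighbours 14-16) -/
def rH18 : List (List ℕ) :=
  [[1, 7, 17, 9, 5, 12, 6, 8, 14, 3, 13, 2, 15, 11, 16, 4, 10],
  [0, 10, 5, 4, 3, 2, 11, 17, 13, 14, 16, 8, 15, 12, 9, 6, 7],
  [0, 13, 10, 16, 11, 1, 3, 6, 12, 17, 7, 5, 14, 4, 8, 9, 15],
  [0, 14, 12, 7, 16, 9, 10, 15, 8, 11, 5, 17, 6, 2, 1, 4, 13],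
  [0, 16, 7, 6, 17, 12, 8, 2, 14, 9, 11, 13, 3, 1, 5, 15, 10],
  [0, 9, 13, 15, 4, 1, 10, 17, 3, 11, 14, 2, 7, 8, 6, 16, 12],
  [0, 12, 2, 3, 17, 4, 7, 1, 9, 14, 10, 11, 15, 13, 16, 5, 8],
  [0, 1, 6, 4, 16, 3, 12, 15, 14, 11, 10, 13, 9, 8, 5, 2, 17],
  [0, 6, 5, 7, 9, 2, 4, 12, 11, 3, 15, 1, 16, 13, 17, 10, 14],
  [0, 17, 11, 4, 14, 6, 1, 12, 10, 3, 16, 15, 2, 8, 7, 13, 5],
  [0, 4, 15, 3, 9, 12, 16, 2, 13, 7, 11, 6, 14, 8, 17, 5, 1],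
  [0, 15, 6, 10, 7, 14, 5, 3, 8, 12, 13, 4, 9, 17, 1, 2, 16],
  [0, 5, 16, 10, 9, 1, 15, 7, 3, 14, 13, 11, 8, 4, 17, 2, 6],
  [0, 3, 4, 11, 12, 14, 1, 17, 8, 16, 6, 15, 5, 9, 7, 10, 2],
  [0, 8, 10, 6, 9, 4, 2, 5, 11, 7, 15, 18, 16, 1, 13, 12, 3],
  [0, 2, 9, 16, 18, 14, 7, 12, 1, 8, 3, 10, 4, 5, 13, 6, 11],
  [0, 11, 2, 10, 12, 5, 6, 13, 8, 1, 14, 18, 15, 9, 3, 7, 4],
  [0, 7, 2, 12, 4, 6, 3, 5, 10, 8, 13, 1, 11, 9], [14, 15, 16]]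

theorem smallH18 : HasSB 18 0 := by
  exact hasSB_of_rows rH18 18 0 17 18 1 2 0 14 rfl (by decide +kernel)

/-- `K_11`, `y = 10` (neighbours 0-4), `e = 11` (neighbours 5-9), the edge `0 9` is missing -/
def rW11 : List (List ℕ) :=
  [[1, 10, 2, 3, 7, 5, 6, 8, 4], [0, 4, 5, 2, 8, 6, 7, 9, 3, 10], [0, 10, 4, 7, 8, 1, 5, 9, 6, 3],
  [0, 2, 6, 4, 10, 1, 9, 5, 8, 7], [0, 8, 9, 7, 2, 10, 3, 6, 5, 1],
  [0, 7, 11, 8, 3, 9, 2, 1, 4, 6], [0, 5, 4, 3, 2, 9, 11, 7, 1, 8],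
  [0, 3, 8, 2, 4, 9, 1, 6, 11, 5], [0, 6, 1, 2, 7, 3, 5, 11, 9, 4], [1, 7, 4, 8, 11, 6, 2, 5, 3],
  [0, 1, 3, 4, 2], [5, 7, 6, 9, 8]]

theorem smallW11 : HasWB 11 := by
  exact hasWB_of_rows rW11 11 10 11 0 9 1 rfl (by decide +kernel) (by decide +kernel)

/-- `K_20`, `y = 19` (neighbours 0-15), `e = 20` (neighbours 16-18), the edge `0 18` is missing -/
def rW20 : List (List ℕ) :=
  [[1, 8, 19, 13, 12, 11, 6, 15, 9, 17, 7, 14, 2, 5, 3, 4, 16, 10],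
  [0, 10, 9, 3, 18, 2, 15, 14, 4, 6, 13, 19, 5, 12, 7, 16, 17, 11, 8],
  [0, 14, 11, 7, 3, 13, 16, 4, 9, 19, 8, 17, 6, 10, 15, 1, 18, 12, 5],
  [0, 5, 6, 8, 10, 11, 13, 2, 7, 17, 18, 1, 9, 16, 15, 19, 14, 12, 4],
  [0, 3, 12, 8, 6, 1, 14, 19, 7, 10, 13, 5, 11, 17, 15, 18, 9, 2, 16],
  [0, 2, 12, 1, 19, 10, 14, 17, 9, 11, 4, 13, 18, 8, 16, 7, 15, 6, 3],
  [0, 11, 16, 12, 18, 7, 19, 9, 10, 2, 17, 14, 13, 1, 4, 8, 3, 5, 15],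
  [0, 17, 3, 2, 11, 10, 4, 19, 6, 18, 13, 9, 8, 15, 5, 16, 1, 12, 14],
  [0, 1, 11, 15, 7, 9, 14, 16, 5, 18, 10, 3, 6, 4, 12, 13, 17, 2, 19],
  [0, 15, 12, 16, 3, 1, 10, 6, 19, 2, 4, 18, 14, 8, 7, 13, 11, 5, 17],
  [0, 16, 14, 5, 19, 12, 17, 13, 4, 7, 11, 3, 8, 18, 15, 2, 6, 9, 1],
  [0, 12, 19, 15, 8, 1, 17, 4, 5, 9, 13, 3, 10, 7, 2, 14, 18, 16, 6],
  [0, 13, 8, 4, 3, 14, 7, 1, 5, 2, 18, 6, 16, 9, 15, 17, 10, 19, 11],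
  [0, 19, 1, 6, 14, 15, 16, 2, 3, 11, 9, 7, 18, 5, 4, 10, 17, 8, 12],
  [0, 7, 12, 3, 19, 4, 1, 15, 13, 6, 17, 5, 10, 16, 8, 9, 18, 11, 2],
  [0, 6, 5, 7, 8, 11, 19, 3, 16, 13, 14, 1, 2, 10, 18, 4, 17, 12, 9],
  [0, 4, 2, 13, 15, 3, 9, 12, 6, 11, 18, 20, 17, 1, 7, 5, 8, 14, 10],
  [0, 9, 5, 14, 6, 2, 8, 13, 10, 12, 15, 4, 11, 1, 16, 20, 18, 3, 7],
  [1, 3, 17, 20, 16, 11, 14, 9, 4, 15, 10, 8, 5, 13, 7, 6, 12, 2],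
  [0, 8, 2, 9, 6, 7, 4, 14, 3, 15, 11, 12, 10, 5, 1, 13], [16, 18, 17]]

theorem smallW20 : HasWB 20 := by
  exact hasWB_of_rows rW20 20 19 20 0 18 1 rfl (by decide +kernel) (by decide +kernel)

/-- `K_8`, `y = 7` (neighbours 1-3), `e = 8` (neighbours 4-6), 0 is not adjacent to 7 and 8: `w = 0`, `a = y = 7` -/
def rT8 : List (List ℕ) :=
  [[1, 4, 2, 6, 3, 5], [0, 5, 2, 7, 3, 6, 4], [0, 4, 3, 7, 1, 5, 6], [0, 6, 1, 7, 2, 4, 5],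
  [0, 1, 6, 8, 5, 3, 2], [0, 3, 4, 8, 6, 2, 1], [0, 2, 5, 8, 4, 1, 3], [1, 2, 3], [4, 6, 5]]

theorem smallT8 : HasSB 8 1 := by
  exact hasSB_of_rows rT8 8 1 7 8 0 7 1 4 rfl (by decide +kernel)

end Pd97
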